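import Pool.Agent.H75.Ray.Small

/-!
# Loops and parallel elements; matroids with at most 8 elements (MP_934449_co)

* `isRayleigh_of_loop`: if `l` is a loop and `M ＼ {l}` is Rayleigh then `M` is Rayleigh.
* `isRayleigh_of_parallel`: if `a`, `b` are parallel and `M ＼ {a}`, `M ＼ {b}` are Rayleigh then `M` is.
* `isRayleigh_of_ncard_le_eight`: a matroid with at most 8 elements which is not a simple matroid of
  rank 4 with 8 elements is Rayleigh.
-/

set_option autoImplicit false

namespace Pool.Agent.H75.Ray

open Finset Pool.Agent.H55.Ray Matroid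

variable {α : Type*} [Fintype α] {M : Matroid α}

omit [Fintype α] in
theorem del_isBase {b : α} (hbE : b ∈ M.E) (hb : ¬ M.IsColoop b) (B : Set α) :
    (M ＼ {b}).IsBase B ↔ M.IsBase B ∧ b ∉ B := by
  have hD : M.Coindep {b} := by
    rw [Matroid.coindep_def, Matroid.indep_singleton, ← Matroid.not_isLoop_iff (M := M✶) hbE]
    exact hb
  rw [hD.delete_isBase_iff, Set.disjoint_singleton_right]

theorem basisSum_delete {b : α} (hbE : b ∈ M.E) (hb : ¬ M.IsColoop b) (y : α → ℝ)
    (U V : Set α) : basisSum (M ＼ {b}) y U V = basisSum M y U (insert b V) := by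
  classical
  unfold basisSum
  refine Finset.sum_congr ?_ fun _ _ => rfl
  ext B
  simp only [Finset.mem_filter, Finset.mem_univ, true_and, del_isBase hbE hb,
    Set.disjoint_insert_right, Finset.mem_coe]
  tauto

theorem rayDiff_comm (M : Matroid α) (y : α → ℝ) (e f : α) :
    rayDiff M y e f = rayDiff M y f e := by
  unfold rayDiff
  rw [Set.pair_comm f e]
  ring

theorem basisSum_eq_zero (M : Matroid α) (y : α → ℝ) {U : Set α} (V : Set α)
    (h : ∀ B, M.IsBase B → ¬ U ⊆ B) : basisSum M y U V = 0 := by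
  classical
  unfold basisSum
  refine Finset.sum_eq_zero fun B hB => ?_
  simp only [Finset.mem_filter, Finset.mem_univ, true_and] at hB
  exact absurd hB.2.1 (h _ hB.1)

/-! ### loops -/

theorem isRayleigh_of_loop {l : α} (hl : M.IsLoop l) (h : IsRayleigh (M ＼ {l})) :
    IsRayleigh M := by
  classical
  rw [isRayleigh_iff] at h ⊢
  intro e he f hf hef y hy
  have hz : ∀ g : α, basisSum M y {l, g} ∅ = 0 := by
    intro g
    refine basisSum_eq_zero M y ∅ fun B hB hs => ?_
    exact hl.notMem_of_indep hB.indep (hs (Set.mem_insert l {g}))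
  have hn : ∀ U V : Set α, basisSum (M ＼ {l}) y U V = basisSum M y U V := by
    intro U V
    rw [basisSum_delete hl.mem_ground hl.not_isColoop, basisSum_split M y U V l,
      basisSum_eq_zero M y V (fun B hB hs => hl.notMem_of_indep hB.indep (hs (Set.mem_insert l U))),
      zero_add]
  have hpos := mul_nonneg (basisSum_nonneg M (fun a => (hy a).le) {e} {f})
    (basisSum_nonneg M (fun a => (hy a).le) {f} {e})
  by_cases h1 : e = l
  · unfold rayDiff
    rw [h1] at hpos ⊢
    rw [hz f]
    linarith
  by_cases h2 : f = l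
  · unfold rayDiff
    rw [h2] at hpos ⊢
    rw [Set.pair_comm e l, hz e]
    linarith
  have h3 := h e ⟨he, h1⟩ f ⟨hf, h2⟩ hef y hy
  unfold rayDiff at h3 ⊢
  rwa [hn, hn, hn, hn] at h3

/-! ### parallel elements -/

section parallel

variable {a b : α} (hab : a ≠ b) (ha : M.IsNonloop a) (hb : M.IsNonloop b)
  (hp : ¬ M.Indep {a, b})

include hab ha hb hp

omit [Fintype α] hab in
private theorem par_cl : b ∈ M.closure {a} := by
  by_contra h
  apply hp
  rw [Set.pair_comm]
  have hI : M.Indep {a} := Matroid.indep_singleton.2 ha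
  rw [hI.insert_indep_iff]
  exact Or.inl ⟨hb.mem_ground, h⟩

omit [Fintype α] in
private theorem par_coloop : ¬ M.IsColoop b := by
  intro h
  have h1 := h.mem_of_mem_closure (par_cl ha hb hp)
  exact hab (Set.mem_singleton_iff.1 h1).symm

omit [Fintype α] ha hb hab in
private theorem par_both {B : Set α} (hB : M.IsBase B) : ¬ (a ∈ B ∧ b ∈ B) := by
  rintro ⟨h1, h2⟩
  apply hp
  refine hB.indep.subset ?_
  rw [Set.insert_subset_iff, Set.singleton_subset_iff]
  exact ⟨h1, h2⟩

omit ha hb hab in
/-- a basis with `a` does not contain `b` -/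
private theorem par_av (y : α → ℝ) (U V : Set α) :
    basisSum M y (insert a U) (insert b V) = basisSum M y (insert a U) V := by
  have h := basisSum_split M y (insert a U) V b
  rw [basisSum_eq_zero M y V (fun B hB hs => par_both hp hB
    ⟨hs (Set.mem_insert_of_mem b (Set.mem_insert a U)), hs (Set.mem_insert b _)⟩), zero_add] at h
  exact h.symm

omit [Fintype α] in
private theorem par_ex {B : Set α} (hB : M.IsBase B) (hbB : b ∈ B) :
    M.IsBase (insert a (B \ {b})) := by
  have h1 : M.IsBase (insert a B \ {b}) := by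
    refine hB.isBase_insert_sdiff_of_mem_closure ?_ (Set.mem_insert_of_mem a hbB)
    refine M.closure_subset_closure ?_ (par_cl ha hb hp)
    rw [Set.singleton_subset_iff]
    exact ⟨Set.mem_insert a B, fun h => hab h⟩
  rwa [Set.insert_sdiff_of_notMem _ (show a ∉ ({b} : Set α) from fun h => hab h)] at h1

/-- the weights of the bases with `b` and of the bases with `a` -/
private theorem par_swap (y : α → ℝ) {U V : Set α} (haU : a ∉ U) (hbU : b ∉ U) (haV : a ∉ V)
    (hbV : b ∉ V) :
    basisSum M y (insert b U) V * y a = y b * basisSum M y (insert a U) V := by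
  classical
  have hp' : ¬ M.Indep {b, a} := by rwa [Set.pair_comm]
  unfold basisSum
  rw [Finset.sum_mul, Finset.mul_sum]
  refine Finset.sum_nbij' (fun B => insert a (B.erase b)) (fun B => insert b (B.erase a))
    ?_ ?_ ?_ ?_ ?_
  · intro B hB
    simp only [Finset.mem_filter, Finset.mem_univ, true_and] at hB ⊢
    obtain ⟨h1, h2, h3⟩ := hB
    rw [Set.insert_subset_iff] at h2
    rw [Finset.coe_insert, Finset.coe_erase]
    refine ⟨par_ex hab ha hb hp h1 h2.1, Set.insert_subset_insert fun u hu =>
      ⟨h2.2 hu, fun h => hbU (h ▸ hu)⟩, ?_⟩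
    rw [Set.disjoint_left]
    rintro u (rfl | hu) hv
    · exact haV hv
    · exact Set.disjoint_left.1 h3 hu.1 hv
  · intro B hB
    simp only [Finset.mem_filter, Finset.mem_univ, true_and] at hB ⊢
    obtain ⟨h1, h2, h3⟩ := hB
    rw [Set.insert_subset_iff] at h2
    rw [Finset.coe_insert, Finset.coe_erase]
    refine ⟨par_ex hab.symm hb ha hp' h1 h2.1, Set.insert_subset_insert fun u hu =>
      ⟨h2.2 hu, fun h => haU (h ▸ hu)⟩, ?_⟩
    rw [Set.disjoint_left]
    rintro u (rfl | hu) hv
    · exact hbV hv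
    · exact Set.disjoint_left.1 h3 hu.1 hv
  · intro B hB
    simp only [Finset.mem_filter, Finset.mem_univ, true_and] at hB
    obtain ⟨h1, h2, h3⟩ := hB
    have hbB : b ∈ B := h2 (Set.mem_insert b U)
    have haB : a ∉ B := fun h => par_both hp h1 ⟨h, hbB⟩
    rw [Finset.erase_insert (fun h => haB (Finset.mem_of_mem_erase h)), Finset.insert_erase hbB]
  · intro B hB
    simp only [Finset.mem_filter, Finset.mem_univ, true_and] at hB
    obtain ⟨h1, h2, h3⟩ := hB
    have haB : a ∈ B := h2 (Set.mem_insert a U)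
    have hbB : b ∉ B := fun h => par_both hp h1 ⟨haB, h⟩
    rw [Finset.erase_insert (fun h => hbB (Finset.mem_of_mem_erase h)), Finset.insert_erase haB]
  · intro B hB
    simp only [Finset.mem_filter, Finset.mem_univ, true_and] at hB
    obtain ⟨h1, h2, h3⟩ := hB
    have hbB : b ∈ B := h2 (Set.mem_insert b U)
    have haB : a ∉ B := fun h => par_both hp h1 ⟨h, hbB⟩
    rw [Finset.prod_insert (fun h => haB (Finset.mem_of_mem_erase h)),
      ← Finset.mul_prod_erase B y hbB]
    ring

omit ha hb hab hp in
/-- the weights are changed at an element which is avoided -/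
private theorem par_upd_v (y : α → ℝ) (c : ℝ) [DecidableEq α] {U V : Set α} (h : a ∈ V) :
    basisSum M (Function.update y a c) U V = basisSum M y U V := by
  classical
  unfold basisSum
  refine Finset.sum_congr rfl fun B hB => ?_
  simp only [Finset.mem_filter, Finset.mem_univ, true_and] at hB
  refine Finset.prod_congr rfl fun x hx => ?_
  rw [Function.update_of_ne]
  rintro rfl
  exact Set.disjoint_left.1 hB.2.2 (Finset.mem_coe.2 hx) h

omit ha hb hab hp in
/-- the weights are changed at an element of `U` -/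
private theorem par_upd_u (y : α → ℝ) (c : ℝ) [DecidableEq α] {U V : Set α} (h : a ∈ U) :
    basisSum M (Function.update y a c) U V * y a = c * basisSum M y U V := by
  unfold basisSum
  rw [Finset.sum_mul, Finset.mul_sum]
  refine Finset.sum_congr rfl fun B hB => ?_
  simp only [Finset.mem_filter, Finset.mem_univ, true_and] at hB
  have haB : a ∈ B := hB.2.1 h
  rw [← Finset.mul_prod_erase B _ haB, ← Finset.mul_prod_erase B y haB, Function.update_self,
    Finset.prod_congr rfl (fun x hx => Function.update_of_ne (Finset.ne_of_mem_erase hx) c y)]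
  ring

/-- basis sums which do not mention `a`, `b` -/
private theorem par_sum {y : α → ℝ} (hy : ∀ x, 0 < y x) {U V : Set α} (haU : a ∉ U)
    (hbU : b ∉ U) (haV : a ∉ V) (hbV : b ∉ V) : basisSum M y U V =
      basisSum M y U (insert b (insert a V)) + (y a + y b) * (basisSum M y (insert a U) V / y a) := by
  have hp' : ¬ M.Indep {b, a} := by rwa [Set.pair_comm]
  have hya := hy a
  rw [basisSum_split M y U V a, basisSum_split M y U (insert a V) b, par_av hp' y U V]
  have h := par_swap hab ha hb hp y haU hbU haV hbV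
  field_simp
  linarith

private theorem par_sum_del [DecidableEq α] {y : α → ℝ} (hy : ∀ x, 0 < y x) (U V : Set α) :
    basisSum (M ＼ {b}) (Function.update y a (y a + y b)) U V =
      basisSum M y U (insert b (insert a V)) + (y a + y b) * (basisSum M y (insert a U) V / y a) := by
  have hya := hy a
  rw [basisSum_delete hb.mem_ground (par_coloop hab ha hb hp), basisSum_split M _ U _ a,
    par_av hp, par_upd_v y _ (Set.mem_insert a _), Set.insert_comm a b V]
  have h := par_upd_u (M := M) (a := a) y (y a + y b) (U := insert a U) (V := V)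
    (Set.mem_insert a U)
  field_simp
  linarith

/-- a pair which contains `a` -/
private theorem par_one {f : α} (hfa : f ≠ a) (hfb : f ≠ b) {y : α → ℝ} (hy : ∀ x, 0 < y x) :
    rayDiff M y a f = rayDiff (M ＼ {b}) y a f := by
  have hbc := par_coloop hab ha hb hp
  have hp' : ¬ M.Indep {b, a} := by rwa [Set.pair_comm]
  have hya := hy a
  have hf1 : a ∉ ({f} : Set α) := fun h => hfa h.symm
  have hf2 : b ∉ ({f} : Set α) := fun h => hfb h.symm
  unfold rayDiff
  rw [basisSum_delete hb.mem_ground hbc, basisSum_delete hb.mem_ground hbc,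
    basisSum_delete hb.mem_ground hbc, basisSum_delete hb.mem_ground hbc]
  have e1 : basisSum M y {a} (insert b {f}) = basisSum M y {a} {f} := by
    have h := par_av hp y ∅ {f}
    rwa [insert_empty_eq] at h
  have e2 : basisSum M y {a, f} (insert b ∅) = basisSum M y {a, f} ∅ := par_av hp y {f} ∅
  have e3 : basisSum M y {f} {a} = basisSum M y {b, f} {a} + basisSum M y {f} (insert b {a}) :=
    basisSum_split M y {f} {a} b
  have e4 : basisSum M y {b, f} {a} = basisSum M y {b, f} ∅ := by
    have h := par_av hp' y {f} ∅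
    rwa [insert_empty_eq] at h
  have e5 : basisSum M y {b, f} ∅ * y a = y b * basisSum M y {a, f} ∅ :=
    par_swap hab ha hb hp y hf1 hf2 (Set.notMem_empty a) (Set.notMem_empty b)
  have e6 : basisSum M y ∅ {a, f} =
      basisSum M y {b} {a, f} + basisSum M y ∅ (insert b {a, f}) := by
    have h := basisSum_split M y ∅ {a, f} b
    rwa [insert_empty_eq] at h
  have e7 : basisSum M y {b} {a, f} = basisSum M y {b} {f} := by
    have h := par_av hp' y ∅ {f}
    rwa [insert_empty_eq] at h
  have e8 : basisSum M y {b} {f} * y a = y b * basisSum M y {a} {f} := by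
    have h := par_swap hab ha hb hp y (U := ∅) (V := {f}) (Set.notMem_empty a)
      (Set.notMem_empty b) hf1 hf2
    rwa [insert_empty_eq, insert_empty_eq] at h
  have e9 : basisSum M y {b, f} ∅ * basisSum M y {a} {f} =
      basisSum M y {a, f} ∅ * basisSum M y {b} {f} := by
    have h1 : (basisSum M y {b, f} ∅ * basisSum M y {a} {f} -
      basisSum M y {a, f} ∅ * basisSum M y {b} {f}) * y a = 0 := by
      linear_combination basisSum M y {a} {f} * e5 - basisSum M y {a, f} ∅ * e8
    rcases mul_eq_zero.1 h1 with h2 | h2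
    · linarith
    · exact absurd h2 hya.ne'
  rw [e1, e2, e3, e4, e6, e7]
  linear_combination e9

/-- **Parallel elements.** -/
theorem isRayleigh_of_parallel (h1 : IsRayleigh (M ＼ {a})) (h2 : IsRayleigh (M ＼ {b})) :
    IsRayleigh M := by
  classical
  have hp' : ¬ M.Indep {b, a} := by rwa [Set.pair_comm]
  rw [isRayleigh_iff] at h1 h2 ⊢
  -- pairs which contain exactly one of the two
  have key : ∀ f ∈ M.E, f ≠ a → f ≠ b → ∀ y : α → ℝ, (∀ x, 0 < y x) →
      0 ≤ rayDiff M y a f ∧ 0 ≤ rayDiff M y b f := by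
    intro f hf hfa hfb y hy
    refine ⟨?_, ?_⟩
    · rw [par_one hab ha hb hp hfa hfb hy]
      exact h2 a ⟨ha.mem_ground, hab⟩ f ⟨hf, hfb⟩ hfa.symm y hy
    · rw [par_one hab.symm hb ha hp' hfb hfa hy]
      exact h1 b ⟨hb.mem_ground, hab.symm⟩ f ⟨hf, hfa⟩ hfb.symm y hy
  have hzero : ∀ y : α → ℝ, (∀ x, 0 < y x) → 0 ≤ rayDiff M y a b := by
    intro y hy
    unfold rayDiff
    rw [basisSum_eq_zero M y (U := {a, b}) ∅ (fun B hB hs =>
      par_both hp hB ⟨hs (Set.mem_insert a _), hs (Set.mem_insert_of_mem a rfl)⟩)]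
    have hpos := mul_nonneg (basisSum_nonneg M (fun a => (hy a).le) {a} {b})
      (basisSum_nonneg M (fun a => (hy a).le) {b} {a})
    linarith
  intro e he f hf hef y hy
  by_cases hea : e = a
  · by_cases hfb : f = b
    · rw [hea, hfb]
      exact hzero y hy
    · rw [hea]
      exact (key f hf (fun h => hef (hea.trans h.symm)) hfb y hy).1
  by_cases heb : e = b
  · by_cases hfa : f = a
    · rw [heb, hfa, rayDiff_comm]
      exact hzero y hy
    · rw [heb]
      exact (key f hf hfa (fun h => hef (heb.trans h.symm)) y hy).2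
  by_cases hfa : f = a
  · rw [hfa, rayDiff_comm]
    exact (key e he hea heb y hy).1
  by_cases hfb : f = b
  · rw [hfb, rayDiff_comm]
    exact (key e he hea heb y hy).2
  have n1 : ∀ c : α, c ≠ e → c ∉ ({e} : Set α) := fun c h h' => h h'
  have n2 : ∀ c : α, c ≠ e → c ≠ f → c ∉ ({e, f} : Set α) := fun c h h' h'' =>
    h''.elim h h'
  have hpos : ∀ x, 0 < Function.update y a (y a + y b) x := by
    intro x
    by_cases hx : x = a
    · rw [hx, Function.update_self]
      have := hy a
      have := hy b
      positivity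
    · rw [Function.update_of_ne hx]
      exact hy x
  have h3 := h2 e ⟨he, heb⟩ f ⟨hf, hfb⟩ hef _ hpos
  have n3 : ∀ c : α, c ≠ f → c ∉ ({f} : Set α) := fun c h h' => h h'
  have n4 : ∀ c : α, c ∉ (∅ : Set α) := fun c => Set.notMem_empty c
  have e1 := Ne.symm hea
  have e2 := Ne.symm heb
  have e3 := Ne.symm hfa
  have e4 := Ne.symm hfb
  unfold rayDiff at h3 ⊢
  rw [par_sum_del hab ha hb hp hy, par_sum_del hab ha hb hp hy, par_sum_del hab ha hb hp hy,
    par_sum_del hab ha hb hp hy] at h3
  rwa [par_sum hab ha hb hp hy (n1 a e1) (n1 b e2) (n3 a e3) (n3 b e4),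
    par_sum hab ha hb hp hy (n3 a e3) (n3 b e4) (n1 a e1) (n1 b e2),
    par_sum hab ha hb hp hy (n2 a e1 e3) (n2 b e2 e4) (n4 a) (n4 b),
    par_sum hab ha hb hp hy (n4 a) (n4 b) (n2 a e1 e3) (n2 b e2 e4)]

end parallel

/-! ### at most 8 elements -/

/-- `M` is simple, has rank 4 and 8 elements. -/
def SimpleFourEight (M : Matroid α) : Prop :=
  M.E.ncard = 8 ∧ (∀ B, M.IsBase B → B.ncard = 4) ∧ (∀ a ∈ M.E, M.IsNonloop a) ∧
    ∀ a ∈ M.E, ∀ b ∈ M.E, a ≠ b → M.Indep {a, b}

/-- **A matroid with at most 8 elements which is not a simple matroid of rank 4 with 8 elements is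
Rayleigh.** -/
theorem isRayleigh_of_ncard_le_eight (M : Matroid α) (h8 : M.E.ncard ≤ 8)
    (h : ¬ SimpleFourEight M) : IsRayleigh M := by
  rcases Nat.lt_or_ge M.E.ncard 8 with h7 | h7
  · exact isRayleigh_of_ncard_le_seven M (by omega)
  have hE : M.E.ncard = 8 := le_antisymm h8 h7
  have hdel : ∀ a ∈ M.E, IsRayleigh (M ＼ {a}) := by
    intro a ha
    refine isRayleigh_of_ncard_le_seven _ ?_
    rw [Matroid.delete_ground, Set.ncard_sdiff_singleton_of_mem ha, hE]
  by_cases hl : ∀ a ∈ M.E, M.IsNonloop a
  · by_cases hp : ∀ a ∈ M.E, ∀ b ∈ M.E, a ≠ b → M.Indep {a, b}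
    · obtain ⟨B₀, hB₀⟩ := M.exists_isBase
      have hr : ∀ B, M.IsBase B → B.ncard = B₀.ncard := fun B hB =>
        hB.ncard_eq_ncard_of_isBase hB₀
      rcases Nat.lt_trichotomy B₀.ncard 4 with h4 | h4 | h4
      · exact isRayleigh_of_rank_le_three M fun B hB => by rw [hr B hB]; omega
      · exact absurd ⟨hE, fun B hB => by rw [hr B hB, h4], hl, hp⟩ h
      · rw [← isRayleigh_dual]
        refine isRayleigh_of_rank_le_three M✶ fun B hB => ?_
        rw [Matroid.dual_isBase_iff'] at hB
        have h1 := hr _ hB.1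
        have h2 := Set.ncard_sdiff_add_ncard_of_subset hB.2 (Set.toFinite M.E)
        omega
    · push Not at hp
      obtain ⟨a, ha, b, hb, hab, hi⟩ := hp
      exact isRayleigh_of_parallel hab (hl a ha) (hl b hb) hi (hdel a ha) (hdel b hb)
  · push Not at hl
    obtain ⟨a, ha, hl⟩ := hl
    rw [Matroid.not_isNonloop_iff ha] at hl
    exact isRayleigh_of_loop hl (hdel a ha)

end Pool.Agent.H75.Ray
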