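import Pool.Agent.H75.Ray.Chk
import Pool.Agent.H75.Ray.Par

/-!
# Matroids on 8 labelled elements given by their bases (MP_934449_co)

`msk T = ∑ t ∈ T, 2 ^ t` for `T ⊆ Fin 8`, `c3 m` is the number with the base 3 digits equal to the base 2
digits of `m`, `codes isb` the list of the `c3 m` of the `m < 256` with 4 binary digits `1` and `isb m`.
-/

set_option autoImplicit false

namespace Pool.Agent.H75.Ray

open Finset Pool.Agent.H55.Ray

/-- mask of a set -/
def msk (T : Finset (Fin 8)) : ℕ := ∑ t ∈ T, 2 ^ (t : ℕ)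

/-- from base 2 to base 3 -/
def c3 (m : ℕ) : ℕ :=
  m % 2 + 3 * (m / 2 % 2) + 9 * (m / 4 % 2) + 27 * (m / 8 % 2) + 81 * (m / 16 % 2) +
    243 * (m / 32 % 2) + 729 * (m / 64 % 2) + 2187 * (m / 128 % 2)

/-- number of binary digits `1` -/
def pc (m : ℕ) : ℕ :=
  m % 2 + m / 2 % 2 + m / 4 % 2 + m / 8 % 2 + m / 16 % 2 + m / 32 % 2 + m / 64 % 2 + m / 128 % 2

/-- the codes of the bases -/
def codes (isb : ℕ → Bool) : List ℕ :=
  ((List.range 256).filter (fun m => Nat.beq (pc m) 4 && isb m)).map c3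

/-- a table entry `(i, codes of the bases, certificates)` is correct -/
def okE (isB : ℕ → ℕ → Bool) (x : ℕ × List ℕ × List Entry) : Bool :=
  (codes (isB x.1) == x.2.1) && chkAll x.2.1 x.2.2

/-! ### digits -/

/-- the indicator of `T` -/
def ind (T : Finset (Fin 8)) (c : ℕ) : ℕ := if h : c < 8 then (if ⟨c, h⟩ ∈ T then 1 else 0) else 0

theorem ind_fin (T : Finset (Fin 8)) (t : Fin 8) : ind T t = if t ∈ T then 1 else 0 := by
  unfold ind
  rw [dif_pos t.2]

theorem ind_le (T : Finset (Fin 8)) (c : ℕ) : ind T c ≤ 1 := by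
  unfold ind
  split_ifs <;> norm_num

theorem digit_gen {X K : ℕ} {d : ℕ → ℕ} (hd : ∀ c, d c < X) :
    ∀ j : ℕ, j < K → (∑ c ∈ range K, d c * X ^ c) / X ^ j % X = d j := by
  have hX : 0 < X := lt_of_le_of_lt (Nat.zero_le _) (hd 0)
  induction K generalizing d with
  | zero =>
    intro j hj
    omega
  | succ K ih =>
    intro j hj
    have h1 : ∑ c ∈ range (K + 1), d c * X ^ c =
        d 0 + X * ∑ c ∈ range K, d (c + 1) * X ^ c := by
      rw [Finset.sum_range_succ', pow_zero, mul_one, add_comm, Finset.mul_sum]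
      congr 1
      refine Finset.sum_congr rfl fun c _ => ?_
      rw [pow_succ]
      ring
    rw [h1]
    cases j with
    | zero =>
      rw [pow_zero, Nat.div_one, Nat.add_mul_mod_self_left, Nat.mod_eq_of_lt (hd 0)]
    | succ j =>
      rw [pow_succ', ← Nat.div_div_eq_div_mul, Nat.add_mul_div_left _ _ hX,
        Nat.div_eq_of_lt (hd 0), zero_add]
      exact ih (fun c => hd (c + 1)) j (by omega)

theorem sum_ind (T : Finset (Fin 8)) (g : ℕ → ℕ) :
    ∑ t ∈ T, g t = ∑ c ∈ range 8, ind T c * g c := by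
  rw [← Fin.sum_univ_eq_sum_range (fun c => ind T c * g c) 8]
  have h1 : ∀ t ∈ (Finset.univ : Finset (Fin 8)), ind T t * g t = if t ∈ T then g t else 0 := by
    intro t _
    rw [ind_fin]
    split_ifs
    · rw [one_mul]
    · rw [zero_mul]
  rw [Finset.sum_congr rfl h1, Finset.sum_ite_mem, Finset.univ_inter]

theorem msk_eq (T : Finset (Fin 8)) : msk T = ∑ c ∈ range 8, ind T c * 2 ^ c :=
  sum_ind T (fun c => 2 ^ c)

theorem msk_digit (T : Finset (Fin 8)) {t : ℕ} (ht : t < 8) : msk T / 2 ^ t % 2 = ind T t := by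
  rw [msk_eq]
  exact digit_gen (fun c => lt_of_le_of_lt (ind_le T c) (by norm_num)) t ht

theorem c3_eq (m : ℕ) : c3 m = ∑ c ∈ range 8, (m / 2 ^ c % 2) * 3 ^ c := by
  unfold c3
  simp only [Finset.sum_range_succ, Finset.sum_range_zero]
  norm_num
  ring

theorem pc_eq (m : ℕ) : pc m = ∑ c ∈ range 8, m / 2 ^ c % 2 := by
  unfold pc
  simp only [Finset.sum_range_succ, Finset.sum_range_zero]
  norm_num

theorem dg_c3 (T : Finset (Fin 8)) {t : ℕ} (ht : t < 8) : dg (c3 (msk T)) t = ind T t := by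
  have h1 : c3 (msk T) = ∑ c ∈ range 8, ind T c * 3 ^ c := by
    rw [c3_eq]
    refine Finset.sum_congr rfl fun c hc => ?_
    rw [msk_digit T (mem_range.1 hc)]
  unfold dg
  rw [h1]
  exact digit_gen (fun c => lt_of_le_of_lt (ind_le T c) (by norm_num)) t ht

theorem pc_msk (T : Finset (Fin 8)) : pc (msk T) = T.card := by
  have h := sum_ind T (fun _ => 1)
  rw [Finset.sum_const, smul_eq_mul, mul_one] at h
  rw [pc_eq, h]
  refine Finset.sum_congr rfl fun c hc => ?_
  rw [msk_digit T (mem_range.1 hc), mul_one]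

theorem msk_lt (T : Finset (Fin 8)) : msk T < 256 := by
  rw [msk_eq]
  have h : ∑ c ∈ range 8, ind T c * 2 ^ c ≤ ∑ c ∈ range 8, 1 * 2 ^ c :=
    Finset.sum_le_sum fun c _ => Nat.mul_le_mul_right _ (ind_le T c)
  have h2 : ∑ c ∈ range 8, 1 * 2 ^ c = 255 := by decide
  omega

theorem msk_inj {T T' : Finset (Fin 8)} (h : msk T = msk T') : T = T' := by
  ext t
  have h1 := msk_digit T t.2
  have h2 := msk_digit T' t.2
  rw [h, h2, ind_fin, ind_fin] at h1
  by_cases a : t ∈ T <;> by_cases b : t ∈ T'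
  · simp [a, b]
  · rw [if_pos a, if_neg b] at h1
    omega
  · rw [if_neg a, if_pos b] at h1
    omega
  · simp [a, b]

theorem msk_surj {m : ℕ} (hm : m < 256) : ∃ T : Finset (Fin 8), msk T = m := by
  refine ⟨Finset.univ.filter (fun t => m / 2 ^ (t : ℕ) % 2 = 1), ?_⟩
  rw [msk_eq]
  have h1 : ∀ c ∈ range 8, ind (Finset.univ.filter (fun t : Fin 8 => m / 2 ^ (t : ℕ) % 2 = 1)) c *
      2 ^ c = (m / 2 ^ c % 2) * 2 ^ c := by
    intro c hc
    have hc' := mem_range.1 hc
    unfold ind
    rw [dif_pos hc']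
    simp only [Finset.mem_filter, Finset.mem_univ, true_and]
    split_ifs with h
    · rw [h]
    · have : m / 2 ^ c % 2 = 0 := by omega
      rw [this]
  rw [Finset.sum_congr rfl h1]
  simp only [Finset.sum_range_succ, Finset.sum_range_zero]
  norm_num
  omega

theorem mono_msk (w : ℕ → ℝ) (T : Finset (Fin 8)) : mono w (c3 (msk T)) = ∏ t ∈ T, w t := by
  unfold mono
  rw [← Fin.prod_univ_eq_prod_range (fun c => w c ^ dg (c3 (msk T)) c) 8]
  have h1 : ∀ t ∈ (Finset.univ : Finset (Fin 8)), w t ^ dg (c3 (msk T)) t =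
      if t ∈ T then w t else 1 := by
    intro t _
    rw [dg_c3 T t.2, ind_fin]
    split_ifs
    · rw [pow_one]
    · rw [pow_zero]
  rw [Finset.prod_congr rfl h1, Finset.prod_ite_mem, Finset.univ_inter]

/-! ### sums over lists and over subsets -/

theorem phi_codes (w : ℕ → ℝ) (e f a b : ℕ) (isb : ℕ → Bool) :
    phi w (selL e f a b (codes isb)) = ∑ m ∈ range 256,
      if (pc m = 4 ∧ isb m = true) ∧ dg (c3 m) e = a ∧ dg (c3 m) f = b then mono w (c3 m) else 0 := by
  have h1 : ∀ L : List ℕ, phi w (selL e f a b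
      ((L.filter (fun m => Nat.beq (pc m) 4 && isb m)).map c3)) = (L.map (fun m =>
      if (pc m = 4 ∧ isb m = true) ∧ dg (c3 m) e = a ∧ dg (c3 m) f = b then mono w (c3 m)
        else 0)).sum := by
    intro L
    induction L with
    | nil => rfl
    | cons m L ih =>
      rw [List.map_cons, List.sum_cons, ← ih, List.filter_cons]
      by_cases h2 : (Nat.beq (pc m) 4 && isb m) = true
      · rw [if_pos h2, List.map_cons]
        have h3 : pc m = 4 ∧ isb m = true := by
          rw [Bool.and_eq_true] at h2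
          exact ⟨Nat.eq_of_beq_eq_true h2.1, h2.2⟩
        unfold selL
        rw [List.filter_cons]
        by_cases h4 : (dg (c3 m) e == a && dg (c3 m) f == b) = true
        · rw [if_pos h4, List.map_cons, phi_cons]
          have h5 : dg (c3 m) e = a ∧ dg (c3 m) f = b := by simpa using h4
          rw [if_pos ⟨h3, h5⟩]
          norm_num
        · rw [if_neg h4]
          have h5 : ¬ (dg (c3 m) e = a ∧ dg (c3 m) f = b) := by simpa using h4
          rw [if_neg (fun h => h5 h.2), zero_add]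
      · rw [if_neg h2]
        have h3 : ¬ (pc m = 4 ∧ isb m = true) := by
          intro h
          apply h2
          rw [Bool.and_eq_true]
          exact ⟨by rw [h.1]; rfl, h.2⟩
        rw [if_neg (fun h => h3 h.1), zero_add]
  unfold codes
  rw [h1, ← List.sum_toFinset _ (List.nodup_range), List.toFinset_range]

theorem sum_msk (F : ℕ → ℝ) : ∑ m ∈ range 256, F m = ∑ T : Finset (Fin 8), F (msk T) := by
  symm
  refine Finset.sum_bij (fun T _ => msk T) (fun T _ => mem_range.2 (msk_lt T))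
    (fun T _ T' _ h => msk_inj h) (fun m hm => ?_) (fun T _ => rfl)
  obtain ⟨T, hT⟩ := msk_surj (mem_range.1 hm)
  exact ⟨T, mem_univ T, hT⟩

/-! ### labelled matroids -/

section labelled

variable {α : Type*} [Fintype α] {M : Matroid α} {φ : Fin 8 → α}

open Classical in
theorem basisSum_label (hφ : Function.Injective φ) (hr : Set.range φ = M.E) (y : α → ℝ)
    (U V : Set α) : basisSum M y U V = ∑ T : Finset (Fin 8),
      if M.IsBase (φ '' (T : Set (Fin 8))) ∧ U ⊆ φ '' (T : Set (Fin 8)) ∧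
        Disjoint (φ '' (T : Set (Fin 8))) V then ∏ t ∈ T, y (φ t) else 0 := by
  unfold basisSum
  rw [← Finset.sum_filter]
  symm
  refine Finset.sum_bij (fun T _ => T.image φ) ?_ ?_ ?_ ?_
  · intro T hT
    simp only [Finset.mem_filter, Finset.mem_univ, true_and, Finset.coe_image] at hT ⊢
    exact hT
  · intro T _ T' _ h
    exact Finset.image_injective hφ h
  · intro B hB
    simp only [Finset.mem_filter, Finset.mem_univ, true_and] at hB
    have h1 : (B : Set α) ⊆ Set.range φ := by
      rw [hr]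
      exact hB.1.subset_ground
    refine ⟨Finset.univ.filter (fun t => φ t ∈ B), ?_, ?_⟩
    · have h2 : φ '' ((Finset.univ.filter (fun t => φ t ∈ B) : Finset (Fin 8)) : Set (Fin 8)) =
          (B : Set α) := by
        ext x
        constructor
        · rintro ⟨t, ht, rfl⟩
          simpa using ht
        · intro hx
          obtain ⟨t, rfl⟩ := h1 hx
          exact ⟨t, by simpa using hx, rfl⟩
      simp only [Finset.mem_filter, Finset.mem_univ, true_and]
      rw [h2]
      exact hB
    · ext x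
      constructor
      · intro hx
        rw [Finset.mem_image] at hx
        obtain ⟨t, ht, rfl⟩ := hx
        simpa using ht
      · intro hx
        obtain ⟨t, rfl⟩ := h1 (Finset.mem_coe.2 hx)
        rw [Finset.mem_image]
        exact ⟨t, by simpa using hx, rfl⟩
  · intro T _
    rw [Finset.prod_image (fun a _ b _ h => hφ h)]

theorem basisSum_codes (hφ : Function.Injective φ) (hr : Set.range φ = M.E) {isb : ℕ → Bool}
    (hb : ∀ T : Finset (Fin 8), M.IsBase (φ '' (T : Set (Fin 8))) ↔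
      T.card = 4 ∧ isb (msk T) = true) {y : α → ℝ} {w : ℕ → ℝ}
    (hw : ∀ t : Fin 8, w t = y (φ t)) (i j : Fin 8) (a b : ℕ) {U V : Set α}
    (hUV : ∀ T : Finset (Fin 8), (U ⊆ φ '' (T : Set (Fin 8)) ∧
      Disjoint (φ '' (T : Set (Fin 8))) V) ↔ (ind T i = a ∧ ind T j = b)) :
    basisSum M y U V = phi w (selL i j a b (codes isb)) := by
  classical
  rw [basisSum_label hφ hr, phi_codes, sum_msk]
  refine Finset.sum_congr rfl fun T _ => ?_
  rw [pc_msk, dg_c3 T i.2, dg_c3 T j.2, mono_msk]
  have h1 := hUV T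
  have h2 := hb T
  have h3 : ∏ t ∈ T, y (φ t) = ∏ t ∈ T, w t := Finset.prod_congr rfl fun t _ => (hw t).symm
  by_cases h4 : M.IsBase (φ '' (T : Set (Fin 8))) ∧ U ⊆ φ '' (T : Set (Fin 8)) ∧
      Disjoint (φ '' (T : Set (Fin 8))) V
  · rw [if_pos h4, if_pos ⟨h2.1 h4.1, h1.1 h4.2⟩, h3]
  · rw [if_neg h4, if_neg (fun h => h4 ⟨h2.2 h.1, h1.2 h.2⟩)]

private theorem ind_one {T : Finset (Fin 8)} {t : Fin 8} : ind T t = 1 ↔ t ∈ T := by
  rw [ind_fin]
  split_ifs with h <;> simp [h]

private theorem ind_zero {T : Finset (Fin 8)} {t : Fin 8} : ind T t = 0 ↔ t ∉ T := by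
  rw [ind_fin]
  split_ifs with h <;> simp [h]

/-- the Rayleigh difference in terms of the codes -/
theorem rayDiff_codes (hφ : Function.Injective φ) (hr : Set.range φ = M.E) {isb : ℕ → Bool}
    (hb : ∀ T : Finset (Fin 8), M.IsBase (φ '' (T : Set (Fin 8))) ↔
      T.card = 4 ∧ isb (msk T) = true) {y : α → ℝ} {w : ℕ → ℝ}
    (hw : ∀ t : Fin 8, w t = y (φ t)) (i j : Fin 8) :
    rayDiff M y (φ i) (φ j) =
      phi w (selL i j 1 0 (codes isb)) * phi w (selL i j 0 1 (codes isb)) -
      phi w (selL i j 1 1 (codes isb)) * phi w (selL i j 0 0 (codes isb)) := by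
  have hm : ∀ (T : Finset (Fin 8)) (t : Fin 8), φ t ∈ φ '' (T : Set (Fin 8)) ↔ t ∈ T := by
    intro T t
    rw [hφ.mem_set_image]
    exact Finset.mem_coe
  unfold rayDiff
  rw [basisSum_codes hφ hr hb hw i j 1 0 (U := {φ i}) (V := {φ j}) (fun T => by
      rw [Set.singleton_subset_iff, Set.disjoint_singleton_right, hm, hm, ind_one, ind_zero]),
    basisSum_codes hφ hr hb hw i j 0 1 (U := {φ j}) (V := {φ i}) (fun T => by
      rw [Set.singleton_subset_iff, Set.disjoint_singleton_right, hm, hm, ind_one, ind_zero]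
      exact and_comm),
    basisSum_codes hφ hr hb hw i j 1 1 (U := {φ i, φ j}) (V := ∅) (fun T => by
      rw [Set.insert_subset_iff, Set.singleton_subset_iff, hm, hm, ind_one, ind_one]
      simp),
    basisSum_codes hφ hr hb hw i j 0 0 (U := ∅) (V := {φ i, φ j}) (fun T => by
      rw [Set.disjoint_insert_right, Set.disjoint_singleton_right, hm, hm, ind_zero, ind_zero]
      simp)]

/-- **A matroid on 8 labelled elements with certificates is Rayleigh.** -/
theorem isRayleigh_of_chk (hφ : Function.Injective φ) (hr : Set.range φ = M.E) {isb : ℕ → Bool}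
    (hb : ∀ T : Finset (Fin 8), M.IsBase (φ '' (T : Set (Fin 8))) ↔
      T.card = 4 ∧ isb (msk T) = true) {cl : List ℕ} {xs : List Entry}
    (hcl : codes isb = cl) (h : chkAll cl xs = true) : IsRayleigh M := by
  rw [isRayleigh_iff]
  have key : ∀ i j : Fin 8, i < j → ∀ y : α → ℝ, (∀ x, 0 < y x) →
      0 ≤ rayDiff M y (φ i) (φ j) := by
    intro i j hij y hy
    let w : ℕ → ℝ := fun c => if h : c < 8 then y (φ ⟨c, h⟩) else 1
    have hw : ∀ t : Fin 8, w t = y (φ t) := by
      intro t
      show (if h : (t : ℕ) < 8 then y (φ ⟨t, h⟩) else 1) = _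
      rw [dif_pos t.2]
    have hw0 : ∀ c, 0 ≤ w c := by
      intro c
      show 0 ≤ (if h : c < 8 then y (φ ⟨c, h⟩) else 1)
      split_ifs
      · exact (hy _).le
      · exact zero_le_one
    rw [rayDiff_codes hφ hr hb hw i j, hcl]
    exact chkAll_sound h hij j.2 hw0
  intro e he f hf hef y hy
  rw [← hr] at he hf
  obtain ⟨i, rfl⟩ := he
  obtain ⟨j, rfl⟩ := hf
  rcases lt_trichotomy i j with h1 | h1 | h1
  · exact key i j h1 y hy
  · exact absurd (by rw [h1]) hef
  · rw [rayDiff_comm]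
    exact key j i h1 y hy

/-- the same for a correct table entry -/
theorem isRayleigh_of_okE {isB : ℕ → ℕ → Bool} {x : ℕ × List ℕ × List Entry}
    (h : okE isB x = true) (hφ : Function.Injective φ) (hr : Set.range φ = M.E)
    (hb : ∀ T : Finset (Fin 8), M.IsBase (φ '' (T : Set (Fin 8))) ↔
      T.card = 4 ∧ isB x.1 (msk T) = true) : IsRayleigh M := by
  unfold okE at h
  rw [Bool.and_eq_true] at h
  exact isRayleigh_of_chk hφ hr hb (by simpa using h.1) h.2

end labelled

end Pool.Agent.H75.Ray
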