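import Pool.Agent.H75.Ray.Chk

/-!
# Certificates for the matroids number 0, 1, 2, 3, 4, 5, 6, 7, 8, 9, 10, 11, 12 (MP_934449_co)

`cb i`: the codes of the bases of the matroid `i`, `xb i`: the certificates of the pairs which need one.
-/

set_option autoImplicit false

namespace Pool.Agent.H75.Ray

def cb0 : List ℕ :=
  [2434, 2440, 2442, 2458, 2460, 2466, 2512, 2514, 2520, 2538, 2920, 2926, 2928, 2944, 2946, 2952,
    2998, 3000, 3006, 3024, 3162, 3168, 3186, 3240]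

def xb0 : List Entry :=
  []

theorem ok0 : chkAll cb0 xb0 = true := by decide +kernel

def cb1 : List ℕ :=
  [976, 982, 984, 1000, 1002, 1008, 1054, 1056, 1062, 1080, 2434, 2440, 2442, 2458, 2460, 2466,
    2512, 2514, 2520, 2538, 2920, 2926, 2928, 2944, 2946, 2952, 2998, 3000, 3006, 3024]

def xb1 : List Entry :=
  []

theorem ok1 : chkAll cb1 xb1 = true := by decide +kernel

def cb2 : List ℕ :=
  [976, 982, 984, 1000, 1002, 1008, 1054, 1056, 1062, 1080, 2434, 2440, 2442, 2458, 2460, 2466,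
    2512, 2514, 2520, 2538, 2920, 2926, 2928, 2944, 2946, 2952, 2998, 3000, 3006, 3024, 3162,
    3168, 3186, 3240]

def xb2 : List Entry :=
  []

theorem ok2 : chkAll cb2 xb2 = true := by decide +kernel

def cb3 : List ℕ :=
  [2272, 2278, 2280, 2296, 2298, 2304, 2434, 2440, 2442, 2458, 2460, 2466, 2514, 2520, 2538, 2920,
    2926, 2928, 2944, 2946, 2952, 2998, 3006, 3024, 3160, 3162, 3186, 3240]

def xb3 : List Entry :=
  [(0, 6, 8, [(2, 730, [(1, 2277), (1, 2457)], [(1, 2433)]), (5, 730, [(1, 2277), (1, 2295)], [(1,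
    2433), (1, 2457)]), (1, 730, [(1, 2277)], [(1, 2295), (1, 2433), (1, 2457)])]), (1, 5, 8, [(2,
    246, [(1, 2277), (1, 2943)], [(1, 2917)]), (5, 246, [(1, 2277), (1, 2295)], [(1, 2917), (1,
    2943)]), (1, 246, [(1, 2277)], [(1, 2295), (1, 2917), (1, 2943)])]), (2, 4, 8, [(2, 90, [(1,
    2433), (1, 2943)], [(1, 2917)]), (5, 90, [(1, 2433), (1, 2457)], [(1, 2917), (1, 2943)]), (1,
    90, [(1, 2433)], [(1, 2457), (1, 2917), (1, 2943)])]), (3, 4, 2, [(1, 108, [(1, 2433)], [(1,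
    2917)])]), (3, 5, 2, [(1, 270, [(1, 2277)], [(1, 2917)])]), (3, 6, 2, [(1, 756, [(1, 2277)],
    [(1, 2433)])])]

theorem ok3 : chkAll cb3 xb3 = true := by decide +kernel

def cb4 : List ℕ :=
  [2272, 2278, 2280, 2296, 2298, 2304, 2434, 2440, 2442, 2458, 2460, 2466, 2514, 2520, 2538, 2920,
    2926, 2928, 2944, 2946, 2952, 2998, 3000, 3006, 3024, 3160, 3168, 3186, 3240]

def xb4 : List Entry :=
  [(0, 6, 2, [(1, 730, [(1, 2271)], [(1, 2439)]), (1, 730, [(1, 2271)], [(1, 2457)])]), (1, 4, 2,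
    [(1, 84, [(1, 2439)], [(1, 2917)]), (1, 84, [(1, 2457)], [(1, 2917)])]), (2, 5, 2, [(1, 252,
    [(1, 2271)], [(1, 2917)])]), (3, 5, 2, [(1, 270, [(1, 2271)], [(1, 2917)])])]

theorem ok4 : chkAll cb4 xb4 = true := by decide +kernel

def cb5 : List ℕ :=
  [2272, 2278, 2280, 2296, 2298, 2304, 2434, 2440, 2442, 2458, 2460, 2466, 2514, 2520, 2538, 2920,
    2926, 2928, 2944, 2946, 2952, 3000, 3006, 3024, 3162, 3168, 3186]

def xb5 : List Entry :=
  []

theorem ok5 : chkAll cb5 xb5 = true := by decide +kernel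

def cb6 : List ℕ :=
  [814, 820, 822, 838, 840, 846, 976, 982, 984, 1000, 1002, 1008, 1056, 1062, 1080, 2272, 2278,
    2280, 2296, 2298, 2304, 2434, 2440, 2442, 2458, 2460, 2466, 2514, 2520, 2538, 3000, 3006,
    3024, 3162, 3168, 3186]

def xb6 : List Entry :=
  []

theorem ok6 : chkAll cb6 xb6 = true := by decide +kernel

def cb7 : List ℕ :=
  [814, 820, 822, 838, 840, 846, 976, 982, 984, 1000, 1002, 1008, 1056, 1062, 1080, 2272, 2278,
    2280, 2296, 2298, 2304, 2434, 2440, 2442, 2458, 2460, 2466, 2514, 2520, 2538, 2998, 3006,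
    3024, 3160, 3168, 3186, 3240]

def xb7 : List Entry :=
  []

theorem ok7 : chkAll cb7 xb7 = true := by decide +kernel

def cb8 : List ℕ :=
  [814, 820, 822, 838, 840, 846, 976, 982, 984, 1000, 1002, 1008, 1056, 1062, 1080, 2272, 2278,
    2280, 2296, 2298, 2304, 2434, 2440, 2442, 2458, 2460, 2466, 2514, 2520, 2538, 2998, 3000,
    3006, 3024, 3160, 3162, 3168, 3186, 3240]

def xb8 : List Entry :=
  []

theorem ok8 : chkAll cb8 xb8 = true := by decide +kernel

def cb9 : List ℕ :=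
  [814, 820, 822, 838, 840, 846, 976, 982, 984, 1000, 1002, 1008, 1056, 1062, 1080, 2272, 2278,
    2280, 2296, 2298, 2304, 2434, 2440, 2442, 2458, 2460, 2466, 2514, 2520, 2538, 2920, 2926,
    2928, 2944, 2946, 2952, 3162, 3168, 3186]

def xb9 : List Entry :=
  []

theorem ok9 : chkAll cb9 xb9 = true := by decide +kernel

def cb10 : List ℕ :=
  [814, 820, 822, 838, 840, 846, 976, 982, 984, 1000, 1002, 1008, 1056, 1062, 1080, 2272, 2278,
    2280, 2296, 2298, 2304, 2434, 2440, 2442, 2458, 2460, 2466, 2514, 2520, 2538, 2920, 2926,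
    2928, 2944, 2946, 2952, 2998, 3006, 3024, 3160, 3162, 3186, 3240]

def xb10 : List Entry :=
  [(0, 6, 8, [(2, 730, [(1, 2277), (1, 2457)], [(1, 2433)]), (5, 730, [(1, 2277), (1, 2295)], [(1,
    2433), (1, 2457)]), (1, 730, [(1, 2277)], [(1, 2295), (1, 2433), (1, 2457)])]), (0, 7, 8, [(2,
    2188, [(1, 819), (1, 999)], [(1, 975)]), (5, 2188, [(1, 819), (1, 837)], [(1, 975), (1,
    999)]), (1, 2188, [(1, 819)], [(1, 837), (1, 975), (1, 999)])]), (1, 5, 16, [(2, 246, [(1,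
    819), (1, 2277), (1, 2295), (1, 2943)], [(1, 2917)]), (9, 246, [(1, 819), (1, 837), (1, 2277),
    (1, 2295)], [(1, 2917), (1, 2943)]), (1, 246, [(1, 819), (1, 2277), (1, 2295)], [(1, 837), (1,
    2917), (1, 2943)]), (4, 246, [(1, 819), (1, 2277)], [(1, 2295), (1, 2917)])]), (2, 4, 16, [(2,
    90, [(1, 975), (1, 2433), (1, 2457), (1, 2943)], [(1, 2917)]), (9, 90, [(1, 975), (1, 999),
    (1, 2433), (1, 2457)], [(1, 2917), (1, 2943)]), (1, 90, [(1, 975), (1, 2433), (1, 2457)], [(1,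
    999), (1, 2917), (1, 2943)]), (4, 90, [(1, 975), (1, 2433)], [(1, 2457), (1, 2917)])]), (3, 4,
    2, [(1, 108, [(1, 975)], [(1, 2917)]), (1, 108, [(1, 2433)], [(1, 2917)])]), (3, 5, 2, [(1,
    270, [(1, 819)], [(1, 2917)]), (1, 270, [(1, 2277)], [(1, 2917)])]), (3, 6, 2, [(1, 756, [(1,
    2277)], [(1, 2433)])]), (3, 7, 2, [(1, 2214, [(1, 819)], [(1, 975)])])]

theorem ok10 : chkAll cb10 xb10 = true := by decide +kernel

def cb11 : List ℕ :=
  [814, 820, 822, 838, 840, 846, 976, 982, 984, 1000, 1002, 1008, 1056, 1062, 1080, 2272, 2278,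
    2280, 2296, 2298, 2304, 2434, 2440, 2442, 2458, 2460, 2466, 2514, 2520, 2538, 2920, 2926,
    2928, 2944, 2946, 2952, 2998, 3000, 3006, 3024, 3160, 3168, 3186, 3240]

def xb11 : List Entry :=
  [(0, 6, 2, [(1, 730, [(1, 2271)], [(1, 2439)]), (1, 730, [(1, 2271)], [(1, 2457)])]), (0, 7, 2,
    [(1, 2188, [(1, 813)], [(1, 981)]), (1, 2188, [(1, 813)], [(1, 999)])]), (1, 4, 2, [(1, 84,
    [(1, 981), (1, 999)], [(1, 2917)]), (1, 84, [(1, 2439), (1, 2457)], [(1, 2917)])]), (2, 5, 2,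
    [(1, 252, [(1, 813)], [(1, 2917)]), (1, 252, [(1, 2271)], [(1, 2917)])]), (3, 5, 2, [(1, 270,
    [(1, 813)], [(1, 2917)]), (1, 270, [(1, 2271)], [(1, 2917)])])]

theorem ok11 : chkAll cb11 xb11 = true := by decide +kernel

def cb12 : List ℕ :=
  [814, 820, 822, 838, 840, 846, 976, 982, 984, 1000, 1002, 1008, 1056, 1062, 1080, 2272, 2278,
    2280, 2296, 2298, 2304, 2434, 2440, 2442, 2458, 2460, 2466, 2514, 2520, 2538, 2920, 2926,
    2928, 2944, 2946, 2952, 3000, 3006, 3024, 3162, 3168, 3186]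

def xb12 : List Entry :=
  []

theorem ok12 : chkAll cb12 xb12 = true := by decide +kernel

end Pool.Agent.H75.Ray
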