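import Pool.Agent.H75.Ray.Chk

/-!
# Certificates for the matroids number 13, 14, 15, 16, 17, 18, 19, 20, 21, 22, 23, 24, 25 (MP_934449_co)

`cb i`: the codes of the bases of the matroid `i`, `xb i`: the certificates of the pairs which need one.
-/

set_option autoImplicit false

namespace Pool.Agent.H75.Ray

def cb13 : List ℕ :=
  [2272, 2278, 2280, 2296, 2298, 2304, 2434, 2440, 2442, 2458, 2460, 2466, 2512, 2514, 2520, 2538,
    2920, 2926, 2928, 2944, 2946, 2952, 2998, 3000, 3006, 3024, 3160, 3162, 3168, 3186]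

def xb13 : List Entry :=
  []

theorem ok13 : chkAll cb13 xb13 = true := by decide +kernel

def cb14 : List ℕ :=
  [814, 820, 822, 838, 840, 846, 976, 982, 984, 1000, 1002, 1008, 1054, 1056, 1062, 1080, 2272,
    2278, 2280, 2296, 2298, 2304, 2434, 2440, 2442, 2458, 2460, 2466, 2512, 2514, 2520, 2538,
    2998, 3000, 3006, 3024, 3160, 3162, 3168, 3186]

def xb14 : List Entry :=
  []

theorem ok14 : chkAll cb14 xb14 = true := by decide +kernel

def cb15 : List ℕ :=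
  [814, 820, 822, 838, 840, 846, 976, 982, 984, 1000, 1002, 1008, 1054, 1056, 1062, 1080, 2272,
    2278, 2280, 2296, 2298, 2304, 2434, 2440, 2442, 2458, 2460, 2466, 2512, 2514, 2520, 2538,
    2920, 2926, 2928, 2944, 2946, 2952, 3160, 3162, 3168, 3186]

def xb15 : List Entry :=
  []

theorem ok15 : chkAll cb15 xb15 = true := by decide +kernel

def cb16 : List ℕ :=
  [814, 820, 822, 838, 840, 846, 976, 982, 984, 1000, 1002, 1008, 1054, 1056, 1062, 1080, 2272,
    2278, 2280, 2296, 2298, 2304, 2434, 2440, 2442, 2458, 2460, 2466, 2512, 2514, 2520, 2538,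
    2920, 2926, 2928, 2944, 2946, 2952, 3000, 3006, 3024, 3160, 3168, 3186, 3240]

def xb16 : List Entry :=
  [(0, 5, 2, [(1, 244, [(1, 813)], [(1, 2925)]), (1, 244, [(1, 813)], [(1, 2943)]), (1, 244, [(1,
    2271)], [(1, 2925)]), (1, 244, [(1, 2271)], [(1, 2943)])]), (1, 4, 2, [(1, 84, [(1, 973)],
    [(1, 2925)]), (1, 84, [(1, 973)], [(1, 2943)]), (1, 84, [(1, 2431)], [(1, 2925)]), (1, 84,
    [(1, 2431)], [(1, 2943)])]), (2, 6, 2, [(1, 738, [(1, 2271)], [(1, 2431)])]), (2, 7, 2, [(1,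
    2196, [(1, 813)], [(1, 973)])]), (3, 6, 2, [(1, 756, [(1, 2271)], [(1, 2431)])]), (3, 7, 2,
    [(1, 2214, [(1, 813)], [(1, 973)])])]

theorem ok16 : chkAll cb16 xb16 = true := by decide +kernel

def cb17 : List ℕ :=
  [814, 820, 822, 838, 840, 846, 976, 982, 984, 1000, 1002, 1008, 1054, 1056, 1062, 1080, 2272,
    2278, 2280, 2296, 2298, 2304, 2434, 2440, 2442, 2458, 2460, 2466, 2512, 2514, 2520, 2538,
    2920, 2926, 2928, 2944, 2946, 2952, 2998, 3000, 3006, 3024, 3160, 3162, 3168, 3186]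

def xb17 : List Entry :=
  []

theorem ok17 : chkAll cb17 xb17 = true := by decide +kernel

def cb18 : List ℕ :=
  [328, 334, 336, 352, 354, 360, 814, 820, 822, 838, 840, 846, 976, 982, 984, 1000, 1002, 1008,
    2272, 2278, 2280, 2296, 2298, 2304, 2434, 2440, 2442, 2458, 2460, 2466, 2514, 2520, 2538,
    2920, 2926, 2928, 2944, 2946, 2952, 3000, 3006, 3024, 3162, 3168, 3186]

def xb18 : List Entry :=
  []

theorem ok18 : chkAll cb18 xb18 = true := by decide +kernel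

def cb19 : List ℕ :=
  [328, 334, 336, 352, 354, 360, 814, 820, 822, 838, 840, 846, 976, 982, 984, 1000, 1002, 1008,
    2272, 2278, 2280, 2296, 2298, 2304, 2434, 2440, 2442, 2458, 2460, 2466, 2512, 2514, 2520,
    2538, 2920, 2926, 2928, 2944, 2946, 2952, 2998, 3000, 3006, 3024, 3160, 3162, 3168, 3186]

def xb19 : List Entry :=
  []

theorem ok19 : chkAll cb19 xb19 = true := by decide +kernel

def cb20 : List ℕ :=
  [328, 334, 336, 352, 354, 360, 814, 820, 822, 838, 840, 846, 976, 982, 984, 1000, 1002, 1008,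
    2272, 2278, 2280, 2296, 2298, 2304, 2434, 2440, 2442, 2458, 2460, 2466, 2920, 2926, 2928,
    2944, 2946, 2952]

def xb20 : List Entry :=
  []

theorem ok20 : chkAll cb20 xb20 = true := by decide +kernel

def cb21 : List ℕ :=
  [328, 334, 336, 352, 354, 360, 814, 820, 822, 838, 840, 846, 976, 982, 984, 1000, 1002, 1008,
    1056, 1062, 1080, 2272, 2278, 2280, 2296, 2298, 2304, 2434, 2440, 2442, 2458, 2460, 2466,
    2512, 2520, 2538, 2920, 2926, 2928, 2944, 2946, 2952, 2998, 3000, 3024, 3160, 3162, 3168,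
    3186, 3240]

def xb21 : List Entry :=
  [(0, 4, 2, [(1, 82, [(1, 2439)], [(1, 2919)])]), (0, 7, 120, [(4, 2188, [(1, 837), (1, 975)],
    [(1, 981)]), (26, 2188, [(1, 351), (1, 837)], [(1, 975), (1, 981)]), (13, 2188, [(1, 333), (1,
    837), (1, 999)], [(1, 813), (1, 975)]), (2, 2188, [(1, 333), (1, 837), (1, 975)], [(1, 351),
    (1, 813)]), (3, 2188, [(1, 333), (1, 975), (1, 999)], [(1, 813), (1, 837)]), (42, 2188, [(1,
    333), (1, 351)], [(1, 813), (1, 837), (1, 975)]), (10, 2188, [(1, 333), (1, 975), (1, 981)],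
    [(1, 813), (1, 999)]), (5, 2188, [(1, 333), (1, 351), (1, 981)], [(1, 813), (1, 975)]), (15,
    2188, [(1, 333), (1, 981)], [(1, 351), (1, 813), (1, 975)]), (30, 2188, [(1, 333), (1, 351),
    (1, 981)], [(1, 813), (1, 837)])]), (1, 4, 2, [(1, 84, [(1, 981)], [(1, 2917)])]), (1, 6, 120,
    [(4, 732, [(1, 2295), (1, 2431)], [(1, 2439)]), (26, 732, [(1, 351), (1, 2295)], [(1, 2431),
    (1, 2439)]), (13, 732, [(1, 333), (1, 2295), (1, 2457)], [(1, 2269), (1, 2431)]), (2, 732,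
    [(1, 333), (1, 2295), (1, 2431)], [(1, 351), (1, 2269)]), (3, 732, [(1, 333), (1, 2431), (1,
    2457)], [(1, 2269), (1, 2295)]), (42, 732, [(1, 333), (1, 351)], [(1, 2269), (1, 2295), (1,
    2431)]), (10, 732, [(1, 333), (1, 2431), (1, 2439)], [(1, 2269), (1, 2457)]), (5, 732, [(1,
    333), (1, 351), (1, 2439)], [(1, 2269), (1, 2431)]), (15, 732, [(1, 333), (1, 2439)], [(1,
    351), (1, 2269), (1, 2431)]), (30, 732, [(1, 333), (1, 351), (1, 2439)], [(1, 2269), (1,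
    2295)])]), (2, 4, 2, [(1, 90, [(1, 975)], [(1, 2431)])]), (2, 5, 120, [(4, 252, [(1, 2295),
    (1, 2917)], [(1, 2919)]), (26, 252, [(1, 837), (1, 2295)], [(1, 2917), (1, 2919)]), (13, 252,
    [(1, 813), (1, 2295), (1, 2943)], [(1, 2269), (1, 2917)]), (2, 252, [(1, 813), (1, 2295), (1,
    2917)], [(1, 837), (1, 2269)]), (3, 252, [(1, 813), (1, 2917), (1, 2943)], [(1, 2269), (1,
    2295)]), (42, 252, [(1, 813), (1, 837)], [(1, 2269), (1, 2295), (1, 2917)]), (10, 252, [(1,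
    813), (1, 2917), (1, 2919)], [(1, 2269), (1, 2943)]), (5, 252, [(1, 813), (1, 837), (1,
    2919)], [(1, 2269), (1, 2917)]), (15, 252, [(1, 813), (1, 2919)], [(1, 837), (1, 2269), (1,
    2917)]), (30, 252, [(1, 813), (1, 837), (1, 2919)], [(1, 2269), (1, 2295)])]), (3, 4, 2, [(1,
    108, [(1, 975)], [(1, 2431)]), (1, 108, [(1, 981)], [(1, 2917)]), (1, 108, [(1, 2439)], [(1,
    2919)])]), (3, 5, 2, [(1, 270, [(1, 813)], [(1, 2269)])]), (3, 6, 2, [(1, 756, [(1, 333)],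
    [(1, 2269)])]), (3, 7, 2, [(1, 2214, [(1, 333)], [(1, 813)])])]

theorem ok21 : chkAll cb21 xb21 = true := by decide +kernel

def cb22 : List ℕ :=
  [328, 334, 336, 352, 354, 360, 814, 820, 822, 838, 840, 846, 976, 982, 984, 1000, 1002, 1008,
    1056, 1062, 1080, 2272, 2278, 2280, 2296, 2298, 2304, 2434, 2440, 2442, 2458, 2460, 2466,
    2512, 2514, 2538, 2920, 2926, 2928, 2944, 2946, 2952, 2998, 3006, 3024, 3160, 3162, 3168,
    3240]

def xb22 : List Entry :=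
  [(0, 4, 2, [(1, 82, [(1, 2433)], [(1, 2925)])]), (0, 5, 2, [(1, 244, [(1, 2295)], [(1,
    2925)])]), (0, 6, 2, [(1, 730, [(1, 2295)], [(1, 2433)])]), (0, 7, 4, [(3, 2188, [(1, 327),
    (1, 351)], [(1, 819), (1, 981)]), (1, 2188, [(1, 327), (2, 975), (1, 981)], [(1, 351), (1,
    819), (2, 837)])]), (1, 4, 2, [(1, 84, [(1, 981)], [(1, 2431)])]), (1, 5, 4, [(1, 246, [(1,
    819), (2, 837), (1, 2295)], [(1, 2269), (2, 2917), (1, 2925)]), (3, 246, [(1, 819), (1,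
    2925)], [(1, 2269), (1, 2295)])]), (1, 6, 2, [(1, 732, [(1, 351)], [(1, 2431)])]), (1, 7, 2,
    [(1, 2190, [(1, 351)], [(1, 981)])]), (2, 4, 2, [(1, 90, [(1, 975)], [(1, 2917)])]), (2, 5, 2,
    [(1, 252, [(1, 837)], [(1, 2917)])]), (2, 6, 4, [(1, 738, [(1, 327), (2, 351), (1, 2295)],
    [(1, 2269), (2, 2431), (1, 2433)]), (3, 738, [(1, 327), (1, 2433)], [(1, 2269), (1, 2295)])]),
    (2, 7, 2, [(1, 2196, [(1, 837)], [(1, 975)])]), (3, 4, 4, [(3, 108, [(1, 975), (1, 981)], [(1,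
    2431), (1, 2917)]), (1, 108, [(1, 975), (1, 2431), (2, 2433)], [(1, 981), (1, 2917), (2,
    2925)])]), (3, 5, 2, [(1, 270, [(1, 819)], [(1, 2269)])]), (3, 6, 2, [(1, 756, [(1, 327)],
    [(1, 2269)])]), (3, 7, 2, [(1, 2214, [(1, 327)], [(1, 819)])])]

theorem ok22 : chkAll cb22 xb22 = true := by decide +kernel

def cb23 : List ℕ :=
  [328, 334, 336, 352, 354, 360, 814, 820, 822, 838, 840, 846, 976, 982, 984, 1000, 1002, 1008,
    1056, 1062, 1080, 2272, 2278, 2280, 2296, 2298, 2304, 2434, 2440, 2442, 2458, 2460, 2466,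
    2514, 2520, 2538, 2920, 2926, 2928, 2944, 2946, 2952, 3000, 3006, 3024, 3162, 3168, 3186]

def xb23 : List Entry :=
  []

theorem ok23 : chkAll cb23 xb23 = true := by decide +kernel

def cb24 : List ℕ :=
  [328, 334, 336, 352, 354, 360, 814, 820, 822, 838, 840, 846, 976, 982, 984, 1000, 1002, 1008,
    1054, 1056, 1062, 1080, 2272, 2278, 2280, 2296, 2298, 2304, 2434, 2440, 2442, 2458, 2460,
    2466, 2512, 2514, 2520, 2538, 2920, 2926, 2928, 2944, 2946, 2952, 2998, 3000, 3006, 3024,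
    3160, 3162, 3168, 3186]

def xb24 : List Entry :=
  []

theorem ok24 : chkAll cb24 xb24 = true := by decide +kernel

def cb25 : List ℕ :=
  [2218, 2224, 2226, 2272, 2278, 2280, 2298, 2304, 2434, 2440, 2442, 2458, 2466, 2512, 2514, 2538,
    2920, 2926, 2928, 2944, 2946, 2998, 3006, 3024, 3162, 3168, 3186, 3240]

def xb25 : List Entry :=
  [(0, 1, 1, [(1, 4, [(1, 2511)], [(1, 2943)])]), (0, 2, 1, [(1, 10, [(1, 2457)], [(1, 2997)])]),
    (0, 3, 1, [(1, 28, [(1, 2439)], [(1, 2919)])]), (0, 4, 1, [(1, 82, [(1, 2433)], [(1,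
    2925)])]), (0, 5, 1, [(1, 244, [(1, 2223)], [(1, 2271)])]), (0, 6, 1, [(1, 730, [(1, 2217)],
    [(1, 2277)])]), (1, 2, 1, [(1, 12, [(1, 2295)], [(1, 3159)])]), (1, 3, 1, [(1, 30, [(1,
    2277)], [(1, 2917)])]), (1, 4, 1, [(1, 84, [(1, 2223)], [(1, 2431)])]), (1, 5, 1, [(1, 246,
    [(1, 2269)], [(1, 2925)])]), (1, 6, 1, [(1, 732, [(1, 2215)], [(1, 2439)])]), (2, 3, 1, [(1,
    36, [(1, 2271)], [(1, 2431)])]), (2, 4, 1, [(1, 90, [(1, 2217)], [(1, 2917)])]), (2, 5, 1,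
    [(1, 252, [(1, 2215)], [(1, 2919)])]), (2, 6, 1, [(1, 738, [(1, 2269)], [(1, 2433)])]), (3, 4,
    1, [(1, 108, [(1, 2199)], [(1, 3159)])]), (3, 5, 1, [(1, 270, [(1, 2197)], [(1, 2997)])]), (3,
    6, 1, [(1, 756, [(1, 2191)], [(1, 2511)])]), (4, 5, 1, [(1, 324, [(1, 2191)], [(1, 2943)])]),
    (4, 6, 1, [(1, 810, [(1, 2197)], [(1, 2457)])]), (5, 6, 1, [(1, 972, [(1, 2199)], [(1,
    2295)])])]

theorem ok25 : chkAll cb25 xb25 = true := by decide +kernel

end Pool.Agent.H75.Ray
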