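import Pool.Agent.H75.Ray.Chk

/-!
# Certificates for the matroids number 26, 27, 28, 29, 30, 31, 32, 33, 34, 35, 36, 37, 38 (MP_934449_co)

`cb i`: the codes of the bases of the matroid `i`, `xb i`: the certificates of the pairs which need one.
-/

set_option autoImplicit false

namespace Pool.Agent.H75.Ray

def cb26 : List ℕ :=
  [2218, 2224, 2226, 2272, 2278, 2280, 2298, 2304, 2434, 2440, 2442, 2458, 2466, 2512, 2514, 2538,
    2920, 2926, 2928, 2944, 2946, 2952, 2998, 3006, 3024, 3160, 3162, 3168, 3186, 3240]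

def xb26 : List Entry :=
  [(0, 1, 2, [(1, 4, [(1, 2511)], [(1, 2943)])]), (0, 4, 2, [(1, 82, [(1, 2433)], [(1, 2925)])]),
    (0, 5, 1, [(1, 244, [(1, 2223)], [(1, 2271)])]), (0, 6, 2, [(1, 730, [(1, 2217)], [(1,
    2277)])]), (1, 2, 2, [(1, 12, [(1, 2295)], [(1, 3159)])]), (1, 3, 2, [(1, 30, [(1, 2277)],
    [(1, 2917)])]), (1, 4, 1, [(1, 84, [(1, 2223)], [(1, 2431)])]), (1, 5, 2, [(1, 246, [(1,
    2269)], [(1, 2925)])]), (2, 3, 1, [(1, 36, [(1, 2271)], [(1, 2431)])]), (2, 4, 2, [(1, 90,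
    [(1, 2217)], [(1, 2917)])]), (2, 6, 2, [(1, 738, [(1, 2269)], [(1, 2433)])]), (3, 4, 2, [(1,
    108, [(1, 2199)], [(1, 3159)])]), (3, 6, 2, [(1, 756, [(1, 2191)], [(1, 2511)])]), (4, 5, 2,
    [(1, 324, [(1, 2191)], [(1, 2943)])]), (5, 6, 2, [(1, 972, [(1, 2199)], [(1, 2295)])])]

theorem ok26 : chkAll cb26 xb26 = true := by decide +kernel

def cb27 : List ℕ :=
  [760, 766, 768, 814, 820, 822, 840, 846, 976, 982, 984, 1000, 1008, 1054, 1056, 1080, 2218,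
    2224, 2226, 2272, 2278, 2280, 2298, 2304, 2434, 2440, 2442, 2458, 2466, 2512, 2514, 2538,
    2946, 2952, 3000, 3006, 3162, 3168, 3186, 3240]

def xb27 : List Entry :=
  [(0, 5, 1, [(1, 244, [(1, 765)], [(1, 813)]), (1, 244, [(1, 2223)], [(1, 2271)]), (2, 3160, [(1,
    36)], [(1, 84)])]), (1, 4, 1, [(1, 84, [(1, 765), (1, 2223)], [(1, 973), (1, 2431), (1,
    3159)])]), (2, 3, 1, [(1, 36, [(1, 813), (1, 2271)], [(1, 973), (1, 2431), (1, 3159)])]), (5,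
    6, 1, [(1, 972, [(1, 2223)], [(1, 2271)])]), (5, 7, 1, [(1, 2430, [(1, 765)], [(1, 813)])])]

theorem ok27 : chkAll cb27 xb27 = true := by decide +kernel

def cb28 : List ℕ :=
  [760, 766, 768, 814, 820, 822, 840, 846, 976, 982, 984, 1000, 1008, 1054, 1056, 1080, 2218,
    2224, 2226, 2272, 2278, 2280, 2298, 2304, 2434, 2440, 2442, 2458, 2466, 2512, 2514, 2538,
    2944, 2946, 2952, 2998, 3000, 3006, 3024, 3160, 3162, 3168, 3186, 3240]

def xb28 : List Entry :=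
  [(0, 5, 8, [(2, 244, [(1, 765), (1, 2223), (1, 2997)], [(1, 813), (1, 2271)]), (5, 244, [(1,
    765), (1, 2223), (1, 2943)], [(1, 813), (1, 2271), (1, 2997)]), (1, 244, [(1, 765), (1,
    2223)], [(1, 813), (1, 2271), (1, 2943), (1, 2997)])]), (1, 4, 8, [(2, 84, [(1, 765), (1,
    2223), (1, 3159)], [(1, 973), (1, 2431)]), (5, 84, [(1, 765), (1, 2223), (1, 2943)], [(1,
    973), (1, 2431), (1, 3159)]), (1, 84, [(1, 765), (1, 2223)], [(1, 973), (1, 2431), (1, 2943),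
    (1, 3159)])]), (2, 3, 8, [(2, 36, [(1, 813), (1, 2271), (1, 3159)], [(1, 973), (1, 2431)]),
    (5, 36, [(1, 813), (1, 2271), (1, 2997)], [(1, 973), (1, 2431), (1, 3159)]), (1, 36, [(1,
    813), (1, 2271)], [(1, 973), (1, 2431), (1, 2997), (1, 3159)])]), (3, 6, 2, [(1, 756, [(1,
    2271)], [(1, 2431)])]), (3, 7, 2, [(1, 2214, [(1, 813)], [(1, 973)])]), (4, 6, 2, [(1, 810,
    [(1, 2223)], [(1, 2431)])]), (4, 7, 2, [(1, 2268, [(1, 765)], [(1, 973)])]), (5, 6, 2, [(1,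
    972, [(1, 2223)], [(1, 2271)])]), (5, 7, 2, [(1, 2430, [(1, 765)], [(1, 813)])])]

theorem ok28 : chkAll cb28 xb28 = true := by decide +kernel

def cb29 : List ℕ :=
  [760, 766, 768, 814, 820, 822, 840, 846, 976, 982, 984, 1000, 1008, 1054, 1056, 1080, 2218,
    2224, 2226, 2272, 2278, 2280, 2298, 2304, 2434, 2440, 2442, 2458, 2466, 2512, 2514, 2538,
    2920, 2926, 2928, 2944, 2946, 2998, 3006, 3024, 3162, 3168, 3186, 3240]

def xb29 : List Entry :=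
  [(0, 1, 1, [(1, 4, [(1, 1053), (1, 2223), (1, 2511)], [(1, 2925), (1, 2943)])]), (0, 2, 1, [(1,
    10, [(1, 813), (1, 2997)], [(1, 999), (1, 2271), (1, 2457)])]), (0, 3, 1, [(1, 28, [(1, 813),
    (1, 2919)], [(1, 981), (1, 2271), (1, 2439)])]), (0, 4, 1, [(1, 82, [(1, 765), (1, 2925)],
    [(1, 975), (1, 2223), (1, 2433)])]), (0, 5, 1, [(1, 244, [(1, 765)], [(1, 813)]), (1, 244,
    [(1, 2223)], [(1, 2271)]), (2, 3160, [(1, 36)], [(1, 84)])]), (0, 6, 1, [(1, 730, [(1, 2217)],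
    [(1, 2277)])]), (0, 7, 1, [(1, 2188, [(1, 759)], [(1, 819)])]), (1, 2, 1, [(1, 12, [(1, 837),
    (1, 2295), (1, 2917)], [(1, 2431), (1, 3159)])]), (1, 3, 1, [(1, 30, [(1, 819), (1, 973), (1,
    2277)], [(1, 2431), (1, 2917)])]), (1, 4, 1, [(1, 84, [(1, 765)], [(1, 973)]), (1, 84, [(1,
    2223)], [(1, 2431)]), (2, 3000, [(1, 36)], [(1, 244)])]), (1, 5, 1, [(1, 246, [(1, 765), (1,
    2925)], [(1, 811), (1, 2223), (1, 2269)])]), (1, 6, 1, [(1, 732, [(1, 2215)], [(1, 2439)])]),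
    (1, 7, 1, [(1, 2190, [(1, 757)], [(1, 981)])]), (2, 3, 1, [(1, 36, [(1, 813)], [(1, 973)]),
    (1, 36, [(1, 2271)], [(1, 2431)]), (2, 2952, [(1, 84)], [(1, 244)])]), (2, 4, 1, [(1, 90, [(1,
    759), (1, 973), (1, 2217)], [(1, 2431), (1, 2917)])]), (2, 5, 1, [(1, 252, [(1, 757), (1,
    813), (1, 2215)], [(1, 2919), (1, 2997)])]), (2, 6, 1, [(1, 738, [(1, 2269)], [(1, 2433)])]),
    (2, 7, 1, [(1, 2196, [(1, 811)], [(1, 975)])]), (3, 4, 1, [(1, 108, [(1, 741), (1, 2199), (1,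
    2917)], [(1, 2431), (1, 3159)])]), (3, 5, 1, [(1, 270, [(1, 739), (1, 813), (1, 2197)], [(1,
    2919), (1, 2997)])]), (3, 6, 1, [(1, 756, [(1, 2191)], [(1, 2511)])]), (3, 7, 1, [(1, 2214,
    [(1, 733)], [(1, 1053)])]), (4, 5, 1, [(1, 324, [(1, 733), (1, 765), (1, 2191)], [(1, 2925),
    (1, 2943)])]), (4, 6, 1, [(1, 810, [(1, 2197)], [(1, 2457)])]), (4, 7, 1, [(1, 2268, [(1,
    739)], [(1, 999)])]), (5, 6, 1, [(1, 972, [(1, 2199)], [(1, 2295)])]), (5, 7, 1, [(1, 2430,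
    [(1, 741)], [(1, 837)])])]

theorem ok29 : chkAll cb29 xb29 = true := by decide +kernel

def cb30 : List ℕ :=
  [760, 766, 768, 814, 820, 822, 840, 846, 976, 982, 984, 1000, 1008, 1054, 1056, 1080, 2218,
    2224, 2226, 2272, 2278, 2280, 2298, 2304, 2434, 2440, 2442, 2458, 2466, 2512, 2514, 2538,
    2920, 2926, 2928, 2944, 2946, 2952, 2998, 3006, 3024, 3160, 3162, 3168, 3186, 3240]

def xb30 : List Entry :=
  [(0, 1, 2, [(1, 4, [(1, 1053)], [(1, 2943)]), (1, 4, [(1, 2511)], [(1, 2943)])]), (0, 4, 2, [(1,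
    82, [(1, 975)], [(1, 2925)]), (1, 82, [(1, 2433)], [(1, 2925)])]), (0, 5, 1, [(1, 244, [(1,
    765)], [(1, 813)]), (1, 244, [(1, 2223)], [(1, 2271)]), (2, 3160, [(1, 36)], [(1, 84)])]), (0,
    6, 2, [(1, 730, [(1, 2217)], [(1, 2277)])]), (0, 7, 2, [(1, 2188, [(1, 759)], [(1, 819)])]),
    (1, 2, 2, [(1, 12, [(1, 837)], [(1, 3159)]), (1, 12, [(1, 2295)], [(1, 3159)])]), (1, 3, 2,
    [(1, 30, [(1, 819)], [(1, 2917)]), (1, 30, [(1, 2277)], [(1, 2917)])]), (1, 4, 1, [(1, 84,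
    [(1, 765)], [(1, 973)]), (1, 84, [(1, 2223)], [(1, 2431)]), (2, 3000, [(1, 36)], [(1,
    244)])]), (1, 5, 2, [(1, 246, [(1, 811)], [(1, 2925)]), (1, 246, [(1, 2269)], [(1, 2925)])]),
    (2, 3, 1, [(1, 36, [(1, 813)], [(1, 973)]), (1, 36, [(1, 2271)], [(1, 2431)]), (2, 2952, [(1,
    84)], [(1, 244)])]), (2, 4, 2, [(1, 90, [(1, 759)], [(1, 2917)]), (1, 90, [(1, 2217)], [(1,
    2917)])]), (2, 6, 2, [(1, 738, [(1, 2269)], [(1, 2433)])]), (2, 7, 2, [(1, 2196, [(1, 811)],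
    [(1, 975)])]), (3, 4, 2, [(1, 108, [(1, 741)], [(1, 3159)]), (1, 108, [(1, 2199)], [(1,
    3159)])]), (3, 6, 2, [(1, 756, [(1, 2191)], [(1, 2511)])]), (3, 7, 2, [(1, 2214, [(1, 733)],
    [(1, 1053)])]), (4, 5, 2, [(1, 324, [(1, 733)], [(1, 2943)]), (1, 324, [(1, 2191)], [(1,
    2943)])]), (5, 6, 2, [(1, 972, [(1, 2199)], [(1, 2295)])]), (5, 7, 2, [(1, 2430, [(1, 741)],
    [(1, 837)])])]

theorem ok30 : chkAll cb30 xb30 = true := by decide +kernel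

def cb31 : List ℕ :=
  [2218, 2224, 2226, 2272, 2278, 2280, 2298, 2304, 2434, 2440, 2442, 2458, 2460, 2466, 2512, 2520,
    2538, 2920, 2926, 2928, 2944, 2952, 2998, 3000, 3006, 3024, 3160, 3162, 3186, 3240]

def xb31 : List Entry :=
  [(0, 1, 2, [(1, 4, [(1, 2457)], [(1, 2997)])]), (0, 5, 2, [(1, 244, [(1, 2217)], [(1, 2277)]),
    (1, 244, [(1, 2277)], [(1, 2919)])]), (0, 6, 2, [(1, 730, [(1, 2223)], [(1, 2271)]), (1, 730,
    [(1, 2223)], [(1, 2433)])]), (1, 2, 2, [(1, 12, [(1, 2457)], [(1, 2997)])]), (1, 3, 2, [(1,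
    30, [(1, 2277)], [(1, 2431)])]), (1, 4, 2, [(1, 84, [(1, 2223)], [(1, 2917)])]), (1, 5, 2,
    [(1, 246, [(1, 2223)], [(1, 2917)])]), (1, 6, 2, [(1, 732, [(1, 2277)], [(1, 2431)])]), (2, 3,
    2, [(1, 36, [(1, 2271)], [(1, 2917)]), (1, 36, [(1, 2433)], [(1, 2917)])]), (2, 4, 2, [(1, 90,
    [(1, 2217)], [(1, 2431)]), (1, 90, [(1, 2431)], [(1, 2919)])]), (3, 5, 2, [(1, 270, [(1,
    2191)], [(1, 2997)]), (1, 270, [(1, 2199)], [(1, 2997)])]), (4, 6, 2, [(1, 810, [(1, 2191)],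
    [(1, 2457)]), (1, 810, [(1, 2199)], [(1, 2457)])])]

theorem ok31 : chkAll cb31 xb31 = true := by decide +kernel

def cb32 : List ℕ :=
  [2218, 2224, 2226, 2272, 2278, 2280, 2298, 2304, 2434, 2440, 2442, 2458, 2460, 2466, 2512, 2520,
    2538, 2920, 2926, 2928, 2944, 2946, 2998, 3000, 3006, 3024, 3160, 3162, 3168, 3186, 3240]

def xb32 : List Entry :=
  [(0, 5, 2, [(1, 244, [(1, 2217)], [(1, 2277)])]), (0, 6, 2, [(1, 730, [(1, 2217)], [(1,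
    2277)])]), (1, 3, 2, [(1, 30, [(1, 2277)], [(1, 2431)]), (1, 30, [(1, 2277)], [(1, 2917)])]),
    (2, 4, 2, [(1, 90, [(1, 2217)], [(1, 2431)]), (1, 90, [(1, 2217)], [(1, 2917)])])]

theorem ok32 : chkAll cb32 xb32 = true := by decide +kernel

def cb33 : List ℕ :=
  [760, 766, 768, 814, 820, 822, 840, 846, 976, 982, 984, 1000, 1002, 1008, 1054, 1062, 1080,
    2218, 2224, 2226, 2272, 2278, 2280, 2298, 2304, 2434, 2440, 2442, 2458, 2460, 2466, 2512,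
    2520, 2538, 2946, 2952, 3000, 3006, 3162, 3168, 3186, 3240]

def xb33 : List Entry :=
  [(0, 5, 2, [(1, 244, [(1, 759)], [(1, 819)]), (1, 244, [(1, 759)], [(1, 2277)]), (1, 244, [(1,
    819)], [(1, 2217)]), (1, 244, [(1, 2217)], [(1, 2277)])]), (1, 3, 2, [(1, 30, [(1, 819)], [(1,
    973)]), (1, 30, [(1, 819)], [(1, 3159)]), (1, 30, [(1, 2277)], [(1, 2431)]), (1, 30, [(1,
    2277)], [(1, 3159)]), (2, 2946, [(1, 90)], [(1, 244)])]), (2, 4, 2, [(1, 90, [(1, 759)], [(1,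
    973)]), (1, 90, [(1, 759)], [(1, 3159)]), (1, 90, [(1, 973)], [(1, 2431)]), (1, 90, [(1,
    2217)], [(1, 2431)]), (1, 90, [(1, 2217)], [(1, 3159)]), (2, 3006, [(1, 30)], [(1, 244)])]),
    (5, 6, 2, [(1, 972, [(1, 2217)], [(1, 2277)])]), (5, 7, 2, [(1, 2430, [(1, 759)], [(1,
    819)])])]

theorem ok33 : chkAll cb33 xb33 = true := by decide +kernel

def cb34 : List ℕ :=
  [760, 766, 768, 814, 820, 822, 840, 846, 976, 982, 984, 1000, 1002, 1008, 1054, 1062, 1080,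
    2218, 2224, 2226, 2272, 2278, 2280, 2298, 2304, 2434, 2440, 2442, 2458, 2460, 2466, 2512,
    2520, 2538, 2944, 2946, 2998, 3000, 3024, 3160, 3162, 3186, 3240]

def xb34 : List Entry :=
  [(0, 5, 2, [(1, 244, [(1, 759)], [(1, 819)]), (1, 244, [(1, 759)], [(1, 2997)]), (1, 244, [(1,
    2217)], [(1, 2277)]), (1, 244, [(1, 2217)], [(1, 2997)]), (2, 3160, [(1, 30)], [(1, 90)])]),
    (1, 3, 2, [(1, 30, [(1, 819)], [(1, 973)]), (1, 30, [(1, 973)], [(1, 2997)]), (1, 30, [(1,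
    2277)], [(1, 2431)]), (1, 30, [(1, 2431)], [(1, 2997)]), (2, 2946, [(1, 90)], [(1, 244)])]),
    (2, 4, 2, [(1, 90, [(1, 759)], [(1, 973)]), (1, 90, [(1, 759)], [(1, 2431)]), (1, 90, [(1,
    973)], [(1, 2217)]), (1, 90, [(1, 2217)], [(1, 2431)])]), (4, 6, 2, [(1, 810, [(1, 2217)],
    [(1, 2431)])]), (4, 7, 2, [(1, 2268, [(1, 759)], [(1, 973)])])]

theorem ok34 : chkAll cb34 xb34 = true := by decide +kernel

def cb35 : List ℕ :=
  [760, 766, 768, 814, 820, 822, 840, 846, 976, 982, 984, 1000, 1002, 1008, 1054, 1062, 1080,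
    2218, 2224, 2226, 2272, 2278, 2280, 2298, 2304, 2434, 2440, 2442, 2458, 2460, 2466, 2512,
    2520, 2538, 2944, 2946, 2952, 2998, 3000, 3006, 3024, 3160, 3162, 3168, 3240]

def xb35 : List Entry :=
  [(0, 5, 16, [(2, 244, [(1, 759), (1, 2217), (1, 2223)], [(1, 765), (1, 2997)]), (4, 244, [(1,
    759), (1, 2217)], [(1, 2223), (1, 2997)]), (1, 244, [(1, 759), (1, 765), (1, 819), (1, 2217),
    (1, 2223), (1, 2277)], [(1, 2997)]), (9, 244, [(1, 759), (1, 765), (1, 2217), (1, 2223)], [(1,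
    819), (1, 2277), (1, 2997)])]), (1, 3, 16, [(4, 30, [(1, 973), (1, 2431)], [(1, 2439), (1,
    2997)]), (1, 30, [(1, 819), (1, 973), (1, 981), (1, 2277), (1, 2431), (1, 2439)], [(1,
    2997)]), (9, 30, [(1, 819), (1, 2277), (1, 2997)], [(1, 973), (1, 981), (1, 2431), (1,
    2439)]), (2, 30, [(1, 973), (1, 2431), (1, 2439)], [(1, 981), (1, 2997)])]), (2, 3, 2, [(1,
    36, [(1, 973)], [(1, 2997)]), (1, 36, [(1, 2431)], [(1, 2997)])]), (2, 4, 2, [(1, 90, [(1,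
    759)], [(1, 973)]), (1, 90, [(1, 759)], [(1, 2431)]), (1, 90, [(1, 973)], [(1, 2217)]), (1,
    90, [(1, 2217)], [(1, 2431)])]), (2, 5, 2, [(1, 252, [(1, 759)], [(1, 2997)]), (1, 252, [(1,
    2217)], [(1, 2997)])]), (4, 6, 8, [(2, 810, [(1, 2217), (1, 2439)], [(1, 2431)]), (5, 810,
    [(1, 2217), (1, 2223)], [(1, 2431), (1, 2439)]), (1, 810, [(1, 2217)], [(1, 2223), (1, 2431),
    (1, 2439)])]), (4, 7, 8, [(2, 2268, [(1, 759), (1, 981)], [(1, 973)]), (5, 2268, [(1, 759),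
    (1, 765)], [(1, 973), (1, 981)]), (1, 2268, [(1, 759)], [(1, 765), (1, 973), (1, 981)])])]

theorem ok35 : chkAll cb35 xb35 = true := by decide +kernel

def cb36 : List ℕ :=
  [760, 766, 768, 814, 820, 822, 840, 846, 976, 982, 984, 1000, 1002, 1008, 1054, 1062, 1080,
    2218, 2224, 2226, 2272, 2278, 2280, 2298, 2304, 2434, 2440, 2442, 2458, 2460, 2466, 2512,
    2520, 2538, 2944, 2946, 2952, 2998, 3000, 3006, 3024, 3160, 3162, 3168, 3186, 3240]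

def xb36 : List Entry :=
  [(0, 5, 2, [(1, 244, [(1, 759)], [(1, 819)]), (1, 244, [(1, 759)], [(1, 2997)]), (1, 244, [(1,
    2217)], [(1, 2277)]), (1, 244, [(1, 2217)], [(1, 2997)]), (2, 3160, [(1, 30)], [(1, 90)])]),
    (1, 3, 2, [(1, 30, [(1, 819)], [(1, 973)]), (1, 30, [(1, 973)], [(1, 2997)]), (1, 30, [(1,
    2277)], [(1, 2431)]), (1, 30, [(1, 2431)], [(1, 2997)]), (2, 2946, [(1, 90)], [(1, 244)])]),
    (2, 4, 2, [(1, 90, [(1, 759)], [(1, 973)]), (1, 90, [(1, 759)], [(1, 2431)]), (1, 90, [(1,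
    973)], [(1, 2217)]), (1, 90, [(1, 2217)], [(1, 2431)])]), (4, 6, 2, [(1, 810, [(1, 2217)],
    [(1, 2431)])]), (4, 7, 2, [(1, 2268, [(1, 759)], [(1, 973)])])]

theorem ok36 : chkAll cb36 xb36 = true := by decide +kernel

def cb37 : List ℕ :=
  [760, 766, 768, 814, 820, 822, 840, 846, 976, 982, 984, 1000, 1002, 1008, 1054, 1062, 1080,
    2218, 2224, 2226, 2272, 2278, 2280, 2298, 2304, 2434, 2440, 2442, 2458, 2460, 2466, 2512,
    2520, 2538, 2920, 2926, 2928, 2944, 2952, 2998, 3000, 3024, 3160, 3162, 3168, 3186, 3240]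

def xb37 : List Entry :=
  [(0, 1, 2, [(1, 4, [(1, 999)], [(1, 2997)]), (1, 4, [(1, 2457)], [(1, 2997)])]), (0, 4, 2, [(1,
    82, [(1, 981)], [(1, 2919)]), (1, 82, [(1, 2439)], [(1, 2919)])]), (0, 5, 2, [(1, 244, [(1,
    759)], [(1, 819)]), (1, 244, [(1, 759)], [(1, 2277)]), (1, 244, [(1, 819)], [(1, 2217)]), (1,
    244, [(1, 2217)], [(1, 2277)])]), (0, 6, 1, [(1, 730, [(1, 2223)], [(1, 2271)])]), (0, 7, 1,
    [(1, 2188, [(1, 765)], [(1, 813)])]), (1, 2, 2, [(1, 12, [(1, 837)], [(1, 3159)]), (1, 12,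
    [(1, 2295)], [(1, 3159)])]), (1, 3, 2, [(1, 30, [(1, 819)], [(1, 973)]), (1, 30, [(1, 819)],
    [(1, 2431)]), (1, 30, [(1, 973)], [(1, 2277)]), (1, 30, [(1, 2277)], [(1, 2431)])]), (1, 4, 4,
    [(3, 84, [(1, 765), (1, 973), (1, 2223)], [(1, 2917), (1, 3159)]), (1, 84, [(1, 765), (1,
    2223), (1, 3159)], [(1, 973), (1, 2917)])]), (1, 6, 2, [(1, 732, [(1, 2269)], [(1, 2439)])]),
    (1, 7, 2, [(1, 2190, [(1, 811)], [(1, 981)])]), (2, 3, 4, [(3, 36, [(1, 813), (1, 2271), (1,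
    2431)], [(1, 2917), (1, 3159)]), (1, 36, [(1, 813), (1, 2271), (1, 3159)], [(1, 2431), (1,
    2917)])]), (2, 4, 2, [(1, 90, [(1, 759)], [(1, 973)]), (1, 90, [(1, 759)], [(1, 2431)]), (1,
    90, [(1, 973)], [(1, 2217)]), (1, 90, [(1, 2217)], [(1, 2431)])]), (2, 5, 2, [(1, 252, [(1,
    811)], [(1, 2919)]), (1, 252, [(1, 2269)], [(1, 2919)])]), (3, 4, 2, [(1, 108, [(1, 741)],
    [(1, 3159)]), (1, 108, [(1, 2199)], [(1, 3159)])]), (3, 5, 2, [(1, 270, [(1, 733)], [(1,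
    2997)]), (1, 270, [(1, 2191)], [(1, 2997)])]), (4, 6, 2, [(1, 810, [(1, 2191)], [(1,
    2457)])]), (4, 7, 2, [(1, 2268, [(1, 733)], [(1, 999)])]), (5, 6, 2, [(1, 972, [(1, 2199)],
    [(1, 2295)])]), (5, 7, 2, [(1, 2430, [(1, 741)], [(1, 837)])])]

theorem ok37 : chkAll cb37 xb37 = true := by decide +kernel

def cb38 : List ℕ :=
  [760, 766, 768, 814, 820, 822, 840, 846, 976, 982, 984, 1000, 1002, 1008, 1054, 1062, 1080,
    2218, 2224, 2226, 2272, 2278, 2280, 2298, 2304, 2434, 2440, 2442, 2458, 2460, 2466, 2512,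
    2520, 2538, 2920, 2926, 2928, 2944, 2952, 2998, 3000, 3006, 3024, 3160, 3162, 3186, 3240]

def xb38 : List Entry :=
  [(0, 1, 2, [(1, 4, [(1, 999)], [(1, 2997)]), (1, 4, [(1, 2457)], [(1, 2997)])]), (0, 5, 2, [(1,
    244, [(1, 759)], [(1, 819)]), (1, 244, [(1, 819)], [(1, 2919)]), (1, 244, [(1, 2217)], [(1,
    2277)]), (1, 244, [(1, 2277)], [(1, 2919)]), (2, 3160, [(1, 30)], [(1, 90)])]), (0, 6, 2, [(1,
    730, [(1, 2223)], [(1, 2271)]), (1, 730, [(1, 2223)], [(1, 2433)])]), (0, 7, 2, [(1, 2188,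
    [(1, 765)], [(1, 813)]), (1, 2188, [(1, 765)], [(1, 975)])]), (1, 2, 2, [(1, 12, [(1, 999)],
    [(1, 2997)]), (1, 12, [(1, 2457)], [(1, 2997)])]), (1, 3, 2, [(1, 30, [(1, 819)], [(1, 973)]),
    (1, 30, [(1, 819)], [(1, 2431)]), (1, 30, [(1, 973)], [(1, 2277)]), (1, 30, [(1, 2277)], [(1,
    2431)])]), (1, 4, 2, [(1, 84, [(1, 765)], [(1, 2917)]), (1, 84, [(1, 2223)], [(1, 2917)])]),
    (1, 5, 2, [(1, 246, [(1, 765)], [(1, 2917)]), (1, 246, [(1, 2223)], [(1, 2917)])]), (1, 6, 2,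
    [(1, 732, [(1, 2277)], [(1, 2431)])]), (1, 7, 2, [(1, 2190, [(1, 819)], [(1, 973)])]), (2, 3,
    2, [(1, 36, [(1, 975), (1, 2433)], [(1, 2917)]), (1, 36, [(1, 813), (1, 2271)], [(1,
    2917)])]), (2, 4, 2, [(1, 90, [(1, 759)], [(1, 973)]), (1, 90, [(1, 973)], [(1, 2919)]), (1,
    90, [(1, 2217)], [(1, 2431)]), (1, 90, [(1, 2431)], [(1, 2919)]), (2, 3006, [(1, 30)], [(1,
    244)])]), (3, 5, 2, [(1, 270, [(1, 741), (1, 2199)], [(1, 2997)]), (1, 270, [(1, 733), (1,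
    2191)], [(1, 2997)])]), (4, 6, 2, [(1, 810, [(1, 2191)], [(1, 2457)]), (1, 810, [(1, 2199)],
    [(1, 2457)])]), (4, 7, 2, [(1, 2268, [(1, 733)], [(1, 999)]), (1, 2268, [(1, 741)], [(1,
    999)])])]

theorem ok38 : chkAll cb38 xb38 = true := by decide +kernel

end Pool.Agent.H75.Ray
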