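import Pool.Agent.H75.Ray.Chk

/-!
# Certificates for the matroids number 39, 40, 41, 42, 43, 44, 45, 46, 47, 50, 51, 52, 53 (MP_934449_co)

`cb i`: the codes of the bases of the matroid `i`, `xb i`: the certificates of the pairs which need one.
-/

set_option autoImplicit false

namespace Pool.Agent.H75.Ray

def cb39 : List ℕ :=
  [760, 766, 768, 814, 820, 822, 840, 846, 976, 982, 984, 1000, 1002, 1008, 1054, 1062, 1080,
    2218, 2224, 2226, 2272, 2278, 2280, 2298, 2304, 2434, 2440, 2442, 2458, 2460, 2466, 2512,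
    2520, 2538, 2920, 2926, 2928, 2944, 2946, 2998, 3000, 3006, 3024, 3160, 3162, 3168, 3186,
    3240]

def xb39 : List Entry :=
  [(0, 5, 2, [(1, 244, [(1, 759)], [(1, 819)]), (1, 244, [(1, 759)], [(1, 2277)]), (1, 244, [(1,
    819)], [(1, 2217)]), (1, 244, [(1, 2217)], [(1, 2277)])]), (0, 6, 2, [(1, 730, [(1, 2217)],
    [(1, 2277)])]), (0, 7, 2, [(1, 2188, [(1, 759)], [(1, 819)])]), (1, 3, 2, [(1, 30, [(1, 819)],
    [(1, 973)]), (1, 30, [(1, 819)], [(1, 2917)]), (1, 30, [(1, 2277)], [(1, 2431)]), (1, 30, [(1,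
    2277)], [(1, 2917)]), (2, 2946, [(1, 90)], [(1, 244)])]), (2, 4, 2, [(1, 90, [(1, 759)], [(1,
    973)]), (1, 90, [(1, 759)], [(1, 2917)]), (1, 90, [(1, 2217)], [(1, 2431)]), (1, 90, [(1,
    2217)], [(1, 2917)]), (2, 3006, [(1, 30)], [(1, 244)])])]

theorem ok39 : chkAll cb39 xb39 = true := by decide +kernel

def cb40 : List ℕ :=
  [2218, 2224, 2226, 2272, 2278, 2280, 2298, 2304, 2434, 2440, 2442, 2458, 2460, 2466, 2512, 2514,
    2520, 2538, 2920, 2926, 2928, 2944, 2946, 2952, 2998, 3000, 3006, 3024, 3162, 3168, 3186,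
    3240]

def xb40 : List Entry :=
  []

theorem ok40 : chkAll cb40 xb40 = true := by decide +kernel

def cb41 : List ℕ :=
  [760, 766, 768, 814, 820, 822, 840, 846, 976, 982, 984, 1000, 1002, 1008, 1054, 1056, 1062,
    1080, 2218, 2224, 2226, 2272, 2278, 2280, 2298, 2304, 2434, 2440, 2442, 2458, 2460, 2466,
    2512, 2514, 2520, 2538, 2946, 2952, 3000, 3006, 3162, 3168, 3186, 3240]

def xb41 : List Entry :=
  []

theorem ok41 : chkAll cb41 xb41 = true := by decide +kernel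

def cb42 : List ℕ :=
  [760, 766, 768, 814, 820, 822, 840, 846, 976, 982, 984, 1000, 1002, 1008, 1054, 1056, 1062,
    1080, 2218, 2224, 2226, 2272, 2278, 2280, 2298, 2304, 2434, 2440, 2442, 2458, 2460, 2466,
    2512, 2514, 2520, 2538, 2944, 2952, 2998, 3006, 3024, 3160, 3168, 3186, 3240]

def xb42 : List Entry :=
  []

theorem ok42 : chkAll cb42 xb42 = true := by decide +kernel

def cb43 : List ℕ :=
  [760, 766, 768, 814, 820, 822, 840, 846, 976, 982, 984, 1000, 1002, 1008, 1054, 1056, 1062,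
    1080, 2218, 2224, 2226, 2272, 2278, 2280, 2298, 2304, 2434, 2440, 2442, 2458, 2460, 2466,
    2512, 2514, 2520, 2538, 2944, 2946, 2952, 2998, 3000, 3006, 3024, 3160, 3162, 3168, 3240]

def xb43 : List Entry :=
  [(0, 5, 2, [(1, 244, [(1, 759), (1, 2217)], [(1, 2997)]), (1, 244, [(1, 765), (1, 2223)], [(1,
    2997)])]), (1, 3, 2, [(1, 30, [(1, 973)], [(1, 2997)]), (1, 30, [(1, 2431)], [(1, 2997)])]),
    (2, 3, 2, [(1, 36, [(1, 973)], [(1, 2997)]), (1, 36, [(1, 2431)], [(1, 2997)])]), (4, 6, 2,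
    [(1, 810, [(1, 2217)], [(1, 2431)]), (1, 810, [(1, 2223)], [(1, 2431)])]), (4, 7, 2, [(1,
    2268, [(1, 759)], [(1, 973)]), (1, 2268, [(1, 765)], [(1, 973)])])]

theorem ok43 : chkAll cb43 xb43 = true := by decide +kernel

def cb44 : List ℕ :=
  [760, 766, 768, 814, 820, 822, 840, 846, 976, 982, 984, 1000, 1002, 1008, 1054, 1056, 1062,
    1080, 2218, 2224, 2226, 2272, 2278, 2280, 2298, 2304, 2434, 2440, 2442, 2458, 2460, 2466,
    2512, 2514, 2520, 2538, 2920, 2926, 2928, 2944, 2952, 2998, 3000, 3024, 3162, 3168, 3186,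
    3240]

def xb44 : List Entry :=
  [(0, 1, 2, [(1, 4, [(1, 999)], [(1, 2997)]), (1, 4, [(1, 2457)], [(1, 2997)])]), (0, 2, 2, [(1,
    10, [(1, 1053)], [(1, 2943)]), (1, 10, [(1, 2511)], [(1, 2943)])]), (0, 3, 2, [(1, 28, [(1,
    975)], [(1, 2925)]), (1, 28, [(1, 2433)], [(1, 2925)])]), (0, 4, 2, [(1, 82, [(1, 981)], [(1,
    2919)]), (1, 82, [(1, 2439)], [(1, 2919)])]), (0, 6, 1, [(1, 730, [(1, 2223)], [(1, 2271)])]),
    (0, 7, 1, [(1, 2188, [(1, 765)], [(1, 813)])]), (1, 4, 2, [(1, 84, [(1, 765), (1, 973), (1,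
    2223)], [(1, 2917), (1, 3159)]), (1, 84, [(1, 765), (1, 2223), (1, 3159)], [(1, 973), (1,
    2917)])]), (1, 5, 2, [(1, 246, [(1, 757)], [(1, 2925)]), (1, 246, [(1, 2215)], [(1, 2925)])]),
    (1, 6, 2, [(1, 732, [(1, 2269)], [(1, 2439)])]), (1, 7, 2, [(1, 2190, [(1, 811)], [(1,
    981)])]), (2, 3, 2, [(1, 36, [(1, 813), (1, 973), (1, 2271)], [(1, 2917), (1, 3159)]), (1, 36,
    [(1, 813), (1, 2271), (1, 3159)], [(1, 973), (1, 2917)])]), (2, 5, 2, [(1, 252, [(1, 811)],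
    [(1, 2919)]), (1, 252, [(1, 2269)], [(1, 2919)])]), (2, 6, 2, [(1, 738, [(1, 2215)], [(1,
    2433)])]), (2, 7, 2, [(1, 2196, [(1, 757)], [(1, 975)])]), (3, 5, 2, [(1, 270, [(1, 733)],
    [(1, 2997)]), (1, 270, [(1, 2191)], [(1, 2997)])]), (3, 6, 2, [(1, 756, [(1, 2197)], [(1,
    2511)])]), (3, 7, 2, [(1, 2214, [(1, 739)], [(1, 1053)])]), (4, 5, 2, [(1, 324, [(1, 739)],
    [(1, 2943)]), (1, 324, [(1, 2197)], [(1, 2943)])]), (4, 6, 2, [(1, 810, [(1, 2191)], [(1,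
    2457)])]), (4, 7, 2, [(1, 2268, [(1, 733)], [(1, 999)])])]

theorem ok44 : chkAll cb44 xb44 = true := by decide +kernel

def cb45 : List ℕ :=
  [760, 766, 768, 814, 820, 822, 840, 846, 976, 982, 984, 1000, 1002, 1008, 1054, 1056, 1062,
    1080, 2218, 2224, 2226, 2272, 2278, 2280, 2298, 2304, 2434, 2440, 2442, 2458, 2460, 2466,
    2512, 2514, 2520, 2538, 2920, 2926, 2928, 2944, 2946, 2952, 2998, 3006, 3024, 3160, 3162,
    3168, 3240]

def xb45 : List Entry :=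
  [(0, 6, 2, [(1, 730, [(1, 2217)], [(1, 2277)]), (1, 730, [(1, 2217)], [(1, 2511)])]), (0, 7, 2,
    [(1, 2188, [(1, 759)], [(1, 819)]), (1, 2188, [(1, 759)], [(1, 1053)])]), (1, 3, 2, [(1, 30,
    [(1, 1053), (1, 2511)], [(1, 2917)]), (1, 30, [(1, 819), (1, 2277)], [(1, 2917)])]), (2, 4, 2,
    [(1, 90, [(1, 759)], [(1, 2917)]), (1, 90, [(1, 2217)], [(1, 2917)])]), (4, 5, 2, [(1, 324,
    [(1, 759)], [(1, 2917)]), (1, 324, [(1, 2217)], [(1, 2917)])])]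

theorem ok45 : chkAll cb45 xb45 = true := by decide +kernel

def cb46 : List ℕ :=
  [760, 766, 768, 814, 820, 822, 840, 846, 976, 982, 984, 1000, 1002, 1008, 1054, 1056, 1062,
    1080, 2218, 2224, 2226, 2272, 2278, 2280, 2298, 2304, 2434, 2440, 2442, 2458, 2460, 2466,
    2512, 2514, 2520, 2538, 2920, 2926, 2928, 2944, 2946, 2952, 2998, 3000, 3006, 3024]

def xb46 : List Entry :=
  []

theorem ok46 : chkAll cb46 xb46 = true := by decide +kernel

def cb47 : List ℕ :=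
  [760, 766, 768, 814, 820, 822, 840, 846, 976, 982, 984, 1000, 1002, 1008, 1054, 1056, 1062,
    1080, 2218, 2224, 2226, 2272, 2278, 2280, 2298, 2304, 2434, 2440, 2442, 2458, 2460, 2466,
    2512, 2514, 2520, 2538, 2920, 2926, 2928, 2944, 2946, 2952, 2998, 3000, 3006, 3024, 3162,
    3168, 3186, 3240]

def xb47 : List Entry :=
  []

theorem ok47 : chkAll cb47 xb47 = true := by decide +kernel

def cb50 : List ℕ :=
  [274, 280, 282, 328, 334, 336, 354, 360, 760, 766, 768, 814, 820, 822, 840, 846, 1002, 1008,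
    1056, 1062, 2218, 2224, 2226, 2272, 2278, 2280, 2298, 2304, 2434, 2440, 2442, 2458, 2460,
    2466, 2512, 2514, 2538, 2920, 2926, 2928, 2944, 2952, 2998, 3000, 3006, 3024, 3162, 3168,
    3186, 3240]

def xb50 : List Entry :=
  [(0, 1, 2, [(1, 4, [(1, 2457)], [(1, 2997)])]), (0, 2, 2, [(1, 10, [(1, 2457)], [(1, 2997)])]),
    (0, 3, 2, [(1, 28, [(1, 2433)], [(1, 2925)])]), (0, 4, 2, [(1, 82, [(1, 2433)], [(1,
    2925)])]), (0, 5, 2, [(1, 244, [(1, 2223)], [(1, 2271)])]), (0, 6, 2, [(1, 730, [(1, 2223)],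
    [(1, 2271)])]), (0, 7, 2, [(1, 2188, [(1, 273)], [(1, 765)]), (1, 2188, [(1, 273)], [(1,
    813)]), (1, 2188, [(1, 279)], [(1, 327)]), (1, 2188, [(1, 279)], [(1, 819)]), (1, 2188, [(1,
    327)], [(1, 819)]), (1, 2188, [(1, 765)], [(1, 813)]), (2, 2200, [(1, 270)], [(1, 810)]), (2,
    2296, [(1, 246)], [(1, 738)]), (2, 3160, [(1, 36)], [(1, 84)])]), (1, 4, 2, [(1, 84, [(1,
    279)], [(1, 2431)]), (1, 84, [(1, 279)], [(1, 3159)]), (1, 84, [(1, 765)], [(1, 2917)]), (1,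
    84, [(1, 765)], [(1, 3159)]), (1, 84, [(1, 2223)], [(1, 2431)]), (1, 84, [(1, 2223)], [(1,
    2917)]), (2, 1056, [(1, 36)], [(1, 2188)])]), (1, 5, 2, [(1, 246, [(1, 765)], [(1, 2215)]),
    (1, 246, [(1, 765)], [(1, 2295)]), (1, 246, [(1, 819)], [(1, 2269)]), (1, 246, [(1, 819)],
    [(1, 2295)]), (1, 246, [(1, 2215)], [(1, 2925)]), (1, 246, [(1, 2269)], [(1, 2925)]), (2, 354,
    [(1, 738)], [(1, 2188)])]), (1, 7, 2, [(1, 2190, [(1, 279)], [(1, 819)])]), (2, 3, 2, [(1, 36,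
    [(1, 327)], [(1, 2431)]), (1, 36, [(1, 327)], [(1, 3159)]), (1, 36, [(1, 813)], [(1, 2917)]),
    (1, 36, [(1, 813)], [(1, 3159)]), (1, 36, [(1, 2271)], [(1, 2431)]), (1, 36, [(1, 2271)], [(1,
    2917)]), (2, 1008, [(1, 84)], [(1, 2188)])]), (2, 6, 2, [(1, 738, [(1, 273)], [(1, 2215)]),
    (1, 738, [(1, 273)], [(1, 2295)]), (1, 738, [(1, 327)], [(1, 2269)]), (1, 738, [(1, 327)],
    [(1, 2295)]), (1, 738, [(1, 2215)], [(1, 2433)]), (1, 738, [(1, 2269)], [(1, 2433)]), (2, 846,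
    [(1, 246)], [(1, 2188)])]), (2, 7, 2, [(1, 2196, [(1, 273)], [(1, 813)])]), (3, 5, 2, [(1,
    270, [(1, 813)], [(1, 2191)]), (1, 270, [(1, 813)], [(1, 2199)]), (1, 270, [(1, 819)], [(1,
    2197)]), (1, 270, [(1, 819)], [(1, 2199)]), (1, 270, [(1, 2191)], [(1, 2997)]), (1, 270, [(1,
    2197)], [(1, 2997)]), (2, 282, [(1, 810)], [(1, 2188)])]), (3, 7, 2, [(1, 2214, [(1, 327)],
    [(1, 819)])]), (4, 6, 2, [(1, 810, [(1, 273)], [(1, 2191)]), (1, 810, [(1, 273)], [(1,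
    2199)]), (1, 810, [(1, 279)], [(1, 2197)]), (1, 810, [(1, 279)], [(1, 2199)]), (1, 810, [(1,
    2191)], [(1, 2457)]), (1, 810, [(1, 2197)], [(1, 2457)]), (2, 822, [(1, 270)], [(1, 2188)])]),
    (4, 7, 2, [(1, 2268, [(1, 273)], [(1, 765)])]), (5, 7, 2, [(1, 2430, [(1, 765)], [(1,
    813)])]), (6, 7, 2, [(1, 2916, [(1, 279)], [(1, 327)])])]

theorem ok50 : chkAll cb50 xb50 = true := by decide +kernel

def cb51 : List ℕ :=
  [274, 280, 282, 328, 334, 336, 354, 360, 760, 766, 768, 814, 820, 822, 840, 846, 1002, 1008,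
    1056, 1062, 2218, 2224, 2226, 2272, 2278, 2280, 2298, 2304, 2434, 2440, 2442, 2458, 2460,
    2466, 2512, 2514, 2520, 2538, 2920, 2926, 2928, 2944, 2946, 2952, 2998, 3000, 3006, 3024,
    3162, 3168, 3186, 3240]

def xb51 : List Entry :=
  [(0, 7, 1, [(1, 2188, [(1, 273)], [(1, 819)]), (1, 2188, [(1, 279)], [(1, 813)])])]

theorem ok51 : chkAll cb51 xb51 = true := by decide +kernel

def cb52 : List ℕ :=
  [274, 280, 282, 328, 334, 336, 354, 360, 760, 766, 768, 814, 820, 822, 840, 846, 1000, 1008,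
    1054, 1062, 1080, 2218, 2224, 2226, 2272, 2278, 2280, 2298, 2304, 2434, 2440, 2442, 2514,
    2520, 2920, 2926, 2928, 2944, 2952, 2998, 3000, 3024, 3160, 3168, 3240]

def xb52 : List Entry :=
  [(0, 6, 1, [(1, 730, [(1, 279), (1, 333), (1, 2223), (1, 2439)], [(1, 2271)])]), (0, 7, 1, [(1,
    2188, [(1, 327), (1, 333), (1, 813), (1, 1053)], [(1, 765)])]), (1, 4, 1, [(1, 84, [(1, 279),
    (1, 765), (1, 2223), (1, 2439)], [(1, 2917)])]), (1, 7, 1, [(1, 2190, [(1, 333)], [(1, 757),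
    (1, 765), (1, 811), (1, 837)])]), (2, 3, 1, [(1, 36, [(1, 327), (1, 813), (1, 1053), (1,
    2271)], [(1, 2917)])]), (2, 5, 1, [(1, 252, [(1, 757), (1, 811), (1, 837), (1, 2917)], [(1,
    2271)])]), (3, 6, 1, [(1, 756, [(1, 333)], [(1, 2191), (1, 2197), (1, 2199), (1, 2271)])]),
    (4, 5, 1, [(1, 324, [(1, 765)], [(1, 2191), (1, 2197), (1, 2199), (1, 2917)])])]

theorem ok52 : chkAll cb52 xb52 = true := by decide +kernel

def cb53 : List ℕ :=
  [274, 280, 282, 328, 334, 336, 354, 360, 760, 766, 768, 814, 820, 822, 840, 846, 1000, 1008,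
    1054, 1062, 1080, 2218, 2224, 2226, 2272, 2278, 2280, 2298, 2304, 2434, 2440, 2442, 2458,
    2460, 2466, 2512, 2520, 2538, 2920, 2926, 2928, 2944, 2946, 2952, 2998, 3006, 3024, 3160,
    3168, 3186]

def xb53 : List Entry :=
  [(0, 5, 2, [(1, 244, [(1, 2217)], [(1, 2277)])]), (0, 6, 2, [(1, 730, [(1, 2217)], [(1,
    2277)])]), (0, 7, 2, [(1, 2188, [(1, 273)], [(1, 333)]), (1, 2188, [(1, 333)], [(1, 999)]),
    (1, 2188, [(1, 759)], [(1, 819)]), (1, 2188, [(1, 819)], [(1, 999)]), (2, 3160, [(1, 30)],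
    [(1, 90)])]), (1, 3, 2, [(1, 30, [(1, 333)], [(1, 2431)]), (1, 30, [(1, 819)], [(1, 2917)]),
    (1, 30, [(1, 2277)], [(1, 2431)]), (1, 30, [(1, 2277)], [(1, 2917)]), (2, 1002, [(1, 90)],
    [(1, 2188)])]), (2, 4, 10, [(1, 90, [(1, 999)], [(1, 2217), (1, 2431)]), (1, 90, [(1, 999),
    (1, 2217)], [(1, 2431)]), (3, 90, [(1, 999), (1, 2217)], [(1, 2917)]), (2, 90, [(1, 2217)],
    [(1, 2431), (1, 2917)]), (3, 90, [(1, 273), (1, 2217)], [(1, 2431)]), (2, 90, [(1, 273), (1,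
    999)], [(1, 2431)]), (1, 90, [(1, 759), (1, 999)], [(1, 2431)]), (2, 90, [(1, 759), (1, 999)],
    [(1, 2917)]), (3, 90, [(1, 273), (1, 759)], [(1, 2917)]), (6, 1062, [(1, 30)], [(1, 2188)])]),
    (3, 5, 2, [(1, 270, [(1, 819)], [(1, 2917)])]), (3, 6, 2, [(1, 756, [(1, 333)], [(1,
    2431)])])]

theorem ok53 : chkAll cb53 xb53 = true := by decide +kernel

end Pool.Agent.H75.Ray
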