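import Pool.Agent.H75.Ray.Chk

/-!
# Certificates for the matroids number 54, 55, 56, 57, 59, 60, 61, 62, 63, 64, 65, 66, 67 (MP_934449_co)

`cb i`: the codes of the bases of the matroid `i`, `xb i`: the certificates of the pairs which need one.
-/

set_option autoImplicit false

namespace Pool.Agent.H75.Ray

def cb54 : List ℕ :=
  [274, 280, 282, 328, 334, 336, 354, 360, 760, 766, 768, 814, 820, 822, 840, 846, 1000, 1008,
    1054, 1062, 1080, 2218, 2224, 2226, 2272, 2278, 2280, 2298, 2304, 2434, 2440, 2442, 2460,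
    2466, 2514, 2520, 2920, 2926, 2928, 2944, 2946, 2998, 3000, 3006, 3024, 3160, 3168, 3186,
    3240]

def xb54 : List Entry :=
  [(0, 6, 8, [(1, 730, [(1, 279), (1, 333), (1, 2271), (1, 2277), (1, 2439)], [(1, 2217)]), (5,
    730, [(1, 279), (1, 333), (1, 2277), (1, 2439)], [(1, 2217), (1, 2271)]), (2, 730, [(1, 279),
    (1, 333), (1, 2439)], [(1, 2217), (1, 2277)])]), (0, 7, 2, [(1, 2188, [(1, 333), (1, 759)],
    [(1, 819)]), (1, 2188, [(1, 279), (1, 999)], [(1, 819)])]), (1, 3, 32, [(8, 30, [(1, 2439),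
    (1, 2997)], [(1, 2917)]), (4, 30, [(1, 2277), (1, 2917), (1, 2997)], [(1, 2439)]), (2, 30,
    [(1, 819), (1, 2917), (1, 2997)], [(1, 2277), (1, 2439)]), (17, 30, [(1, 333), (1, 819), (1,
    2277), (1, 2439)], [(1, 2917), (1, 2997)]), (1, 30, [(1, 333), (1, 2917), (1, 2997)], [(1,
    819), (1, 2277), (1, 2439)])]), (1, 4, 2, [(1, 84, [(1, 2439)], [(1, 2917)])]), (1, 7, 8, [(2,
    2190, [(1, 279)], [(1, 333), (1, 757), (1, 811), (1, 837)]), (1, 2190, [(1, 279), (1, 333),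
    (1, 819)], [(1, 757), (1, 811), (1, 837)]), (5, 2190, [(1, 279), (1, 333)], [(1, 757), (1,
    811), (1, 819), (1, 837)])]), (2, 4, 2, [(1, 90, [(1, 273), (1, 759)], [(1, 2917)]), (1, 90,
    [(1, 999), (1, 2217)], [(1, 2917)])]), (2, 5, 8, [(1, 252, [(1, 757), (1, 811), (1, 837), (1,
    2271), (1, 2917), (1, 2997)], [(1, 2217)]), (5, 252, [(1, 757), (1, 811), (1, 837), (1, 2917),
    (1, 2997)], [(1, 2217), (1, 2271)]), (2, 252, [(1, 757), (1, 811), (1, 837), (1, 2917)], [(1,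
    2217), (1, 2997)])]), (3, 5, 2, [(1, 270, [(1, 819)], [(1, 2191), (1, 2197)]), (1, 270, [(1,
    819)], [(1, 2199), (1, 2917)])]), (3, 6, 2, [(1, 756, [(1, 333)], [(1, 2271)])]), (4, 6, 32,
    [(4, 810, [(1, 279), (1, 2199), (1, 2439)], [(1, 2217)]), (2, 810, [(1, 279), (1, 2197), (1,
    2439)], [(1, 2199), (1, 2217)]), (1, 810, [(1, 279), (1, 2191), (1, 2439)], [(1, 2197), (1,
    2199), (1, 2217)]), (17, 810, [(1, 279), (1, 2439)], [(1, 2191), (1, 2197), (1, 2199), (1,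
    2217)]), (8, 810, [(1, 279)], [(1, 2217), (1, 2439)])])]

theorem ok54 : chkAll cb54 xb54 = true := by decide +kernel

def cb55 : List ℕ :=
  [274, 280, 282, 328, 334, 336, 354, 360, 760, 766, 768, 814, 820, 822, 840, 846, 1000, 1008,
    1054, 1062, 1080, 2218, 2224, 2226, 2272, 2278, 2280, 2298, 2304, 2434, 2440, 2442, 2458,
    2466, 2512, 2514, 2520, 2538, 2920, 2926, 2928, 3000, 3006, 3160, 3168, 3240]

def xb55 : List Entry :=
  [(0, 5, 4, [(2, 244, [(1, 765), (1, 819), (1, 2925)], [(1, 2271)]), (1, 244, [(1, 819), (1,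
    2223)], [(1, 2271), (1, 2925)]), (1, 244, [(1, 819), (1, 2271)], [(1, 2223), (1, 2925)])]),
    (0, 7, 4, [(2, 2188, [(1, 279)], [(1, 327), (1, 813), (1, 1053)]), (1, 2188, [(1, 279), (1,
    813)], [(1, 819), (1, 1053)]), (1, 2188, [(1, 279), (1, 1053)], [(1, 813), (1, 819)])]), (1,
    4, 4, [(2, 84, [(1, 765), (1, 2223), (1, 2925)], [(1, 2431)]), (1, 84, [(1, 279), (1, 2925)],
    [(1, 2223), (1, 2431)]), (1, 84, [(1, 279), (1, 2223)], [(1, 2431), (1, 2925)])]), (1, 7, 4,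
    [(2, 2190, [(1, 271), (1, 279), (1, 351)], [(1, 819)]), (1, 2190, [(1, 279), (1, 325)], [(1,
    351), (1, 819)]), (1, 2190, [(1, 279), (1, 819)], [(1, 325), (1, 351)])]), (2, 3, 4, [(2, 36,
    [(1, 327), (1, 813), (1, 2271)], [(1, 2431)]), (1, 36, [(1, 813), (1, 2431)], [(1, 1053), (1,
    2271)]), (1, 36, [(1, 813), (1, 1053)], [(1, 2271), (1, 2431)])]), (2, 6, 4, [(2, 738, [(1,
    271), (1, 325), (1, 351)], [(1, 2271)]), (1, 738, [(1, 325), (1, 2271)], [(1, 351), (1,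
    2431)]), (1, 738, [(1, 325), (1, 2431)], [(1, 351), (1, 2271)])]), (3, 5, 4, [(2, 270, [(1,
    819)], [(1, 2191), (1, 2199), (1, 2271)]), (1, 270, [(1, 819), (1, 2199)], [(1, 2197), (1,
    2271)]), (1, 270, [(1, 819), (1, 2271)], [(1, 2197), (1, 2199)])]), (4, 6, 4, [(2, 810, [(1,
    279)], [(1, 2191), (1, 2197), (1, 2431)]), (1, 810, [(1, 279), (1, 2197)], [(1, 2199), (1,
    2431)]), (1, 810, [(1, 279), (1, 2431)], [(1, 2197), (1, 2199)])])]

theorem ok55 : chkAll cb55 xb55 = true := by decide +kernel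

def cb56 : List ℕ :=
  [274, 280, 282, 328, 334, 336, 354, 360, 760, 766, 768, 814, 820, 822, 840, 846, 1000, 1008,
    1054, 1062, 1080, 2218, 2224, 2226, 2272, 2278, 2280, 2298, 2304, 2434, 2440, 2442, 2458,
    2460, 2466, 2512, 2514, 2520, 2538, 2920, 2926, 2928, 2944, 2946, 2952, 2998, 3000, 3024,
    3160, 3168, 3186, 3240]

def xb56 : List Entry :=
  [(0, 6, 2, [(1, 730, [(1, 333)], [(1, 2217), (1, 2271)]), (1, 730, [(1, 2223), (1, 2439)], [(1,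
    2271)])]), (0, 7, 2, [(1, 2188, [(1, 327), (1, 333)], [(1, 765)]), (1, 2188, [(1, 765)], [(1,
    813), (1, 1053)])]), (1, 4, 2, [(1, 84, [(1, 765)], [(1, 2431), (1, 2917)]), (1, 84, [(1,
    2223), (1, 2439)], [(1, 2917)])]), (1, 7, 2, [(1, 2190, [(1, 333)], [(1, 757), (1, 765)]), (1,
    2190, [(1, 333)], [(1, 811), (1, 837)])]), (2, 3, 2, [(1, 36, [(1, 327), (1, 813)], [(1,
    2917)]), (1, 36, [(1, 1053), (1, 2271)], [(1, 2917)])]), (2, 5, 2, [(1, 252, [(1, 757), (1,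
    811)], [(1, 2271)]), (1, 252, [(1, 837), (1, 2917)], [(1, 2271)])]), (3, 6, 2, [(1, 756, [(1,
    333)], [(1, 2197), (1, 2271)]), (1, 756, [(1, 333)], [(1, 2191), (1, 2199)])]), (4, 5, 2, [(1,
    324, [(1, 765)], [(1, 2199), (1, 2917)]), (1, 324, [(1, 765)], [(1, 2191), (1, 2197)])])]

theorem ok56 : chkAll cb56 xb56 = true := by decide +kernel

def cb57 : List ℕ :=
  [274, 280, 282, 328, 334, 336, 354, 360, 760, 766, 768, 814, 820, 822, 840, 846, 1000, 1008,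
    1054, 1062, 1080, 2218, 2224, 2226, 2272, 2278, 2280, 2298, 2304, 2434, 2440, 2442, 2458,
    2460, 2512, 2514, 2520, 2538, 2920, 2926, 2928, 2944, 2946, 2952, 2998, 3000, 3024, 3160,
    3168, 3186, 3240]

def xb57 : List Entry :=
  [(0, 2, 2, [(1, 10, [(1, 2511)], [(1, 2943)])]), (0, 5, 4, [(1, 244, [(1, 765)], [(1, 2217), (1,
    2277)]), (1, 244, [(1, 765), (1, 2277)], [(1, 2217)]), (2, 244, [(1, 2217)], [(1, 2277), (1,
    2925)])]), (0, 6, 4, [(1, 730, [(1, 333)], [(1, 2223), (1, 2271)]), (1, 730, [(1, 333), (1,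
    2223)], [(1, 2271)]), (2, 730, [(1, 2223), (1, 2439)], [(1, 2271)])]), (0, 7, 2, [(1, 2188,
    [(1, 333), (1, 813)], [(1, 765), (1, 999)]), (1, 2188, [(1, 273), (1, 765)], [(1, 333), (1,
    1053)]), (2, 2200, [(1, 324)], [(1, 756)])]), (1, 2, 2, [(1, 12, [(1, 2511)], [(1, 2943)])]),
    (1, 3, 4, [(1, 30, [(1, 333)], [(1, 2431), (1, 2925)]), (1, 30, [(1, 333), (1, 2925)], [(1,
    2431)]), (2, 30, [(1, 2277), (1, 2925)], [(1, 2431)])]), (1, 4, 4, [(1, 84, [(1, 765)], [(1,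
    2439), (1, 2917)]), (1, 84, [(1, 765), (1, 2439)], [(1, 2917)]), (2, 84, [(1, 2223), (1,
    2439)], [(1, 2917)])]), (1, 7, 2, [(1, 2190, [(1, 333), (1, 351)], [(1, 765), (1, 811)]), (1,
    2190, [(1, 271), (1, 333)], [(1, 765), (1, 837)]), (2, 2200, [(1, 324)], [(1, 756)])]), (2, 3,
    2, [(1, 36, [(1, 327), (1, 2271)], [(1, 2917)]), (1, 36, [(1, 813), (1, 1053)], [(1,
    2917)])]), (2, 4, 2, [(1, 90, [(1, 759), (1, 2217)], [(1, 2431)]), (1, 90, [(1, 273), (1,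
    999)], [(1, 2431)])]), (2, 5, 2, [(1, 252, [(1, 757), (1, 2917)], [(1, 2271)]), (1, 252, [(1,
    811), (1, 837)], [(1, 2271)])]), (2, 6, 2, [(1, 738, [(1, 325), (1, 2431)], [(1, 2217)]), (1,
    738, [(1, 271), (1, 351)], [(1, 2217)])]), (3, 6, 16, [(4, 756, [(1, 333)], [(1, 2191), (1,
    2197), (1, 2199), (1, 2511)]), (2, 756, [(1, 333), (1, 2431), (1, 2511)], [(1, 2191), (1,
    2197), (1, 2199)]), (1, 756, [(1, 333), (1, 2271), (1, 2511)], [(1, 2191), (1, 2197), (1,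
    2199), (1, 2431)]), (9, 756, [(1, 333), (1, 2511)], [(1, 2191), (1, 2197), (1, 2199), (1,
    2271), (1, 2431)])]), (4, 5, 16, [(4, 324, [(1, 765)], [(1, 2191), (1, 2197), (1, 2199), (1,
    2943)]), (2, 324, [(1, 765), (1, 2917), (1, 2943)], [(1, 2191), (1, 2197), (1, 2199)]), (1,
    324, [(1, 765), (1, 2217), (1, 2943)], [(1, 2191), (1, 2197), (1, 2199), (1, 2917)]), (9, 324,
    [(1, 765), (1, 2943)], [(1, 2191), (1, 2197), (1, 2199), (1, 2217), (1, 2917)])])]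

theorem ok57 : chkAll cb57 xb57 = true := by decide +kernel

def cb59 : List ℕ :=
  [274, 280, 282, 328, 334, 336, 354, 360, 760, 766, 768, 814, 820, 822, 840, 846, 1000, 1002,
    1008, 1054, 1056, 1062, 1080, 2218, 2224, 2226, 2272, 2278, 2280, 2298, 2304, 2434, 2440,
    2442, 2460, 2466, 2514, 2520, 2920, 2926, 2928, 2944, 2952, 2998, 3000, 3024, 3160, 3162,
    3168, 3186, 3240]

def xb59 : List Entry :=
  [(0, 6, 2, [(1, 730, [(1, 2223), (1, 2439)], [(1, 2271), (1, 2433)]), (1, 730, [(1, 273), (1,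
    2271)], [(1, 333), (1, 2223)]), (2, 3160, [(1, 36)], [(1, 84)])]), (0, 7, 2, [(1, 2188, [(1,
    765), (1, 999)], [(1, 813), (1, 1053)]), (1, 2188, [(1, 273), (1, 765)], [(1, 333), (1,
    813)]), (2, 3160, [(1, 36)], [(1, 84)])]), (1, 4, 16, [(2, 84, [(1, 279), (1, 765), (1, 2223),
    (1, 2439), (1, 3159)], [(1, 2917)]), (9, 84, [(1, 279), (1, 765), (1, 999), (1, 2223), (1,
    2439)], [(1, 2917), (1, 3159)]), (1, 84, [(1, 279), (1, 765), (1, 2223), (1, 2439)], [(1,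
    999), (1, 2917), (1, 3159)]), (4, 84, [(1, 279), (1, 765), (1, 2223)], [(1, 2439), (1,
    2917)])]), (1, 5, 2, [(1, 246, [(1, 811), (1, 837)], [(1, 2223)]), (1, 246, [(1, 757), (1,
    2917)], [(1, 2223)])]), (1, 7, 4, [(1, 2190, [(1, 333), (1, 765)], [(1, 811)]), (1, 2190, [(1,
    333)], [(1, 765), (1, 811)]), (2, 2190, [(1, 333)], [(1, 765), (1, 837)])]), (2, 3, 16, [(2,
    36, [(1, 327), (1, 813), (1, 2271), (1, 2433), (1, 3159)], [(1, 2917)]), (9, 36, [(1, 327),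
    (1, 813), (1, 1053), (1, 2271), (1, 2433)], [(1, 2917), (1, 3159)]), (1, 36, [(1, 327), (1,
    813), (1, 2271), (1, 2433)], [(1, 1053), (1, 2917), (1, 3159)]), (4, 36, [(1, 327), (1, 813),
    (1, 2271)], [(1, 2433), (1, 2917)])]), (2, 5, 2, [(1, 252, [(1, 757), (1, 837)], [(1, 2271)]),
    (1, 252, [(1, 811), (1, 2917)], [(1, 2271)])]), (2, 7, 4, [(1, 2196, [(1, 273), (1, 813)],
    [(1, 757)]), (1, 2196, [(1, 273)], [(1, 757), (1, 813)]), (2, 2196, [(1, 273)], [(1, 813), (1,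
    837)])]), (3, 5, 2, [(1, 270, [(1, 813)], [(1, 2197), (1, 2199)]), (1, 270, [(1, 813)], [(1,
    2191), (1, 2917)])]), (3, 6, 4, [(1, 756, [(1, 333), (1, 2271)], [(1, 2197)]), (1, 756, [(1,
    333)], [(1, 2197), (1, 2271)]), (2, 756, [(1, 333)], [(1, 2199), (1, 2271)])]), (4, 5, 2, [(1,
    324, [(1, 765)], [(1, 2191), (1, 2199)]), (1, 324, [(1, 765)], [(1, 2197), (1, 2917)])]), (4,
    6, 4, [(1, 810, [(1, 273), (1, 2223)], [(1, 2191)]), (1, 810, [(1, 273)], [(1, 2191), (1,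
    2223)]), (2, 810, [(1, 273)], [(1, 2199), (1, 2223)])]), (5, 6, 2, [(1, 972, [(1, 2223)], [(1,
    2271)])]), (5, 7, 2, [(1, 2430, [(1, 765)], [(1, 813)])])]

theorem ok59 : chkAll cb59 xb59 = true := by decide +kernel

def cb60 : List ℕ :=
  [274, 280, 282, 328, 334, 336, 354, 360, 760, 766, 768, 814, 820, 822, 840, 846, 1000, 1002,
    1008, 1054, 1056, 1062, 1080, 2218, 2224, 2226, 2272, 2278, 2280, 2298, 2304, 2434, 2440,
    2442, 2458, 2466, 2512, 2514, 2520, 2538, 2920, 2926, 2928, 2944, 2946, 2952, 2998, 3000,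
    3024, 3160, 3162, 3168, 3186, 3240]

def xb60 : List Entry :=
  [(0, 5, 2, [(1, 244, [(1, 2223)], [(1, 2271)])]), (0, 6, 2, [(1, 730, [(1, 2223)], [(1,
    2271)])]), (0, 7, 8, [(2, 2188, [(1, 333), (1, 1053)], [(1, 765)]), (2, 2188, [(1, 765)], [(1,
    813), (1, 1053)]), (2, 2188, [(1, 279)], [(1, 813), (1, 1053)]), (1, 2188, [(1, 333)], [(1,
    759), (1, 1053)]), (1, 2188, [(1, 333), (1, 1053)], [(1, 759)]), (2, 2188, [(1, 279), (1,
    999)], [(1, 327)]), (2, 2188, [(1, 327)], [(1, 759), (1, 999)]), (2, 2188, [(1, 279), (1,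
    765)], [(1, 813)]), (2, 2188, [(1, 333)], [(1, 759), (1, 765)]), (2, 2188, [(1, 279)], [(1,
    327), (1, 813)]), (2, 2188, [(1, 327), (1, 333)], [(1, 759)]), (4, 2200, [(1, 324)], [(1,
    756)])]), (1, 4, 2, [(1, 84, [(1, 2223), (1, 3159)], [(1, 2917)]), (1, 84, [(1, 279), (1,
    2223)], [(1, 2431)]), (1, 84, [(1, 279), (1, 765)], [(1, 2917)]), (1, 84, [(1, 765), (1,
    999)], [(1, 2431)])]), (1, 7, 2, [(1, 2190, [(1, 333)], [(1, 765)])]), (2, 3, 2, [(1, 36, [(1,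
    2271), (1, 3159)], [(1, 2431)]), (1, 36, [(1, 813), (1, 2271)], [(1, 2917)]), (1, 36, [(1,
    327), (1, 813)], [(1, 2431)]), (1, 36, [(1, 327), (1, 1053)], [(1, 2917)])]), (2, 7, 2, [(1,
    2196, [(1, 327)], [(1, 759)])]), (3, 6, 2, [(1, 756, [(1, 333)], [(1, 2199), (1, 2511)]), (1,
    756, [(1, 327)], [(1, 2191), (1, 2199)]), (1, 756, [(1, 333)], [(1, 2191), (1, 2197)]), (1,
    756, [(1, 327)], [(1, 2197), (1, 2431)])]), (4, 5, 2, [(1, 324, [(1, 759)], [(1, 2199), (1,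
    2943)]), (1, 324, [(1, 765)], [(1, 2197), (1, 2199)]), (1, 324, [(1, 759)], [(1, 2191), (1,
    2197)]), (1, 324, [(1, 765)], [(1, 2191), (1, 2917)])])]

theorem ok60 : chkAll cb60 xb60 = true := by decide +kernel

def cb61 : List ℕ :=
  [274, 280, 282, 328, 334, 336, 354, 360, 760, 766, 768, 814, 820, 822, 840, 846, 1000, 1002,
    1008, 1054, 1056, 1062, 1080, 2218, 2224, 2226, 2272, 2278, 2280, 2298, 2304, 2434, 2440,
    2442, 2458, 2460, 2512, 2514, 2520, 2538, 2920, 2926, 2928, 2944, 2952, 2998, 3000, 3006,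
    3024, 3160, 3162, 3168, 3186]

def xb61 : List Entry :=
  [(0, 3, 2, [(1, 28, [(1, 2433)], [(1, 2925)])]), (0, 5, 2, [(1, 244, [(1, 2217)], [(1, 2277)]),
    (1, 244, [(1, 2277)], [(1, 2943)])]), (0, 6, 2, [(1, 730, [(1, 2223)], [(1, 2271)]), (1, 730,
    [(1, 2271)], [(1, 2457)])]), (0, 7, 2, [(1, 2188, [(1, 273), (1, 999)], [(1, 333), (1, 813),
    (1, 819)]), (1, 2188, [(1, 327), (1, 333), (1, 813)], [(1, 765), (1, 999)]), (1, 2188, [(1,
    273), (1, 327)], [(1, 765), (1, 819)])]), (1, 3, 2, [(1, 30, [(1, 333)], [(1, 2431)]), (1, 30,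
    [(1, 2277)], [(1, 2431)])]), (1, 4, 6, [(2, 84, [(1, 999), (1, 2223)], [(1, 2431), (1,
    2917)]), (1, 84, [(1, 999), (1, 2457)], [(1, 2917), (1, 2925)]), (1, 84, [(1, 765), (1, 999)],
    [(1, 2917), (1, 2925)]), (1, 84, [(1, 765), (1, 999), (1, 2457)], [(1, 2917)]), (1, 84, [(1,
    765), (1, 999), (1, 2223), (1, 2457)], [(1, 2431), (1, 2917), (1, 2925)])]), (1, 5, 2, [(1,
    246, [(1, 765)], [(1, 2215)]), (1, 246, [(1, 765)], [(1, 2295)]), (1, 246, [(1, 2215)], [(1,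
    2925)]), (1, 246, [(1, 2295)], [(1, 2925)])]), (1, 7, 2, [(1, 2190, [(1, 333)], [(1, 765)]),
    (1, 2190, [(1, 333)], [(1, 999)])]), (2, 3, 2, [(1, 36, [(1, 813)], [(1, 2917)]), (1, 36, [(1,
    2271)], [(1, 2917)])]), (2, 4, 6, [(2, 90, [(1, 273), (1, 999), (1, 2943)], [(1, 2431)]), (1,
    90, [(1, 999), (1, 2217)], [(1, 2431), (1, 2433)]), (1, 90, [(1, 999), (1, 2217)], [(1, 2431),
    (1, 2917)]), (1, 90, [(1, 999)], [(1, 2431), (1, 2433), (1, 2917)]), (1, 90, [(1, 273), (1,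
    999), (1, 2217), (1, 2943)], [(1, 2431), (1, 2433), (1, 2917)])]), (2, 6, 2, [(1, 738, [(1,
    273)], [(1, 2215)]), (1, 738, [(1, 273)], [(1, 2295)]), (1, 738, [(1, 2215)], [(1, 2433)]),
    (1, 738, [(1, 2295)], [(1, 2433)])]), (2, 7, 2, [(1, 2196, [(1, 273)], [(1, 813)]), (1, 2196,
    [(1, 813)], [(1, 999)])]), (3, 4, 2, [(1, 108, [(1, 2433)], [(1, 2925)])]), (3, 5, 6, [(2,
    270, [(1, 813)], [(1, 2199), (1, 2917), (1, 2925)]), (1, 270, [(1, 813), (1, 819)], [(1,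
    2191), (1, 2917)]), (1, 270, [(1, 813), (1, 819), (1, 2271)], [(1, 2917)]), (1, 270, [(1,
    813), (1, 2271)], [(1, 2191), (1, 2917)]), (1, 270, [(1, 813), (1, 819), (1, 2271)], [(1,
    2191), (1, 2199), (1, 2917), (1, 2925)])]), (3, 6, 6, [(2, 756, [(1, 327), (1, 333)], [(1,
    2199), (1, 2431)]), (1, 756, [(1, 333), (1, 2277)], [(1, 2197), (1, 2431)]), (1, 756, [(1,
    333), (1, 2277)], [(1, 2431), (1, 2433)]), (1, 756, [(1, 333)], [(1, 2197), (1, 2431), (1,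
    2433)]), (1, 756, [(1, 327), (1, 333), (1, 2277)], [(1, 2197), (1, 2199), (1, 2431), (1,
    2433)])]), (4, 5, 2, [(1, 324, [(1, 765)], [(1, 2197)]), (1, 324, [(1, 765)], [(1, 2199)])]),
    (4, 6, 2, [(1, 810, [(1, 273)], [(1, 2191)]), (1, 810, [(1, 273)], [(1, 2199)])]), (4, 7, 2,
    [(1, 2268, [(1, 273)], [(1, 765)])])]

theorem ok61 : chkAll cb61 xb61 = true := by decide +kernel

def cb62 : List ℕ :=
  [274, 280, 282, 328, 334, 336, 354, 360, 760, 766, 768, 814, 820, 822, 840, 846, 1000, 1002,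
    1008, 1054, 1056, 1062, 1080, 2218, 2224, 2226, 2272, 2278, 2280, 2298, 2304, 2434, 2440,
    2442, 2460, 2466, 2514, 2520, 2920, 2926, 2928, 2944, 2952, 2998, 3000, 3006, 3024, 3160,
    3162, 3168, 3186, 3240]

def xb62 : List Entry :=
  [(0, 6, 2, [(1, 730, [(1, 327), (1, 2271)], [(1, 2223)]), (1, 730, [(1, 273), (1, 2433)], [(1,
    2223)])]), (0, 7, 2, [(1, 2188, [(1, 279), (1, 765)], [(1, 813)]), (1, 2188, [(1, 273), (1,
    999)], [(1, 813)])]), (1, 4, 2, [(1, 84, [(1, 999), (1, 2223)], [(1, 2917)]), (1, 84, [(1,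
    279), (1, 765)], [(1, 2917)])]), (1, 5, 2, [(1, 246, [(1, 757), (1, 811)], [(1, 2223)]), (1,
    246, [(1, 837), (1, 2917)], [(1, 2223)])]), (2, 3, 2, [(1, 36, [(1, 813), (1, 2433)], [(1,
    2917)]), (1, 36, [(1, 327), (1, 2271)], [(1, 2917)])]), (2, 7, 2, [(1, 2196, [(1, 273), (1,
    327)], [(1, 757)]), (1, 2196, [(1, 273)], [(1, 813), (1, 837)])]), (3, 5, 2, [(1, 270, [(1,
    813)], [(1, 2191), (1, 2197)]), (1, 270, [(1, 813)], [(1, 2199), (1, 2917)])]), (4, 6, 2, [(1,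
    810, [(1, 273), (1, 279)], [(1, 2191)]), (1, 810, [(1, 273)], [(1, 2199), (1, 2223)])])]

theorem ok62 : chkAll cb62 xb62 = true := by decide +kernel

def cb63 : List ℕ :=
  [274, 280, 282, 328, 334, 336, 354, 360, 760, 766, 768, 814, 820, 822, 840, 846, 1000, 1002,
    1008, 1054, 1056, 1062, 1080, 2218, 2224, 2226, 2272, 2278, 2280, 2298, 2304, 2434, 2440,
    2442, 2458, 2466, 2512, 2514, 2520, 2538, 2920, 2926, 2928, 2944, 2946, 2952, 2998, 3000,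
    3006, 3024, 3160, 3162, 3168, 3186]

def xb63 : List Entry :=
  [(0, 5, 2, [(1, 244, [(1, 2223)], [(1, 2271)]), (1, 244, [(1, 2271)], [(1, 2943)])]), (0, 7, 12,
    [(1, 2188, [(1, 333), (1, 819)], [(1, 759)]), (2, 2188, [(1, 327), (1, 819)], [(1, 759), (1,
    999)]), (1, 2188, [(1, 333), (1, 759), (1, 819)], []), (2, 2188, [(1, 327), (1, 333), (1,
    819)], [(1, 999)]), (4, 2188, [(1, 279)], [(1, 765), (1, 813)]), (2, 2188, [(1, 279), (1,
    333)], [(1, 759)]), (2, 2188, [(1, 333)], [(1, 759), (1, 813)]), (2, 2188, [(1, 327), (1,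
    333)], [(1, 759), (1, 999)]), (4, 2188, [(1, 279), (1, 999)], [(1, 327), (1, 813)]), (2, 2188,
    [(1, 279), (1, 759), (1, 999)], [(1, 327), (1, 333), (1, 813), (1, 819)])]), (1, 4, 12, [(4,
    84, [(1, 999), (1, 2223)], [(1, 2431), (1, 2439)]), (1, 84, [(1, 279), (1, 765)], [(1,
    2917)]), (1, 84, [(1, 279)], [(1, 765), (1, 2917)]), (2, 84, [(1, 999), (1, 2943)], [(1,
    2431), (1, 2917)]), (2, 84, [(1, 279), (1, 999)], [(1, 2431), (1, 2917)]), (2, 84, [(1, 279),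
    (1, 999), (1, 2943)], [(1, 2431)]), (2, 84, [(1, 279), (1, 999), (1, 2223), (1, 2943)], [(1,
    2431), (1, 2439), (1, 2917)])]), (2, 3, 2, [(1, 36, [(1, 327)], [(1, 2431)]), (1, 36, [(1,
    327)], [(1, 2917)]), (1, 36, [(1, 2271)], [(1, 2431)])]), (2, 4, 2, [(1, 90, [(1, 999)], [(1,
    2431)]), (1, 90, [(1, 999)], [(1, 2917)])]), (2, 7, 2, [(1, 2196, [(1, 327)], [(1, 759)]), (1,
    2196, [(1, 327)], [(1, 999)])]), (3, 5, 2, [(1, 270, [(1, 813)], [(1, 2917)]), (1, 270, [(1,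
    819)], [(1, 2917)])]), (3, 6, 12, [(4, 756, [(1, 327), (1, 2271)], [(1, 2199), (1, 2431)]),
    (1, 756, [(1, 333)], [(1, 2191), (1, 2197)]), (1, 756, [(1, 333), (1, 2197)], [(1, 2191)]),
    (2, 756, [(1, 327), (1, 333)], [(1, 2431), (1, 2439)]), (2, 756, [(1, 327), (1, 333)], [(1,
    2191), (1, 2431)]), (2, 756, [(1, 327)], [(1, 2191), (1, 2431), (1, 2439)]), (2, 756, [(1,
    327), (1, 333), (1, 2271)], [(1, 2191), (1, 2199), (1, 2431), (1, 2439)])]), (4, 5, 2, [(1,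
    324, [(1, 759)], [(1, 2191)]), (1, 324, [(1, 759)], [(1, 2199)]), (1, 324, [(1, 765)], [(1,
    2191)])])]

theorem ok63 : chkAll cb63 xb63 = true := by decide +kernel

def cb64 : List ℕ :=
  [274, 280, 282, 328, 334, 336, 354, 360, 760, 766, 768, 814, 820, 822, 840, 846, 1000, 1002,
    1008, 1054, 1056, 1062, 1080, 2218, 2224, 2226, 2272, 2278, 2280, 2298, 2304, 2458, 2460,
    2466, 2512, 2514, 2520, 2538, 2944, 2946, 2952, 2998, 3000, 3006, 3024]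

def xb64 : List Entry :=
  []

theorem ok64 : chkAll cb64 xb64 = true := by decide +kernel

def cb65 : List ℕ :=
  [274, 280, 282, 328, 334, 336, 354, 360, 760, 766, 768, 814, 820, 822, 840, 846, 976, 982, 984,
    1000, 1008, 1054, 1056, 1080, 2218, 2224, 2226, 2272, 2278, 2280, 2298, 2304, 2434, 2440,
    2442, 2458, 2460, 2466, 2512, 2514, 2520, 2538, 2920, 2926, 2928, 2944, 2946, 2952, 2998,
    3000, 3006, 3024, 3162, 3168, 3186, 3240]

def xb65 : List Entry :=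
  [(0, 1, 2, [(1, 4, [(1, 1053)], [(1, 2457)]), (1, 4, [(1, 1053)], [(1, 2943)])]), (0, 2, 2, [(1,
    10, [(1, 999)], [(1, 2511)]), (1, 10, [(1, 999)], [(1, 2997)])]), (0, 3, 2, [(1, 28, [(1,
    981)], [(1, 2433)]), (1, 28, [(1, 981)], [(1, 2919)])]), (0, 4, 2, [(1, 82, [(1, 975)], [(1,
    2439)]), (1, 82, [(1, 975)], [(1, 2925)])]), (0, 5, 1, [(1, 244, [(1, 765)], [(1, 813)]), (1,
    3160, [(1, 36)], [(1, 84)])]), (0, 6, 1, [(1, 730, [(1, 279)], [(1, 327)]), (1, 3160, [(1,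
    36)], [(1, 84)])]), (1, 4, 4, [(3, 84, [(1, 279), (1, 765)], [(1, 973), (1, 2431), (1,
    2917)]), (1, 84, [(1, 279), (1, 765), (1, 2431), (1, 2917)], [(1, 973)])]), (1, 5, 2, [(1,
    246, [(1, 811)], [(1, 2925)])]), (1, 6, 2, [(1, 732, [(1, 325)], [(1, 2439)])]), (1, 7, 2,
    [(1, 2190, [(1, 271)], [(1, 981)]), (1, 2190, [(1, 757)], [(1, 981)])]), (2, 3, 4, [(3, 36,
    [(1, 327), (1, 813)], [(1, 973), (1, 2431), (1, 2917)]), (1, 36, [(1, 327), (1, 813), (1,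
    2431), (1, 2917)], [(1, 973)])]), (2, 5, 2, [(1, 252, [(1, 757)], [(1, 2919)])]), (2, 6, 2,
    [(1, 738, [(1, 271)], [(1, 2433)])]), (2, 7, 2, [(1, 2196, [(1, 325)], [(1, 975)]), (1, 2196,
    [(1, 811)], [(1, 975)])]), (3, 5, 2, [(1, 270, [(1, 739)], [(1, 2997)])]), (3, 6, 2, [(1, 756,
    [(1, 253)], [(1, 2511)])]), (3, 7, 2, [(1, 2214, [(1, 247)], [(1, 1053)]), (1, 2214, [(1,
    733)], [(1, 1053)])]), (4, 5, 2, [(1, 324, [(1, 733)], [(1, 2943)])]), (4, 6, 2, [(1, 810,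
    [(1, 247)], [(1, 2457)])]), (4, 7, 2, [(1, 2268, [(1, 253)], [(1, 999)]), (1, 2268, [(1,
    739)], [(1, 999)])])]

theorem ok65 : chkAll cb65 xb65 = true := by decide +kernel

def cb66 : List ℕ :=
  [274, 280, 282, 328, 334, 336, 354, 360, 760, 766, 768, 814, 820, 822, 840, 846, 976, 982, 984,
    1000, 1008, 1054, 1056, 1080, 2218, 2224, 2226, 2272, 2278, 2280, 2298, 2304, 2434, 2440,
    2442, 2458, 2460, 2466, 2512, 2514, 2538, 2920, 2926, 2928, 2944, 2946, 2952, 2998, 3000,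
    3024, 3160, 3162, 3186]

def xb66 : List Entry :=
  [(0, 5, 4, [(1, 244, [(1, 765), (1, 2919), (1, 2943)], [(1, 813)]), (1, 244, [(1, 765), (1,
    2943)], [(1, 813), (1, 2919)]), (2, 244, [(1, 765), (1, 2223)], [(1, 813), (1, 2271), (1,
    2919)])]), (0, 6, 4, [(1, 730, [(1, 279), (1, 2433), (1, 2457)], [(1, 327)]), (1, 730, [(1,
    279), (1, 2457)], [(1, 327), (1, 2433)]), (2, 730, [(1, 279), (1, 2223)], [(1, 327), (1,
    2271), (1, 2433)])]), (0, 7, 2, [(1, 2188, [(1, 279)], [(1, 327)]), (1, 2188, [(1, 765)], [(1,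
    813)])]), (1, 4, 32, [(8, 84, [(1, 279), (1, 765), (1, 2223)], [(1, 973), (1, 2943)]), (4, 84,
    [(1, 279), (1, 765), (1, 2223), (1, 2917), (1, 2943)], [(1, 973)]), (2, 84, [(1, 279), (1,
    765), (1, 2223), (1, 2431), (1, 2943)], [(1, 973), (1, 2917)]), (17, 84, [(1, 279), (1, 765),
    (1, 2223), (1, 2457), (1, 2943)], [(1, 973), (1, 2431), (1, 2917)]), (1, 84, [(1, 279), (1,
    765), (1, 2223), (1, 2943)], [(1, 973), (1, 2431), (1, 2457), (1, 2917)])]), (1, 7, 2, [(1,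
    2190, [(1, 279)], [(1, 973)]), (1, 2190, [(1, 765)], [(1, 973)])]), (2, 3, 32, [(8, 36, [(1,
    327), (1, 813), (1, 2271)], [(1, 973), (1, 2919)]), (4, 36, [(1, 327), (1, 813), (1, 2271),
    (1, 2917), (1, 2919)], [(1, 973)]), (2, 36, [(1, 327), (1, 813), (1, 2271), (1, 2431), (1,
    2919)], [(1, 973), (1, 2917)]), (17, 36, [(1, 327), (1, 813), (1, 2271), (1, 2433), (1,
    2919)], [(1, 973), (1, 2431), (1, 2917)]), (1, 36, [(1, 327), (1, 813), (1, 2271), (1, 2919)],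
    [(1, 973), (1, 2431), (1, 2433), (1, 2917)])]), (3, 7, 2, [(1, 2214, [(1, 327)], [(1, 973)]),
    (1, 2214, [(1, 813)], [(1, 973)])])]

theorem ok66 : chkAll cb66 xb66 = true := by decide +kernel

def cb67 : List ℕ :=
  [274, 280, 282, 328, 334, 336, 354, 360, 760, 766, 768, 814, 820, 822, 840, 846, 976, 982, 984,
    1000, 1008, 1054, 1056, 1080, 2218, 2224, 2226, 2272, 2278, 2280, 2298, 2304, 2434, 2440,
    2442, 2458, 2466, 2512, 2514, 2538, 2920, 2926, 2928, 2944, 2952, 2998, 3000, 3024]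

def xb67 : List Entry :=
  [(0, 5, 1, [(1, 244, [(1, 765)], [(1, 813)]), (1, 244, [(1, 2223)], [(1, 2271)]), (1, 3160, [(1,
    36)], [(1, 84)])]), (0, 6, 1, [(1, 730, [(1, 279)], [(1, 327)]), (1, 730, [(1, 2223)], [(1,
    2271)]), (1, 3160, [(1, 36)], [(1, 84)])]), (0, 7, 1, [(1, 2188, [(1, 279)], [(1, 327)]), (1,
    2188, [(1, 765)], [(1, 813)]), (1, 3160, [(1, 36)], [(1, 84)])]), (1, 4, 1, [(1, 84, [(1,
    279), (1, 765), (1, 2223)], [(1, 973), (1, 2431), (1, 2917)])]), (2, 3, 1, [(1, 36, [(1, 327),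
    (1, 813), (1, 2271)], [(1, 973), (1, 2431), (1, 2917)])])]

theorem ok67 : chkAll cb67 xb67 = true := by decide +kernel

end Pool.Agent.H75.Ray
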