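import Pool.Agent.H75.Ray.Chk

/-!
# Certificates for the matroids number 69, 70, 71, 72, 73, 74, 75, 76, 77, 79, 80, 81, 82 (MP_934449_co)

`cb i`: the codes of the bases of the matroid `i`, `xb i`: the certificates of the pairs which need one.
-/

set_option autoImplicit false

namespace Pool.Agent.H75.Ray

def cb69 : List ℕ :=
  [274, 280, 282, 328, 334, 336, 354, 360, 760, 766, 768, 814, 820, 822, 840, 846, 976, 982, 984,
    1000, 1008, 1054, 1056, 1080, 2218, 2224, 2226, 2272, 2278, 2280, 2298, 2304, 2434, 2440,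
    2442, 2458, 2460, 2466, 2512, 2520, 2538, 2920, 2926, 2928, 2944, 2946, 2998, 3000, 3006,
    3024, 3160, 3162, 3168, 3186, 3240]

def xb69 : List Entry :=
  [(0, 1, 2, [(1, 4, [(1, 1053)], [(1, 2457)])]), (0, 2, 2, [(1, 10, [(1, 999)], [(1, 2997)])]),
    (0, 3, 2, [(1, 28, [(1, 981)], [(1, 2919)])]), (0, 4, 2, [(1, 82, [(1, 975)], [(1, 2439)])]),
    (0, 5, 4, [(3, 244, [(1, 765), (1, 2217), (1, 2223)], [(1, 813)]), (1, 244, [(1, 765), (1,
    2223), (2, 2277)], [(1, 813), (1, 2217)])]), (0, 6, 4, [(3, 730, [(1, 279)], [(1, 327), (1,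
    2217), (1, 2271)]), (1, 730, [(1, 279), (1, 2217)], [(1, 327), (1, 2271), (2, 2277)])]), (0,
    7, 2, [(1, 2188, [(1, 273)], [(1, 333)]), (1, 2188, [(1, 759)], [(1, 819)])]), (1, 2, 2, [(1,
    12, [(1, 351)], [(1, 3159)]), (1, 12, [(1, 837)], [(1, 3159)])]), (1, 3, 2, [(1, 30, [(1,
    333)], [(1, 2431)]), (1, 30, [(1, 819)], [(1, 2917)]), (1, 30, [(1, 2277)], [(1, 2431)]), (1,
    30, [(1, 2277)], [(1, 2917)])]), (1, 4, 12, [(7, 84, [(1, 279), (1, 765), (1, 2917)], [(1,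
    973), (1, 3159)]), (1, 84, [(1, 279), (1, 765), (1, 2917), (1, 3159)], [(1, 973)]), (4, 84,
    [(1, 279), (1, 765), (1, 2223)], [(1, 973), (1, 2917)])]), (1, 6, 2, [(1, 732, [(1, 279), (1,
    351)], [(1, 2277)]), (1, 732, [(1, 325)], [(1, 2277), (1, 2439)])]), (1, 7, 2, [(1, 2190, [(1,
    279)], [(1, 757)]), (1, 2190, [(1, 279)], [(1, 837)]), (1, 2190, [(1, 757)], [(1, 981)])]),
    (2, 3, 4, [(3, 36, [(1, 327), (1, 813), (1, 2431)], [(1, 973), (1, 2917)]), (1, 36, [(1, 327),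
    (1, 813), (1, 2917)], [(1, 973), (1, 2431)])]), (2, 4, 2, [(1, 90, [(1, 273)], [(1, 2431)]),
    (1, 90, [(1, 759)], [(1, 2917)]), (1, 90, [(1, 2217)], [(1, 2431)]), (1, 90, [(1, 2217)], [(1,
    2917)])]), (2, 5, 2, [(1, 252, [(1, 813), (1, 837)], [(1, 2217)]), (1, 252, [(1, 757)], [(1,
    2217), (1, 2919)])]), (2, 7, 2, [(1, 2196, [(1, 325)], [(1, 813)]), (1, 2196, [(1, 325)], [(1,
    975)]), (1, 2196, [(1, 351)], [(1, 813)])]), (3, 4, 2, [(1, 108, [(1, 255)], [(1, 3159)]), (1,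
    108, [(1, 741)], [(1, 3159)])]), (3, 5, 2, [(1, 270, [(1, 741), (1, 813)], [(1, 2277)]), (1,
    270, [(1, 739)], [(1, 2277), (1, 2997)])]), (3, 7, 2, [(1, 2214, [(1, 247)], [(1, 813)]), (1,
    2214, [(1, 247)], [(1, 1053)]), (1, 2214, [(1, 255)], [(1, 813)])]), (4, 6, 2, [(1, 810, [(1,
    255), (1, 279)], [(1, 2217)]), (1, 810, [(1, 247)], [(1, 2217), (1, 2457)])]), (4, 7, 2, [(1,
    2268, [(1, 279)], [(1, 739)]), (1, 2268, [(1, 279)], [(1, 741)]), (1, 2268, [(1, 739)], [(1,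
    999)])]), (5, 7, 2, [(1, 2430, [(1, 741)], [(1, 837)])]), (6, 7, 2, [(1, 2916, [(1, 255)],
    [(1, 351)])])]

theorem ok69 : chkAll cb69 xb69 = true := by decide +kernel

def cb70 : List ℕ :=
  [274, 280, 282, 328, 334, 336, 354, 360, 760, 766, 768, 814, 820, 822, 840, 846, 976, 982, 984,
    1000, 1002, 1008, 1054, 1062, 1080, 2218, 2224, 2226, 2272, 2278, 2280, 2298, 2304, 2434,
    2440, 2442, 2458, 2466, 2512, 2514, 2520, 2538, 2920, 2926, 2928, 2944, 2946, 2952, 2998,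
    3000, 3006, 3024, 3160, 3162, 3186, 3240]

def xb70 : List Entry :=
  [(0, 1, 2, [(1, 4, [(1, 999)], [(1, 2511)])]), (0, 5, 2, [(1, 244, [(1, 759)], [(1, 819)]), (1,
    244, [(1, 759)], [(1, 2271)]), (1, 244, [(1, 819)], [(1, 2919)]), (1, 244, [(1, 2223)], [(1,
    2271)]), (1, 244, [(1, 2223)], [(1, 2919)]), (2, 256, [(1, 756)], [(1, 2268)])]), (0, 6, 2,
    [(1, 730, [(1, 273)], [(1, 333)]), (1, 730, [(1, 333)], [(1, 2433)])]), (0, 7, 2, [(1, 2188,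
    [(1, 279)], [(1, 327)]), (1, 2188, [(1, 279)], [(1, 975)])]), (1, 2, 2, [(1, 12, [(1, 999)],
    [(1, 2511)])]), (1, 3, 2, [(1, 30, [(1, 333)], [(1, 973)]), (1, 30, [(1, 819)], [(1, 973)])]),
    (1, 4, 2, [(1, 84, [(1, 279)], [(1, 2431)]), (1, 84, [(1, 2223)], [(1, 2431)])]), (1, 6, 2,
    [(1, 732, [(1, 279)], [(1, 2431)]), (1, 732, [(1, 2223)], [(1, 2431)])]), (1, 7, 2, [(1, 2190,
    [(1, 333)], [(1, 973)]), (1, 2190, [(1, 819)], [(1, 973)])]), (2, 3, 2, [(1, 36, [(1, 327),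
    (1, 2919)], [(1, 2431)]), (1, 36, [(1, 975), (1, 2271)], [(1, 2431)])]), (2, 4, 2, [(1, 90,
    [(1, 273), (1, 2919)], [(1, 973)]), (1, 90, [(1, 759), (1, 2433)], [(1, 973)])]), (2, 5, 2,
    [(1, 252, [(1, 759)], [(1, 2271)])]), (3, 6, 2, [(1, 756, [(1, 247)], [(1, 2271)]), (1, 756,
    [(1, 247)], [(1, 2511)]), (1, 756, [(1, 255)], [(1, 2271)]), (1, 756, [(1, 255)], [(1,
    2511)])]), (4, 7, 2, [(1, 2268, [(1, 247)], [(1, 759)]), (1, 2268, [(1, 247)], [(1, 999)]),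
    (1, 2268, [(1, 255)], [(1, 759)]), (1, 2268, [(1, 255)], [(1, 999)])])]

theorem ok70 : chkAll cb70 xb70 = true := by decide +kernel

def cb71 : List ℕ :=
  [274, 280, 282, 328, 334, 336, 354, 360, 760, 766, 768, 814, 820, 822, 840, 846, 976, 982, 984,
    1000, 1002, 1008, 1054, 1062, 1080, 2218, 2224, 2226, 2272, 2278, 2280, 2298, 2304, 2434,
    2440, 2442, 2458, 2460, 2466, 2512, 2514, 2538, 2920, 2926, 2928, 2944, 2952, 2998, 3000,
    3006, 3024, 3162, 3168, 3186, 3240]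

def xb71 : List Entry :=
  [(0, 1, 8, [(2, 4, [(1, 999), (1, 2277)], [(1, 2457), (1, 2997)]), (5, 4, [(1, 999), (1, 2457)],
    [(1, 2511), (1, 2997)]), (1, 4, [(1, 999), (1, 2457), (1, 2511)], [(1, 2997)])]), (0, 2, 2,
    [(1, 10, [(1, 1053)], [(1, 2457)]), (1, 10, [(1, 2457)], [(1, 2997)])]), (0, 3, 2, [(1, 28,
    [(1, 975)], [(1, 2925)]), (1, 28, [(1, 2433)], [(1, 2925)])]), (0, 4, 8, [(2, 82, [(1, 759),
    (1, 981)], [(1, 2433), (1, 2925)]), (5, 82, [(1, 981), (1, 2925)], [(1, 2433), (1, 2919)]),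
    (1, 82, [(1, 981), (1, 2919), (1, 2925)], [(1, 2433)])]), (0, 5, 2, [(1, 244, [(1, 759)], [(1,
    819)]), (1, 244, [(1, 819)], [(1, 2271)]), (1, 244, [(1, 2223)], [(1, 2271)]), (1, 352, [(1,
    738)], [(1, 2190)])]), (0, 6, 2, [(1, 730, [(1, 273)], [(1, 333)]), (1, 730, [(1, 273)], [(1,
    2271)]), (1, 730, [(1, 2223)], [(1, 2271)]), (1, 742, [(1, 270)], [(1, 2268)])]), (0, 7, 2,
    [(1, 2188, [(1, 273)], [(1, 819)]), (1, 2188, [(1, 279)], [(1, 327)]), (1, 2188, [(1, 765)],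
    [(1, 813)])]), (1, 3, 2, [(1, 30, [(1, 333)], [(1, 973)]), (1, 30, [(1, 819)], [(1, 973)])]),
    (1, 4, 2, [(1, 84, [(1, 279)], [(1, 2431)]), (1, 84, [(1, 765)], [(1, 2917)]), (1, 84, [(1,
    2223)], [(1, 2431)]), (1, 84, [(1, 2223)], [(1, 2917)]), (1, 1056, [(1, 36)], [(1, 2188)])]),
    (1, 5, 4, [(1, 246, [(1, 757), (1, 2269)], [(1, 2925)]), (2, 246, [(1, 2215), (1, 2269)], [(1,
    2925)]), (1, 246, [(1, 757)], [(1, 2269), (1, 2925)])]), (1, 7, 4, [(1, 2190, [(1, 325), (1,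
    811)], [(1, 837), (1, 981)]), (1, 2190, [(1, 325), (1, 837)], [(1, 811), (1, 981)]), (2, 2190,
    [(1, 351), (1, 837)], [(1, 819)]), (2, 2190, [(1, 325), (1, 811)], [(1, 819), (1, 981)])]),
    (2, 3, 2, [(1, 36, [(1, 327)], [(1, 2431)]), (1, 36, [(1, 813)], [(1, 2917)]), (1, 36, [(1,
    2271)], [(1, 2431)]), (1, 36, [(1, 2271)], [(1, 2917)]), (1, 1008, [(1, 84)], [(1, 2188)])]),
    (2, 4, 2, [(1, 90, [(1, 273)], [(1, 973)]), (1, 90, [(1, 759)], [(1, 973)])]), (2, 5, 2, [(1,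
    252, [(1, 811)], [(1, 2919)])]), (2, 6, 2, [(1, 738, [(1, 271), (1, 325)], [(1, 2271), (1,
    2433)]), (1, 738, [(1, 273), (1, 351)], [(1, 2271)]), (1, 738, [(1, 325), (1, 2215), (1,
    2269)], [(1, 2433)])]), (2, 7, 2, [(1, 2196, [(1, 757)], [(1, 975)])]), (3, 5, 2, [(1, 270,
    [(1, 733), (1, 2191), (1, 2197)], [(1, 2997)]), (1, 270, [(1, 819)], [(1, 2191), (1, 2271)]),
    (1, 270, [(1, 733), (1, 741)], [(1, 2271), (1, 2997)])]), (3, 6, 2, [(1, 756, [(1, 247)], [(1,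
    2511)])]), (3, 7, 2, [(1, 2214, [(1, 253)], [(1, 1053)])]), (4, 6, 4, [(1, 810, [(1, 253), (1,
    2191)], [(1, 2457)]), (2, 810, [(1, 2191), (1, 2197)], [(1, 2457)]), (1, 810, [(1, 253)], [(1,
    2191), (1, 2457)])]), (4, 7, 4, [(1, 2268, [(1, 247), (1, 733)], [(1, 739), (1, 999)]), (1,
    2268, [(1, 247), (1, 733), (1, 739)], [(1, 999)]), (2, 2268, [(1, 273), (1, 999)], [(1, 733),
    (1, 741)])])]

theorem ok71 : chkAll cb71 xb71 = true := by decide +kernel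

def cb72 : List ℕ :=
  [274, 280, 282, 328, 334, 336, 354, 360, 760, 766, 768, 814, 820, 822, 840, 846, 976, 982, 984,
    1000, 1002, 1008, 1054, 1062, 1080, 2218, 2224, 2226, 2272, 2278, 2280, 2298, 2304, 2434,
    2440, 2442, 2458, 2460, 2466, 2512, 2520, 2538, 2920, 2926, 2928, 2944, 2946, 2952, 2998,
    3006, 3024]

def xb72 : List Entry :=
  [(0, 5, 2, [(1, 244, [(1, 759)], [(1, 819)]), (1, 244, [(1, 759)], [(1, 2277)]), (1, 244, [(1,
    2217)], [(1, 2277)])]), (0, 6, 2, [(1, 730, [(1, 273)], [(1, 333)]), (1, 730, [(1, 273)], [(1,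
    2277)]), (1, 730, [(1, 2217)], [(1, 2277)])]), (0, 7, 2, [(1, 2188, [(1, 273)], [(1, 333)]),
    (1, 2188, [(1, 273)], [(1, 819)]), (1, 2188, [(1, 759)], [(1, 819)])]), (1, 3, 2, [(1, 30,
    [(1, 333)], [(1, 973)]), (1, 30, [(1, 333)], [(1, 2431)]), (1, 30, [(1, 819)], [(1, 973)]),
    (1, 30, [(1, 819)], [(1, 2917)]), (1, 30, [(1, 2277)], [(1, 2431)]), (1, 30, [(1, 2277)], [(1,
    2917)]), (3, 1002, [(1, 90)], [(1, 2188)])]), (2, 4, 2, [(1, 90, [(1, 273)], [(1, 973)]), (1,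
    90, [(1, 273)], [(1, 2431)]), (1, 90, [(1, 759)], [(1, 973)]), (1, 90, [(1, 759)], [(1,
    2917)]), (1, 90, [(1, 2217)], [(1, 2431)]), (1, 90, [(1, 2217)], [(1, 2917)]), (3, 1062, [(1,
    30)], [(1, 2188)])])]

theorem ok72 : chkAll cb72 xb72 = true := by decide +kernel

def cb73 : List ℕ :=
  [274, 280, 282, 328, 334, 336, 354, 360, 760, 766, 768, 814, 820, 822, 840, 846, 976, 982, 984,
    1000, 1002, 1008, 1054, 1056, 1062, 1080, 2218, 2224, 2226, 2272, 2278, 2280, 2298, 2304,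
    2434, 2440, 2442, 2458, 2460, 2466, 2512, 2514, 2520, 2538, 2920, 2926, 2928, 2944, 2946,
    2952, 2998, 3000, 3006, 3024]

def xb73 : List Entry :=
  []

theorem ok73 : chkAll cb73 xb73 = true := by decide +kernel

def cb74 : List ℕ :=
  [760, 766, 768, 814, 820, 822, 838, 840, 846, 976, 982, 984, 1000, 1002, 1008, 1054, 1056, 1062,
    2218, 2224, 2226, 2272, 2278, 2280, 2296, 2298, 2304, 2434, 2440, 2442, 2458, 2460, 2466,
    2512, 2514, 2520, 2944, 2946, 2952, 2998, 3000, 3006, 3160, 3162, 3168]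

def xb74 : List Entry :=
  []

theorem ok74 : chkAll cb74 xb74 = true := by decide +kernel

def cb75 : List ℕ :=
  [760, 766, 768, 814, 820, 822, 838, 840, 846, 976, 982, 984, 1000, 1002, 1008, 1054, 1056, 1062,
    2218, 2224, 2226, 2272, 2278, 2280, 2296, 2298, 2304, 2434, 2440, 2442, 2458, 2460, 2466,
    2512, 2514, 2520, 2944, 2946, 2952, 2998, 3000, 3006, 3024, 3160, 3162, 3168, 3186, 3240]

def xb75 : List Entry :=
  []

theorem ok75 : chkAll cb75 xb75 = true := by decide +kernel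

def cb76 : List ℕ :=
  [760, 766, 768, 814, 820, 822, 838, 840, 846, 976, 982, 984, 1000, 1002, 1008, 1054, 1056, 1062,
    2218, 2224, 2226, 2272, 2278, 2280, 2296, 2298, 2304, 2434, 2440, 2442, 2458, 2460, 2466,
    2512, 2514, 2520, 2920, 2926, 2928, 2946, 2952, 2998, 3006, 3024, 3160, 3162, 3168, 3186,
    3240]

def xb76 : List Entry :=
  [(0, 4, 2, [(1, 82, [(1, 759)], [(1, 2925)]), (1, 82, [(1, 759)], [(1, 3159)]), (1, 82, [(1,
    2217)], [(1, 2925)]), (1, 82, [(1, 2217)], [(1, 3159)])]), (1, 3, 2, [(1, 30, [(1, 811)], [(1,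
    2925)]), (1, 30, [(1, 811)], [(1, 3159)]), (1, 30, [(1, 2269)], [(1, 2925)]), (1, 30, [(1,
    2269)], [(1, 3159)])]), (2, 6, 2, [(1, 738, [(1, 2217)], [(1, 2269)])]), (2, 7, 2, [(1, 2196,
    [(1, 759)], [(1, 811)])]), (5, 6, 2, [(1, 972, [(1, 2217)], [(1, 2269)])]), (5, 7, 2, [(1,
    2430, [(1, 759)], [(1, 811)])])]

theorem ok76 : chkAll cb76 xb76 = true := by decide +kernel

def cb77 : List ℕ :=
  [760, 766, 768, 814, 820, 822, 838, 840, 846, 976, 982, 984, 1000, 1002, 1008, 1054, 1056, 1062,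
    2218, 2224, 2226, 2272, 2278, 2280, 2296, 2298, 2304, 2434, 2440, 2442, 2458, 2460, 2466,
    2512, 2514, 2520, 2920, 2926, 2928, 2944, 2946, 2998, 3006, 3024, 3162, 3168, 3186, 3240]

def xb77 : List Entry :=
  [(0, 3, 2, [(1, 28, [(1, 981)], [(1, 2919)]), (1, 28, [(1, 981)], [(1, 2997)]), (1, 28, [(1,
    2439)], [(1, 2919)]), (1, 28, [(1, 2439)], [(1, 2997)])]), (0, 4, 2, [(1, 82, [(1, 975)], [(1,
    2925)]), (1, 82, [(1, 975)], [(1, 2943)]), (1, 82, [(1, 2433)], [(1, 2925)]), (1, 82, [(1,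
    2433)], [(1, 2943)])]), (0, 6, 2, [(1, 730, [(1, 2217)], [(1, 2277)])]), (0, 7, 2, [(1, 2188,
    [(1, 759)], [(1, 819)])]), (1, 3, 2, [(1, 30, [(1, 819)], [(1, 2917)]), (1, 30, [(1, 819)],
    [(1, 3159)]), (1, 30, [(1, 2277)], [(1, 2917)]), (1, 30, [(1, 2277)], [(1, 3159)])]), (1, 5,
    2, [(1, 246, [(1, 811)], [(1, 2925)]), (1, 246, [(1, 811)], [(1, 2943)]), (1, 246, [(1,
    2269)], [(1, 2925)]), (1, 246, [(1, 2269)], [(1, 2943)])]), (1, 6, 2, [(1, 732, [(1, 2215)],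
    [(1, 2439)])]), (1, 7, 2, [(1, 2190, [(1, 757)], [(1, 981)])]), (2, 4, 2, [(1, 90, [(1, 759)],
    [(1, 2917)]), (1, 90, [(1, 759)], [(1, 3159)]), (1, 90, [(1, 2217)], [(1, 2917)]), (1, 90,
    [(1, 2217)], [(1, 3159)])]), (2, 5, 2, [(1, 252, [(1, 757)], [(1, 2919)]), (1, 252, [(1,
    757)], [(1, 2997)]), (1, 252, [(1, 2215)], [(1, 2919)]), (1, 252, [(1, 2215)], [(1, 2997)])]),
    (2, 6, 2, [(1, 738, [(1, 2269)], [(1, 2433)])]), (2, 7, 2, [(1, 2196, [(1, 811)], [(1,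
    975)])]), (3, 6, 2, [(1, 756, [(1, 2269)], [(1, 2433)])]), (3, 7, 2, [(1, 2214, [(1, 811)],
    [(1, 975)])]), (4, 6, 2, [(1, 810, [(1, 2215)], [(1, 2439)])]), (4, 7, 2, [(1, 2268, [(1,
    757)], [(1, 981)])]), (5, 6, 2, [(1, 972, [(1, 2217)], [(1, 2277)])]), (5, 7, 2, [(1, 2430,
    [(1, 759)], [(1, 819)])])]

theorem ok77 : chkAll cb77 xb77 = true := by decide +kernel

def cb79 : List ℕ :=
  [274, 280, 282, 328, 334, 336, 352, 354, 360, 760, 766, 768, 814, 820, 822, 838, 840, 846, 1000,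
    1002, 1008, 1054, 1056, 1062, 2218, 2224, 2226, 2272, 2278, 2280, 2296, 2298, 2304, 2434,
    2440, 2442, 2458, 2466, 2512, 2514, 2520, 2538, 2920, 2926, 2928, 2944, 2946, 2952, 2998,
    3006, 3024, 3160, 3162, 3168, 3186, 3240]

def xb79 : List Entry :=
  [(0, 3, 2, [(1, 28, [(1, 327)], [(1, 3159)])]), (0, 4, 2, [(1, 82, [(1, 759)], [(1, 3159)])]),
    (0, 5, 2, [(1, 244, [(1, 759)], [(1, 2295)])]), (0, 6, 2, [(1, 730, [(1, 327)], [(1,
    2295)])]), (0, 7, 1, [(1, 2188, [(1, 327)], [(1, 759)]), (1, 2200, [(1, 324)], [(1, 756)])]),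
    (1, 3, 2, [(1, 30, [(1, 811)], [(1, 3159)]), (1, 30, [(1, 819)], [(1, 3159)])]), (1, 4, 2,
    [(1, 84, [(1, 271)], [(1, 3159)]), (1, 84, [(1, 279)], [(1, 3159)])]), (1, 5, 2, [(1, 246,
    [(1, 811)], [(1, 2295)]), (1, 246, [(1, 819)], [(1, 2295)])]), (1, 6, 2, [(1, 732, [(1, 271)],
    [(1, 2295)]), (1, 732, [(1, 279)], [(1, 2295)])]), (2, 3, 2, [(1, 36, [(1, 327)], [(1,
    3159)])]), (2, 4, 2, [(1, 90, [(1, 759)], [(1, 3159)])]), (2, 5, 2, [(1, 252, [(1, 759)], [(1,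
    2295)])]), (2, 6, 2, [(1, 738, [(1, 327)], [(1, 2295)])]), (2, 7, 1, [(1, 2196, [(1, 327)],
    [(1, 759)]), (1, 2200, [(1, 324)], [(1, 756)])]), (3, 6, 4, [(3, 756, [(1, 325), (1, 327)],
    [(1, 2191), (1, 2197), (1, 2199)]), (1, 756, [(1, 325), (1, 2191), (1, 2199)], [(1, 327), (1,
    2197)])]), (3, 7, 2, [(1, 2214, [(1, 327)], [(1, 811)]), (1, 2214, [(1, 327)], [(1, 819)])]),
    (4, 5, 4, [(3, 324, [(1, 757), (1, 759)], [(1, 2191), (1, 2197), (1, 2199)]), (1, 324, [(1,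
    757), (1, 2191), (1, 2199)], [(1, 759), (1, 2197)])]), (4, 7, 2, [(1, 2268, [(1, 271)], [(1,
    759)]), (1, 2268, [(1, 279)], [(1, 759)])]), (5, 7, 2, [(1, 2430, [(1, 759)], [(1, 811)]), (1,
    2430, [(1, 759)], [(1, 819)])]), (6, 7, 2, [(1, 2916, [(1, 271)], [(1, 327)]), (1, 2916, [(1,
    279)], [(1, 327)])])]

theorem ok79 : chkAll cb79 xb79 = true := by decide +kernel

def cb80 : List ℕ :=
  [274, 280, 282, 328, 334, 336, 352, 354, 360, 760, 766, 768, 814, 820, 822, 838, 840, 846, 1000,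
    1002, 1008, 1054, 1056, 1062, 2218, 2224, 2226, 2272, 2278, 2280, 2296, 2298, 2304, 2434,
    2440, 2442, 2460, 2466, 2512, 2514, 2538, 2920, 2926, 2928, 2944, 2952, 2998, 3000, 3006,
    3024, 3160, 3162, 3168, 3186, 3240]

def xb80 : List Entry :=
  [(0, 3, 2, [(1, 28, [(1, 813)], [(1, 3159)])]), (0, 4, 2, [(1, 82, [(1, 273), (1, 279)], [(1,
    2919), (1, 3159)]), (1, 82, [(1, 279), (1, 2223)], [(1, 2433), (1, 3159)])]), (0, 5, 2, [(1,
    244, [(1, 819)], [(1, 2295)])]), (0, 6, 4, [(1, 730, [(1, 273), (1, 279)], [(1, 2295), (1,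
    2439)]), (1, 730, [(1, 273), (1, 2439)], [(1, 279), (1, 2295)]), (2, 730, [(1, 2223)], [(1,
    2433), (1, 2439)]), (2, 730, [(1, 273), (1, 279)], [(1, 2223), (1, 2295)])]), (0, 7, 2, [(1,
    2188, [(1, 273)], [(1, 813)]), (1, 2188, [(1, 273)], [(1, 819)]), (1, 2188, [(1, 279)], [(1,
    819)])]), (1, 3, 2, [(1, 30, [(1, 325)], [(1, 3159)])]), (1, 4, 4, [(1, 84, [(1, 279), (1,
    757)], [(1, 3159)]), (2, 84, [(1, 279), (1, 765)], [(1, 3159)]), (1, 84, [(1, 279), (1,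
    3159)], [(1, 757)])]), (1, 5, 4, [(2, 246, [(1, 757), (1, 765)], [(1, 2223), (1, 2295)]), (2,
    246, [(1, 2223)], [(1, 2269), (1, 2917)]), (2, 246, [(1, 765)], [(1, 811), (1, 2269)]), (1,
    246, [(1, 757), (1, 819)], [(1, 811), (1, 2295)]), (1, 246, [(1, 757), (1, 811), (1, 819)],
    [(1, 2295)])]), (1, 7, 2, [(1, 2190, [(1, 279)], [(1, 325)]), (1, 2190, [(1, 279)], [(1,
    819)]), (1, 2190, [(1, 325)], [(1, 757)]), (1, 3162, [(1, 36)], [(1, 82)])]), (2, 3, 8, [(2,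
    36, [(1, 325), (1, 327)], [(1, 2433), (1, 3159)]), (1, 36, [(1, 327)], [(1, 813), (1, 2917)]),
    (1, 36, [(1, 327), (1, 813)], [(1, 2917)]), (3, 36, [(1, 325), (1, 327), (1, 813)], [(1,
    3159)]), (1, 36, [(1, 325), (1, 2917)], [(1, 327), (1, 3159)]), (1, 36, [(1, 325), (1, 813)],
    [(1, 2433), (1, 3159)]), (3, 36, [(1, 2269), (1, 2917)], [(1, 2433)]), (1, 36, [(1, 811), (1,
    2269)], [(1, 2433)]), (1, 36, [(1, 325), (1, 2917)], [(1, 2433), (1, 3159)])]), (2, 5, 2, [(1,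
    252, [(1, 757)], [(1, 2295)])]), (2, 6, 4, [(1, 738, [(1, 273), (1, 325)], [(1, 2295)]), (2,
    738, [(1, 273), (1, 327)], [(1, 2295)]), (1, 738, [(1, 273), (1, 2295)], [(1, 325)])]), (2, 7,
    2, [(1, 2196, [(1, 273)], [(1, 757)]), (1, 2196, [(1, 273)], [(1, 813)]), (1, 2196, [(1,
    325)], [(1, 757)]), (1, 2304, [(1, 246)], [(1, 730)])]), (3, 5, 2, [(1, 270, [(1, 813)], [(1,
    2191)]), (1, 270, [(1, 813)], [(1, 2199)]), (1, 270, [(1, 819)], [(1, 2197)]), (1, 270, [(1,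
    819)], [(1, 2199)]), (1, 274, [(1, 810)], [(1, 2196)])]), (3, 6, 2, [(1, 756, [(1, 325)], [(1,
    2191)]), (1, 756, [(1, 325)], [(1, 2197)])]), (3, 7, 2, [(1, 2214, [(1, 325)], [(1, 819)]),
    (1, 2214, [(1, 327)], [(1, 819)])]), (4, 5, 2, [(1, 324, [(1, 757)], [(1, 2191)]), (1, 324,
    [(1, 757)], [(1, 2197)])]), (4, 6, 2, [(1, 810, [(1, 273)], [(1, 2191)]), (1, 810, [(1, 273)],
    [(1, 2199)]), (1, 810, [(1, 279)], [(1, 2197)]), (1, 810, [(1, 279)], [(1, 2199)]), (1, 814,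
    [(1, 270)], [(1, 2196)])]), (4, 7, 8, [(2, 2268, [(1, 273), (1, 765)], [(1, 757), (1, 981)]),
    (5, 2268, [(1, 273), (1, 279)], [(1, 757), (1, 765)]), (1, 2268, [(1, 273)], [(1, 279), (1,
    757), (1, 765)])]), (5, 7, 2, [(1, 2430, [(1, 757)], [(1, 813)]), (1, 2430, [(1, 765)], [(1,
    813)])]), (6, 7, 8, [(2, 2916, [(1, 31), (1, 325)], [(1, 279), (1, 327)]), (5, 2916, [(1,
    273), (1, 279)], [(1, 325), (1, 327)]), (1, 2916, [(1, 273), (1, 325), (1, 327)], [(1,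
    279)])])]

theorem ok80 : chkAll cb80 xb80 = true := by decide +kernel

def cb81 : List ℕ :=
  [274, 280, 282, 328, 334, 336, 352, 354, 360, 760, 766, 768, 814, 820, 822, 838, 840, 846, 1000,
    1002, 1008, 1054, 1056, 1062, 2218, 2224, 2226, 2272, 2278, 2280, 2296, 2298, 2304, 2434,
    2440, 2442, 2458, 2460, 2466, 2512, 2514, 2520, 2920, 2926, 2928, 2998, 3000, 3006, 3160,
    3162, 3168]

def xb81 : List Entry :=
  [(0, 7, 2, [(1, 2188, [(1, 273)], [(1, 813)]), (1, 2188, [(1, 273)], [(1, 819)]), (1, 2188, [(1,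
    279)], [(1, 819)])]), (1, 7, 2, [(1, 2190, [(1, 271)], [(1, 811)]), (1, 2190, [(1, 271)], [(1,
    819)]), (1, 2190, [(1, 279)], [(1, 819)])]), (2, 7, 2, [(1, 2196, [(1, 271)], [(1, 811)]), (1,
    2196, [(1, 271)], [(1, 813)]), (1, 2196, [(1, 273)], [(1, 813)])]), (3, 5, 2, [(1, 270, [(1,
    811)], [(1, 2191)]), (1, 270, [(1, 811)], [(1, 2197)]), (1, 270, [(1, 813)], [(1, 2191)]), (1,
    270, [(1, 813)], [(1, 2199)]), (1, 270, [(1, 819)], [(1, 2197)]), (1, 270, [(1, 819)], [(1,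
    2199)]), (3, 274, [(1, 810)], [(1, 2196)])]), (4, 6, 2, [(1, 810, [(1, 271)], [(1, 2191)]),
    (1, 810, [(1, 271)], [(1, 2197)]), (1, 810, [(1, 273)], [(1, 2191)]), (1, 810, [(1, 273)],
    [(1, 2199)]), (1, 810, [(1, 279)], [(1, 2197)]), (1, 810, [(1, 279)], [(1, 2199)]), (3, 814,
    [(1, 270)], [(1, 2196)])])]

theorem ok81 : chkAll cb81 xb81 = true := by decide +kernel

def cb82 : List ℕ :=
  [274, 280, 282, 328, 334, 336, 352, 354, 360, 760, 766, 768, 814, 820, 822, 838, 840, 846, 1000,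
    1002, 1008, 1054, 1056, 1062, 2218, 2224, 2226, 2272, 2278, 2280, 2296, 2298, 2304, 2434,
    2440, 2442, 2458, 2460, 2466, 2512, 2514, 2520, 2920, 2926, 2928, 2944, 2946, 2952, 2998,
    3000, 3006, 3160, 3162, 3168]

def xb82 : List Entry :=
  []

theorem ok82 : chkAll cb82 xb82 = true := by decide +kernel

end Pool.Agent.H75.Ray
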