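import Pool.Agent.H75.Ray.Chk

/-!
# Certificates for the matroids number 83, 84, 85, 86, 87, 88, 89, 90, 92, 93, 94, 95, 96 (MP_934449_co)

`cb i`: the codes of the bases of the matroid `i`, `xb i`: the certificates of the pairs which need one.
-/

set_option autoImplicit false

namespace Pool.Agent.H75.Ray

def cb83 : List ℕ :=
  [274, 280, 282, 328, 334, 336, 352, 354, 360, 760, 766, 768, 814, 820, 822, 838, 840, 846, 1000,
    1002, 1008, 1054, 1056, 1062, 1080, 2218, 2224, 2226, 2272, 2278, 2280, 2296, 2298, 2304,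
    2434, 2440, 2442, 2512, 2514, 2520, 2920, 2926, 2928, 2944, 2946, 2952, 2998, 3006, 3024,
    3160, 3162, 3168, 3240]

def xb83 : List Entry :=
  [(0, 7, 4, [(1, 2188, [(1, 327), (1, 1053)], [(1, 759), (1, 837)]), (1, 2188, [(1, 327)], [(1,
    759), (1, 837), (1, 1053)]), (2, 2188, [(1, 327), (1, 333), (1, 1053)], [(1, 759), (1,
    765)])]), (1, 3, 2, [(1, 30, [(1, 1053)], [(1, 2917)]), (1, 30, [(1, 1053)], [(1, 2925)])]),
    (1, 5, 2, [(1, 246, [(1, 837)], [(1, 2269)]), (1, 246, [(1, 837)], [(1, 2277)])]), (1, 7, 2,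
    [(1, 2190, [(1, 325)], [(1, 757)]), (1, 2190, [(1, 333)], [(1, 765)])]), (2, 7, 4, [(1, 2196,
    [(1, 327), (1, 837), (1, 1053)], [(1, 759)]), (1, 2196, [(1, 327), (1, 1053)], [(1, 759), (1,
    837)]), (2, 2196, [(1, 325), (1, 327)], [(1, 757), (1, 759), (1, 837)])]), (3, 6, 32, [(8,
    756, [(1, 327)], [(1, 333), (1, 2191), (1, 2197), (1, 2199)]), (4, 756, [(1, 325), (1, 2191),
    (1, 2197), (1, 2199)], [(1, 327), (1, 333)]), (17, 756, [(1, 325), (1, 327), (1, 333)], [(1,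
    2191), (1, 2197), (1, 2199), (1, 2269), (1, 2277)]), (1, 756, [(1, 325), (1, 327), (1, 333),
    (1, 2269)], [(1, 2191), (1, 2197), (1, 2199), (1, 2277)]), (1, 756, [(1, 325), (1, 327), (1,
    333), (1, 2277)], [(1, 2191), (1, 2197), (1, 2199), (1, 2269)]), (1, 756, [(1, 325), (1, 327),
    (1, 333), (1, 2269), (1, 2277)], [(1, 2191), (1, 2197), (1, 2199)])]), (4, 5, 32, [(8, 324,
    [(1, 759)], [(1, 765), (1, 2191), (1, 2197), (1, 2199)]), (4, 324, [(1, 757), (1, 2191), (1,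
    2197), (1, 2199)], [(1, 759), (1, 765)]), (17, 324, [(1, 757), (1, 759), (1, 765)], [(1,
    2191), (1, 2197), (1, 2199), (1, 2917), (1, 2925)]), (1, 324, [(1, 757), (1, 759), (1, 765),
    (1, 2925)], [(1, 2191), (1, 2197), (1, 2199), (1, 2917)]), (1, 324, [(1, 757), (1, 759), (1,
    765), (1, 2917)], [(1, 2191), (1, 2197), (1, 2199), (1, 2925)]), (1, 324, [(1, 757), (1, 759),
    (1, 765), (1, 2917), (1, 2925)], [(1, 2191), (1, 2197), (1, 2199)])])]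

theorem ok83 : chkAll cb83 xb83 = true := by decide +kernel

def cb84 : List ℕ :=
  [274, 280, 282, 328, 334, 336, 352, 354, 360, 760, 766, 768, 814, 820, 822, 838, 840, 846, 1000,
    1002, 1008, 1054, 1056, 1062, 1080, 2218, 2224, 2226, 2272, 2278, 2280, 2296, 2298, 2304,
    2434, 2440, 2442, 2460, 2466, 2512, 2520, 2538, 2920, 2926, 2928, 2944, 2952, 2998, 3000,
    3024, 3160, 3162, 3168, 3186, 3240]

def xb84 : List Entry :=
  [(0, 1, 2, [(1, 4, [(1, 2295)], [(1, 3159)])]), (0, 4, 2, [(1, 82, [(1, 2217), (1, 2919)], [(1,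
    2439)]), (1, 82, [(1, 273)], [(1, 2439), (1, 3159)])]), (0, 6, 2, [(1, 730, [(1, 2223)], [(1,
    2271), (1, 2433)]), (1, 730, [(1, 273)], [(1, 2223), (1, 2295)])]), (0, 7, 4, [(3, 2188, [(1,
    273), (1, 279), (1, 333)], [(1, 813)]), (1, 2188, [(1, 273), (1, 279), (2, 765)], [(1, 333),
    (1, 813)])]), (1, 2, 2, [(1, 12, [(1, 2295)], [(1, 3159)])]), (1, 3, 2, [(1, 30, [(1, 325)],
    [(1, 2439)]), (1, 30, [(1, 325)], [(1, 3159)]), (1, 30, [(1, 2269)], [(1, 2439)])]), (1, 4, 2,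
    [(1, 84, [(1, 765)], [(1, 2917)]), (1, 84, [(1, 765)], [(1, 3159)]), (1, 84, [(1, 2223)], [(1,
    2917)])]), (1, 5, 2, [(1, 246, [(1, 757)], [(1, 2223)]), (1, 246, [(1, 757)], [(1, 2295)]),
    (1, 246, [(1, 2223)], [(1, 2917)])]), (1, 6, 2, [(1, 732, [(1, 333)], [(1, 2269)]), (1, 732,
    [(1, 333)], [(1, 2295)]), (1, 732, [(1, 2269)], [(1, 2439)])]), (1, 7, 2, [(1, 2190, [(1,
    325)], [(1, 757)]), (1, 2190, [(1, 333)], [(1, 765)])]), (2, 3, 2, [(1, 36, [(1, 2271), (1,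
    2433)], [(1, 2917)]), (1, 36, [(1, 813)], [(1, 2917), (1, 3159)])]), (2, 5, 2, [(1, 252, [(1,
    2217), (1, 2919)], [(1, 2269)]), (1, 252, [(1, 813)], [(1, 2269), (1, 2295)])]), (2, 7, 4,
    [(3, 2196, [(1, 273)], [(1, 325), (1, 811), (1, 813)]), (1, 2196, [(1, 273), (1, 325)], [(2,
    757), (1, 811), (1, 813)])]), (3, 4, 2, [(1, 108, [(1, 2191)], [(1, 3159)]), (1, 108, [(1,
    2199)], [(1, 3159)])]), (3, 5, 4, [(3, 270, [(1, 811), (1, 813)], [(1, 2191), (1, 2199), (1,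
    2997)]), (1, 270, [(1, 811), (1, 2191), (1, 2199)], [(1, 813), (1, 2997)])]), (3, 6, 2, [(1,
    756, [(1, 325)], [(1, 2191)]), (1, 756, [(1, 325)], [(1, 2197)]), (1, 756, [(1, 333)], [(1,
    2197)]), (1, 756, [(1, 333)], [(1, 2199)])]), (3, 7, 2, [(1, 2214, [(1, 333)], [(1, 813)])]),
    (4, 5, 2, [(1, 324, [(1, 757)], [(1, 2191)]), (1, 324, [(1, 757)], [(1, 2197)]), (1, 324, [(1,
    765)], [(1, 2197)]), (1, 324, [(1, 765)], [(1, 2199)])]), (4, 6, 4, [(3, 810, [(1, 273), (1,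
    279)], [(1, 2191), (1, 2199), (1, 2457)]), (1, 810, [(1, 273), (1, 2457)], [(1, 279), (1,
    2191), (1, 2199)])]), (4, 7, 2, [(1, 2268, [(1, 273)], [(1, 757)])]), (5, 6, 2, [(1, 972, [(1,
    2191)], [(1, 2295)]), (1, 972, [(1, 2199)], [(1, 2295)])]), (5, 7, 2, [(1, 2430, [(1, 765)],
    [(1, 813)])]), (6, 7, 2, [(1, 2916, [(1, 273)], [(1, 325)])])]

theorem ok84 : chkAll cb84 xb84 = true := by decide +kernel

def cb85 : List ℕ :=
  [274, 280, 282, 328, 334, 336, 352, 354, 360, 760, 766, 768, 814, 820, 822, 838, 840, 846, 1000,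
    1002, 1008, 1054, 1056, 1062, 1080, 2218, 2224, 2226, 2272, 2278, 2280, 2296, 2298, 2304,
    2434, 2440, 2442, 2458, 2466, 2512, 2514, 2538, 2920, 2926, 2928, 2944, 2946, 2952, 2998,
    3000, 3006, 3160, 3162, 3168, 3186, 3240]

def xb85 : List Entry :=
  [(0, 5, 2, [(1, 244, [(1, 2223)], [(1, 2271)])]), (0, 7, 2, [(1, 2188, [(1, 279)], [(1, 327)]),
    (1, 2188, [(1, 279)], [(1, 819)]), (1, 2188, [(1, 327)], [(1, 759)]), (1, 2188, [(1, 351)],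
    [(1, 759)]), (1, 2188, [(1, 351)], [(1, 819)]), (2, 3160, [(1, 36)], [(1, 84)])]), (1, 4, 2,
    [(1, 84, [(1, 279)], [(1, 2431)]), (1, 84, [(1, 279)], [(1, 3159)]), (1, 84, [(1, 2223)], [(1,
    2431)]), (1, 84, [(1, 2223)], [(1, 3159)])]), (1, 6, 2, [(1, 732, [(1, 351)], [(1, 2215)]),
    (1, 732, [(1, 351)], [(1, 2223)])]), (1, 7, 2, [(1, 2190, [(1, 279)], [(1, 819)]), (1, 2190,
    [(1, 351)], [(1, 819)])]), (2, 3, 2, [(1, 36, [(1, 327)], [(1, 2431)]), (1, 36, [(1, 327)],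
    [(1, 3159)]), (1, 36, [(1, 2271)], [(1, 2431)]), (1, 36, [(1, 2271)], [(1, 3159)])]), (2, 6,
    2, [(1, 738, [(1, 351)], [(1, 2269)]), (1, 738, [(1, 351)], [(1, 2271)])]), (2, 7, 2, [(1,
    2196, [(1, 327)], [(1, 759)]), (1, 2196, [(1, 351)], [(1, 759)])]), (3, 5, 2, [(1, 270, [(1,
    819)], [(1, 2199), (1, 2269)]), (1, 270, [(1, 819)], [(1, 2197), (1, 2271)])]), (3, 6, 2, [(1,
    756, [(1, 327)], [(1, 2191)]), (1, 756, [(1, 327)], [(1, 2199)])]), (4, 5, 2, [(1, 324, [(1,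
    759)], [(1, 2199), (1, 2215)]), (1, 324, [(1, 759)], [(1, 2191), (1, 2223)])]), (4, 6, 2, [(1,
    810, [(1, 279)], [(1, 2197)]), (1, 810, [(1, 279)], [(1, 2199)])]), (5, 6, 2, [(1, 972, [(1,
    2223)], [(1, 2271)])]), (6, 7, 2, [(1, 2916, [(1, 279)], [(1, 327)])])]

theorem ok85 : chkAll cb85 xb85 = true := by decide +kernel

def cb86 : List ℕ :=
  [274, 280, 282, 328, 334, 336, 352, 354, 360, 760, 766, 768, 814, 820, 822, 838, 840, 846, 976,
    982, 984, 1054, 1056, 1062, 2218, 2224, 2226, 2272, 2278, 2280, 2296, 2298, 2304, 2434, 2440,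
    2442, 2460, 2466, 2512, 2514, 2538, 2920, 2926, 2928, 2946, 2952, 2998, 3000, 3006, 3024,
    3162, 3168, 3240]

def xb86 : List Entry :=
  [(0, 4, 2, [(1, 82, [(1, 279), (1, 2925)], [(1, 2433)]), (1, 82, [(1, 981), (1, 2223)], [(1,
    2433)])]), (0, 5, 2, [(1, 244, [(1, 813)], [(1, 2223)]), (1, 244, [(1, 819)], [(1, 2223)]),
    (1, 244, [(1, 819)], [(1, 2295)])]), (1, 5, 2, [(1, 246, [(1, 819), (1, 2997)], [(1, 2295)]),
    (1, 246, [(1, 811), (1, 819)], [(1, 2223)]), (1, 246, [(1, 2223), (1, 2925)], [(1, 2269)])]),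
    (1, 7, 2, [(1, 2190, [(1, 279)], [(1, 325)]), (1, 2190, [(1, 279)], [(1, 811)]), (1, 2190,
    [(1, 325)], [(1, 981)])]), (2, 3, 2, [(1, 36, [(1, 325)], [(1, 2433)]), (1, 36, [(1, 325)],
    [(1, 2919)]), (1, 36, [(1, 2269)], [(1, 2433)])]), (2, 6, 2, [(1, 738, [(1, 327)], [(1, 2271),
    (1, 2295)]), (1, 738, [(1, 325)], [(1, 2217), (1, 2295)]), (1, 738, [(1, 325), (1, 2269)],
    [(1, 2433)])]), (3, 7, 2, [(1, 2214, [(1, 253), (1, 327)], [(1, 819)]), (1, 2214, [(1, 255),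
    (1, 325)], [(1, 819)])]), (4, 6, 2, [(1, 810, [(1, 253)], [(1, 2217)]), (1, 810, [(1, 253)],
    [(1, 2223)]), (1, 810, [(1, 255)], [(1, 2223)])])]

theorem ok86 : chkAll cb86 xb86 = true := by decide +kernel

def cb87 : List ℕ :=
  [274, 280, 282, 328, 334, 336, 352, 354, 360, 760, 766, 768, 814, 820, 822, 838, 840, 846, 976,
    982, 984, 1054, 1056, 1062, 2218, 2224, 2226, 2272, 2278, 2280, 2296, 2298, 2304, 2434, 2440,
    2442, 2458, 2466, 2512, 2514, 2538, 2920, 2926, 2928, 2944, 2952, 3000, 3006, 3024, 3160,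
    3168, 3240]

def xb87 : List Entry :=
  [(0, 3, 2, [(1, 28, [(1, 813)], [(1, 2925)]), (1, 28, [(1, 2271)], [(1, 2925)])]), (0, 5, 4,
    [(3, 244, [(1, 813), (1, 819)], [(1, 2223), (1, 2295)]), (1, 244, [(1, 813), (2, 2271), (1,
    2295)], [(1, 819), (1, 2223), (2, 2925)])]), (0, 7, 2, [(1, 2188, [(1, 279)], [(1, 327)]), (1,
    2188, [(1, 327)], [(1, 981)])]), (1, 4, 6, [(1, 84, [(1, 279), (1, 2925)], [(1, 757), (1,
    2431)]), (1, 84, [(1, 757), (1, 2215), (1, 2431)], [(1, 2925)]), (1, 84, [(1, 757), (1, 2223),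
    (1, 2925)], [(1, 2431)]), (1, 84, [(1, 973), (1, 2431)], [(1, 981), (1, 2925)]), (2, 84, [(1,
    279), (1, 981), (1, 2223), (1, 2925)], [(1, 757), (1, 973), (1, 2215), (1, 2431)])]), (1, 5,
    2, [(1, 246, [(1, 819)], [(1, 2223)]), (1, 246, [(1, 819)], [(1, 2295)])]), (1, 6, 2, [(1,
    732, [(1, 325)], [(1, 2215)]), (1, 732, [(1, 325)], [(1, 2295)])]), (1, 7, 2, [(1, 2190, [(1,
    325)], [(1, 819)])]), (2, 3, 2, [(1, 36, [(1, 327)], [(1, 2431)]), (1, 36, [(1, 2271)], [(1,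
    2431)])]), (2, 6, 4, [(3, 738, [(1, 325), (1, 327)], [(1, 2215), (1, 2295)]), (1, 738, [(1,
    325), (1, 2215), (2, 2431)], [(1, 327), (2, 2271), (1, 2295)])]), (2, 7, 2, [(1, 2196, [(1,
    757)], [(1, 813)]), (1, 2196, [(1, 813)], [(1, 973)])]), (3, 4, 2, [(1, 108, [(1, 2431)], [(1,
    2925)])]), (3, 7, 14, [(3, 2214, [(1, 255), (1, 325)], [(1, 733), (1, 819)]), (1, 2214, [(1,
    255), (1, 733), (1, 819)], [(1, 325)]), (2, 2214, [(1, 325), (1, 733)], [(1, 739), (1, 819)]),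
    (1, 2214, [(1, 253), (1, 325), (1, 327)], [(1, 819)]), (1, 2214, [(1, 325), (1, 327)], [(1,
    813), (1, 819)]), (1, 2214, [(1, 253), (1, 325)], [(1, 813), (1, 819)]), (5, 2214, [(1, 253),
    (1, 255), (1, 325), (1, 327)], [(1, 733), (1, 739), (1, 813), (1, 819)])]), (4, 5, 2, [(1,
    324, [(1, 733)], [(1, 2215)]), (1, 324, [(1, 739)], [(1, 2215)])]), (4, 6, 2, [(1, 810, [(1,
    253)], [(1, 2223)]), (1, 810, [(1, 255)], [(1, 2223)])])]

theorem ok87 : chkAll cb87 xb87 = true := by decide +kernel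

def cb88 : List ℕ :=
  [274, 280, 282, 328, 334, 336, 352, 354, 360, 760, 766, 768, 814, 820, 822, 838, 840, 846, 976,
    982, 984, 1054, 1056, 1062, 2218, 2224, 2226, 2272, 2278, 2280, 2296, 2298, 2304, 2434, 2440,
    2442, 2458, 2460, 2466, 2512, 2514, 2520, 2920, 2926, 2928, 2944, 2946, 2952, 2998, 3000,
    3006, 3160, 3162, 3168]

def xb88 : List Entry :=
  []

theorem ok88 : chkAll cb88 xb88 = true := by decide +kernel

def cb89 : List ℕ :=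
  [274, 280, 282, 328, 334, 336, 352, 354, 360, 760, 766, 768, 814, 820, 822, 838, 840, 846, 976,
    982, 984, 1054, 1056, 1062, 2218, 2224, 2226, 2272, 2278, 2280, 2296, 2298, 2304, 2434, 2440,
    2442, 2458, 2460, 2466, 2514, 2520, 2538, 2920, 2926, 2928, 2944, 2946, 2952, 2998, 3000,
    3024, 3160, 3162, 3168, 3240]

def xb89 : List Entry :=
  [(0, 6, 4, [(1, 730, [(1, 327)], [(1, 2217), (1, 2223)]), (1, 730, [(1, 327), (1, 2217)], [(1,
    2223)]), (2, 730, [(1, 333), (1, 2439)], [(1, 2271), (1, 2295)]), (2, 730, [(1, 327), (1,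
    333)], [(1, 2223), (1, 2295)])]), (1, 4, 2, [(1, 84, [(1, 2439)], [(1, 2917)])]), (1, 5, 2,
    [(1, 246, [(1, 811)], [(1, 2215)]), (1, 246, [(1, 811)], [(1, 2295)])]), (1, 6, 2, [(1, 732,
    [(1, 333)], [(1, 2223)]), (1, 732, [(1, 333)], [(1, 2295)])]), (1, 7, 2, [(1, 2190, [(1,
    333)], [(1, 811)])]), (2, 5, 4, [(1, 252, [(1, 813), (1, 2217)], [(1, 2215)]), (1, 252, [(1,
    813)], [(1, 2215), (1, 2217)]), (2, 252, [(1, 811), (1, 813)], [(1, 2215), (1, 2295)]), (2,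
    252, [(1, 811), (1, 2917)], [(1, 2271), (1, 2295)])]), (3, 4, 2, [(1, 108, [(1, 2439)], [(1,
    2917)])]), (3, 7, 14, [(3, 2214, [(1, 327), (1, 733)], [(1, 739)]), (2, 2214, [(1, 327), (1,
    333)], [(1, 739), (1, 811)]), (1, 2214, [(1, 253), (1, 333)], [(1, 741), (1, 811)]), (1, 2214,
    [(1, 253), (1, 333)], [(1, 811), (1, 813)]), (1, 2214, [(1, 333)], [(1, 741), (1, 811), (1,
    813)]), (2, 2214, [(1, 327), (1, 333), (1, 733)], [(1, 811)]), (2, 2214, [(1, 247), (1, 333)],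
    [(1, 327), (1, 811)]), (5, 2214, [(1, 247), (1, 253), (1, 327), (1, 333)], [(1, 739), (1,
    741), (1, 811), (1, 813)])]), (4, 5, 2, [(1, 324, [(1, 739)], [(1, 2223)]), (1, 324, [(1,
    741)], [(1, 2223)])]), (4, 6, 2, [(1, 810, [(1, 247)], [(1, 2215)]), (1, 810, [(1, 253)], [(1,
    2215)])])]

theorem ok89 : chkAll cb89 xb89 = true := by decide +kernel

def cb90 : List ℕ :=
  [274, 280, 282, 328, 334, 336, 352, 354, 360, 760, 766, 768, 814, 820, 822, 838, 840, 846, 976,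
    982, 984, 1002, 1008, 1054, 1062, 1080, 2218, 2224, 2226, 2272, 2278, 2280, 2296, 2298, 2304,
    2434, 2440, 2442, 2458, 2466, 2512, 2514, 2538, 2920, 2926, 2928, 2944, 2946, 3000, 3006,
    3024, 3160, 3162, 3168, 3186, 3240]

def xb90 : List Entry :=
  [(0, 1, 2, [(1, 4, [(1, 351)], [(1, 3159)]), (1, 4, [(1, 837)], [(1, 3159)])]), (0, 2, 2, [(1,
    10, [(1, 837)], [(1, 3159)]), (1, 10, [(1, 2295)], [(1, 3159)])]), (0, 3, 2, [(1, 28, [(1,
    333), (1, 2919)], [(1, 819)]), (1, 28, [(1, 2277), (1, 2439)], [(1, 2919)])]), (0, 4, 2, [(1,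
    82, [(1, 759), (1, 2217)], [(1, 981)]), (1, 82, [(1, 273), (1, 2433)], [(1, 981)])]), (0, 5,
    10, [(2, 244, [(1, 759), (1, 819), (1, 2223)], [(1, 2271)]), (1, 244, [(1, 765), (1, 819), (1,
    837)], [(1, 2271)]), (1, 244, [(1, 765), (1, 819), (1, 2925)], [(1, 2271)]), (1, 244, [(1,
    819), (1, 837), (1, 2925)], [(1, 2271)]), (2, 244, [(1, 819)], [(1, 2271), (1, 2295), (1,
    2919)]), (3, 244, [(1, 759), (1, 765), (1, 819), (1, 837), (1, 2223), (1, 2925)], [(1, 2271),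
    (1, 2295), (1, 2919)])]), (0, 7, 10, [(2, 2188, [(1, 279), (1, 981)], [(1, 759), (1, 813)]),
    (1, 2188, [(1, 279), (1, 351)], [(1, 759), (1, 819)]), (1, 2188, [(1, 279), (1, 351)], [(1,
    759), (1, 837)]), (1, 2188, [(1, 279)], [(1, 759), (1, 819), (1, 837)]), (2, 2188, [(1, 279)],
    [(1, 327), (1, 759), (1, 975)]), (3, 2188, [(1, 279), (1, 351), (1, 981)], [(1, 327), (1,
    759), (1, 813), (1, 819), (1, 837), (1, 975)])]), (1, 2, 2, [(1, 12, [(1, 351)], [(1, 3159)]),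
    (1, 12, [(1, 2295)], [(1, 3159)])]), (1, 3, 2, [(1, 30, [(1, 325), (1, 2269)], [(1, 981)]),
    (1, 30, [(1, 811), (1, 2917)], [(1, 981)])]), (1, 4, 2, [(1, 84, [(1, 279), (1, 765)], [(1,
    2431)]), (1, 84, [(1, 2223), (1, 2925)], [(1, 2431)])]), (1, 6, 10, [(2, 732, [(1, 279)], [(1,
    2215), (1, 2295), (1, 2431)]), (1, 732, [(1, 279), (1, 325), (1, 2277)], [(1, 2215)]), (1,
    732, [(1, 279), (1, 2277), (1, 2439)], [(1, 2215)]), (1, 732, [(1, 279), (1, 325), (1, 2439)],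
    [(1, 2215)]), (2, 732, [(1, 279), (1, 333), (1, 351)], [(1, 2215)]), (3, 732, [(1, 279), (1,
    325), (1, 333), (1, 351), (1, 2277), (1, 2439)], [(1, 2215), (1, 2295), (1, 2431)])]), (1, 7,
    10, [(2, 2190, [(1, 271), (1, 325), (1, 757)], [(1, 819)]), (1, 2190, [(1, 279), (1, 325)],
    [(1, 819), (1, 837)]), (1, 2190, [(1, 279), (1, 325)], [(1, 819), (1, 981)]), (1, 2190, [(1,
    325)], [(1, 819), (1, 837), (1, 981)]), (2, 2190, [(1, 325), (1, 351), (1, 973)], [(1, 819)]),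
    (3, 2190, [(1, 271), (1, 279), (1, 325), (1, 351), (1, 757), (1, 973)], [(1, 819), (1, 837),
    (1, 981)])]), (2, 3, 2, [(1, 36, [(1, 813), (1, 2431)], [(1, 2271)]), (1, 36, [(1, 327), (1,
    975)], [(1, 2431)])]), (2, 4, 2, [(1, 90, [(1, 271), (1, 2215)], [(1, 2919)]), (1, 90, [(1,
    757), (1, 973)], [(1, 2919)])]), (2, 5, 10, [(2, 252, [(1, 759), (1, 2919)], [(1, 2215), (1,
    2269)]), (1, 252, [(1, 759), (1, 837)], [(1, 2215), (1, 2271)]), (1, 252, [(1, 759), (1,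
    837)], [(1, 2215), (1, 2295)]), (1, 252, [(1, 759)], [(1, 2215), (1, 2271), (1, 2295)]), (2,
    252, [(1, 759)], [(1, 811), (1, 2215), (1, 2917)]), (3, 252, [(1, 759), (1, 837), (1, 2919)],
    [(1, 811), (1, 2215), (1, 2269), (1, 2271), (1, 2295), (1, 2917)])]), (2, 6, 4, [(1, 738, [(1,
    273), (1, 325)], [(1, 2217), (1, 2271)]), (1, 738, [(1, 273), (1, 2217), (1, 2271)], [(1,
    325)]), (2, 738, [(1, 273), (1, 2215), (1, 2271), (1, 2295), (1, 2433)], [(1, 325), (1, 351),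
    (1, 2431)])]), (3, 4, 2, [(1, 108, [(1, 247), (1, 253), (1, 255), (1, 733), (1, 739), (1,
    741), (1, 2191), (1, 2197), (1, 2199)], [(1, 3159)])]), (3, 5, 2, [(1, 270, [(1, 819), (1,
    2191)], [(1, 2197)]), (1, 270, [(1, 819)], [(1, 2199), (1, 2271)])]), (3, 6, 2, [(1, 756, [(1,
    253), (1, 255)], [(1, 2271)]), (1, 756, [(1, 247), (1, 325)], [(1, 2271)])]), (3, 7, 2, [(1,
    2214, [(1, 325), (1, 741)], [(1, 733)]), (1, 2214, [(1, 325)], [(1, 739), (1, 819)])]), (4, 5,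
    2, [(1, 324, [(1, 739)], [(1, 741), (1, 2215)]), (1, 324, [(1, 733), (1, 759)], [(1,
    2215)])]), (4, 6, 2, [(1, 810, [(1, 279)], [(1, 2191), (1, 2199)]), (1, 810, [(1, 279)], [(1,
    2197), (1, 2215)])]), (4, 7, 2, [(1, 2268, [(1, 247), (1, 253)], [(1, 759)]), (1, 2268, [(1,
    255), (1, 279)], [(1, 759)])]), (5, 6, 2, [(1, 972, [(1, 2197)], [(1, 2295)]), (1, 972, [(1,
    2199)], [(1, 2295)])]), (5, 7, 2, [(1, 2430, [(1, 733)], [(1, 837)]), (1, 2430, [(1, 739)],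
    [(1, 837)])]), (6, 7, 2, [(1, 2916, [(1, 247)], [(1, 351)]), (1, 2916, [(1, 255)], [(1,
    351)])])]

theorem ok90 : chkAll cb90 xb90 = true := by decide +kernel

def cb92 : List ℕ :=
  [274, 280, 282, 328, 334, 336, 352, 354, 360, 760, 766, 768, 814, 820, 822, 838, 840, 846, 976,
    982, 984, 1002, 1008, 1054, 1062, 1080, 2218, 2224, 2226, 2272, 2278, 2280, 2296, 2298, 2304,
    2434, 2440, 2442, 2458, 2460, 2466, 2512, 2514, 2520, 2920, 2926, 2928, 2944, 2952, 2998,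
    3000, 3024, 3160, 3162, 3168, 3186, 3240]

def xb92 : List Entry :=
  [(0, 1, 2, [(1, 4, [(1, 837)], [(1, 3159)])]), (0, 4, 4, [(2, 82, [(1, 273)], [(1, 2943), (1,
    3159)]), (1, 82, [(1, 273)], [(1, 759), (1, 981)]), (1, 82, [(1, 273), (1, 759)], [(1, 981)]),
    (2, 82, [(1, 759), (1, 2919)], [(1, 981)])]), (0, 5, 2, [(1, 244, [(1, 837)], [(1, 2271)])]),
    (0, 6, 2, [(1, 730, [(1, 279), (1, 2223)], [(1, 2271)]), (1, 730, [(1, 273), (1, 333)], [(1,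
    2271)])]), (0, 7, 8, [(1, 2188, [(1, 279), (1, 975)], [(1, 813)]), (1, 2188, [(1, 765), (1,
    975)], [(1, 813)]), (1, 2188, [(1, 279)], [(1, 813), (1, 975)]), (1, 2188, [(1, 765)], [(1,
    813), (1, 975)]), (4, 2188, [(1, 273), (1, 975)], [(1, 765), (1, 837)]), (2, 2188, [(1, 327),
    (1, 813)], [(1, 765)]), (4, 2188, [(1, 273), (1, 279), (1, 333)], [(1, 837)])]), (1, 2, 2,
    [(1, 12, [(1, 837)], [(1, 3159)])]), (1, 3, 2, [(1, 30, [(1, 325)], [(1, 981)]), (1, 30, [(1,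
    325)], [(1, 3159)]), (1, 30, [(1, 811)], [(1, 981)])]), (1, 4, 2, [(1, 84, [(1, 765)], [(1,
    2917)]), (1, 84, [(1, 2223)], [(1, 2917)]), (1, 84, [(1, 2223)], [(1, 3159)])]), (1, 5, 2,
    [(1, 246, [(1, 837), (1, 2925)], [(1, 2215), (1, 2223)]), (1, 246, [(1, 765), (1, 837)], [(1,
    2215), (1, 2917)])]), (1, 7, 2, [(1, 2190, [(1, 325), (1, 333)], [(1, 837), (1, 973)]), (1,
    2190, [(1, 333), (1, 981)], [(1, 811), (1, 837)])]), (2, 3, 4, [(2, 36, [(1, 1053), (1,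
    3159)], [(1, 2271)]), (1, 36, [(1, 813), (1, 2271)], [(1, 2917)]), (1, 36, [(1, 975), (1,
    2271)], [(1, 2917)]), (1, 36, [(1, 813), (1, 975)], [(1, 2917)])]), (2, 5, 2, [(1, 252, [(1,
    811), (1, 837)], [(1, 2217), (1, 2271)]), (1, 252, [(1, 837)], [(1, 2215), (1, 2269), (1,
    2271)]), (1, 252, [(1, 759), (1, 2919)], [(1, 811)])]), (2, 6, 2, [(1, 738, [(1, 273)], [(1,
    325), (1, 2269)]), (1, 738, [(1, 273)], [(1, 2215), (1, 2271)])]), (2, 7, 2, [(1, 2196, [(1,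
    273)], [(1, 837)])]), (3, 4, 2, [(1, 108, [(1, 733)], [(1, 3159)]), (1, 108, [(1, 741)], [(1,
    3159)])]), (3, 5, 2, [(1, 270, [(1, 733)], [(1, 2271)]), (1, 270, [(1, 741)], [(1, 2271)])]),
    (3, 6, 8, [(2, 756, [(1, 247), (1, 2271)], [(1, 333), (1, 2269)]), (5, 756, [(1, 325), (1,
    333)], [(1, 2269), (1, 2271)]), (1, 756, [(1, 325), (1, 2269), (1, 2271)], [(1, 333)])]), (4,
    6, 8, [(2, 810, [(1, 273), (1, 2223)], [(1, 2215), (1, 2439)]), (5, 810, [(1, 273), (1, 279)],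
    [(1, 2215), (1, 2223)]), (1, 810, [(1, 273)], [(1, 279), (1, 2215), (1, 2223)])]), (4, 7, 2,
    [(1, 2268, [(1, 273)], [(1, 733)]), (1, 2268, [(1, 273)], [(1, 741)])]), (5, 6, 2, [(1, 972,
    [(1, 2223)], [(1, 2271)])]), (5, 7, 2, [(1, 2430, [(1, 733)], [(1, 837)]), (1, 2430, [(1,
    741)], [(1, 837)])]), (6, 7, 2, [(1, 2916, [(1, 273)], [(1, 325)])])]

theorem ok92 : chkAll cb92 xb92 = true := by decide +kernel

def cb93 : List ℕ :=
  [274, 280, 282, 328, 334, 336, 352, 354, 360, 760, 766, 768, 814, 820, 822, 838, 840, 846, 976,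
    982, 984, 1002, 1008, 1054, 1062, 1080, 2218, 2224, 2226, 2272, 2278, 2280, 2296, 2298, 2304,
    2434, 2440, 2442, 2458, 2460, 2466, 2514, 2520, 2538, 2920, 2926, 2928, 2944, 2952, 2998,
    3000, 3006, 3024, 3160, 3162, 3186, 3240]

def xb93 : List Entry :=
  [(0, 1, 2, [(1, 4, [(1, 351)], [(1, 3159)]), (1, 4, [(1, 837)], [(1, 3159)])]), (0, 2, 2, [(1,
    10, [(1, 1053)], [(1, 2457)])]), (0, 4, 2, [(1, 82, [(1, 273)], [(1, 981)]), (1, 82, [(1,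
    759)], [(1, 981)])]), (0, 5, 2, [(1, 244, [(1, 819)], [(1, 2919)])]), (0, 6, 2, [(1, 730, [(1,
    273), (1, 351)], [(1, 2271)]), (1, 730, [(1, 273), (1, 2433)], [(1, 333), (1, 2277)]), (1,
    730, [(1, 333), (1, 2223)], [(1, 2271), (1, 2433)])]), (0, 7, 2, [(1, 2188, [(1, 279), (1,
    765)], [(1, 351), (1, 975)]), (1, 2188, [(1, 273), (1, 975)], [(1, 765), (1, 837)])]), (1, 2,
    2, [(1, 12, [(1, 999)], [(1, 2997)])]), (1, 3, 2, [(1, 30, [(1, 325)], [(1, 981)]), (1, 30,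
    [(1, 811)], [(1, 981)])]), (1, 5, 8, [(2, 246, [(1, 811), (1, 2277)], [(1, 2223)]), (4, 246,
    [(1, 765), (1, 2223), (1, 2277)], [(1, 2917)]), (1, 246, [(1, 765), (1, 2277)], [(1, 2215),
    (1, 2917)]), (1, 246, [(1, 765)], [(1, 2215), (1, 2277), (1, 2917)]), (2, 246, [(1, 811), (1,
    837)], [(1, 2215)]), (2, 246, [(1, 765), (1, 837)], [(1, 2215), (1, 2917)]), (2, 246, [(1,
    811)], [(1, 2215), (1, 2223)])]), (1, 6, 2, [(1, 732, [(1, 279)], [(1, 2431)])]), (1, 7, 4,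
    [(1, 2190, [(1, 333), (1, 819)], [(1, 837), (1, 973)]), (1, 2190, [(1, 333), (1, 837)], [(1,
    819), (1, 973)]), (2, 2190, [(1, 351), (1, 837)], [(1, 811)]), (2, 2190, [(1, 333), (1, 819)],
    [(1, 811), (1, 973)])]), (2, 3, 8, [(2, 36, [(1, 813), (1, 975)], [(1, 2433), (1, 2917)]), (5,
    36, [(1, 975), (1, 2433)], [(1, 2431), (1, 2917)]), (1, 36, [(1, 975), (1, 2431), (1, 2433)],
    [(1, 2917)])]), (2, 4, 8, [(2, 90, [(1, 759), (1, 973)], [(1, 2433), (1, 2917)]), (5, 90, [(1,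
    973), (1, 2917)], [(1, 2433), (1, 2919)]), (1, 90, [(1, 973), (1, 2917), (1, 2919)], [(1,
    2433)])]), (2, 5, 2, [(1, 252, [(1, 811)], [(1, 2215), (1, 2217)]), (1, 252, [(1, 759), (1,
    2271)], [(1, 811)])]), (2, 6, 2, [(1, 738, [(1, 273)], [(1, 2269), (1, 2271)]), (1, 738, [(1,
    273)], [(1, 325), (1, 2215)])]), (3, 4, 2, [(1, 108, [(1, 247)], [(1, 3159)]), (1, 108, [(1,
    733)], [(1, 3159)])]), (3, 5, 4, [(2, 270, [(1, 741)], [(1, 2917), (1, 2997)]), (1, 270, [(1,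
    733), (1, 741)], [(1, 2271)]), (1, 270, [(1, 741), (1, 811)], [(1, 2271)]), (1, 270, [(1,
    733), (1, 811)], [(1, 2271)])]), (3, 7, 2, [(1, 2214, [(1, 247)], [(1, 811)]), (1, 2214, [(1,
    253)], [(1, 811)]), (1, 2214, [(1, 253)], [(1, 1053)])]), (4, 6, 4, [(2, 810, [(1, 253)], [(1,
    2433), (1, 2457)]), (1, 810, [(1, 247), (1, 253)], [(1, 2215)]), (1, 810, [(1, 253), (1,
    273)], [(1, 2215)]), (1, 810, [(1, 247), (1, 273)], [(1, 2215)])]), (4, 7, 2, [(1, 2268, [(1,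
    273)], [(1, 733)]), (1, 2268, [(1, 273)], [(1, 741)]), (1, 2268, [(1, 741)], [(1, 999)])]),
    (5, 7, 2, [(1, 2430, [(1, 733)], [(1, 837)])]), (6, 7, 2, [(1, 2916, [(1, 247)], [(1,
    351)])])]

theorem ok93 : chkAll cb93 xb93 = true := by decide +kernel

def cb94 : List ℕ :=
  [274, 280, 282, 328, 334, 336, 352, 354, 360, 760, 766, 768, 814, 820, 822, 838, 840, 846, 976,
    982, 984, 1002, 1008, 1054, 1062, 1080, 2218, 2224, 2226, 2272, 2278, 2280, 2296, 2298, 2304,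
    2434, 2440, 2442, 2458, 2460, 2466, 2512, 2514, 2520, 2920, 2926, 2928, 2944, 2952, 2998,
    3000, 3006, 3024, 3160, 3162, 3186, 3240]

def xb94 : List Entry :=
  [(0, 1, 2, [(1, 4, [(1, 837)], [(1, 3159)])]), (0, 4, 2, [(1, 82, [(1, 273)], [(1, 981)]), (1,
    82, [(1, 273)], [(1, 3159)]), (1, 82, [(1, 759)], [(1, 981)])]), (0, 5, 2, [(1, 244, [(1,
    819)], [(1, 2919)]), (1, 244, [(1, 837)], [(1, 2271)])]), (0, 6, 2, [(1, 730, [(1, 273)], [(1,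
    2271)]), (1, 730, [(1, 333)], [(1, 2433)]), (1, 730, [(1, 2223)], [(1, 2433)])]), (0, 7, 8,
    [(5, 2188, [(1, 273), (1, 279)], [(1, 837), (1, 1053)]), (1, 2188, [(1, 273), (2, 975), (1,
    1053)], [(1, 279), (2, 765), (1, 837)]), (1, 2188, [(1, 273), (2, 975)], [(1, 279), (2, 765),
    (1, 837), (1, 1053)]), (1, 2188, [(1, 273), (1, 279), (1, 1053)], [(1, 837)])]), (1, 2, 2,
    [(1, 12, [(1, 999)], [(1, 2997)])]), (1, 3, 2, [(1, 30, [(1, 325)], [(1, 981)]), (1, 30, [(1,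
    325)], [(1, 3159)]), (1, 30, [(1, 811)], [(1, 981)])]), (1, 5, 8, [(5, 246, [(1, 765), (1,
    2223)], [(1, 2917), (1, 2997)]), (1, 246, [(1, 765), (2, 837), (1, 2997)], [(2, 2215), (1,
    2223), (1, 2917)]), (1, 246, [(1, 765), (2, 837)], [(2, 2215), (1, 2223), (1, 2917), (1,
    2997)]), (1, 246, [(1, 765), (1, 2223), (1, 2997)], [(1, 2917)])]), (1, 6, 2, [(1, 732, [(1,
    279)], [(1, 2431)])]), (1, 7, 2, [(1, 2190, [(1, 325)], [(1, 811), (1, 837)]), (1, 2190, [(1,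
    333)], [(1, 837), (1, 999)]), (1, 2190, [(1, 333), (1, 819)], [(1, 973)])]), (2, 3, 2, [(1,
    36, [(1, 975), (1, 1053)], [(1, 2431), (1, 2917)]), (1, 36, [(1, 975), (1, 2433)], [(1, 2917),
    (1, 2997)])]), (2, 4, 2, [(1, 90, [(1, 973)], [(1, 2433)]), (1, 90, [(1, 973)], [(1, 2919)]),
    (1, 90, [(1, 999)], [(1, 2433)])]), (2, 5, 2, [(1, 252, [(1, 759)], [(1, 811)]), (1, 252, [(1,
    837)], [(1, 2215)]), (1, 252, [(1, 837)], [(1, 2271)])]), (2, 6, 4, [(1, 738, [(1, 273)], [(1,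
    2215), (1, 2269)]), (1, 738, [(1, 273)], [(1, 325), (1, 2269)]), (1, 738, [(1, 273)], [(1,
    2269), (1, 2271)]), (1, 738, [(1, 325), (1, 2457)], [(1, 2215)]), (1, 738, [(1, 2215)], [(1,
    2271), (1, 2457)]), (1, 738, [(1, 325)], [(1, 2271), (1, 2457)]), (1, 738, [(1, 273)], [(1,
    325), (1, 2215), (1, 2269), (1, 2271)])]), (2, 7, 2, [(1, 2196, [(1, 273)], [(1, 837)])]), (3,
    4, 2, [(1, 108, [(1, 733)], [(1, 3159)])]), (3, 5, 2, [(1, 270, [(1, 733)], [(1, 2271)]), (1,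
    270, [(1, 741)], [(1, 2271)]), (1, 270, [(1, 741)], [(1, 2997)])]), (3, 6, 2, [(1, 756, [(1,
    325)], [(1, 2271)]), (1, 756, [(1, 333)], [(1, 2271)]), (1, 756, [(1, 333)], [(1, 2433)])]),
    (4, 6, 2, [(1, 810, [(1, 273), (1, 2433)], [(1, 2215), (1, 2223)]), (1, 810, [(1, 273), (1,
    279)], [(1, 2215), (1, 2431)])]), (4, 7, 2, [(1, 2268, [(1, 273)], [(1, 733)]), (1, 2268, [(1,
    273)], [(1, 741)]), (1, 2268, [(1, 741)], [(1, 999)])]), (5, 7, 2, [(1, 2430, [(1, 733)], [(1,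
    837)])]), (6, 7, 2, [(1, 2916, [(1, 273)], [(1, 325)])])]

theorem ok94 : chkAll cb94 xb94 = true := by decide +kernel

def cb95 : List ℕ :=
  [274, 280, 282, 328, 334, 336, 352, 354, 360, 760, 766, 768, 814, 820, 822, 838, 840, 846, 976,
    982, 984, 1002, 1008, 1054, 1062, 1080, 2218, 2224, 2226, 2272, 2278, 2280, 2296, 2298, 2304,
    2434, 2440, 2442, 2458, 2460, 2466, 2512, 2520, 2538, 2920, 2926, 2928, 2944, 2946, 2998,
    3006, 3024, 3160, 3168, 3186]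

def xb95 : List Entry :=
  [(0, 4, 2, [(1, 82, [(1, 273)], [(1, 981)]), (1, 82, [(1, 759)], [(1, 981)])]), (0, 6, 2, [(1,
    730, [(1, 2217)], [(1, 2277)]), (1, 730, [(1, 2217)], [(1, 2439)])]), (0, 7, 4, [(1, 2188,
    [(1, 273)], [(1, 333), (1, 819)]), (1, 2188, [(1, 273), (1, 333)], [(1, 819)]), (2, 2188, [(1,
    279), (1, 981)], [(1, 759), (1, 837)]), (2, 2188, [(1, 273), (1, 759)], [(1, 819), (1,
    981)])]), (1, 3, 4, [(1, 30, [(1, 819), (1, 981)], [(1, 2431), (1, 2917)]), (1, 30, [(1, 811),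
    (1, 2917)], [(1, 981), (1, 2439)]), (1, 30, [(1, 325), (1, 2917)], [(1, 981), (1, 2277)]), (1,
    30, [(1, 325), (1, 811), (1, 2431), (1, 2917)], [(1, 819), (1, 981), (1, 2277), (1, 2439)])]),
    (1, 6, 2, [(1, 732, [(1, 279)], [(1, 2215)])]), (2, 4, 2, [(1, 90, [(1, 759)], [(1, 2917)]),
    (1, 90, [(1, 2217)], [(1, 2917)])]), (2, 5, 4, [(1, 252, [(1, 811), (1, 2269)], [(1, 2217)]),
    (1, 252, [(1, 811)], [(1, 2217), (1, 2269)]), (2, 252, [(1, 759), (1, 2217)], [(1, 811), (1,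
    2917)]), (2, 252, [(1, 759), (1, 837)], [(1, 2215), (1, 2917)])]), (2, 6, 2, [(1, 738, [(1,
    273)], [(1, 325)]), (1, 738, [(1, 273)], [(1, 2431)])]), (3, 4, 2, [(1, 108, [(1, 981)], [(1,
    2917)])]), (4, 6, 2, [(1, 810, [(1, 279)], [(1, 2215)])])]

theorem ok95 : chkAll cb95 xb95 = true := by decide +kernel

def cb96 : List ℕ :=
  [274, 280, 282, 328, 334, 336, 352, 354, 360, 760, 766, 768, 814, 820, 822, 838, 840, 846, 976,
    982, 984, 1002, 1008, 1054, 1062, 1080, 2218, 2224, 2226, 2272, 2278, 2280, 2296, 2298, 2304,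
    2434, 2440, 2442, 2458, 2460, 2466, 2512, 2514, 2538, 2920, 2926, 2928, 2944, 2946, 2998,
    3000, 3006, 3024, 3160, 3162, 3168, 3186, 3240]

def xb96 : List Entry :=
  [(0, 4, 4, [(1, 82, [(1, 273), (1, 759)], [(1, 981)]), (2, 82, [(1, 273), (1, 2433)], [(1,
    981)]), (1, 82, [(1, 273), (1, 981)], [(1, 759)])]), (0, 5, 2, [(1, 244, [(1, 819)], [(1,
    2271)])]), (0, 7, 4, [(2, 2188, [(1, 273), (1, 279)], [(1, 819)]), (1, 2188, [(1, 273), (1,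
    981)], [(1, 759)]), (1, 2188, [(1, 273), (1, 759)], [(1, 981)]), (2, 2188, [(1, 279)], [(1,
    759), (1, 837)])]), (1, 3, 4, [(1, 30, [(1, 325), (1, 811)], [(1, 981)]), (2, 30, [(1, 811),
    (1, 2917)], [(1, 981)]), (1, 30, [(1, 325)], [(1, 811), (1, 981)])]), (1, 6, 2, [(1, 732, [(1,
    279)], [(1, 2215)])]), (1, 7, 4, [(2, 2190, [(1, 279)], [(1, 811), (1, 819)]), (1, 2190, [(1,
    325)], [(1, 811), (1, 981)]), (1, 2190, [(1, 325), (1, 811)], [(1, 981)]), (2, 2190, [(1,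
    325), (1, 351)], [(1, 819)])]), (2, 5, 8, [(1, 252, [(1, 759)], [(1, 2217), (1, 2917)]), (1,
    252, [(1, 759), (1, 2217)], [(1, 2917)]), (1, 252, [(1, 837), (1, 2217)], [(1, 2215)]), (2,
    252, [(1, 811)], [(1, 2215), (1, 2217)]), (1, 252, [(1, 837)], [(1, 2215), (1, 2217)]), (2,
    252, [(1, 811)], [(1, 2217)]), (2, 252, [(1, 759)], [(1, 811), (1, 2215)]), (2, 252, [(1,
    759), (1, 837)], [(1, 2215)]), (2, 252, [(1, 759)], [(1, 811), (1, 2917)])]), (2, 6, 8, [(1,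
    738, [(1, 325)], [(1, 2269), (1, 2433)]), (1, 738, [(1, 325), (1, 2269)], [(1, 2433)]), (1,
    738, [(1, 351), (1, 2269)], [(1, 2271)]), (2, 738, [(1, 273)], [(1, 2269), (1, 2271)]), (1,
    738, [(1, 351)], [(1, 2269), (1, 2271)]), (2, 738, [(1, 273)], [(1, 2269)]), (2, 738, [(1,
    273), (1, 2271)], [(1, 325)]), (2, 738, [(1, 325), (1, 351)], [(1, 2271)]), (2, 738, [(1,
    273), (1, 2433)], [(1, 325)])]), (3, 5, 4, [(1, 270, [(1, 819)], [(1, 2197), (1, 2199)]), (2,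
    270, [(1, 819)], [(1, 2199), (1, 2271)]), (1, 270, [(1, 819), (1, 2199)], [(1, 2197)])]), (4,
    6, 4, [(1, 810, [(1, 279)], [(1, 2197), (1, 2199)]), (2, 810, [(1, 279)], [(1, 2197), (1,
    2215)]), (1, 810, [(1, 279), (1, 2197)], [(1, 2199)])])]

theorem ok96 : chkAll cb96 xb96 = true := by decide +kernel

end Pool.Agent.H75.Ray
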