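import Pool.Agent.H75.Ray.Chk

/-!
# Certificates for the matroids number 97, 98, 99, 100, 101, 102, 104, 105, 106, 107, 108, 109, 110 (MP_934449_co)

`cb i`: the codes of the bases of the matroid `i`, `xb i`: the certificates of the pairs which need one.
-/

set_option autoImplicit false

namespace Pool.Agent.H75.Ray

def cb97 : List ℕ :=
  [274, 280, 282, 328, 334, 336, 352, 354, 360, 760, 766, 768, 814, 820, 822, 838, 840, 846, 976,
    982, 984, 1000, 1008, 1054, 1056, 1062, 1080, 2218, 2224, 2226, 2272, 2278, 2280, 2296, 2298,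
    2304, 2434, 2440, 2442, 2458, 2460, 2512, 2514, 2520, 2538, 2920, 2926, 2928, 2946, 2952,
    2998, 3000, 3006, 3024, 3160, 3162, 3168, 3186]

def xb97 : List Entry :=
  [(0, 3, 2, [(1, 28, [(1, 981)], [(1, 2433)])]), (0, 5, 2, [(1, 244, [(1, 765), (1, 837)], [(1,
    2217), (1, 2919)]), (1, 244, [(1, 765), (1, 2925)], [(1, 2217), (1, 2295)]), (2, 352, [(1,
    738)], [(1, 2190)])]), (1, 3, 2, [(1, 30, [(1, 2431)], [(1, 2925)])]), (1, 7, 2, [(1, 2190,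
    [(1, 271), (1, 351)], [(1, 765), (1, 981)]), (1, 2190, [(1, 271), (1, 973)], [(1, 765), (1,
    837)]), (2, 2298, [(1, 244)], [(1, 738)])]), (2, 3, 2, [(1, 36, [(1, 973)], [(1, 2919)])]),
    (2, 6, 2, [(1, 738, [(1, 271), (1, 351)], [(1, 2217), (1, 2433)]), (1, 738, [(1, 271), (1,
    2431)], [(1, 2217), (1, 2295)]), (2, 846, [(1, 244)], [(1, 2190)])]), (3, 4, 2, [(1, 108, [(1,
    973)], [(1, 2919)]), (1, 108, [(1, 981)], [(1, 2433)]), (1, 108, [(1, 2431)], [(1, 2925)])]),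
    (4, 5, 2, [(1, 324, [(1, 765)], [(1, 2217)])]), (4, 6, 2, [(1, 810, [(1, 271)], [(1,
    2217)])]), (4, 7, 2, [(1, 2268, [(1, 271)], [(1, 765)])])]

theorem ok97 : chkAll cb97 xb97 = true := by decide +kernel

def cb98 : List ℕ :=
  [274, 280, 282, 328, 334, 336, 352, 354, 360, 760, 766, 768, 814, 820, 822, 838, 840, 846, 976,
    982, 984, 1000, 1008, 1054, 1056, 1062, 1080, 2218, 2224, 2226, 2272, 2278, 2280, 2296, 2298,
    2304, 2434, 2440, 2442, 2458, 2460, 2466, 2512, 2514, 2520, 2920, 2926, 2928, 2944, 2946,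
    2952, 2998, 3000, 3024, 3162, 3168, 3186, 3240]

def xb98 : List Entry :=
  [(0, 3, 2, [(1, 28, [(1, 981)], [(1, 2433)]), (1, 28, [(1, 981)], [(1, 2919)]), (1, 28, [(1,
    1053)], [(1, 2433)])]), (0, 4, 2, [(1, 82, [(1, 981)], [(1, 2919)]), (1, 82, [(1, 2439)], [(1,
    2919)]), (1, 82, [(1, 2439)], [(1, 2943)])]), (0, 5, 2, [(1, 244, [(1, 837)], [(1, 2217)])]),
    (0, 6, 2, [(1, 730, [(1, 279)], [(1, 2271)])]), (0, 7, 2, [(1, 2188, [(1, 333)], [(1,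
    837)])]), (1, 6, 2, [(1, 732, [(1, 2269)], [(1, 2439)])]), (1, 7, 2, [(1, 2190, [(1, 271)],
    [(1, 837), (1, 1053)]), (1, 2190, [(1, 271), (1, 757)], [(1, 981)]), (1, 2190, [(1, 279), (1,
    333)], [(1, 837)]), (1, 2190, [(1, 279), (1, 981)], [(1, 811)])]), (2, 5, 4, [(2, 252, [(1,
    813)], [(1, 2215)]), (1, 252, [(1, 811), (1, 2215)], [(1, 2919)]), (1, 252, [(1, 811)], [(1,
    2215), (1, 2919)]), (2, 252, [(1, 837), (1, 2943)], [(1, 2269)]), (2, 252, [(1, 757), (1,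
    2269)], [(1, 2919)]), (2, 252, [(1, 837)], [(1, 2217), (1, 2271)])]), (2, 6, 2, [(1, 738, [(1,
    271)], [(1, 2433)])]), (3, 6, 2, [(1, 756, [(1, 333)], [(1, 2269)]), (1, 756, [(1, 333)], [(1,
    2271)]), (1, 756, [(1, 2269)], [(1, 2439)])]), (4, 6, 2, [(1, 810, [(1, 271)], [(1, 2217)]),
    (1, 810, [(1, 271)], [(1, 2433)]), (1, 810, [(1, 279)], [(1, 2217)])])]

theorem ok98 : chkAll cb98 xb98 = true := by decide +kernel

def cb99 : List ℕ :=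
  [274, 280, 282, 328, 334, 336, 352, 354, 360, 760, 766, 768, 814, 820, 822, 838, 840, 846, 976,
    982, 984, 1000, 1002, 1008, 1054, 1056, 1062, 2218, 2224, 2226, 2272, 2278, 2280, 2296, 2298,
    2304, 2434, 2440, 2442, 2458, 2460, 2466, 2512, 2514, 2520, 2920, 2926, 2928, 2944, 2946,
    2952, 2998, 3000, 3006]

def xb99 : List Entry :=
  []

theorem ok99 : chkAll cb99 xb99 = true := by decide +kernel

def cb100 : List ℕ :=
  [112, 118, 120, 274, 280, 282, 328, 334, 336, 760, 766, 768, 814, 820, 822, 838, 840, 846, 976,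
    982, 984, 1000, 1002, 1008, 1054, 1056, 1062, 2218, 2224, 2226, 2272, 2278, 2280, 2296, 2298,
    2304, 2434, 2440, 2442, 2458, 2460, 2466, 2512, 2514, 2520, 2920, 2926, 2928, 2944, 2952,
    3000, 3006, 3024, 3160, 3162, 3186, 3240]

def xb100 : List Entry :=
  [(0, 3, 2, [(1, 28, [(1, 813)], [(1, 2925)]), (1, 28, [(1, 813)], [(1, 3159)]), (1, 28, [(1,
    2271)], [(1, 2925)]), (1, 28, [(1, 2271)], [(1, 3159)])]), (0, 5, 2, [(1, 244, [(1, 819)],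
    [(1, 2919)]), (1, 244, [(1, 819)], [(1, 2943)]), (1, 244, [(1, 2277)], [(1, 2919)]), (1, 244,
    [(1, 2277)], [(1, 2943)])]), (0, 6, 2, [(1, 730, [(1, 2223)], [(1, 2433)])]), (0, 7, 2, [(1,
    2188, [(1, 765)], [(1, 975)])]), (1, 4, 2, [(1, 84, [(1, 757)], [(1, 2925)]), (1, 84, [(1,
    757)], [(1, 3159)]), (1, 84, [(1, 2215)], [(1, 2925)]), (1, 84, [(1, 2215)], [(1, 3159)])]),
    (1, 5, 2, [(1, 246, [(1, 765)], [(1, 2917)]), (1, 246, [(1, 765)], [(1, 2997)]), (1, 246, [(1,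
    2223)], [(1, 2917)]), (1, 246, [(1, 2223)], [(1, 2997)])]), (1, 6, 2, [(1, 732, [(1, 2277)],
    [(1, 2431)])]), (1, 7, 2, [(1, 2190, [(1, 819)], [(1, 973)])]), (2, 3, 2, [(1, 36, [(1, 975)],
    [(1, 2917)]), (1, 36, [(1, 975)], [(1, 2997)]), (1, 36, [(1, 2433)], [(1, 2917)]), (1, 36,
    [(1, 2433)], [(1, 2997)])]), (2, 4, 2, [(1, 90, [(1, 973)], [(1, 2919)]), (1, 90, [(1, 973)],
    [(1, 2943)]), (1, 90, [(1, 2431)], [(1, 2919)]), (1, 90, [(1, 2431)], [(1, 2943)])]), (2, 6,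
    2, [(1, 738, [(1, 2215)], [(1, 2271)])]), (2, 7, 2, [(1, 2196, [(1, 757)], [(1, 813)])]), (3,
    6, 2, [(1, 756, [(1, 2277)], [(1, 2431)])]), (3, 7, 2, [(1, 2214, [(1, 819)], [(1, 973)])]),
    (4, 6, 2, [(1, 810, [(1, 2223)], [(1, 2433)])]), (4, 7, 2, [(1, 2268, [(1, 765)], [(1,
    975)])]), (5, 6, 2, [(1, 972, [(1, 2215)], [(1, 2271)])]), (5, 7, 2, [(1, 2430, [(1, 757)],
    [(1, 813)])])]

theorem ok100 : chkAll cb100 xb100 = true := by decide +kernel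

def cb101 : List ℕ :=
  [112, 118, 120, 274, 280, 282, 328, 334, 336, 354, 360, 760, 766, 768, 814, 820, 822, 838, 846,
    976, 982, 984, 1000, 1002, 1054, 1056, 1062, 1080, 2218, 2224, 2226, 2272, 2278, 2280, 2296,
    2298, 2434, 2440, 2442, 2458, 2466, 2512, 2514, 2520, 2538, 2920, 2926, 2928, 2946, 2952,
    2998, 3000, 3006, 3024, 3160, 3162, 3168, 3186]

def xb101 : List Entry :=
  [(0, 1, 1, [(1, 4, [(1, 999)], [(1, 2295)])]), (0, 2, 1, [(1, 10, [(1, 837)], [(1, 2457)])]),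
    (0, 3, 2, [(1, 28, [(1, 819)], [(1, 975)]), (1, 28, [(1, 819)], [(1, 2271)]), (1, 28, [(1,
    975)], [(1, 2439)]), (1, 28, [(1, 2271)], [(1, 2439)])]), (0, 4, 4, [(2, 82, [(1, 999), (1,
    2433)], [(1, 2919)]), (2, 82, [(1, 765), (1, 2925)], [(1, 2217), (1, 2919)]), (1, 82, [(1,
    765), (1, 2457)], [(1, 2217), (1, 2925)]), (1, 82, [(1, 765), (1, 2925)], [(1, 2217), (1,
    2457)])]), (0, 5, 4, [(2, 244, [(1, 117), (1, 2295)], [(1, 2919)]), (1, 244, [(1, 759), (1,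
    2919)], [(1, 2223), (1, 2925)]), (1, 244, [(1, 759), (1, 2919), (1, 2925)], [(1, 2223)]), (2,
    244, [(1, 759), (1, 837)], [(1, 2223), (1, 2925)])]), (0, 6, 4, [(2, 730, [(1, 327)], [(1,
    2277), (1, 2295)]), (2, 730, [(1, 117), (1, 333)], [(1, 273), (1, 327)]), (1, 730, [(1, 117),
    (1, 2457)], [(1, 273), (1, 333)]), (1, 730, [(1, 117), (1, 333)], [(1, 273), (1, 2457)])]),
    (0, 7, 2, [(1, 2188, [(1, 111), (1, 837)], [(1, 279), (1, 333)]), (1, 2188, [(1, 111), (1,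
    327)], [(1, 279), (1, 999)])]), (1, 2, 1, [(1, 12, [(1, 351)], [(1, 2943)])]), (1, 3, 2, [(1,
    30, [(1, 333)], [(1, 973)]), (1, 30, [(1, 333)], [(1, 2269)]), (1, 30, [(1, 973)], [(1,
    2925)]), (1, 30, [(1, 2269)], [(1, 2925)])]), (1, 4, 2, [(1, 84, [(1, 279), (1, 999)], [(1,
    2215), (1, 2431)]), (1, 84, [(1, 279), (1, 2439)], [(1, 2215), (1, 2943)])]), (1, 5, 4, [(2,
    246, [(1, 811)], [(1, 2277), (1, 2295)]), (2, 246, [(1, 117), (1, 819)], [(1, 757), (1,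
    811)]), (1, 246, [(1, 117), (1, 2943)], [(1, 757), (1, 819)]), (1, 246, [(1, 117), (1, 819)],
    [(1, 757), (1, 2943)])]), (1, 6, 4, [(2, 732, [(1, 117), (1, 2295)], [(1, 2431)]), (1, 732,
    [(1, 271), (1, 2431)], [(1, 2223), (1, 2439)]), (1, 732, [(1, 271), (1, 2431), (1, 2439)],
    [(1, 2223)]), (2, 732, [(1, 271), (1, 351)], [(1, 2223), (1, 2439)])]), (1, 7, 2, [(1, 2190,
    [(1, 109), (1, 351)], [(1, 765), (1, 819)]), (1, 2190, [(1, 109), (1, 811)], [(1, 765), (1,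
    999)])]), (2, 3, 2, [(1, 36, [(1, 327)], [(1, 811)]), (1, 36, [(1, 327)], [(1, 2431)]), (1,
    36, [(1, 811)], [(1, 2919)]), (1, 36, [(1, 2431)], [(1, 2919)])]), (2, 4, 4, [(2, 90, [(1,
    973)], [(1, 2433), (1, 2457)]), (2, 90, [(1, 273), (1, 975)], [(1, 757), (1, 973)]), (1, 90,
    [(1, 273), (1, 2943)], [(1, 757), (1, 975)]), (1, 90, [(1, 273), (1, 975)], [(1, 757), (1,
    2943)])]), (2, 5, 2, [(1, 252, [(1, 111), (1, 837)], [(1, 2215), (1, 2269)]), (1, 252, [(1,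
    111), (1, 2271)], [(1, 2215), (1, 2943)])]), (2, 6, 2, [(1, 738, [(1, 109), (1, 351)], [(1,
    2217), (1, 2271)]), (1, 738, [(1, 109), (1, 2269)], [(1, 2217), (1, 2457)])]), (2, 7, 4, [(2,
    2196, [(1, 111), (1, 837)], [(1, 973)]), (1, 2196, [(1, 271), (1, 973)], [(1, 759), (1,
    975)]), (1, 2196, [(1, 271), (1, 973), (1, 975)], [(1, 759)]), (2, 2196, [(1, 271), (1, 351)],
    [(1, 759), (1, 975)])]), (3, 4, 2, [(1, 108, [(1, 973)], [(1, 2925)]), (1, 108, [(1, 975)],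
    [(1, 2439)]), (1, 108, [(1, 2431)], [(1, 2919)])]), (3, 5, 2, [(1, 270, [(1, 811)], [(1,
    2919)]), (1, 270, [(1, 819)], [(1, 2271)]), (1, 270, [(1, 2269)], [(1, 2925)])]), (3, 6, 2,
    [(1, 756, [(1, 327)], [(1, 2431)]), (1, 756, [(1, 333)], [(1, 2269)]), (1, 756, [(1, 2271)],
    [(1, 2439)])]), (3, 7, 2, [(1, 2214, [(1, 327)], [(1, 811)]), (1, 2214, [(1, 333)], [(1,
    973)]), (1, 2214, [(1, 819)], [(1, 975)])]), (4, 5, 1, [(1, 324, [(1, 39)], [(1, 2943)])]),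
    (4, 6, 1, [(1, 810, [(1, 37)], [(1, 2457)])]), (4, 7, 1, [(1, 2268, [(1, 31)], [(1, 999)])]),
    (5, 6, 1, [(1, 972, [(1, 31)], [(1, 2295)])]), (5, 7, 1, [(1, 2430, [(1, 37)], [(1, 837)])]),
    (6, 7, 1, [(1, 2916, [(1, 39)], [(1, 351)])])]

theorem ok101 : chkAll cb101 xb101 = true := by decide +kernel

def cb102 : List ℕ :=
  [112, 118, 120, 274, 280, 282, 328, 334, 336, 354, 360, 760, 766, 768, 814, 820, 822, 838, 846,
    976, 982, 984, 1000, 1002, 1054, 1056, 1062, 1080, 2218, 2224, 2226, 2272, 2278, 2280, 2296,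
    2298, 2304, 2434, 2440, 2442, 2458, 2466, 2512, 2514, 2538, 2920, 2926, 2928, 2944, 2946,
    2952, 3000, 3006, 3024, 3160, 3162, 3168, 3186, 3240]

def xb102 : List Entry :=
  [(0, 1, 2, [(1, 4, [(1, 999)], [(1, 2295)]), (1, 4, [(1, 1053)], [(1, 2295)])]), (0, 2, 2, [(1,
    10, [(1, 1053)], [(1, 2295)]), (1, 10, [(1, 1053)], [(1, 2457)])]), (0, 3, 2, [(1, 28, [(1,
    819)], [(1, 2271), (1, 2919)]), (1, 28, [(1, 819), (1, 2439)], [(1, 975)])]), (0, 5, 2, [(1,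
    244, [(1, 819), (1, 2925)], [(1, 2271)]), (1, 244, [(1, 759), (1, 2271)], [(1, 2223)])]), (0,
    6, 8, [(2, 730, [(1, 117), (1, 2277)], [(1, 273), (1, 333)]), (5, 730, [(1, 117), (1, 333)],
    [(1, 273), (1, 327)]), (1, 730, [(1, 117), (1, 327), (1, 333)], [(1, 273)])]), (0, 7, 8, [(2,
    2188, [(1, 117), (1, 327)], [(1, 279), (1, 813)]), (5, 2188, [(1, 111), (1, 327)], [(1, 117),
    (1, 279)]), (1, 2188, [(1, 111), (1, 117), (1, 279)], [(1, 327)])]), (1, 2, 2, [(1, 12, [(1,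
    351)], [(1, 2943)]), (1, 12, [(1, 351)], [(1, 3159)])]), (1, 3, 2, [(1, 30, [(1, 333)], [(1,
    973)])]), (1, 4, 4, [(2, 84, [(1, 279), (1, 2925)], [(1, 2215), (1, 2431)]), (1, 84, [(1,
    279), (1, 2223)], [(1, 2431), (1, 2925)]), (1, 84, [(1, 279), (1, 2223), (1, 2925)], [(1,
    2431)])]), (1, 5, 4, [(2, 246, [(1, 117), (1, 819)], [(1, 757), (1, 2269)]), (1, 246, [(1,
    117), (1, 2269)], [(1, 757), (1, 811)]), (1, 246, [(1, 117)], [(1, 757), (1, 811), (1,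
    2269)])]), (1, 6, 2, [(1, 732, [(1, 271)], [(1, 2223)]), (1, 732, [(1, 271)], [(1, 2439)])]),
    (1, 7, 4, [(1, 2190, [(1, 109), (1, 765)], [(1, 819)]), (1, 2190, [(1, 109)], [(1, 765), (1,
    819)]), (2, 2190, [(1, 325), (1, 757)], [(1, 819)])]), (2, 3, 4, [(2, 36, [(1, 327)], [(1,
    811), (1, 2269), (1, 2431)]), (1, 36, [(1, 327), (1, 2271)], [(1, 2269), (1, 2431)]), (1, 36,
    [(1, 327), (1, 2269), (1, 2271)], [(1, 2431)])]), (2, 4, 4, [(2, 90, [(1, 273), (1, 975)],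
    [(1, 757), (1, 973)]), (1, 90, [(1, 273), (1, 2919)], [(1, 757), (1, 975)]), (1, 90, [(1,
    273), (1, 975), (1, 2919)], [(1, 757)])]), (2, 5, 2, [(1, 252, [(1, 111)], [(1, 2215)])]), (2,
    6, 4, [(1, 738, [(1, 325), (1, 2433)], [(1, 2271)]), (1, 738, [(1, 325)], [(1, 2271), (1,
    2433)]), (2, 738, [(1, 109), (1, 2431)], [(1, 2271)])]), (2, 7, 2, [(1, 2196, [(1, 271)], [(1,
    759)]), (1, 2196, [(1, 271)], [(1, 975)])]), (3, 4, 2, [(1, 108, [(1, 255)], [(1, 3159)])]),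
    (3, 7, 4, [(1, 2214, [(1, 85), (1, 253)], [(1, 1053)]), (2, 2214, [(1, 91), (1, 253)], [(1,
    1053)]), (1, 2214, [(1, 85)], [(1, 253), (1, 1053)])]), (4, 5, 2, [(1, 324, [(1, 39)], [(1,
    2943)])]), (4, 6, 2, [(1, 810, [(1, 253)], [(1, 2457)])]), (4, 7, 2, [(1, 2268, [(1, 31)],
    [(1, 999)])]), (5, 6, 4, [(1, 972, [(1, 31), (1, 91)], [(1, 2295)]), (2, 972, [(1, 31), (1,
    85)], [(1, 2295)]), (1, 972, [(1, 31), (1, 2295)], [(1, 91)])]), (6, 7, 2, [(1, 2916, [(1,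
    39)], [(1, 351)]), (1, 2916, [(1, 255)], [(1, 351)])])]

theorem ok102 : chkAll cb102 xb102 = true := by decide +kernel

def cb104 : List ℕ :=
  [112, 118, 120, 274, 280, 282, 328, 334, 336, 354, 360, 760, 766, 768, 814, 820, 822, 838, 840,
    846, 976, 982, 984, 1000, 1008, 1054, 1056, 1062, 1080, 2218, 2224, 2226, 2272, 2278, 2280,
    2296, 2298, 2304, 2434, 2440, 2442, 2458, 2466, 2512, 2514, 2520, 2538, 2920, 2926, 2928,
    2944, 2952, 3000, 3006, 3024, 3160, 3168, 3240]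

def xb104 : List Entry :=
  [(0, 3, 2, [(1, 28, [(1, 813)], [(1, 2925)]), (1, 28, [(1, 2271)], [(1, 2925)])]), (0, 5, 2,
    [(1, 244, [(1, 813)], [(1, 2925)]), (1, 244, [(1, 2271)], [(1, 2925)])]), (0, 6, 2, [(1, 730,
    [(1, 111)], [(1, 279)]), (1, 730, [(1, 279)], [(1, 327)])]), (0, 7, 2, [(1, 2188, [(1, 111)],
    [(1, 279)]), (1, 2188, [(1, 279)], [(1, 327)])]), (1, 4, 2, [(1, 84, [(1, 279)], [(1, 757),
    (1, 2431)]), (1, 84, [(1, 279)], [(1, 973), (1, 2215)]), (1, 84, [(1, 757), (1, 2215)], [(1,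
    2925)]), (1, 84, [(1, 973), (1, 2431)], [(1, 2925)]), (1, 94, [(1, 756), (1, 972)], [(1,
    2214), (1, 2430)]), (1, 94, [(1, 756), (1, 2214)], [(1, 972), (1, 2430)]), (1, 354, [(1,
    730)], [(1, 738), (1, 2188), (1, 2196)]), (1, 354, [(1, 730), (1, 738), (1, 2196)], [(1,
    2188)])]), (2, 3, 2, [(1, 36, [(1, 327)], [(1, 973)]), (1, 36, [(1, 327)], [(1, 2431)])]), (2,
    5, 2, [(1, 252, [(1, 111)], [(1, 757)]), (1, 252, [(1, 111)], [(1, 2215)])]), (2, 6, 2, [(1,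
    738, [(1, 2215)], [(1, 2271)]), (1, 738, [(1, 2271)], [(1, 2431)])]), (2, 7, 2, [(1, 2196,
    [(1, 757)], [(1, 813)]), (1, 2196, [(1, 813)], [(1, 973)])])]

theorem ok104 : chkAll cb104 xb104 = true := by decide +kernel

def cb105 : List ℕ :=
  [112, 118, 120, 274, 280, 282, 328, 334, 336, 354, 360, 760, 766, 768, 814, 820, 822, 838, 840,
    846, 976, 982, 984, 1000, 1008, 1054, 1056, 1062, 1080, 2218, 2224, 2226, 2272, 2278, 2280,
    2296, 2298, 2304, 2434, 2440, 2442, 2458, 2460, 2466, 2512, 2520, 2538, 2920, 2926, 2928,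
    2944, 2946, 2952, 2998, 3000, 3006, 3162, 3168, 3186, 3240]

def xb105 : List Entry :=
  [(0, 1, 1, [(1, 4, [(1, 1053)], [(1, 2457)])]), (0, 3, 2, [(1, 28, [(1, 981)], [(1, 2433)]), (1,
    28, [(1, 981)], [(1, 2919)]), (1, 28, [(1, 1053)], [(1, 2919)])]), (0, 4, 2, [(1, 82, [(1,
    975)], [(1, 2439)]), (1, 82, [(1, 2439)], [(1, 2919)]), (1, 82, [(1, 2457)], [(1, 2919)])]),
    (0, 6, 2, [(1, 730, [(1, 111)], [(1, 279)]), (1, 730, [(1, 111)], [(1, 2457)]), (1, 730, [(1,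
    279)], [(1, 327)])]), (0, 7, 2, [(1, 2188, [(1, 111)], [(1, 333)]), (1, 2188, [(1, 111)], [(1,
    1053)]), (1, 2188, [(1, 273)], [(1, 333)])]), (1, 3, 2, [(1, 30, [(1, 333)], [(1, 2269)]), (1,
    30, [(1, 333)], [(1, 2431)]), (1, 30, [(1, 1053)], [(1, 2269)])]), (1, 4, 2, [(1, 84, [(1,
    279)], [(1, 757)]), (1, 84, [(1, 279)], [(1, 973)]), (1, 84, [(1, 757)], [(1, 2457)])]), (1,
    6, 2, [(1, 732, [(1, 325)], [(1, 2439)]), (1, 732, [(1, 2269)], [(1, 2439)]), (1, 732, [(1,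
    2269)], [(1, 2457)])]), (1, 7, 2, [(1, 2190, [(1, 271)], [(1, 981)]), (1, 2190, [(1, 757)],
    [(1, 981)]), (1, 2190, [(1, 757)], [(1, 1053)])]), (2, 3, 2, [(1, 36, [(1, 327)], [(1,
    973)])]), (2, 4, 2, [(1, 90, [(1, 273)], [(1, 2431)])]), (2, 5, 2, [(1, 252, [(1, 111)], [(1,
    757)]), (1, 252, [(1, 111)], [(1, 2269)]), (1, 252, [(1, 757)], [(1, 2919)]), (2, 252, [(1,
    811)], [(1, 2217)]), (1, 252, [(1, 2269)], [(1, 2919)])]), (2, 6, 2, [(1, 738, [(1, 271)],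
    [(1, 2433)])]), (2, 7, 2, [(1, 2196, [(1, 325)], [(1, 975)])]), (3, 5, 2, [(1, 270, [(1,
    2269)], [(1, 2919)])]), (3, 7, 1, [(1, 2214, [(1, 247)], [(1, 1053)])]), (4, 5, 2, [(1, 324,
    [(1, 757)], [(1, 2919)])]), (4, 6, 1, [(1, 810, [(1, 247)], [(1, 2457)])]), (5, 6, 2, [(1,
    972, [(1, 111)], [(1, 2269)])]), (5, 7, 2, [(1, 2430, [(1, 111)], [(1, 757)])])]

theorem ok105 : chkAll cb105 xb105 = true := by decide +kernel

def cb106 : List ℕ :=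
  [112, 118, 120, 274, 280, 282, 328, 334, 336, 354, 360, 760, 766, 768, 814, 820, 822, 840, 846,
    976, 982, 984, 1002, 1008, 1056, 1062, 2218, 2224, 2226, 2272, 2278, 2280, 2298, 2304, 2434,
    2440, 2442, 2460, 2466, 2514, 2520, 2920, 2926, 2928, 2946, 2952, 3000, 3006, 3162, 3168]

def xb106 : List Entry :=
  []

theorem ok106 : chkAll cb106 xb106 = true := by decide +kernel

def cb107 : List ℕ :=
  [112, 118, 120, 274, 280, 282, 328, 334, 336, 352, 354, 360, 760, 766, 768, 814, 820, 822, 838,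
    840, 846, 976, 982, 984, 1000, 1002, 1008, 1054, 1056, 1062, 2218, 2224, 2226, 2272, 2278,
    2280, 2296, 2298, 2304, 2434, 2440, 2442, 2458, 2460, 2466, 2512, 2514, 2520, 2920, 2926,
    2928, 2944, 2946, 2952, 2998, 3000, 3006, 3160, 3162, 3168]

def xb107 : List Entry :=
  []

theorem ok107 : chkAll cb107 xb107 = true := by decide +kernel

def cb108 : List ℕ :=
  [742, 760, 766, 768, 814, 820, 822, 838, 840, 846, 976, 982, 984, 1000, 1002, 1008, 1054, 1056,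
    1062, 1080, 2200, 2218, 2224, 2226, 2272, 2278, 2280, 2296, 2298, 2304, 2434, 2440, 2442,
    2458, 2460, 2466, 2512, 2514, 2520, 2538, 2926, 2928, 2944, 2946, 2998, 3000, 3006, 3024,
    3160, 3162, 3168, 3186]

def xb108 : List Entry :=
  []

theorem ok108 : chkAll cb108 xb108 = true := by decide +kernel

def cb109 : List ℕ :=
  [256, 274, 280, 282, 328, 334, 336, 352, 354, 360, 742, 760, 766, 768, 814, 820, 822, 838, 840,
    846, 982, 984, 1000, 1002, 1054, 1056, 1062, 1080, 2200, 2218, 2224, 2226, 2272, 2278, 2280,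
    2296, 2298, 2304, 2434, 2442, 2458, 2466, 2512, 2514, 2520, 2538, 2920, 2926, 2946, 2952,
    2998, 3000, 3006, 3024, 3160, 3162, 3168, 3186]

def xb109 : List Entry :=
  [(0, 1, 1, [(1, 4, [(1, 2223)], [(1, 3159)])]), (0, 2, 1, [(1, 10, [(1, 759)], [(1, 3159)])]),
    (0, 3, 1, [(1, 28, [(1, 255)], [(1, 3159)])]), (0, 4, 2, [(1, 82, [(1, 981)], [(1, 2433)]),
    (1, 82, [(1, 999)], [(1, 2919)]), (1, 82, [(1, 2457)], [(1, 2925)])]), (0, 5, 2, [(1, 244,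
    [(1, 759), (1, 2919)], [(1, 2223), (1, 2295)]), (1, 244, [(1, 759), (1, 837)], [(1, 2223), (1,
    2925)])]), (0, 6, 2, [(1, 730, [(1, 255), (1, 333)], [(1, 2223), (1, 2457)]), (1, 730, [(1,
    255), (1, 2433)], [(1, 2223), (1, 2277)])]), (0, 7, 2, [(1, 2188, [(1, 255), (1, 327)], [(1,
    759), (1, 999)]), (1, 2188, [(1, 255), (1, 981)], [(1, 759), (1, 813)])]), (1, 2, 1, [(1, 12,
    [(1, 271)], [(1, 3159)])]), (1, 3, 1, [(1, 30, [(1, 739)], [(1, 3159)])]), (1, 4, 2, [(1, 84,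
    [(1, 981)], [(1, 2917)]), (1, 84, [(1, 999)], [(1, 2431)]), (1, 84, [(1, 2439)], [(1,
    2943)])]), (1, 5, 2, [(1, 246, [(1, 739), (1, 819)], [(1, 2223), (1, 2943)]), (1, 246, [(1,
    739), (1, 2917)], [(1, 2223), (1, 2277)])]), (1, 6, 2, [(1, 732, [(1, 271), (1, 2431)], [(1,
    2223), (1, 2295)]), (1, 732, [(1, 271), (1, 351)], [(1, 2223), (1, 2439)])]), (1, 7, 2, [(1,
    2190, [(1, 271), (1, 999)], [(1, 739), (1, 811)]), (1, 2190, [(1, 271), (1, 325)], [(1, 739),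
    (1, 981)])]), (2, 3, 1, [(1, 36, [(1, 2191)], [(1, 3159)])]), (2, 4, 2, [(1, 90, [(1, 973)],
    [(1, 2457)]), (1, 90, [(1, 975)], [(1, 2943)]), (1, 90, [(1, 2433)], [(1, 2917)])]), (2, 5, 2,
    [(1, 252, [(1, 759), (1, 2943)], [(1, 2191), (1, 2271)]), (1, 252, [(1, 759), (1, 813)], [(1,
    2191), (1, 2917)])]), (2, 6, 2, [(1, 738, [(1, 271), (1, 2457)], [(1, 2191), (1, 2269)]), (1,
    738, [(1, 271), (1, 325)], [(1, 2191), (1, 2433)])]), (2, 7, 2, [(1, 2196, [(1, 271), (1,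
    973)], [(1, 759), (1, 837)]), (1, 2196, [(1, 271), (1, 351)], [(1, 759), (1, 975)])]), (3, 4,
    2, [(1, 108, [(1, 973)], [(1, 2925)]), (1, 108, [(1, 975)], [(1, 2439)]), (1, 108, [(1,
    2431)], [(1, 2919)])]), (3, 5, 2, [(1, 270, [(1, 739), (1, 2925)], [(1, 2191), (1, 2269)]),
    (1, 270, [(1, 739), (1, 811)], [(1, 2191), (1, 2919)])]), (3, 6, 2, [(1, 756, [(1, 255), (1,
    2439)], [(1, 2191), (1, 2271)]), (1, 756, [(1, 255), (1, 327)], [(1, 2191), (1, 2431)])]), (3,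
    7, 2, [(1, 2214, [(1, 255), (1, 333)], [(1, 739), (1, 973)]), (1, 2214, [(1, 255), (1, 975)],
    [(1, 739), (1, 819)])]), (4, 5, 2, [(1, 324, [(1, 739)], [(1, 2191)]), (1, 324, [(1, 739)],
    [(1, 2223)]), (1, 324, [(1, 759)], [(1, 2191)]), (1, 324, [(1, 759)], [(1, 2223)])]), (4, 6,
    2, [(1, 810, [(1, 255)], [(1, 2191)]), (1, 810, [(1, 255)], [(1, 2223)]), (1, 810, [(1, 271)],
    [(1, 2191)]), (1, 810, [(1, 271)], [(1, 2223)])]), (4, 7, 2, [(1, 2268, [(1, 255)], [(1,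
    739)]), (1, 2268, [(1, 255)], [(1, 759)]), (1, 2268, [(1, 271)], [(1, 739)]), (1, 2268, [(1,
    271)], [(1, 759)])]), (5, 6, 1, [(1, 972, [(1, 2191)], [(1, 2223)])]), (5, 7, 1, [(1, 2430,
    [(1, 739)], [(1, 759)])]), (6, 7, 1, [(1, 2916, [(1, 255)], [(1, 271)])])]

theorem ok109 : chkAll cb109 xb109 = true := by decide +kernel

def cb110 : List ℕ :=
  [256, 274, 280, 282, 328, 334, 336, 352, 354, 360, 742, 760, 766, 768, 814, 820, 822, 838, 840,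
    846, 982, 984, 1000, 1002, 1054, 1056, 1062, 1080, 2200, 2218, 2224, 2226, 2272, 2278, 2280,
    2296, 2298, 2304, 2434, 2440, 2442, 2458, 2466, 2514, 2520, 2538, 2920, 2926, 2944, 2946,
    2952, 2998, 3000, 3006, 3160, 3162, 3168, 3186, 3240]

def xb110 : List Entry :=
  [(0, 2, 2, [(1, 10, [(1, 759)], [(1, 3159)])]), (0, 3, 4, [(1, 28, [(1, 255), (1, 2271)], [(1,
    3159)]), (2, 28, [(1, 255), (1, 327)], [(1, 3159)]), (1, 28, [(1, 255), (1, 3159)], [(1,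
    2271)])]), (0, 5, 2, [(1, 244, [(1, 759)], [(1, 2223)])]), (0, 6, 2, [(1, 730, [(1, 351)],
    [(1, 2271), (1, 2277)]), (1, 730, [(1, 255), (1, 351)], [(1, 2223)])]), (0, 7, 4, [(2, 2188,
    [(1, 255), (1, 351)], [(1, 759), (1, 813)]), (1, 2188, [(1, 255), (1, 327)], [(1, 351), (1,
    759)]), (1, 2188, [(1, 255), (1, 327), (1, 351)], [(1, 759)])]), (1, 2, 2, [(1, 12, [(1,
    271)], [(1, 3159)])]), (1, 3, 2, [(1, 30, [(1, 739)], [(1, 3159)]), (1, 30, [(1, 819)], [(1,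
    3159)])]), (1, 4, 4, [(1, 84, [(1, 271), (1, 2223)], [(1, 3159)]), (2, 84, [(1, 2215), (1,
    2223)], [(1, 3159)]), (1, 84, [(1, 271)], [(1, 2223), (1, 3159)])]), (1, 5, 2, [(1, 246, [(1,
    739)], [(1, 2223)]), (1, 246, [(1, 819)], [(1, 2223)])]), (1, 6, 8, [(2, 732, [(1, 333), (1,
    2223)], [(1, 351), (1, 2215)]), (5, 732, [(1, 271), (1, 351)], [(1, 2215), (1, 2223)]), (1,
    732, [(1, 271), (1, 2215), (1, 2223)], [(1, 351)])]), (1, 7, 4, [(1, 2190, [(1, 271), (1,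
    739)], [(1, 811)]), (1, 2190, [(1, 271)], [(1, 739), (1, 811)]), (2, 2190, [(1, 253), (1,
    351)], [(1, 811)])]), (2, 3, 2, [(1, 36, [(1, 2271)], [(1, 3159)])]), (2, 4, 2, [(1, 90, [(1,
    759)], [(1, 3159)])]), (2, 5, 4, [(2, 252, [(1, 759), (1, 811)], [(1, 2191), (1, 2271)]), (1,
    252, [(1, 759), (1, 813)], [(1, 2191), (1, 2271)]), (1, 252, [(1, 759), (1, 813), (1, 2271)],
    [(1, 2191)])]), (2, 7, 4, [(2, 2196, [(1, 271), (1, 351)], [(1, 757), (1, 759)]), (1, 2196,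
    [(1, 351), (1, 757)], [(1, 759), (1, 811)]), (1, 2196, [(1, 351)], [(1, 757), (1, 759), (1,
    811)])]), (3, 5, 4, [(1, 270, [(1, 811)], [(1, 819), (1, 2271)]), (1, 270, [(1, 811), (1,
    819)], [(1, 2271)]), (2, 270, [(1, 811)], [(1, 2191), (1, 2277)])]), (3, 6, 8, [(1, 756, [(1,
    253), (1, 2191)], [(1, 255), (1, 2271)]), (1, 756, [(1, 253), (1, 255), (1, 2271)], [(1,
    2191)]), (5, 756, [(1, 255), (1, 327)], [(1, 2191), (1, 2271)]), (1, 756, [(1, 255)], [(1,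
    327), (1, 2191), (1, 2271)])]), (3, 7, 2, [(1, 2214, [(1, 255)], [(1, 739)]), (1, 2214, [(1,
    255)], [(1, 819)])]), (4, 5, 4, [(2, 324, [(1, 757), (1, 759)], [(1, 2215), (1, 2223)]), (1,
    324, [(1, 757), (1, 759)], [(1, 2191), (1, 2223)]), (1, 324, [(1, 757), (1, 2191), (1, 2223)],
    [(1, 759)])]), (4, 6, 2, [(1, 810, [(1, 253), (1, 271)], [(1, 2191)]), (1, 810, [(1, 255)],
    [(1, 2191), (1, 2223)])]), (4, 7, 2, [(1, 2268, [(1, 255)], [(1, 759)])]), (5, 6, 2, [(1, 972,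
    [(1, 2215)], [(1, 2271)]), (1, 972, [(1, 2223)], [(1, 2271)])]), (5, 7, 2, [(1, 2430, [(1,
    739)], [(1, 759)]), (1, 2430, [(1, 759)], [(1, 819)])]), (6, 7, 2, [(1, 2916, [(1, 255)], [(1,
    271)]), (1, 2916, [(1, 271)], [(1, 327)])])]

theorem ok110 : chkAll cb110 xb110 = true := by decide +kernel

end Pool.Agent.H75.Ray
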