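import Pool.Agent.H75.Ray.Chk

/-!
# Certificates for the matroids number 111, 112, 113, 114, 115, 116, 117, 118, 119, 120, 121, 122, 123 (MP_934449_co)

`cb i`: the codes of the bases of the matroid `i`, `xb i`: the certificates of the pairs which need one.
-/

set_option autoImplicit false

namespace Pool.Agent.H75.Ray

def cb111 : List ℕ :=
  [256, 274, 280, 282, 328, 334, 336, 352, 354, 360, 742, 760, 766, 768, 814, 820, 822, 838, 840,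
    846, 982, 984, 1000, 1002, 1054, 1056, 1062, 1080, 2200, 2218, 2224, 2226, 2272, 2278, 2280,
    2296, 2298, 2304, 2434, 2440, 2442, 2458, 2460, 2466, 2512, 2514, 2520, 2538, 2920, 2926,
    2946, 2952, 2998, 3000, 3006, 3024, 3160, 3162, 3168, 3186]

def xb111 : List Entry :=
  [(0, 2, 1, [(1, 10, [(1, 759)], [(1, 3159)])]), (0, 4, 2, [(1, 82, [(1, 999)], [(1, 2919)])]),
    (0, 5, 2, [(1, 244, [(1, 759)], [(1, 2223)]), (1, 244, [(1, 837)], [(1, 2223)]), (1, 244, [(1,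
    837)], [(1, 2925)])]), (0, 6, 2, [(1, 730, [(1, 255)], [(1, 2223)])]), (0, 7, 2, [(1, 2188,
    [(1, 255)], [(1, 759)]), (1, 2188, [(1, 255)], [(1, 813)]), (1, 2188, [(1, 813)], [(1,
    981)])]), (1, 3, 1, [(1, 30, [(1, 739)], [(1, 3159)])]), (1, 4, 2, [(1, 84, [(1, 981)], [(1,
    2917)])]), (1, 5, 2, [(1, 246, [(1, 739)], [(1, 2223)]), (1, 246, [(1, 819)], [(1, 2223)]),
    (1, 246, [(1, 819)], [(1, 2943)])]), (1, 6, 2, [(1, 732, [(1, 271)], [(1, 2223)])]), (1, 7, 2,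
    [(1, 2190, [(1, 271)], [(1, 739)]), (1, 2190, [(1, 271)], [(1, 811)]), (1, 2190, [(1, 811)],
    [(1, 999)])]), (2, 4, 2, [(1, 90, [(1, 975)], [(1, 2943)])]), (2, 5, 2, [(1, 252, [(1, 759)],
    [(1, 2191)]), (1, 252, [(1, 813)], [(1, 2191)]), (1, 252, [(1, 813)], [(1, 2917)])]), (2, 6,
    2, [(1, 738, [(1, 271)], [(1, 2191)])]), (2, 7, 2, [(1, 2196, [(1, 271)], [(1, 759)]), (1,
    2196, [(1, 271)], [(1, 837)]), (1, 2196, [(1, 837)], [(1, 973)])]), (3, 4, 2, [(1, 108, [(1,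
    973)], [(1, 2925)])]), (3, 5, 2, [(1, 270, [(1, 739)], [(1, 2191)]), (1, 270, [(1, 811)], [(1,
    2191)]), (1, 270, [(1, 811)], [(1, 2919)])]), (3, 6, 2, [(1, 756, [(1, 255)], [(1, 2191)])]),
    (3, 7, 2, [(1, 2214, [(1, 255)], [(1, 739)]), (1, 2214, [(1, 255)], [(1, 819)]), (1, 2214,
    [(1, 819)], [(1, 975)])]), (4, 6, 2, [(2, 810, [(1, 253)], [(1, 2217)]), (1, 810, [(1, 255)],
    [(1, 2191)]), (1, 810, [(1, 255)], [(1, 2223)]), (1, 810, [(1, 271)], [(1, 2191)]), (1, 810,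
    [(1, 271)], [(1, 2223)])]), (5, 7, 1, [(1, 2430, [(1, 739)], [(1, 759)])])]

theorem ok111 : chkAll cb111 xb111 = true := by decide +kernel

def cb112 : List ℕ :=
  [256, 274, 280, 282, 328, 334, 336, 352, 354, 360, 742, 760, 766, 768, 814, 820, 822, 838, 840,
    846, 982, 984, 1000, 1002, 1054, 1056, 1062, 1080, 2200, 2218, 2224, 2226, 2272, 2278, 2280,
    2296, 2298, 2304, 2440, 2442, 2458, 2460, 2466, 2512, 2514, 2538, 2926, 2928, 2944, 2946,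
    2952, 2998, 3000, 3006, 3168, 3186, 3240]

def xb112 : List Entry :=
  [(0, 2, 2, [(1, 10, [(1, 1053)], [(1, 2457)])]), (0, 3, 2, [(1, 28, [(1, 1053)], [(1, 2925)])]),
    (0, 4, 2, [(1, 82, [(1, 2457)], [(1, 2925)])]), (0, 5, 2, [(1, 244, [(1, 819)], [(1,
    2223)])]), (0, 6, 2, [(1, 730, [(1, 351)], [(1, 2223)])]), (0, 7, 2, [(1, 2188, [(1, 351)],
    [(1, 819)])]), (1, 2, 2, [(1, 12, [(1, 1053)], [(1, 2457)])]), (1, 3, 2, [(1, 30, [(1, 1053)],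
    [(1, 2925)])]), (1, 4, 2, [(1, 84, [(1, 2457)], [(1, 2925)])]), (1, 5, 2, [(1, 246, [(1,
    819)], [(1, 2223)])]), (1, 6, 2, [(1, 732, [(1, 351)], [(1, 2223)])]), (1, 7, 2, [(1, 2190,
    [(1, 351)], [(1, 819)])]), (2, 6, 2, [(1, 738, [(1, 351)], [(1, 2269)]), (1, 738, [(1, 351)],
    [(1, 2271)]), (1, 738, [(1, 2269)], [(1, 2457)]), (1, 738, [(1, 2271)], [(1, 2457)])]), (2, 7,
    2, [(1, 2196, [(1, 351)], [(1, 757)]), (1, 2196, [(1, 351)], [(1, 759)]), (1, 2196, [(1,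
    757)], [(1, 1053)]), (1, 2196, [(1, 759)], [(1, 1053)])]), (3, 5, 2, [(1, 270, [(1, 819)],
    [(1, 2269)]), (1, 270, [(1, 819)], [(1, 2271)]), (1, 270, [(1, 2269)], [(1, 2925)]), (1, 270,
    [(1, 2271)], [(1, 2925)])]), (3, 7, 2, [(1, 2214, [(1, 253)], [(1, 819)]), (1, 2214, [(1,
    253)], [(1, 1053)]), (1, 2214, [(1, 255)], [(1, 819)]), (1, 2214, [(1, 255)], [(1, 1053)])]),
    (4, 5, 2, [(1, 324, [(1, 757)], [(1, 2223)]), (1, 324, [(1, 757)], [(1, 2925)]), (1, 324, [(1,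
    759)], [(1, 2223)]), (1, 324, [(1, 759)], [(1, 2925)])]), (4, 6, 2, [(1, 810, [(1, 253)], [(1,
    2223)]), (1, 810, [(1, 253)], [(1, 2457)]), (1, 810, [(1, 255)], [(1, 2223)]), (1, 810, [(1,
    255)], [(1, 2457)])])]

theorem ok112 : chkAll cb112 xb112 = true := by decide +kernel

def cb113 : List ℕ :=
  [94, 112, 118, 120, 256, 274, 280, 282, 334, 336, 352, 354, 742, 760, 766, 768, 814, 822, 838,
    846, 976, 982, 1002, 1008, 1054, 1056, 1062, 1080, 2200, 2218, 2224, 2226, 2272, 2278, 2298,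
    2304, 2434, 2442, 2458, 2466, 2512, 2514, 2520, 2538, 2926, 2928, 2944, 2946, 2998, 3000,
    3006, 3024, 3160, 3162, 3168, 3186]

def xb113 : List Entry :=
  [(0, 1, 1, [(1, 4, [(1, 117)], [(1, 2997)]), (1, 4, [(1, 279)], [(1, 3159)]), (1, 4, [(1, 333)],
    [(1, 2925)]), (1, 4, [(1, 351)], [(1, 2943)]), (1, 4, [(1, 765)], [(1, 1053)]), (1, 4, [(1,
    2223)], [(1, 2511)])]), (0, 2, 1, [(1, 10, [(1, 111)], [(1, 2511)]), (1, 10, [(1, 273)], [(1,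
    1053)]), (1, 10, [(1, 759)], [(1, 3159)]), (1, 10, [(1, 813)], [(1, 2433)]), (1, 10, [(1,
    837)], [(1, 2457)]), (1, 10, [(1, 2217)], [(1, 2997)])]), (0, 3, 1, [(1, 28, [(1, 93)], [(1,
    1053)]), (1, 28, [(1, 255)], [(1, 2511)]), (1, 28, [(1, 741)], [(1, 2997)]), (1, 28, [(1,
    975)], [(1, 2271)]), (1, 28, [(1, 981)], [(1, 2277)]), (1, 28, [(1, 2199)], [(1, 3159)])]),
    (0, 4, 1, [(1, 82, [(1, 255)], [(1, 2223)]), (1, 82, [(1, 273)], [(1, 765)]), (1, 82, [(1,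
    741)], [(1, 2217)]), (1, 82, [(1, 975)], [(1, 2943)]), (1, 82, [(1, 981)], [(1, 2457)]), (1,
    82, [(1, 2433)], [(1, 2925)])]), (0, 5, 1, [(1, 244, [(1, 93)], [(1, 765)]), (1, 244, [(1,
    111)], [(1, 2223)]), (1, 244, [(1, 759)], [(1, 2199)]), (1, 244, [(1, 813)], [(1, 2925)]), (1,
    244, [(1, 837)], [(1, 2277)]), (1, 244, [(1, 2271)], [(1, 2943)])]), (0, 6, 1, [(1, 730, [(1,
    93)], [(1, 273)]), (1, 730, [(1, 117)], [(1, 2217)]), (1, 730, [(1, 279)], [(1, 2199)]), (1,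
    730, [(1, 333)], [(1, 2433)]), (1, 730, [(1, 351)], [(1, 2271)]), (1, 730, [(1, 2277)], [(1,
    2457)])]), (0, 7, 1, [(1, 2188, [(1, 111)], [(1, 255)]), (1, 2188, [(1, 117)], [(1, 741)]),
    (1, 2188, [(1, 279)], [(1, 759)]), (1, 2188, [(1, 333)], [(1, 813)]), (1, 2188, [(1, 351)],
    [(1, 975)]), (1, 2188, [(1, 837)], [(1, 981)])]), (1, 2, 1, [(1, 12, [(1, 109)], [(1, 1053)]),
    (1, 12, [(1, 271)], [(1, 2511)]), (1, 12, [(1, 757)], [(1, 2997)]), (1, 12, [(1, 973)], [(1,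
    2269)]), (1, 12, [(1, 999)], [(1, 2295)]), (1, 12, [(1, 2215)], [(1, 3159)])]), (1, 3, 1, [(1,
    30, [(1, 91)], [(1, 2511)]), (1, 30, [(1, 253)], [(1, 1053)]), (1, 30, [(1, 739)], [(1,
    3159)]), (1, 30, [(1, 811)], [(1, 2431)]), (1, 30, [(1, 819)], [(1, 2439)]), (1, 30, [(1,
    2197)], [(1, 2997)])]), (1, 4, 1, [(1, 84, [(1, 253)], [(1, 765)]), (1, 84, [(1, 271)], [(1,
    2223)]), (1, 84, [(1, 757)], [(1, 2197)]), (1, 84, [(1, 973)], [(1, 2925)]), (1, 84, [(1,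
    999)], [(1, 2439)]), (1, 84, [(1, 2431)], [(1, 2943)])]), (1, 5, 1, [(1, 246, [(1, 91)], [(1,
    2223)]), (1, 246, [(1, 109)], [(1, 765)]), (1, 246, [(1, 739)], [(1, 2215)]), (1, 246, [(1,
    811)], [(1, 2943)]), (1, 246, [(1, 819)], [(1, 2295)]), (1, 246, [(1, 2269)], [(1, 2925)])]),
    (1, 6, 1, [(1, 732, [(1, 109)], [(1, 253)]), (1, 732, [(1, 117)], [(1, 2197)]), (1, 732, [(1,
    279)], [(1, 2215)]), (1, 732, [(1, 333)], [(1, 2269)]), (1, 732, [(1, 351)], [(1, 2431)]), (1,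
    732, [(1, 2295)], [(1, 2439)])]), (1, 7, 1, [(1, 2190, [(1, 91)], [(1, 271)]), (1, 2190, [(1,
    117)], [(1, 757)]), (1, 2190, [(1, 279)], [(1, 739)]), (1, 2190, [(1, 333)], [(1, 973)]), (1,
    2190, [(1, 351)], [(1, 811)]), (1, 2190, [(1, 819)], [(1, 999)])]), (2, 3, 1, [(1, 36, [(1,
    85)], [(1, 2997)]), (1, 36, [(1, 247)], [(1, 3159)]), (1, 36, [(1, 325)], [(1, 2917)]), (1,
    36, [(1, 327)], [(1, 2919)]), (1, 36, [(1, 733)], [(1, 1053)]), (1, 36, [(1, 2191)], [(1,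
    2511)])]), (2, 4, 1, [(1, 90, [(1, 271)], [(1, 2191)]), (1, 90, [(1, 273)], [(1, 733)]), (1,
    90, [(1, 757)], [(1, 2217)]), (1, 90, [(1, 973)], [(1, 2433)]), (1, 90, [(1, 999)], [(1,
    2919)]), (1, 90, [(1, 2457)], [(1, 2917)])]), (2, 5, 1, [(1, 252, [(1, 109)], [(1, 733)]), (1,
    252, [(1, 111)], [(1, 2191)]), (1, 252, [(1, 759)], [(1, 2215)]), (1, 252, [(1, 813)], [(1,
    2269)]), (1, 252, [(1, 837)], [(1, 2917)]), (1, 252, [(1, 2295)], [(1, 2919)])]), (2, 6, 1,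
    [(1, 738, [(1, 85)], [(1, 2217)]), (1, 738, [(1, 109)], [(1, 273)]), (1, 738, [(1, 247)], [(1,
    2215)]), (1, 738, [(1, 325)], [(1, 2457)]), (1, 738, [(1, 327)], [(1, 2295)]), (1, 738, [(1,
    2269)], [(1, 2433)])]), (2, 7, 1, [(1, 2196, [(1, 85)], [(1, 757)]), (1, 2196, [(1, 111)],
    [(1, 271)]), (1, 2196, [(1, 247)], [(1, 759)]), (1, 2196, [(1, 325)], [(1, 837)]), (1, 2196,
    [(1, 327)], [(1, 999)]), (1, 2196, [(1, 813)], [(1, 973)])]), (3, 4, 1, [(1, 108, [(1, 253)],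
    [(1, 733)]), (1, 108, [(1, 255)], [(1, 2191)]), (1, 108, [(1, 741)], [(1, 2197)]), (1, 108,
    [(1, 975)], [(1, 2431)]), (1, 108, [(1, 981)], [(1, 2917)]), (1, 108, [(1, 2439)], [(1,
    2919)])]), (3, 5, 1, [(1, 270, [(1, 91)], [(1, 2191)]), (1, 270, [(1, 93)], [(1, 733)]), (1,
    270, [(1, 739)], [(1, 2199)]), (1, 270, [(1, 811)], [(1, 2271)]), (1, 270, [(1, 819)], [(1,
    2919)]), (1, 270, [(1, 2277)], [(1, 2917)])]), (3, 6, 1, [(1, 756, [(1, 85)], [(1, 2197)]),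
    (1, 756, [(1, 93)], [(1, 253)]), (1, 756, [(1, 247)], [(1, 2199)]), (1, 756, [(1, 325)], [(1,
    2277)]), (1, 756, [(1, 327)], [(1, 2439)]), (1, 756, [(1, 2271)], [(1, 2431)])]), (3, 7, 1,
    [(1, 2214, [(1, 85)], [(1, 741)]), (1, 2214, [(1, 91)], [(1, 255)]), (1, 2214, [(1, 247)],
    [(1, 739)]), (1, 2214, [(1, 325)], [(1, 981)]), (1, 2214, [(1, 327)], [(1, 819)]), (1, 2214,
    [(1, 811)], [(1, 975)])]), (4, 5, 1, [(1, 324, [(1, 13)], [(1, 2925)]), (1, 324, [(1, 31)],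
    [(1, 2943)]), (1, 324, [(1, 37)], [(1, 2917)]), (1, 324, [(1, 39)], [(1, 2919)]), (1, 324,
    [(1, 733)], [(1, 765)]), (1, 324, [(1, 2191)], [(1, 2223)])]), (4, 6, 1, [(1, 810, [(1, 13)],
    [(1, 2433)]), (1, 810, [(1, 31)], [(1, 2431)]), (1, 810, [(1, 37)], [(1, 2457)]), (1, 810,
    [(1, 39)], [(1, 2439)]), (1, 810, [(1, 253)], [(1, 273)]), (1, 810, [(1, 2197)], [(1,
    2217)])]), (4, 7, 1, [(1, 2268, [(1, 13)], [(1, 973)]), (1, 2268, [(1, 31)], [(1, 975)]), (1,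
    2268, [(1, 37)], [(1, 981)]), (1, 2268, [(1, 39)], [(1, 999)]), (1, 2268, [(1, 255)], [(1,
    271)]), (1, 2268, [(1, 741)], [(1, 757)])]), (5, 6, 1, [(1, 972, [(1, 13)], [(1, 2269)]), (1,
    972, [(1, 31)], [(1, 2271)]), (1, 972, [(1, 37)], [(1, 2277)]), (1, 972, [(1, 39)], [(1,
    2295)]), (1, 972, [(1, 93)], [(1, 109)]), (1, 972, [(1, 2199)], [(1, 2215)])]), (5, 7, 1, [(1,
    2430, [(1, 13)], [(1, 813)]), (1, 2430, [(1, 31)], [(1, 811)]), (1, 2430, [(1, 37)], [(1,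
    837)]), (1, 2430, [(1, 39)], [(1, 819)]), (1, 2430, [(1, 91)], [(1, 111)]), (1, 2430, [(1,
    739)], [(1, 759)])]), (6, 7, 1, [(1, 2916, [(1, 13)], [(1, 333)]), (1, 2916, [(1, 31)], [(1,
    351)]), (1, 2916, [(1, 37)], [(1, 325)]), (1, 2916, [(1, 39)], [(1, 327)]), (1, 2916, [(1,
    85)], [(1, 117)]), (1, 2916, [(1, 247)], [(1, 279)])])]

theorem ok113 : chkAll cb113 xb113 = true := by decide +kernel

def cb114 : List ℕ :=
  [94, 112, 118, 120, 256, 274, 280, 282, 334, 336, 352, 354, 742, 760, 766, 768, 814, 822, 838,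
    846, 976, 982, 1002, 1008, 1054, 1056, 1062, 1080, 2200, 2218, 2224, 2226, 2272, 2278, 2296,
    2298, 2304, 2434, 2442, 2458, 2460, 2466, 2512, 2514, 2520, 2538, 2920, 2926, 2928, 2944,
    2946, 2998, 3000, 3006, 3024, 3160, 3162, 3168, 3186, 3240]

def xb114 : List Entry :=
  [(0, 1, 2, [(1, 4, [(1, 117)], [(1, 2997)]), (1, 4, [(1, 279)], [(1, 3159)]), (2, 4, [(1, 333)],
    [(1, 2925)]), (2, 4, [(1, 765)], [(1, 1053)])]), (0, 2, 2, [(1, 10, [(1, 111)], [(1, 2511)]),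
    (2, 10, [(1, 273)], [(1, 1053)]), (1, 10, [(1, 759)], [(1, 3159)]), (1, 10, [(1, 813)], [(1,
    2433)]), (1, 10, [(1, 837)], [(1, 2457)])]), (0, 3, 2, [(2, 28, [(1, 93)], [(1, 1053)]), (1,
    28, [(1, 255)], [(1, 2511)]), (1, 28, [(1, 741)], [(1, 2997)]), (2, 28, [(1, 981)], [(1,
    2277)])]), (0, 4, 2, [(2, 82, [(1, 255)], [(1, 2223)]), (2, 82, [(1, 273)], [(1, 765)]), (1,
    82, [(1, 741)], [(1, 2217)]), (1, 82, [(1, 981)], [(1, 2457)])]), (0, 5, 1, [(1, 244, [(1,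
    93)], [(1, 765)])]), (0, 6, 2, [(2, 730, [(1, 93)], [(1, 273)]), (1, 730, [(1, 117)], [(1,
    2217)]), (2, 730, [(1, 279)], [(1, 2199)]), (1, 730, [(1, 333)], [(1, 2433)])]), (0, 7, 2,
    [(1, 2188, [(1, 111)], [(1, 255)]), (2, 2188, [(1, 117)], [(1, 741)]), (1, 2188, [(1, 279)],
    [(1, 759)]), (1, 2188, [(1, 333)], [(1, 813)]), (1, 2188, [(1, 837)], [(1, 981)])]), (1, 2, 2,
    [(2, 12, [(1, 109)], [(1, 1053)]), (1, 12, [(1, 271)], [(1, 2511)]), (1, 12, [(1, 757)], [(1,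
    2997)]), (1, 12, [(1, 973)], [(1, 2269)]), (1, 12, [(1, 999)], [(1, 2295)])]), (1, 3, 2, [(1,
    30, [(1, 91)], [(1, 2511)]), (2, 30, [(1, 253)], [(1, 1053)]), (1, 30, [(1, 739)], [(1,
    3159)]), (2, 30, [(1, 819)], [(1, 2439)])]), (1, 4, 1, [(1, 84, [(1, 253)], [(1, 765)])]), (1,
    5, 2, [(2, 246, [(1, 91)], [(1, 2223)]), (2, 246, [(1, 109)], [(1, 765)]), (1, 246, [(1,
    739)], [(1, 2215)]), (1, 246, [(1, 819)], [(1, 2295)])]), (1, 6, 2, [(2, 732, [(1, 109)], [(1,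
    253)]), (2, 732, [(1, 117)], [(1, 2197)]), (1, 732, [(1, 279)], [(1, 2215)]), (1, 732, [(1,
    333)], [(1, 2269)])]), (1, 7, 2, [(1, 2190, [(1, 91)], [(1, 271)]), (1, 2190, [(1, 117)], [(1,
    757)]), (2, 2190, [(1, 279)], [(1, 739)]), (1, 2190, [(1, 333)], [(1, 973)]), (1, 2190, [(1,
    819)], [(1, 999)])]), (2, 3, 2, [(1, 36, [(1, 85)], [(1, 2997)]), (1, 36, [(1, 247)], [(1,
    3159)]), (1, 36, [(1, 325)], [(1, 2917)]), (1, 36, [(1, 327)], [(1, 2919)]), (2, 36, [(1,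
    733)], [(1, 1053)])]), (2, 4, 2, [(1, 90, [(1, 271)], [(1, 2191)]), (2, 90, [(1, 273)], [(1,
    733)]), (1, 90, [(1, 757)], [(1, 2217)]), (1, 90, [(1, 973)], [(1, 2433)]), (1, 90, [(1,
    999)], [(1, 2919)])]), (2, 5, 2, [(2, 252, [(1, 109)], [(1, 733)]), (1, 252, [(1, 111)], [(1,
    2191)]), (1, 252, [(1, 759)], [(1, 2215)]), (1, 252, [(1, 813)], [(1, 2269)]), (1, 252, [(1,
    837)], [(1, 2917)])]), (2, 6, 2, [(1, 738, [(1, 85)], [(1, 2217)]), (2, 738, [(1, 109)], [(1,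
    273)]), (1, 738, [(1, 247)], [(1, 2215)]), (1, 738, [(1, 325)], [(1, 2457)]), (1, 738, [(1,
    327)], [(1, 2295)])]), (3, 4, 2, [(2, 108, [(1, 253)], [(1, 733)]), (1, 108, [(1, 255)], [(1,
    2191)]), (2, 108, [(1, 741)], [(1, 2197)]), (1, 108, [(1, 981)], [(1, 2917)])]), (3, 5, 2,
    [(1, 270, [(1, 91)], [(1, 2191)]), (2, 270, [(1, 93)], [(1, 733)]), (2, 270, [(1, 739)], [(1,
    2199)]), (1, 270, [(1, 819)], [(1, 2919)])]), (3, 6, 1, [(1, 756, [(1, 93)], [(1, 253)])]),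
    (3, 7, 2, [(1, 2214, [(1, 85)], [(1, 741)]), (2, 2214, [(1, 91)], [(1, 255)]), (1, 2214, [(1,
    247)], [(1, 739)]), (1, 2214, [(1, 325)], [(1, 981)]), (1, 2214, [(1, 327)], [(1, 819)])]),
    (4, 5, 2, [(2, 324, [(1, 13)], [(1, 2925)]), (1, 324, [(1, 37)], [(1, 2917)]), (1, 324, [(1,
    39)], [(1, 2919)]), (2, 324, [(1, 733)], [(1, 765)])]), (4, 6, 2, [(1, 810, [(1, 13)], [(1,
    2433)]), (1, 810, [(1, 37)], [(1, 2457)]), (2, 810, [(1, 39)], [(1, 2439)]), (2, 810, [(1,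
    253)], [(1, 273)])]), (4, 7, 2, [(1, 2268, [(1, 13)], [(1, 973)]), (2, 2268, [(1, 37)], [(1,
    981)]), (1, 2268, [(1, 39)], [(1, 999)]), (1, 2268, [(1, 255)], [(1, 271)]), (1, 2268, [(1,
    741)], [(1, 757)])]), (5, 6, 2, [(1, 972, [(1, 13)], [(1, 2269)]), (2, 972, [(1, 37)], [(1,
    2277)]), (1, 972, [(1, 39)], [(1, 2295)]), (2, 972, [(1, 93)], [(1, 109)])]), (5, 7, 2, [(1,
    2430, [(1, 13)], [(1, 813)]), (1, 2430, [(1, 37)], [(1, 837)]), (2, 2430, [(1, 39)], [(1,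
    819)]), (1, 2430, [(1, 91)], [(1, 111)]), (1, 2430, [(1, 739)], [(1, 759)])]), (6, 7, 2, [(2,
    2916, [(1, 13)], [(1, 333)]), (1, 2916, [(1, 37)], [(1, 325)]), (1, 2916, [(1, 39)], [(1,
    327)]), (1, 2916, [(1, 85)], [(1, 117)]), (1, 2916, [(1, 247)], [(1, 279)])])]

theorem ok114 : chkAll cb114 xb114 = true := by decide +kernel

def cb115 : List ℕ :=
  [94, 112, 118, 120, 256, 274, 280, 282, 334, 336, 352, 354, 742, 760, 766, 768, 814, 820, 822,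
    838, 846, 976, 982, 1000, 1002, 1008, 1054, 1056, 1062, 1080, 2200, 2218, 2224, 2226, 2272,
    2278, 2296, 2298, 2304, 2434, 2442, 2458, 2460, 2466, 2512, 2514, 2520, 2538, 2920, 2926,
    2928, 2946, 2952, 2998, 3000, 3006, 3024, 3160, 3162, 3168, 3186]

def xb115 : List Entry :=
  [(0, 1, 2, [(1, 4, [(1, 333)], [(1, 2925)])]), (0, 2, 2, [(1, 10, [(1, 111)], [(1, 2511)]), (1,
    10, [(1, 273)], [(1, 1053)]), (1, 10, [(1, 813)], [(1, 2433)])]), (0, 3, 2, [(1, 28, [(1,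
    93)], [(1, 1053)]), (1, 28, [(1, 255)], [(1, 2511)])]), (0, 4, 2, [(2, 82, [(1, 255)], [(1,
    2223)]), (1, 82, [(1, 273)], [(1, 765)]), (1, 82, [(1, 741)], [(1, 2217)]), (1, 82, [(1,
    765)], [(1, 2217)]), (1, 82, [(1, 981)], [(1, 2457)]), (1, 82, [(1, 999)], [(1, 2919)]), (1,
    82, [(1, 2433)], [(1, 2925)]), (1, 82, [(1, 2457)], [(1, 2925)])]), (0, 5, 2, [(1, 244, [(1,
    93)], [(1, 765)])]), (0, 6, 2, [(2, 730, [(1, 93)], [(1, 273)]), (1, 730, [(1, 279)], [(1,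
    2199)]), (2, 730, [(1, 333)], [(1, 2433)]), (1, 730, [(1, 351)], [(1, 2271)])]), (0, 7, 2,
    [(1, 2188, [(1, 111)], [(1, 255)]), (1, 2188, [(1, 333)], [(1, 813)])]), (1, 2, 2, [(1, 12,
    [(1, 109)], [(1, 1053)]), (1, 12, [(1, 271)], [(1, 2511)])]), (1, 3, 2, [(1, 30, [(1, 91)],
    [(1, 2511)]), (1, 30, [(1, 253)], [(1, 1053)]), (1, 30, [(1, 819)], [(1, 2439)])]), (1, 4, 2,
    [(1, 84, [(1, 253)], [(1, 765)]), (1, 84, [(1, 999)], [(1, 2439)])]), (1, 5, 2, [(2, 246, [(1,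
    91)], [(1, 2223)]), (1, 246, [(1, 109)], [(1, 765)]), (2, 246, [(1, 819)], [(1, 2295)]), (1,
    246, [(1, 2269)], [(1, 2925)])]), (1, 6, 2, [(1, 732, [(1, 333)], [(1, 2269)])]), (1, 7, 2,
    [(1, 2190, [(1, 91)], [(1, 271)]), (1, 2190, [(1, 109)], [(1, 765)]), (1, 2190, [(1, 271)],
    [(1, 739)]), (1, 2190, [(1, 279)], [(1, 739)]), (2, 2190, [(1, 333)], [(1, 973)]), (1, 2190,
    [(1, 351)], [(1, 811)]), (1, 2190, [(1, 811)], [(1, 999)]), (1, 2190, [(1, 819)], [(1,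
    999)])]), (2, 3, 2, [(1, 36, [(1, 327)], [(1, 2919)])]), (2, 4, 2, [(1, 90, [(1, 271)], [(1,
    2191)]), (2, 90, [(1, 273)], [(1, 733)]), (2, 90, [(1, 973)], [(1, 2433)]), (1, 90, [(1,
    999)], [(1, 2919)])]), (2, 5, 2, [(1, 252, [(1, 111)], [(1, 2191)]), (1, 252, [(1, 813)], [(1,
    2269)])]), (2, 6, 2, [(1, 738, [(1, 85)], [(1, 2217)]), (1, 738, [(1, 109)], [(1, 273)]), (1,
    738, [(1, 109)], [(1, 2217)]), (1, 738, [(1, 271)], [(1, 2191)]), (1, 738, [(1, 325)], [(1,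
    2457)]), (2, 738, [(1, 327)], [(1, 2295)]), (1, 738, [(1, 2269)], [(1, 2433)]), (1, 738, [(1,
    2269)], [(1, 2457)])]), (2, 7, 2, [(1, 2196, [(1, 327)], [(1, 999)])]), (3, 4, 2, [(1, 108,
    [(1, 255)], [(1, 2191)])]), (3, 5, 2, [(1, 270, [(1, 91)], [(1, 2191)]), (2, 270, [(1, 93)],
    [(1, 733)]), (1, 270, [(1, 739)], [(1, 2191)]), (1, 270, [(1, 739)], [(1, 2199)]), (1, 270,
    [(1, 811)], [(1, 2271)]), (1, 270, [(1, 811)], [(1, 2919)]), (1, 270, [(1, 819)], [(1,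
    2919)]), (1, 270, [(1, 2269)], [(1, 2925)])]), (3, 6, 2, [(1, 756, [(1, 93)], [(1, 253)]), (1,
    756, [(1, 327)], [(1, 2439)])]), (3, 7, 2, [(1, 2214, [(1, 85)], [(1, 741)]), (2, 2214, [(1,
    91)], [(1, 255)]), (1, 2214, [(1, 325)], [(1, 981)]), (2, 2214, [(1, 327)], [(1, 819)])]), (4,
    5, 2, [(1, 324, [(1, 13)], [(1, 2925)]), (1, 324, [(1, 39)], [(1, 2919)])]), (4, 6, 2, [(1,
    810, [(1, 13)], [(1, 2433)]), (1, 810, [(1, 39)], [(1, 2439)]), (1, 810, [(1, 253)], [(1,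
    273)])]), (4, 7, 2, [(1, 2268, [(1, 255)], [(1, 271)])]), (5, 6, 2, [(1, 972, [(1, 93)], [(1,
    109)])]), (5, 7, 2, [(1, 2430, [(1, 13)], [(1, 813)]), (1, 2430, [(1, 39)], [(1, 819)]), (1,
    2430, [(1, 91)], [(1, 111)])]), (6, 7, 2, [(1, 2916, [(1, 13)], [(1, 333)]), (1, 2916, [(1,
    39)], [(1, 327)])])]

theorem ok115 : chkAll cb115 xb115 = true := by decide +kernel

def cb116 : List ℕ :=
  [94, 112, 118, 120, 256, 274, 280, 282, 334, 336, 352, 354, 742, 760, 766, 768, 814, 820, 822,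
    838, 846, 976, 982, 1000, 1002, 1008, 1054, 1056, 1062, 1080, 2200, 2218, 2224, 2226, 2272,
    2278, 2296, 2298, 2304, 2434, 2442, 2458, 2460, 2466, 2512, 2514, 2520, 2538, 2920, 2926,
    2928, 2944, 2946, 2952, 3000, 3006, 3024, 3160, 3162, 3168, 3240]

def xb116 : List Entry :=
  [(0, 1, 2, [(1, 4, [(1, 333)], [(1, 2925)]), (1, 4, [(1, 819)], [(1, 2295)]), (1, 4, [(1,
    2511)], [(1, 2925)])]), (0, 2, 2, [(1, 10, [(1, 111)], [(1, 2511)]), (1, 10, [(1, 273)], [(1,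
    1053)]), (1, 10, [(1, 813)], [(1, 2433)]), (1, 10, [(1, 813)], [(1, 2511)])]), (0, 3, 2, [(1,
    28, [(1, 93), (1, 2433)], [(1, 1053)]), (1, 28, [(1, 255), (1, 2433)], [(1, 2511)]), (1, 28,
    [(1, 1053)], [(1, 2271), (1, 2919)]), (1, 28, [(1, 981), (1, 2925)], [(1, 2511)])]), (0, 4, 2,
    [(2, 82, [(1, 255)], [(1, 2223)]), (1, 82, [(1, 273)], [(1, 765)]), (1, 82, [(1, 741)], [(1,
    2217)])]), (0, 5, 2, [(1, 244, [(1, 93)], [(1, 765)])]), (0, 6, 2, [(2, 730, [(1, 93)], [(1,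
    273)]), (1, 730, [(1, 279)], [(1, 2199)]), (1, 730, [(1, 279)], [(1, 2433)]), (1, 730, [(1,
    333)], [(1, 2433)])]), (0, 7, 2, [(1, 2188, [(1, 111)], [(1, 255)])]), (1, 2, 2, [(1, 12, [(1,
    109)], [(1, 1053)]), (1, 12, [(1, 271)], [(1, 2511)])]), (1, 3, 2, [(1, 30, [(1, 91)], [(1,
    2511)]), (1, 30, [(1, 253)], [(1, 1053)]), (1, 30, [(1, 819)], [(1, 2439)]), (1, 30, [(1,
    1053)], [(1, 2439)])]), (1, 4, 2, [(1, 84, [(1, 253)], [(1, 765)])]), (1, 5, 2, [(2, 246, [(1,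
    91)], [(1, 2223)]), (1, 246, [(1, 109)], [(1, 765)]), (1, 246, [(1, 765)], [(1, 2295)]), (1,
    246, [(1, 819)], [(1, 2295)])]), (1, 6, 2, [(1, 732, [(1, 91)], [(1, 2511)])]), (1, 7, 2, [(1,
    2190, [(1, 117), (1, 765)], [(1, 1053)]), (1, 2190, [(1, 91)], [(1, 117), (1, 271)]), (1,
    2190, [(1, 109), (1, 757)], [(1, 1053)]), (1, 2190, [(1, 91), (1, 333)], [(1, 973)]), (1,
    2190, [(1, 279)], [(1, 739), (1, 973)])]), (2, 3, 2, [(1, 36, [(1, 327)], [(1, 2919)]), (1,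
    36, [(1, 973)], [(1, 2433)]), (1, 36, [(1, 1053)], [(1, 2919)])]), (2, 4, 2, [(1, 90, [(1,
    271)], [(1, 2191)]), (2, 90, [(1, 273)], [(1, 733)]), (1, 90, [(1, 973)], [(1, 2191)]), (1,
    90, [(1, 973)], [(1, 2433)])]), (2, 5, 2, [(1, 252, [(1, 111)], [(1, 2191)])]), (2, 6, 2, [(1,
    738, [(1, 247), (1, 2191)], [(1, 2511)]), (1, 738, [(1, 85)], [(1, 247), (1, 2217)]), (1, 738,
    [(1, 271), (1, 2215)], [(1, 2511)]), (1, 738, [(1, 85), (1, 327)], [(1, 2295)]), (1, 738, [(1,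
    109), (1, 2295)], [(1, 273)])]), (2, 7, 2, [(1, 2196, [(1, 273)], [(1, 1053)])]), (3, 4, 2,
    [(1, 108, [(1, 255)], [(1, 2191)])]), (3, 5, 2, [(1, 270, [(1, 91)], [(1, 2191)]), (2, 270,
    [(1, 93)], [(1, 733)]), (1, 270, [(1, 739)], [(1, 2199)])]), (3, 6, 2, [(1, 756, [(1, 93)],
    [(1, 253)])]), (3, 7, 2, [(1, 2214, [(1, 85)], [(1, 741)]), (1, 2214, [(1, 85)], [(1, 819)]),
    (2, 2214, [(1, 91)], [(1, 255)]), (1, 2214, [(1, 327)], [(1, 819)])]), (4, 5, 2, [(1, 324,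
    [(1, 757)], [(1, 2217), (1, 2919)]), (1, 324, [(1, 13)], [(1, 2217), (1, 2925)]), (1, 324,
    [(1, 39), (1, 765)], [(1, 2919)]), (1, 324, [(1, 2191), (1, 2215)], [(1, 2925)])]), (4, 6, 2,
    [(1, 810, [(1, 13)], [(1, 2433)]), (1, 810, [(1, 39)], [(1, 2439)]), (1, 810, [(1, 253)], [(1,
    273)]), (1, 810, [(1, 273)], [(1, 2439)])]), (4, 7, 2, [(1, 2268, [(1, 255)], [(1, 271)]), (1,
    2268, [(1, 271)], [(1, 981)]), (1, 2268, [(1, 273)], [(1, 765)])]), (5, 6, 2, [(1, 972, [(1,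
    91)], [(1, 2191)]), (1, 972, [(1, 93)], [(1, 109)]), (1, 972, [(1, 109)], [(1, 2271)])]), (5,
    7, 2, [(1, 2430, [(1, 13)], [(1, 813)]), (1, 2430, [(1, 39)], [(1, 819)]), (1, 2430, [(1,
    91)], [(1, 111)]), (1, 2430, [(1, 91)], [(1, 813)])]), (6, 7, 2, [(1, 2916, [(1, 13)], [(1,
    333)]), (1, 2916, [(1, 39)], [(1, 327)])])]

theorem ok116 : chkAll cb116 xb116 = true := by decide +kernel

def cb117 : List ℕ :=
  [94, 112, 118, 120, 256, 274, 280, 282, 334, 336, 352, 354, 742, 760, 766, 768, 814, 820, 822,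
    838, 846, 976, 982, 1000, 1002, 1008, 1054, 1056, 1062, 1080, 2200, 2218, 2224, 2226, 2272,
    2280, 2296, 2298, 2304, 2434, 2440, 2442, 2460, 2466, 2512, 2514, 2520, 2538, 2926, 2928,
    2944, 2946, 2998, 3000, 3006, 3024, 3160, 3162, 3168, 3186]

def xb117 : List Entry :=
  [(0, 2, 2, [(1, 10, [(1, 273)], [(1, 1053)]), (1, 10, [(1, 273)], [(1, 2511)]), (1, 10, [(1,
    759)], [(1, 3159)]), (1, 10, [(1, 813)], [(1, 2433)]), (1, 10, [(1, 999)], [(1, 2295)]), (1,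
    10, [(1, 2217)], [(1, 3159)])]), (0, 3, 2, [(1, 28, [(1, 93)], [(1, 1053)]), (1, 28, [(1,
    93)], [(1, 2511)]), (1, 28, [(1, 741)], [(1, 2997)]), (1, 28, [(1, 819)], [(1, 2439)]), (1,
    28, [(1, 975)], [(1, 2271)]), (1, 28, [(1, 2199)], [(1, 2997)])]), (0, 4, 2, [(1, 82, [(1,
    273)], [(1, 765)]), (1, 82, [(1, 273)], [(1, 2223)]), (1, 82, [(1, 741)], [(1, 2217)]), (1,
    82, [(1, 975)], [(1, 2943)]), (1, 82, [(1, 999)], [(1, 2439)]), (1, 82, [(1, 2433)], [(1,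
    2943)])]), (0, 5, 2, [(1, 244, [(1, 93)], [(1, 765)]), (1, 244, [(1, 93)], [(1, 2223)]), (1,
    244, [(1, 759)], [(1, 2199)]), (1, 244, [(1, 813)], [(1, 2925)]), (1, 244, [(1, 819)], [(1,
    2295)]), (1, 244, [(1, 2271)], [(1, 2925)])]), (0, 6, 2, [(2, 730, [(1, 93)], [(1, 273)]), (1,
    730, [(1, 117)], [(1, 2199)]), (1, 730, [(1, 117)], [(1, 2217)]), (1, 730, [(1, 279)], [(1,
    2199)]), (1, 730, [(1, 279)], [(1, 2217)]), (1, 730, [(1, 333)], [(1, 2271)]), (1, 730, [(1,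
    333)], [(1, 2433)]), (1, 730, [(1, 351)], [(1, 2271)]), (1, 730, [(1, 351)], [(1, 2433)]), (2,
    730, [(1, 2295)], [(1, 2439)])]), (1, 2, 2, [(1, 12, [(1, 109)], [(1, 1053)]), (1, 12, [(1,
    109)], [(1, 2511)]), (1, 12, [(1, 757)], [(1, 2997)]), (1, 12, [(1, 811)], [(1, 2431)]), (1,
    12, [(1, 999)], [(1, 2295)]), (1, 12, [(1, 2215)], [(1, 2997)])]), (1, 3, 2, [(1, 30, [(1,
    253)], [(1, 1053)]), (1, 30, [(1, 253)], [(1, 2511)]), (1, 30, [(1, 739)], [(1, 3159)]), (1,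
    30, [(1, 819)], [(1, 2439)]), (1, 30, [(1, 973)], [(1, 2269)]), (1, 30, [(1, 2197)], [(1,
    3159)])]), (1, 4, 2, [(1, 84, [(1, 253)], [(1, 765)]), (1, 84, [(1, 253)], [(1, 2223)]), (1,
    84, [(1, 739)], [(1, 2215)]), (1, 84, [(1, 973)], [(1, 2925)]), (1, 84, [(1, 999)], [(1,
    2439)]), (1, 84, [(1, 2431)], [(1, 2925)])]), (1, 5, 2, [(1, 246, [(1, 109)], [(1, 765)]), (1,
    246, [(1, 109)], [(1, 2223)]), (1, 246, [(1, 757)], [(1, 2197)]), (1, 246, [(1, 811)], [(1,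
    2943)]), (1, 246, [(1, 819)], [(1, 2295)]), (1, 246, [(1, 2269)], [(1, 2943)])]), (1, 7, 2,
    [(2, 2190, [(1, 109)], [(1, 253)]), (1, 2190, [(1, 117)], [(1, 739)]), (1, 2190, [(1, 117)],
    [(1, 757)]), (1, 2190, [(1, 279)], [(1, 739)]), (1, 2190, [(1, 279)], [(1, 757)]), (1, 2190,
    [(1, 333)], [(1, 811)]), (1, 2190, [(1, 333)], [(1, 973)]), (1, 2190, [(1, 351)], [(1, 811)]),
    (1, 2190, [(1, 351)], [(1, 973)]), (2, 2190, [(1, 819)], [(1, 999)])]), (2, 4, 2, [(2, 90,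
    [(1, 273)], [(1, 733)]), (1, 90, [(1, 757)], [(1, 2217)]), (1, 90, [(1, 973)], [(1, 2433)]),
    (2, 90, [(1, 999)], [(1, 2919)])]), (2, 5, 2, [(2, 252, [(1, 109)], [(1, 2191)]), (1, 252,
    [(1, 757)], [(1, 2217)]), (1, 252, [(1, 811)], [(1, 2271)]), (2, 252, [(1, 2295)], [(1,
    2917)])]), (2, 6, 2, [(1, 738, [(1, 85)], [(1, 2215)]), (1, 738, [(1, 85)], [(1, 2217)]), (1,
    738, [(1, 109)], [(1, 273)]), (1, 738, [(1, 325)], [(1, 2295)]), (1, 738, [(1, 327)], [(1,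
    2295)]), (1, 738, [(1, 2271)], [(1, 2431)])]), (2, 7, 2, [(1, 2196, [(1, 109)], [(1, 273)]),
    (1, 2196, [(1, 247)], [(1, 757)]), (1, 2196, [(1, 247)], [(1, 759)]), (1, 2196, [(1, 325)],
    [(1, 999)]), (1, 2196, [(1, 327)], [(1, 999)]), (1, 2196, [(1, 813)], [(1, 973)])]), (3, 4, 2,
    [(2, 108, [(1, 253)], [(1, 2191)]), (1, 108, [(1, 739)], [(1, 2199)]), (1, 108, [(1, 973)],
    [(1, 2433)]), (2, 108, [(1, 2439)], [(1, 2917)])]), (3, 5, 2, [(2, 270, [(1, 93)], [(1,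
    733)]), (1, 270, [(1, 739)], [(1, 2199)]), (1, 270, [(1, 811)], [(1, 2271)]), (2, 270, [(1,
    819)], [(1, 2919)])]), (3, 6, 2, [(1, 756, [(1, 93)], [(1, 253)]), (1, 756, [(1, 247)], [(1,
    2197)]), (1, 756, [(1, 247)], [(1, 2199)]), (1, 756, [(1, 325)], [(1, 2439)]), (1, 756, [(1,
    327)], [(1, 2439)]), (1, 756, [(1, 2269)], [(1, 2433)])]), (3, 7, 2, [(1, 2214, [(1, 85)],
    [(1, 739)]), (1, 2214, [(1, 85)], [(1, 741)]), (1, 2214, [(1, 93)], [(1, 253)]), (1, 2214,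
    [(1, 325)], [(1, 819)]), (1, 2214, [(1, 327)], [(1, 819)]), (1, 2214, [(1, 811)], [(1,
    975)])]), (4, 6, 2, [(1, 810, [(1, 13)], [(1, 2431)]), (1, 810, [(1, 13)], [(1, 2433)]), (1,
    810, [(1, 37)], [(1, 2439)]), (1, 810, [(1, 39)], [(1, 2439)]), (1, 810, [(1, 253)], [(1,
    273)]), (1, 810, [(1, 2199)], [(1, 2215)])]), (4, 7, 2, [(1, 2268, [(1, 31)], [(1, 973)]), (1,
    2268, [(1, 31)], [(1, 975)]), (1, 2268, [(1, 37)], [(1, 999)]), (1, 2268, [(1, 39)], [(1,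
    999)]), (1, 2268, [(1, 253)], [(1, 273)]), (1, 2268, [(1, 741)], [(1, 757)])]), (5, 6, 2, [(1,
    972, [(1, 31)], [(1, 2269)]), (1, 972, [(1, 31)], [(1, 2271)]), (1, 972, [(1, 37)], [(1,
    2295)]), (1, 972, [(1, 39)], [(1, 2295)]), (1, 972, [(1, 93)], [(1, 109)]), (1, 972, [(1,
    2197)], [(1, 2217)])]), (5, 7, 2, [(1, 2430, [(1, 13)], [(1, 811)]), (1, 2430, [(1, 13)], [(1,
    813)]), (1, 2430, [(1, 37)], [(1, 819)]), (1, 2430, [(1, 39)], [(1, 819)]), (1, 2430, [(1,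
    93)], [(1, 109)]), (1, 2430, [(1, 739)], [(1, 759)])])]

theorem ok117 : chkAll cb117 xb117 = true := by decide +kernel

def cb118 : List ℕ :=
  [94, 112, 118, 120, 256, 274, 280, 282, 334, 336, 352, 354, 742, 760, 766, 768, 814, 820, 822,
    838, 846, 976, 982, 1000, 1002, 1008, 1054, 1056, 1062, 1080, 2200, 2218, 2224, 2226, 2272,
    2280, 2296, 2298, 2304, 2434, 2440, 2442, 2460, 2466, 2512, 2514, 2520, 2538, 2926, 2928,
    2944, 2946, 2952, 2998, 3000, 3006, 3024, 3160, 3162, 3168, 3186, 3240]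

def xb118 : List Entry :=
  [(0, 2, 2, [(1, 10, [(1, 273)], [(1, 1053)]), (1, 10, [(1, 273)], [(1, 2511)]), (1, 10, [(1,
    813)], [(1, 2433)])]), (0, 3, 2, [(1, 28, [(1, 93)], [(1, 1053)]), (1, 28, [(1, 93)], [(1,
    2511)]), (1, 28, [(1, 975)], [(1, 2271)])]), (0, 4, 2, [(1, 82, [(1, 273)], [(1, 765)]), (1,
    82, [(1, 273)], [(1, 2223)]), (1, 82, [(1, 741)], [(1, 2217)])]), (0, 5, 2, [(1, 244, [(1,
    93)], [(1, 765)]), (1, 244, [(1, 93)], [(1, 2223)]), (1, 244, [(1, 759)], [(1, 2199)])]), (0,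
    6, 1, [(1, 730, [(1, 93)], [(1, 273)])]), (1, 2, 2, [(1, 12, [(1, 109)], [(1, 1053)]), (1, 12,
    [(1, 109)], [(1, 2511)]), (1, 12, [(1, 811)], [(1, 2431)])]), (1, 3, 2, [(1, 30, [(1, 253)],
    [(1, 1053)]), (1, 30, [(1, 253)], [(1, 2511)]), (1, 30, [(1, 973)], [(1, 2269)])]), (1, 4, 2,
    [(1, 84, [(1, 253)], [(1, 765)]), (1, 84, [(1, 253)], [(1, 2223)]), (1, 84, [(1, 739)], [(1,
    2215)])]), (1, 5, 2, [(1, 246, [(1, 109)], [(1, 765)]), (1, 246, [(1, 109)], [(1, 2223)]), (1,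
    246, [(1, 757)], [(1, 2197)])]), (1, 7, 1, [(1, 2190, [(1, 109)], [(1, 253)])]), (2, 4, 1,
    [(1, 90, [(1, 273)], [(1, 733)])]), (2, 5, 1, [(1, 252, [(1, 109)], [(1, 2191)])]), (2, 6, 2,
    [(1, 738, [(1, 85)], [(1, 2215)]), (1, 738, [(1, 85)], [(1, 2217)]), (1, 738, [(1, 109)], [(1,
    273)])]), (2, 7, 2, [(1, 2196, [(1, 109)], [(1, 273)]), (1, 2196, [(1, 247)], [(1, 757)]), (1,
    2196, [(1, 247)], [(1, 759)])]), (3, 4, 1, [(1, 108, [(1, 253)], [(1, 2191)])]), (3, 5, 1,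
    [(1, 270, [(1, 93)], [(1, 733)])]), (3, 6, 2, [(1, 756, [(1, 93)], [(1, 253)]), (1, 756, [(1,
    247)], [(1, 2197)]), (1, 756, [(1, 247)], [(1, 2199)])]), (3, 7, 2, [(1, 2214, [(1, 85)], [(1,
    739)]), (1, 2214, [(1, 85)], [(1, 741)]), (1, 2214, [(1, 93)], [(1, 253)])]), (4, 6, 2, [(1,
    810, [(1, 13)], [(1, 2431)]), (1, 810, [(1, 13)], [(1, 2433)]), (1, 810, [(1, 253)], [(1,
    273)])]), (4, 7, 2, [(1, 2268, [(1, 31)], [(1, 973)]), (1, 2268, [(1, 31)], [(1, 975)]), (1,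
    2268, [(1, 253)], [(1, 273)])]), (5, 6, 2, [(1, 972, [(1, 31)], [(1, 2269)]), (1, 972, [(1,
    31)], [(1, 2271)]), (1, 972, [(1, 93)], [(1, 109)])]), (5, 7, 2, [(1, 2430, [(1, 13)], [(1,
    811)]), (1, 2430, [(1, 13)], [(1, 813)]), (1, 2430, [(1, 93)], [(1, 109)])])]

theorem ok118 : chkAll cb118 xb118 = true := by decide +kernel

def cb119 : List ℕ :=
  [94, 112, 118, 120, 256, 274, 280, 282, 334, 336, 352, 354, 742, 760, 766, 768, 814, 820, 822,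
    838, 846, 976, 982, 1000, 1002, 1008, 1054, 1056, 1062, 1080, 2200, 2218, 2224, 2226, 2272,
    2278, 2280, 2298, 2304, 2434, 2442, 2458, 2460, 2466, 2512, 2514, 2520, 2538, 2926, 2928,
    2944, 2946, 2998, 3000, 3006, 3024, 3160, 3162, 3168, 3186]

def xb119 : List Entry :=
  [(0, 2, 2, [(1, 10, [(1, 111)], [(1, 2511)]), (1, 10, [(1, 273)], [(1, 1053)]), (1, 10, [(1,
    759)], [(1, 3159)]), (1, 10, [(1, 813)], [(1, 2433)]), (1, 10, [(1, 837)], [(1, 2457)]), (1,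
    10, [(1, 2217)], [(1, 2997)])]), (0, 3, 2, [(1, 28, [(1, 93)], [(1, 1053)]), (1, 28, [(1,
    255)], [(1, 2511)]), (1, 28, [(1, 741)], [(1, 2997)]), (1, 28, [(1, 975)], [(1, 2271)]), (1,
    28, [(1, 981)], [(1, 2277)]), (1, 28, [(1, 2199)], [(1, 3159)])]), (0, 4, 2, [(1, 82, [(1,
    255)], [(1, 2223)]), (1, 82, [(1, 273)], [(1, 765)]), (1, 82, [(1, 741)], [(1, 2217)]), (1,
    82, [(1, 975)], [(1, 2943)]), (1, 82, [(1, 981)], [(1, 2457)]), (1, 82, [(1, 2433)], [(1,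
    2925)])]), (0, 5, 2, [(1, 244, [(1, 93)], [(1, 765)]), (1, 244, [(1, 111)], [(1, 2223)]), (1,
    244, [(1, 759)], [(1, 2199)]), (1, 244, [(1, 813)], [(1, 2925)]), (1, 244, [(1, 837)], [(1,
    2277)]), (1, 244, [(1, 2271)], [(1, 2943)])]), (0, 6, 1, [(1, 730, [(1, 93)], [(1, 273)]), (1,
    730, [(1, 117)], [(1, 2217)]), (1, 730, [(1, 279)], [(1, 2199)]), (1, 730, [(1, 333)], [(1,
    2433)]), (1, 730, [(1, 351)], [(1, 2271)]), (1, 730, [(1, 2277)], [(1, 2457)])]), (1, 2, 2,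
    [(1, 12, [(1, 109)], [(1, 1053)]), (1, 12, [(1, 271)], [(1, 2511)]), (1, 12, [(1, 757)], [(1,
    2997)]), (1, 12, [(1, 973)], [(1, 2269)]), (1, 12, [(1, 999)], [(1, 2295)]), (1, 12, [(1,
    2215)], [(1, 3159)])]), (1, 3, 2, [(1, 30, [(1, 91)], [(1, 2511)]), (1, 30, [(1, 253)], [(1,
    1053)]), (1, 30, [(1, 739)], [(1, 3159)]), (1, 30, [(1, 811)], [(1, 2431)]), (1, 30, [(1,
    819)], [(1, 2439)]), (1, 30, [(1, 2197)], [(1, 2997)])]), (1, 4, 2, [(1, 84, [(1, 253)], [(1,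
    765)]), (1, 84, [(1, 271)], [(1, 2223)]), (1, 84, [(1, 757)], [(1, 2197)]), (1, 84, [(1,
    973)], [(1, 2925)]), (1, 84, [(1, 999)], [(1, 2439)]), (1, 84, [(1, 2431)], [(1, 2943)])]),
    (1, 5, 2, [(1, 246, [(1, 91)], [(1, 2223)]), (1, 246, [(1, 109)], [(1, 765)]), (1, 246, [(1,
    739)], [(1, 2215)]), (1, 246, [(1, 811)], [(1, 2943)]), (1, 246, [(1, 819)], [(1, 2295)]), (1,
    246, [(1, 2269)], [(1, 2925)])]), (1, 7, 1, [(1, 2190, [(1, 91)], [(1, 271)]), (1, 2190, [(1,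
    117)], [(1, 757)]), (1, 2190, [(1, 279)], [(1, 739)]), (1, 2190, [(1, 333)], [(1, 973)]), (1,
    2190, [(1, 351)], [(1, 811)]), (1, 2190, [(1, 819)], [(1, 999)])]), (2, 4, 1, [(1, 90, [(1,
    271)], [(1, 2191)]), (1, 90, [(1, 273)], [(1, 733)]), (1, 90, [(1, 757)], [(1, 2217)]), (1,
    90, [(1, 973)], [(1, 2433)]), (1, 90, [(1, 999)], [(1, 2919)]), (1, 90, [(1, 2457)], [(1,
    2917)])]), (2, 6, 2, [(1, 738, [(1, 85)], [(1, 2217)]), (1, 738, [(1, 109)], [(1, 273)]), (1,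
    738, [(1, 247)], [(1, 2215)]), (1, 738, [(1, 325)], [(1, 2457)]), (1, 738, [(1, 327)], [(1,
    2295)]), (1, 738, [(1, 2269)], [(1, 2433)])]), (2, 7, 2, [(1, 2196, [(1, 85)], [(1, 757)]),
    (1, 2196, [(1, 111)], [(1, 271)]), (1, 2196, [(1, 247)], [(1, 759)]), (1, 2196, [(1, 325)],
    [(1, 837)]), (1, 2196, [(1, 327)], [(1, 999)]), (1, 2196, [(1, 813)], [(1, 973)])]), (3, 5, 1,
    [(1, 270, [(1, 91)], [(1, 2191)]), (1, 270, [(1, 93)], [(1, 733)]), (1, 270, [(1, 739)], [(1,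
    2199)]), (1, 270, [(1, 811)], [(1, 2271)]), (1, 270, [(1, 819)], [(1, 2919)]), (1, 270, [(1,
    2277)], [(1, 2917)])]), (3, 6, 2, [(1, 756, [(1, 85)], [(1, 2197)]), (1, 756, [(1, 93)], [(1,
    253)]), (1, 756, [(1, 247)], [(1, 2199)]), (1, 756, [(1, 325)], [(1, 2277)]), (1, 756, [(1,
    327)], [(1, 2439)]), (1, 756, [(1, 2271)], [(1, 2431)])]), (3, 7, 2, [(1, 2214, [(1, 85)],
    [(1, 741)]), (1, 2214, [(1, 91)], [(1, 255)]), (1, 2214, [(1, 247)], [(1, 739)]), (1, 2214,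
    [(1, 325)], [(1, 981)]), (1, 2214, [(1, 327)], [(1, 819)]), (1, 2214, [(1, 811)], [(1,
    975)])]), (4, 6, 2, [(1, 810, [(1, 13)], [(1, 2433)]), (1, 810, [(1, 31)], [(1, 2431)]), (1,
    810, [(1, 37)], [(1, 2457)]), (1, 810, [(1, 39)], [(1, 2439)]), (1, 810, [(1, 253)], [(1,
    273)]), (1, 810, [(1, 2197)], [(1, 2217)])]), (4, 7, 2, [(1, 2268, [(1, 13)], [(1, 973)]), (1,
    2268, [(1, 31)], [(1, 975)]), (1, 2268, [(1, 37)], [(1, 981)]), (1, 2268, [(1, 39)], [(1,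
    999)]), (1, 2268, [(1, 255)], [(1, 271)]), (1, 2268, [(1, 741)], [(1, 757)])]), (5, 6, 2, [(1,
    972, [(1, 13)], [(1, 2269)]), (1, 972, [(1, 31)], [(1, 2271)]), (1, 972, [(1, 37)], [(1,
    2277)]), (1, 972, [(1, 39)], [(1, 2295)]), (1, 972, [(1, 93)], [(1, 109)]), (1, 972, [(1,
    2199)], [(1, 2215)])]), (5, 7, 2, [(1, 2430, [(1, 13)], [(1, 813)]), (1, 2430, [(1, 31)], [(1,
    811)]), (1, 2430, [(1, 37)], [(1, 837)]), (1, 2430, [(1, 39)], [(1, 819)]), (1, 2430, [(1,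
    91)], [(1, 111)]), (1, 2430, [(1, 739)], [(1, 759)])])]

theorem ok119 : chkAll cb119 xb119 = true := by decide +kernel

def cb120 : List ℕ :=
  [94, 112, 118, 120, 256, 274, 280, 282, 334, 336, 352, 354, 742, 760, 766, 768, 814, 820, 822,
    840, 846, 976, 982, 1000, 1002, 1008, 1054, 1056, 1062, 1080, 2200, 2218, 2224, 2226, 2272,
    2278, 2280, 2296, 2304, 2434, 2442, 2458, 2460, 2466, 2512, 2514, 2520, 2538, 2920, 2926,
    2928, 2944, 2946, 2952, 2998, 3000, 3024, 3160, 3162, 3168, 3240]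

def xb120 : List Entry :=
  [(0, 2, 2, [(1, 10, [(1, 273), (1, 813)], [(1, 1053)]), (1, 10, [(1, 111), (1, 2295)], [(1,
    1053)])]), (0, 3, 2, [(1, 28, [(1, 93), (1, 2433)], [(1, 2511)]), (1, 28, [(1, 255), (1,
    981)], [(1, 2511)])]), (0, 4, 2, [(1, 82, [(1, 981), (1, 2199)], [(1, 2223)]), (1, 82, [(1,
    255), (1, 273)], [(1, 2223)])]), (0, 5, 2, [(1, 244, [(1, 759), (1, 2295)], [(1, 765)]), (1,
    244, [(1, 93), (1, 111)], [(1, 765)])]), (0, 6, 2, [(1, 730, [(1, 93)], [(1, 273)]), (1, 730,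
    [(1, 279)], [(1, 2199)]), (1, 730, [(1, 279)], [(1, 2433)]), (1, 730, [(1, 333)], [(1,
    2199)]), (1, 730, [(1, 333)], [(1, 2433)]), (1, 730, [(1, 2223)], [(1, 2511)])]), (0, 7, 2,
    [(1, 2188, [(1, 93)], [(1, 273)]), (1, 2188, [(1, 117)], [(1, 759)]), (1, 2188, [(1, 117)],
    [(1, 813)]), (1, 2188, [(1, 351)], [(1, 759)]), (1, 2188, [(1, 351)], [(1, 813)]), (1, 2188,
    [(1, 765)], [(1, 1053)])]), (1, 2, 2, [(1, 12, [(1, 837), (1, 2269)], [(1, 2511)]), (1, 12,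
    [(1, 109), (1, 271)], [(1, 2511)])]), (1, 3, 2, [(1, 30, [(1, 91), (1, 973)], [(1, 1053)]),
    (1, 30, [(1, 253), (1, 2439)], [(1, 1053)])]), (1, 4, 2, [(1, 84, [(1, 271), (1, 739)], [(1,
    765)]), (1, 84, [(1, 253), (1, 2439)], [(1, 765)])]), (1, 5, 2, [(1, 246, [(1, 91), (1,
    2215)], [(1, 2223)]), (1, 246, [(1, 109), (1, 837)], [(1, 2223)])]), (1, 6, 2, [(1, 732, [(1,
    91)], [(1, 271)]), (1, 732, [(1, 117)], [(1, 2215)]), (1, 732, [(1, 117)], [(1, 2269)]), (1,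
    732, [(1, 351)], [(1, 2215)]), (1, 732, [(1, 351)], [(1, 2269)]), (1, 732, [(1, 2223)], [(1,
    2511)])]), (1, 7, 2, [(1, 2190, [(1, 91)], [(1, 271)]), (1, 2190, [(1, 279)], [(1, 739)]), (1,
    2190, [(1, 279)], [(1, 973)]), (1, 2190, [(1, 333)], [(1, 739)]), (1, 2190, [(1, 333)], [(1,
    973)]), (1, 2190, [(1, 765)], [(1, 1053)])]), (2, 3, 2, [(1, 36, [(1, 813)], [(1, 2269)]), (1,
    36, [(1, 973)], [(1, 2433)]), (1, 36, [(1, 1053)], [(1, 2917)]), (1, 36, [(1, 1053)], [(1,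
    2919)]), (1, 36, [(1, 2511)], [(1, 2917)]), (1, 36, [(1, 2511)], [(1, 2919)])]), (2, 4, 2,
    [(1, 90, [(1, 271)], [(1, 733)]), (1, 90, [(1, 271)], [(1, 2191)]), (1, 90, [(1, 273)], [(1,
    733)]), (1, 90, [(1, 273)], [(1, 2191)]), (1, 90, [(1, 759)], [(1, 2215)]), (1, 90, [(1,
    973)], [(1, 2433)])]), (2, 6, 2, [(1, 738, [(1, 111), (1, 2215)], [(1, 271)]), (1, 738, [(1,
    271)], [(1, 2295), (1, 2511)])]), (2, 7, 2, [(1, 2196, [(1, 273)], [(1, 759), (1, 1053)]), (1,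
    2196, [(1, 109), (1, 837)], [(1, 273)])]), (3, 5, 2, [(1, 270, [(1, 91)], [(1, 733)]), (1,
    270, [(1, 91)], [(1, 2191)]), (1, 270, [(1, 93)], [(1, 733)]), (1, 270, [(1, 93)], [(1,
    2191)]), (1, 270, [(1, 739)], [(1, 2199)]), (1, 270, [(1, 813)], [(1, 2269)])]), (3, 6, 2,
    [(1, 756, [(1, 93)], [(1, 253), (1, 2199)]), (1, 756, [(1, 93)], [(1, 2439), (1, 2511)])]),
    (3, 7, 2, [(1, 2214, [(1, 91)], [(1, 739), (1, 1053)]), (1, 2214, [(1, 91)], [(1, 255), (1,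
    981)])]), (4, 5, 2, [(1, 324, [(1, 739)], [(1, 2199)]), (1, 324, [(1, 759)], [(1, 2215)]), (1,
    324, [(1, 765)], [(1, 2917)]), (1, 324, [(1, 765)], [(1, 2919)]), (1, 324, [(1, 2223)], [(1,
    2917)]), (1, 324, [(1, 2223)], [(1, 2919)])]), (4, 6, 2, [(1, 810, [(1, 273)], [(1, 2223), (1,
    2433)]), (1, 810, [(1, 253), (1, 2439)], [(1, 273)])]), (4, 7, 2, [(1, 2268, [(1, 271)], [(1,
    741), (1, 981)]), (1, 2268, [(1, 255), (1, 765)], [(1, 271)])]), (5, 6, 2, [(1, 972, [(1,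
    91)], [(1, 111), (1, 2269)]), (1, 972, [(1, 91)], [(1, 2223), (1, 2295)])]), (5, 7, 2, [(1,
    2430, [(1, 93)], [(1, 109), (1, 813)]), (1, 2430, [(1, 93)], [(1, 765), (1, 837)])])]

theorem ok120 : chkAll cb120 xb120 = true := by decide +kernel

def cb121 : List ℕ :=
  [94, 112, 118, 120, 256, 274, 280, 282, 334, 336, 352, 354, 742, 760, 766, 768, 814, 820, 822,
    840, 846, 976, 982, 1000, 1002, 1008, 1054, 1056, 1062, 1080, 2200, 2218, 2224, 2226, 2272,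
    2278, 2280, 2296, 2298, 2304, 2434, 2440, 2442, 2458, 2460, 2466, 2512, 2514, 2520, 2538,
    2920, 2928, 2944, 2946, 2952, 2998, 3006, 3024, 3160, 3162, 3168, 3240]

def xb121 : List Entry :=
  [(0, 1, 2, [(1, 4, [(1, 819)], [(1, 2943)]), (1, 4, [(1, 819)], [(1, 3159)])]), (0, 2, 2, [(1,
    10, [(1, 111)], [(1, 1053)]), (1, 10, [(1, 273)], [(1, 1053)])]), (0, 5, 4, [(1, 244, [(1,
    765)], [(1, 2199), (1, 2295)]), (1, 244, [(1, 93), (1, 111)], [(1, 765)]), (1, 244, [(1,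
    765)], [(1, 2919), (1, 2997)]), (1, 244, [(1, 93), (1, 111), (1, 2199), (1, 2295), (1, 2919),
    (1, 2997)], [(1, 765)])]), (0, 6, 2, [(1, 730, [(1, 93)], [(1, 273)]), (1, 730, [(1, 93)],
    [(1, 2433)])]), (0, 7, 2, [(1, 2188, [(1, 111)], [(1, 1053)]), (1, 2188, [(1, 759)], [(1,
    1053)])]), (1, 3, 4, [(1, 30, [(1, 1053)], [(1, 2269), (1, 2439)]), (1, 30, [(1, 1053)], [(1,
    2917), (1, 2925)]), (1, 30, [(1, 91), (1, 253)], [(1, 1053)]), (1, 30, [(1, 91), (1, 253), (1,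
    2269), (1, 2439), (1, 2917), (1, 2925)], [(1, 1053)])]), (1, 4, 2, [(1, 84, [(1, 253)], [(1,
    765)]), (1, 84, [(1, 271)], [(1, 765)])]), (1, 6, 2, [(1, 732, [(1, 91)], [(1, 271)]), (1,
    732, [(1, 91)], [(1, 2215)])]), (1, 7, 2, [(1, 2190, [(1, 253)], [(1, 765)]), (1, 2190, [(1,
    765)], [(1, 973)])]), (2, 3, 2, [(1, 36, [(1, 973)], [(1, 2919)]), (1, 36, [(1, 973)], [(1,
    2997)])]), (2, 4, 4, [(1, 90, [(1, 733)], [(1, 2215), (1, 2433)]), (1, 90, [(1, 271), (1,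
    273)], [(1, 733)]), (1, 90, [(1, 733)], [(1, 2943), (1, 3159)]), (1, 90, [(1, 271), (1, 273),
    (1, 2215), (1, 2433), (1, 2943), (1, 3159)], [(1, 733)])]), (2, 6, 2, [(1, 738, [(1, 111)],
    [(1, 271)]), (1, 738, [(1, 271)], [(1, 2295)])]), (2, 7, 2, [(1, 2196, [(1, 273)], [(1,
    1053)]), (1, 2196, [(1, 759)], [(1, 1053)])]), (3, 5, 2, [(1, 270, [(1, 91)], [(1, 733)]), (1,
    270, [(1, 93)], [(1, 733)])]), (3, 6, 2, [(1, 756, [(1, 93)], [(1, 253)]), (1, 756, [(1,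
    253)], [(1, 2199)])]), (3, 7, 2, [(1, 2214, [(1, 91)], [(1, 733)]), (1, 2214, [(1, 733)], [(1,
    819)])]), (4, 5, 2, [(1, 324, [(1, 759)], [(1, 2917)]), (1, 324, [(1, 759)], [(1, 2925)])]),
    (4, 6, 2, [(1, 810, [(1, 253)], [(1, 273)]), (1, 810, [(1, 273)], [(1, 2439)])]), (4, 7, 2,
    [(1, 2268, [(1, 271)], [(1, 765)]), (1, 2268, [(1, 765)], [(1, 973)])]), (5, 6, 2, [(1, 972,
    [(1, 91)], [(1, 111)]), (1, 972, [(1, 111)], [(1, 2269)])]), (5, 7, 2, [(1, 2430, [(1, 93)],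
    [(1, 733)]), (1, 2430, [(1, 733)], [(1, 819)])])]

theorem ok121 : chkAll cb121 xb121 = true := by decide +kernel

def cb122 : List ℕ :=
  [94, 112, 118, 120, 256, 274, 280, 282, 334, 336, 352, 354, 742, 760, 766, 768, 814, 820, 822,
    838, 840, 846, 976, 982, 984, 1000, 1002, 1008, 1054, 1056, 1062, 1080, 2200, 2218, 2224,
    2226, 2272, 2278, 2280, 2296, 2298, 2304, 2434, 2440, 2442, 2458, 2460, 2466, 2512, 2514,
    2520, 2538, 2926, 2928, 2944, 2946, 2998, 3000, 3006, 3024, 3160, 3162, 3168, 3186]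

def xb122 : List Entry :=
  []

theorem ok122 : chkAll cb122 xb122 = true := by decide +kernel

def cb123 : List ℕ :=
  [94, 112, 118, 120, 256, 274, 280, 282, 334, 336, 352, 354, 360, 742, 760, 766, 768, 814, 820,
    838, 840, 846, 976, 982, 984, 1000, 1002, 1008, 1054, 1056, 1062, 2200, 2218, 2224, 2226,
    2272, 2280, 2296, 2298, 2304, 2434, 2440, 2442, 2458, 2460, 2512, 2514, 2520, 2538, 2920,
    2926, 2928, 2944, 2952, 2998, 3000, 3006, 3024, 3162, 3168, 3186, 3240]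

def xb123 : List Entry :=
  [(0, 3, 4, [(2, 28, [(1, 975), (1, 981)], [(1, 2511)]), (2, 28, [(1, 2433), (1, 2511)], [(1,
    2925)]), (1, 28, [(1, 975)], [(1, 2925), (1, 2997)]), (1, 28, [(1, 975), (1, 2925)], [(1,
    2997)])]), (0, 5, 2, [(1, 244, [(1, 117)], [(1, 2199)])]), (0, 6, 4, [(2, 730, [(1, 111)],
    [(1, 255), (1, 333)]), (2, 730, [(1, 111), (1, 117)], [(1, 2199)]), (1, 730, [(1, 333)], [(1,
    2199), (1, 2271)]), (1, 730, [(1, 333), (1, 2199)], [(1, 2271)])]), (0, 7, 2, [(1, 2188, [(1,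
    273)], [(1, 765)])]), (1, 3, 2, [(1, 30, [(1, 333)], [(1, 811)])]), (1, 5, 4, [(2, 246, [(1,
    757), (1, 765)], [(1, 2997)]), (2, 246, [(1, 765)], [(1, 2215), (1, 2295)]), (1, 246, [(1,
    2215)], [(1, 2925), (1, 2997)]), (1, 246, [(1, 2215), (1, 2997)], [(1, 2925)])]), (1, 6, 2,
    [(1, 732, [(1, 271)], [(1, 2511)])]), (1, 7, 4, [(2, 2190, [(1, 109), (1, 117)], [(1, 253)]),
    (2, 2190, [(1, 253), (1, 333)], [(1, 811)]), (1, 2190, [(1, 117)], [(1, 739), (1, 811)]), (1,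
    2190, [(1, 117), (1, 811)], [(1, 739)])]), (2, 3, 2, [(1, 36, [(1, 975)], [(1, 2997)])]), (2,
    5, 4, [(1, 252, [(1, 111), (1, 2271)], [(1, 811)]), (1, 252, [(1, 111)], [(1, 733), (1,
    811)]), (1, 252, [(1, 811)], [(1, 2191), (1, 2271)]), (1, 252, [(1, 109), (1, 811)], [(1,
    2191)]), (1, 252, [(1, 111)], [(1, 733), (1, 2191)]), (1, 252, [(1, 109)], [(1, 111), (1,
    2191)])]), (2, 6, 4, [(2, 738, [(1, 271), (1, 2215)], [(1, 2511)]), (2, 738, [(1, 273), (1,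
    2433)], [(1, 2215)]), (1, 738, [(1, 273)], [(1, 2295), (1, 2511)]), (1, 738, [(1, 273), (1,
    2511)], [(1, 2295)])]), (2, 7, 2, [(1, 2196, [(1, 111)], [(1, 733)])]), (3, 4, 4, [(2, 108,
    [(1, 253)], [(1, 2191), (1, 2199)]), (2, 108, [(1, 733), (1, 739)], [(1, 2199)]), (1, 108,
    [(1, 253), (1, 255)], [(1, 733)]), (1, 108, [(1, 253), (1, 733)], [(1, 255)])]), (4, 5, 2,
    [(1, 324, [(1, 2215)], [(1, 2925)])]), (4, 6, 2, [(1, 810, [(1, 253)], [(1, 2191)])]), (4, 7,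
    4, [(2, 2268, [(1, 757), (1, 765)], [(1, 975)]), (2, 2268, [(1, 271)], [(1, 975), (1, 981)]),
    (1, 2268, [(1, 271), (1, 273)], [(1, 765)]), (1, 2268, [(1, 271), (1, 765)], [(1, 273)])])]

theorem ok123 : chkAll cb123 xb123 = true := by decide +kernel

end Pool.Agent.H75.Ray
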