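import Pool.Agent.H59.Ray.Rep
import Pool.Agent.H75.Ray.Lab
import Pool.Agent.H75.Ray.Cert0
import Pool.Agent.H75.Ray.Cert1
import Pool.Agent.H75.Ray.Cert2
import Pool.Agent.H75.Ray.Cert3
import Pool.Agent.H75.Ray.Cert4
import Pool.Agent.H75.Ray.Cert5
import Pool.Agent.H75.Ray.Cert6
import Pool.Agent.H75.Ray.Cert7
import Pool.Agent.H75.Ray.Cert8

/-!
# The 117 good matroids are Rayleigh (MP_934449_co)

`isB i` (H59/Ray/Rep): the bases of the matroid number `i`. The codes of the bases are the lists `cb i` of
the tables, so the certificates `xb i` apply.
-/

set_option autoImplicit false

namespace Pool.Agent.H75.Ray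

open Finset Pool.Agent.H55.Ray
open Pool.Agent.H59.Ray (isB)

/-- there are certificates for the matroid number `i` -/
def HasCert (i : ℕ) : Prop := ∃ xs : List Entry, chkAll (codes (isB i)) xs = true

private theorem hasCert {i : ℕ} {cl : List ℕ} {xs : List Entry} (h : codes (isB i) = cl)
    (h' : chkAll cl xs = true) : HasCert i := ⟨xs, by rw [h]; exact h'⟩

private theorem g0 : HasCert 0 := hasCert (by decide +kernel) ok0

private theorem g1 : HasCert 1 := hasCert (by decide +kernel) ok1

private theorem g2 : HasCert 2 := hasCert (by decide +kernel) ok2

private theorem g3 : HasCert 3 := hasCert (by decide +kernel) ok3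

private theorem g4 : HasCert 4 := hasCert (by decide +kernel) ok4

private theorem g5 : HasCert 5 := hasCert (by decide +kernel) ok5

private theorem g6 : HasCert 6 := hasCert (by decide +kernel) ok6

private theorem g7 : HasCert 7 := hasCert (by decide +kernel) ok7

private theorem g8 : HasCert 8 := hasCert (by decide +kernel) ok8

private theorem g9 : HasCert 9 := hasCert (by decide +kernel) ok9

private theorem g10 : HasCert 10 := hasCert (by decide +kernel) ok10

private theorem g11 : HasCert 11 := hasCert (by decide +kernel) ok11

private theorem g12 : HasCert 12 := hasCert (by decide +kernel) ok12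

private theorem g13 : HasCert 13 := hasCert (by decide +kernel) ok13

private theorem g14 : HasCert 14 := hasCert (by decide +kernel) ok14

private theorem g15 : HasCert 15 := hasCert (by decide +kernel) ok15

private theorem g16 : HasCert 16 := hasCert (by decide +kernel) ok16

private theorem g17 : HasCert 17 := hasCert (by decide +kernel) ok17

private theorem g18 : HasCert 18 := hasCert (by decide +kernel) ok18

private theorem g19 : HasCert 19 := hasCert (by decide +kernel) ok19

private theorem g20 : HasCert 20 := hasCert (by decide +kernel) ok20

private theorem g21 : HasCert 21 := hasCert (by decide +kernel) ok21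

private theorem g22 : HasCert 22 := hasCert (by decide +kernel) ok22

private theorem g23 : HasCert 23 := hasCert (by decide +kernel) ok23

private theorem g24 : HasCert 24 := hasCert (by decide +kernel) ok24

private theorem g25 : HasCert 25 := hasCert (by decide +kernel) ok25

private theorem g26 : HasCert 26 := hasCert (by decide +kernel) ok26

private theorem g27 : HasCert 27 := hasCert (by decide +kernel) ok27

private theorem g28 : HasCert 28 := hasCert (by decide +kernel) ok28

private theorem g29 : HasCert 29 := hasCert (by decide +kernel) ok29

private theorem g30 : HasCert 30 := hasCert (by decide +kernel) ok30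

private theorem g31 : HasCert 31 := hasCert (by decide +kernel) ok31

private theorem g32 : HasCert 32 := hasCert (by decide +kernel) ok32

private theorem g33 : HasCert 33 := hasCert (by decide +kernel) ok33

private theorem g34 : HasCert 34 := hasCert (by decide +kernel) ok34

private theorem g35 : HasCert 35 := hasCert (by decide +kernel) ok35

private theorem g36 : HasCert 36 := hasCert (by decide +kernel) ok36

private theorem g37 : HasCert 37 := hasCert (by decide +kernel) ok37

private theorem g38 : HasCert 38 := hasCert (by decide +kernel) ok38

private theorem g39 : HasCert 39 := hasCert (by decide +kernel) ok39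

private theorem g40 : HasCert 40 := hasCert (by decide +kernel) ok40

private theorem g41 : HasCert 41 := hasCert (by decide +kernel) ok41

private theorem g42 : HasCert 42 := hasCert (by decide +kernel) ok42

private theorem g43 : HasCert 43 := hasCert (by decide +kernel) ok43

private theorem g44 : HasCert 44 := hasCert (by decide +kernel) ok44

private theorem g45 : HasCert 45 := hasCert (by decide +kernel) ok45

private theorem g46 : HasCert 46 := hasCert (by decide +kernel) ok46

private theorem g47 : HasCert 47 := hasCert (by decide +kernel) ok47

private theorem g50 : HasCert 50 := hasCert (by decide +kernel) ok50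

private theorem g51 : HasCert 51 := hasCert (by decide +kernel) ok51

private theorem g52 : HasCert 52 := hasCert (by decide +kernel) ok52

private theorem g53 : HasCert 53 := hasCert (by decide +kernel) ok53

private theorem g54 : HasCert 54 := hasCert (by decide +kernel) ok54

private theorem g55 : HasCert 55 := hasCert (by decide +kernel) ok55

private theorem g56 : HasCert 56 := hasCert (by decide +kernel) ok56

private theorem g57 : HasCert 57 := hasCert (by decide +kernel) ok57

private theorem g59 : HasCert 59 := hasCert (by decide +kernel) ok59

private theorem g60 : HasCert 60 := hasCert (by decide +kernel) ok60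

private theorem g61 : HasCert 61 := hasCert (by decide +kernel) ok61

private theorem g62 : HasCert 62 := hasCert (by decide +kernel) ok62

private theorem g63 : HasCert 63 := hasCert (by decide +kernel) ok63

private theorem g64 : HasCert 64 := hasCert (by decide +kernel) ok64

private theorem g65 : HasCert 65 := hasCert (by decide +kernel) ok65

private theorem g66 : HasCert 66 := hasCert (by decide +kernel) ok66

private theorem g67 : HasCert 67 := hasCert (by decide +kernel) ok67

private theorem g69 : HasCert 69 := hasCert (by decide +kernel) ok69

private theorem g70 : HasCert 70 := hasCert (by decide +kernel) ok70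

private theorem g71 : HasCert 71 := hasCert (by decide +kernel) ok71

private theorem g72 : HasCert 72 := hasCert (by decide +kernel) ok72

private theorem g73 : HasCert 73 := hasCert (by decide +kernel) ok73

private theorem g74 : HasCert 74 := hasCert (by decide +kernel) ok74

private theorem g75 : HasCert 75 := hasCert (by decide +kernel) ok75

private theorem g76 : HasCert 76 := hasCert (by decide +kernel) ok76

private theorem g77 : HasCert 77 := hasCert (by decide +kernel) ok77

private theorem g79 : HasCert 79 := hasCert (by decide +kernel) ok79

private theorem g80 : HasCert 80 := hasCert (by decide +kernel) ok80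

private theorem g81 : HasCert 81 := hasCert (by decide +kernel) ok81

private theorem g82 : HasCert 82 := hasCert (by decide +kernel) ok82

private theorem g83 : HasCert 83 := hasCert (by decide +kernel) ok83

private theorem g84 : HasCert 84 := hasCert (by decide +kernel) ok84

private theorem g85 : HasCert 85 := hasCert (by decide +kernel) ok85

private theorem g86 : HasCert 86 := hasCert (by decide +kernel) ok86

private theorem g87 : HasCert 87 := hasCert (by decide +kernel) ok87

private theorem g88 : HasCert 88 := hasCert (by decide +kernel) ok88

private theorem g89 : HasCert 89 := hasCert (by decide +kernel) ok89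

private theorem g90 : HasCert 90 := hasCert (by decide +kernel) ok90

private theorem g92 : HasCert 92 := hasCert (by decide +kernel) ok92

private theorem g93 : HasCert 93 := hasCert (by decide +kernel) ok93

private theorem g94 : HasCert 94 := hasCert (by decide +kernel) ok94

private theorem g95 : HasCert 95 := hasCert (by decide +kernel) ok95

private theorem g96 : HasCert 96 := hasCert (by decide +kernel) ok96

private theorem g97 : HasCert 97 := hasCert (by decide +kernel) ok97

private theorem g98 : HasCert 98 := hasCert (by decide +kernel) ok98

private theorem g99 : HasCert 99 := hasCert (by decide +kernel) ok99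

private theorem g100 : HasCert 100 := hasCert (by decide +kernel) ok100

private theorem g101 : HasCert 101 := hasCert (by decide +kernel) ok101

private theorem g102 : HasCert 102 := hasCert (by decide +kernel) ok102

private theorem g104 : HasCert 104 := hasCert (by decide +kernel) ok104

private theorem g105 : HasCert 105 := hasCert (by decide +kernel) ok105

private theorem g106 : HasCert 106 := hasCert (by decide +kernel) ok106

private theorem g107 : HasCert 107 := hasCert (by decide +kernel) ok107

private theorem g108 : HasCert 108 := hasCert (by decide +kernel) ok108

private theorem g109 : HasCert 109 := hasCert (by decide +kernel) ok109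

private theorem g110 : HasCert 110 := hasCert (by decide +kernel) ok110

private theorem g111 : HasCert 111 := hasCert (by decide +kernel) ok111

private theorem g112 : HasCert 112 := hasCert (by decide +kernel) ok112

private theorem g113 : HasCert 113 := hasCert (by decide +kernel) ok113

private theorem g114 : HasCert 114 := hasCert (by decide +kernel) ok114

private theorem g115 : HasCert 115 := hasCert (by decide +kernel) ok115

private theorem g116 : HasCert 116 := hasCert (by decide +kernel) ok116

private theorem g117 : HasCert 117 := hasCert (by decide +kernel) ok117

private theorem g118 : HasCert 118 := hasCert (by decide +kernel) ok118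

private theorem g119 : HasCert 119 := hasCert (by decide +kernel) ok119

private theorem g120 : HasCert 120 := hasCert (by decide +kernel) ok120

private theorem g121 : HasCert 121 := hasCert (by decide +kernel) ok121

private theorem g122 : HasCert 122 := hasCert (by decide +kernel) ok122

private theorem g123 : HasCert 123 := hasCert (by decide +kernel) ok123

/-- the good numbers -/
def goodList : List ℕ :=
  [0, 1, 2, 3, 4, 5, 6, 7, 8, 9, 10, 11, 12, 13, 14, 15, 16, 17, 18, 19, 20, 21, 22, 23, 24, 25,
    26, 27, 28, 29, 30, 31, 32, 33, 34, 35, 36, 37, 38, 39, 40, 41, 42, 43, 44, 45, 46, 47, 50,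
    51, 52, 53, 54, 55, 56, 57, 59, 60, 61, 62, 63, 64, 65, 66, 67, 69, 70, 71, 72, 73, 74, 75,
    76, 77, 79, 80, 81, 82, 83, 84, 85, 86, 87, 88, 89, 90, 92, 93, 94, 95, 96, 97, 98, 99, 100,
    101, 102, 104, 105, 106, 107, 108, 109, 110, 111, 112, 113, 114, 115, 116, 117, 118, 119, 120,
    121, 122, 123]

theorem hasCert_goodList : ∀ i ∈ goodList, HasCert i :=
  List.forall_iff_forall_mem.1 (show List.Forall HasCert goodList from
    ⟨g0, g1, g2, g3, g4, g5, g6, g7, g8, g9, g10, g11, g12, g13, g14, g15, g16, g17, g18, g19,
      g20, g21, g22, g23, g24, g25, g26, g27, g28, g29, g30, g31, g32, g33, g34, g35, g36, g37,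
      g38, g39, g40, g41, g42, g43, g44, g45, g46, g47, g50, g51, g52, g53, g54, g55, g56, g57,
      g59, g60, g61, g62, g63, g64, g65, g66, g67, g69, g70, g71, g72, g73, g74, g75, g76, g77,
      g79, g80, g81, g82, g83, g84, g85, g86, g87, g88, g89, g90, g92, g93, g94, g95, g96, g97,
      g98, g99, g100, g101, g102, g104, g105, g106, g107, g108, g109, g110, g111, g112, g113,
      g114, g115, g116, g117, g118, g119, g120, g121, g122, g123⟩)

theorem mem_goodList : ∀ i : ℕ, i < 124 → i ∉ [48, 49, 58, 68, 78, 91, 103] → i ∈ goodList := by
  decide

/-- **A matroid labelled as one of the 117 good matroids is Rayleigh.** -/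
theorem isRayleigh_good {α : Type*} [Fintype α] {M : Matroid α} {φ : Fin 8 → α}
    (hφ : Function.Injective φ) (hr : Set.range φ = M.E) {i : ℕ} (hi : i < 124)
    (hbad : i ∉ [48, 49, 58, 68, 78, 91, 103])
    (hb : ∀ T : Finset (Fin 8), M.IsBase (φ '' (T : Set (Fin 8))) ↔
      T.card = 4 ∧ isB i (Pool.Agent.H59.Ray.msk T) = true) : IsRayleigh M := by
  obtain ⟨xs, h⟩ := hasCert_goodList i (mem_goodList i hi hbad)
  exact isRayleigh_of_chk hφ hr (isb := isB i) (fun T => hb T) rfl h

end Pool.Agent.H75.Ray
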