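import Pool.Agent.H59.Ray.Main
import Pool.Agent.H75.Ray.Good

/-!
# All certificates (MP_934449_co)
-/

set_option autoImplicit false

namespace Pool.Agent.H75.Ray

open Pool.Agent.H59.Ray (isB badI AllGood)

/-- **All certificates are there.** -/
theorem allGood : AllGood := by
  intro i hi hj
  have hbad : i ∉ [48, 49, 58, 68, 78, 91, 103] := by
    intro h
    have h1 := hj 0
    have h2 := hj 1
    have h3 := hj 2
    have h4 := hj 3
    have h5 := hj 4
    have h6 := hj 5
    have h7 := hj 6
    simp only [badI, Matrix.cons_val] at h1 h2 h3 h4 h5 h6 h7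
    simp only [List.mem_cons, List.not_mem_nil, or_false] at h
    omega
  obtain ⟨xs, h⟩ := hasCert_goodList i (mem_goodList i hi hbad)
  refine ⟨codes (isB i), xs, ?_⟩
  unfold okE
  rw [Bool.and_eq_true]
  exact ⟨by simp, h⟩

end Pool.Agent.H75.Ray
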