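import Pool.Agent.H75.Ray.Kron

/-!
# A checker for certificates of positivity (MP_934449_co)

`cl`: the codes of the bases, code of `T ⊆ {0, ..., 7}` is `∑ t ∈ T, 3 ^ t`. `A`, `B`, `C`, `E` the sums of
the monomials of the bases with `e` not `f`, with `f` not `e`, with both, with none of the two. A
certificate is a natural number `D > 0` and a list of terms `(lam, eps, plus, minus)`; the check is that
`D (A B - C E) - ∑ lam y ^ eps (plus - minus) ^ 2` has no negative coefficient.
-/

set_option autoImplicit false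

namespace Pool.Agent.H75.Ray

open Finset

/-! ### lists of terms -/

def mulL (p q : List (ℕ × ℕ)) : List (ℕ × ℕ) :=
  p.flatMap (fun a => q.map (fun b => (a.1 * b.1, a.2 + b.2)))

def scl (d : ℕ) (p : List (ℕ × ℕ)) : List (ℕ × ℕ) := p.map (fun a => (d * a.1, a.2))

def shf (e : ℕ) (p : List (ℕ × ℕ)) : List (ℕ × ℕ) := p.map (fun a => (a.1, e + a.2))

theorem num_nil (X : ℕ) : num X [] = 0 := rfl

theorem phi_nil (w : ℕ → ℝ) : phi w [] = 0 := rfl

theorem num_append (X : ℕ) (p q : List (ℕ × ℕ)) : num X (p ++ q) = num X p + num X q := by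
  unfold num
  rw [List.map_append, List.sum_append]

theorem phi_append (w : ℕ → ℝ) (p q : List (ℕ × ℕ)) : phi w (p ++ q) = phi w p + phi w q := by
  unfold phi
  rw [List.map_append, List.sum_append]

theorem num_scl (X d : ℕ) (p : List (ℕ × ℕ)) : num X (scl d p) = d * num X p := by
  induction p with
  | nil => rfl
  | cons a p ih =>
    have h : scl d (a :: p) = (d * a.1, a.2) :: scl d p := rfl
    rw [h, num_cons, num_cons, ih]
    ring

theorem phi_scl (w : ℕ → ℝ) (d : ℕ) (p : List (ℕ × ℕ)) : phi w (scl d p) = d * phi w p := by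
  induction p with
  | nil => simp [scl, phi]
  | cons a p ih =>
    have h : scl d (a :: p) = (d * a.1, a.2) :: scl d p := rfl
    rw [h, phi_cons, phi_cons, ih]
    push_cast
    ring

theorem num_shf (X e : ℕ) (p : List (ℕ × ℕ)) : num X (shf e p) = X ^ e * num X p := by
  induction p with
  | nil => rfl
  | cons a p ih =>
    have h : shf e (a :: p) = (a.1, e + a.2) :: shf e p := rfl
    rw [h, num_cons, num_cons, ih, pow_add]
    ring

theorem phi_shf (w : ℕ → ℝ) {e : ℕ} (he : D1b 8 e = true) {p : List (ℕ × ℕ)}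
    (hp : ∀ a ∈ p, D1b 8 a.2 = true) : phi w (shf e p) = mono w e * phi w p := by
  induction p with
  | nil => simp [shf, phi]
  | cons a p ih =>
    have h : shf e (a :: p) = (a.1, e + a.2) :: shf e p := rfl
    rw [h, phi_cons, phi_cons, ih (fun b hb => hp b (List.mem_cons_of_mem a hb)),
      mono_add w he (hp a List.mem_cons_self)]
    ring

theorem num_mulL (X : ℕ) (p q : List (ℕ × ℕ)) : num X (mulL p q) = num X p * num X q := by
  induction p with
  | nil => simp [mulL, num]
  | cons a p ih =>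
    have h : mulL (a :: p) q = q.map (fun b => (a.1 * b.1, a.2 + b.2)) ++ mulL p q := by
      unfold mulL
      rw [List.flatMap_cons]
    have h1 : num X (q.map (fun b => (a.1 * b.1, a.2 + b.2))) = a.1 * X ^ a.2 * num X q := by
      induction q with
      | nil => rfl
      | cons b q ihq =>
        rw [List.map_cons, num_cons, num_cons]
        have h2 : num X (q.map (fun b => (a.1 * b.1, a.2 + b.2))) = a.1 * X ^ a.2 * num X q := by
          clear ihq ih h
          induction q with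
          | nil => rfl
          | cons b q ihq =>
            rw [List.map_cons, num_cons, num_cons, ihq, pow_add]
            ring
        rw [h2, pow_add]
        ring
    rw [h, num_append, num_cons, ih, h1]
    ring

theorem phi_mulL (w : ℕ → ℝ) {p q : List (ℕ × ℕ)} (hp : ∀ a ∈ p, D1b 8 a.2 = true)
    (hq : ∀ a ∈ q, D1b 8 a.2 = true) : phi w (mulL p q) = phi w p * phi w q := by
  have h1 : ∀ a : ℕ × ℕ, D1b 8 a.2 = true → ∀ q : List (ℕ × ℕ),
      (∀ a ∈ q, D1b 8 a.2 = true) →
      phi w (q.map (fun b => (a.1 * b.1, a.2 + b.2))) = a.1 * mono w a.2 * phi w q := by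
    intro a ha q hq
    induction q with
    | nil => simp [phi]
    | cons b q ih =>
      rw [List.map_cons, phi_cons, phi_cons, ih (fun c hc => hq c (List.mem_cons_of_mem b hc)),
        mono_add w ha (hq b List.mem_cons_self)]
      push_cast
      ring
  induction p with
  | nil => simp [mulL, phi]
  | cons a p ih =>
    have h : mulL (a :: p) q = q.map (fun b => (a.1 * b.1, a.2 + b.2)) ++ mulL p q := by
      unfold mulL
      rw [List.flatMap_cons]
    rw [h, phi_append, phi_cons, ih (fun b hb => hp b (List.mem_cons_of_mem a hb)),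
      h1 a (hp a List.mem_cons_self) q hq]
    ring

theorem mulL_lt {p q : List (ℕ × ℕ)} (hp : ∀ a ∈ p, D1b 8 a.2 = true)
    (hq : ∀ a ∈ q, D1b 8 a.2 = true) : ∀ a ∈ mulL p q, a.2 < 6561 := by
  intro a ha
  unfold mulL at ha
  rw [List.mem_flatMap] at ha
  obtain ⟨b, hb, ha⟩ := ha
  rw [List.mem_map] at ha
  obtain ⟨c, hc, rfl⟩ := ha
  have h1 := D1b_lt (hp b hb)
  have h2 := D1b_lt (hq c hc)
  norm_num at h1 h2
  show b.2 + c.2 < 6561
  omega

theorem scl_lt {d K : ℕ} {p : List (ℕ × ℕ)} (hp : ∀ a ∈ p, a.2 < K) :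
    ∀ a ∈ scl d p, a.2 < K := by
  intro a ha
  unfold scl at ha
  rw [List.mem_map] at ha
  obtain ⟨b, hb, rfl⟩ := ha
  exact hp b hb

/-! ### terms of a certificate -/

/-- `(lam, eps, plus, minus)` -/
abbrev Term : Type := ℕ × ℕ × List (ℕ × ℕ) × List (ℕ × ℕ)

/-- the codes of a term are admissible -/
def tok (t : Term) : Bool :=
  D1b 8 t.2.1 && t.2.2.1.all (fun a => D1b 8 a.2 && D1b 8 (t.2.1 + a.2)) &&
    t.2.2.2.all (fun a => D1b 8 a.2 && D1b 8 (t.2.1 + a.2))

def tP (t : Term) : List (ℕ × ℕ) := scl (2 * t.1) (mulL (shf t.2.1 t.2.2.1) t.2.2.2)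

def tN (t : Term) : List (ℕ × ℕ) :=
  scl t.1 (mulL (shf t.2.1 t.2.2.1) t.2.2.1 ++ mulL (shf t.2.1 t.2.2.2) t.2.2.2)

private theorem tok_all {eps : ℕ} {p : List (ℕ × ℕ)}
    (h : p.all (fun a => D1b 8 a.2 && D1b 8 (eps + a.2)) = true) :
    (∀ a ∈ p, D1b 8 a.2 = true) ∧ ∀ a ∈ shf eps p, D1b 8 a.2 = true := by
  rw [List.all_eq_true] at h
  refine ⟨fun a ha => ?_, fun a ha => ?_⟩
  · have h1 := h a ha
    rw [Bool.and_eq_true] at h1
    exact h1.1
  · unfold shf at ha
    rw [List.mem_map] at ha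
    obtain ⟨b, hb, rfl⟩ := ha
    have h1 := h b hb
    rw [Bool.and_eq_true] at h1
    exact h1.2

private theorem t_lt {t : Term} (h : tok t = true) :
    (∀ a ∈ tP t, a.2 < 6561) ∧ ∀ a ∈ tN t, a.2 < 6561 := by
  unfold tok at h
  rw [Bool.and_eq_true, Bool.and_eq_true] at h
  obtain ⟨⟨h0, h1⟩, h2⟩ := h
  have h3 := tok_all h1
  have h4 := tok_all h2
  refine ⟨scl_lt (mulL_lt h3.2 h4.1), scl_lt ?_⟩
  intro a ha
  rw [List.mem_append] at ha
  rcases ha with ha | ha
  · exact mulL_lt h3.2 h3.1 a ha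
  · exact mulL_lt h4.2 h4.1 a ha

private theorem t_phi {w : ℕ → ℝ} (hw : ∀ t, 0 ≤ w t) {t : Term} (h : tok t = true) :
    phi w (tP t) ≤ phi w (tN t) := by
  unfold tok at h
  rw [Bool.and_eq_true, Bool.and_eq_true] at h
  obtain ⟨⟨h0, h1⟩, h2⟩ := h
  have h3 := tok_all h1
  have h4 := tok_all h2
  unfold tP tN
  rw [phi_scl, phi_scl, phi_append, phi_mulL w h3.2 h4.1, phi_mulL w h3.2 h3.1,
    phi_mulL w h4.2 h4.1, phi_shf w h0 h3.1, phi_shf w h0 h4.1]
  have h5 := mul_nonneg (mul_nonneg (Nat.cast_nonneg (α := ℝ) t.1) (mono_nonneg hw t.2.1))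
    (sq_nonneg (phi w t.2.2.1 - phi w t.2.2.2))
  push_cast
  nlinarith [h5]

/-! ### the checker -/

/-- sum of the powers `X ^ c` over the codes with given digits at `e`, `f` -/
def sel (X e f a b : ℕ) (cl : List ℕ) : ℕ :=
  cl.foldr (fun c r => bif (dg c e == a && dg c f == b) then X ^ c + r else r) 0

/-- value of a list of terms -/
def lin (X : ℕ) (q : List (ℕ × ℕ)) : ℕ := q.foldr (fun a r => a.1 * X ^ a.2 + r) 0

def tsP (X : ℕ) (ts : List Term) : ℕ :=
  ts.foldr (fun t r => 2 * t.1 * (X ^ t.2.1 * lin X t.2.2.1 * lin X t.2.2.2) + r) 0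

def tsN (X : ℕ) (ts : List Term) : ℕ :=
  ts.foldr (fun t r => t.1 * (X ^ t.2.1 * (lin X t.2.2.1 * lin X t.2.2.1 +
    lin X t.2.2.2 * lin X t.2.2.2)) + r) 0

def numP (X : ℕ) (cl : List ℕ) (e f D : ℕ) (ts : List Term) : ℕ :=
  D * (sel X e f 1 0 cl * sel X e f 0 1 cl) + tsP X ts

def numN (X : ℕ) (cl : List ℕ) (e f D : ℕ) (ts : List Term) : ℕ :=
  D * (sel X e f 1 1 cl * sel X e f 0 0 cl) + tsN X ts

/-- **The checker.** -/
def chk (cl : List ℕ) (e f D : ℕ) (ts : List Term) : Bool :=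
  Nat.blt 0 D && ts.all tok && Nat.blt (numP 1 cl e f D ts) 2147483648 &&
    Nat.blt (numN 1 cl e f D ts) 2147483648 &&
    Nat.beq ((numP 4294967296 cl e f D ts + hH 31 6561 - numN 4294967296 cl e f D ts) &&&
      hH 31 6561) (hH 31 6561)

/-! ### soundness -/

/-- the list of terms of the bases with given digits -/
def selL (e f a b : ℕ) (cl : List ℕ) : List (ℕ × ℕ) :=
  (cl.filter (fun c => dg c e == a && dg c f == b)).map (fun c => (1, c))

private theorem sel_eq (X e f a b : ℕ) (cl : List ℕ) :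
    sel X e f a b cl = num X (selL e f a b cl) := by
  induction cl with
  | nil => rfl
  | cons c cl ih =>
    have h1 : sel X e f a b (c :: cl) =
        bif (dg c e == a && dg c f == b) then X ^ c + sel X e f a b cl else sel X e f a b cl := rfl
    rw [h1, ih]
    unfold selL
    rw [List.filter_cons]
    cases (dg c e == a && dg c f == b)
    · rfl
    · simp only [cond_true, if_true, List.map_cons, num_cons, one_mul]

private theorem lin_eq (X : ℕ) (q : List (ℕ × ℕ)) : lin X q = num X q := by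
  induction q with
  | nil => rfl
  | cons a q ih =>
    have h1 : lin X (a :: q) = a.1 * X ^ a.2 + lin X q := rfl
    rw [h1, ih, num_cons]

private theorem tsP_eq (X : ℕ) (ts : List Term) : tsP X ts = num X (ts.flatMap tP) := by
  induction ts with
  | nil => rfl
  | cons t ts ih =>
    have h1 : tsP X (t :: ts) =
        2 * t.1 * (X ^ t.2.1 * lin X t.2.2.1 * lin X t.2.2.2) + tsP X ts := rfl
    rw [h1, ih, List.flatMap_cons, num_append]
    unfold tP
    rw [num_scl, num_mulL, num_shf, lin_eq, lin_eq]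

private theorem tsN_eq (X : ℕ) (ts : List Term) : tsN X ts = num X (ts.flatMap tN) := by
  induction ts with
  | nil => rfl
  | cons t ts ih =>
    have h1 : tsN X (t :: ts) = t.1 * (X ^ t.2.1 * (lin X t.2.2.1 * lin X t.2.2.1 +
      lin X t.2.2.2 * lin X t.2.2.2)) + tsN X ts := rfl
    rw [h1, ih, List.flatMap_cons, num_append]
    unfold tN
    rw [num_scl, num_append, num_mulL, num_mulL, num_shf, num_shf, lin_eq, lin_eq]
    ring

def pL (cl : List ℕ) (e f D : ℕ) (ts : List Term) : List (ℕ × ℕ) :=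
  scl D (mulL (selL e f 1 0 cl) (selL e f 0 1 cl)) ++ ts.flatMap tP

def nL (cl : List ℕ) (e f D : ℕ) (ts : List Term) : List (ℕ × ℕ) :=
  scl D (mulL (selL e f 1 1 cl) (selL e f 0 0 cl)) ++ ts.flatMap tN

private theorem numP_eq (X : ℕ) (cl : List ℕ) (e f D : ℕ) (ts : List Term) :
    numP X cl e f D ts = num X (pL cl e f D ts) := by
  unfold numP pL
  rw [num_append, num_scl, num_mulL, sel_eq, sel_eq, tsP_eq]

private theorem numN_eq (X : ℕ) (cl : List ℕ) (e f D : ℕ) (ts : List Term) :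
    numN X cl e f D ts = num X (nL cl e f D ts) := by
  unfold numN nL
  rw [num_append, num_scl, num_mulL, sel_eq, sel_eq, tsN_eq]

private theorem selL_D1 {e f a b : ℕ} {cl : List ℕ} (hcl : ∀ c ∈ cl, D1b 8 c = true) :
    ∀ x ∈ selL e f a b cl, D1b 8 x.2 = true := by
  intro x hx
  unfold selL at hx
  rw [List.mem_map] at hx
  obtain ⟨c, hc, rfl⟩ := hx
  exact hcl c (List.mem_of_mem_filter hc)

private theorem flat_lt {ts : List Term} (h : ts.all tok = true) :
    (∀ a ∈ ts.flatMap tP, a.2 < 6561) ∧ ∀ a ∈ ts.flatMap tN, a.2 < 6561 := by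
  rw [List.all_eq_true] at h
  constructor
  · intro a ha
    rw [List.mem_flatMap] at ha
    obtain ⟨t, ht, ha⟩ := ha
    exact (t_lt (h t ht)).1 a ha
  · intro a ha
    rw [List.mem_flatMap] at ha
    obtain ⟨t, ht, ha⟩ := ha
    exact (t_lt (h t ht)).2 a ha

private theorem flat_phi {w : ℕ → ℝ} (hw : ∀ t, 0 ≤ w t) {ts : List Term}
    (h : ts.all tok = true) : phi w (ts.flatMap tP) ≤ phi w (ts.flatMap tN) := by
  induction ts with
  | nil => exact le_rfl
  | cons t ts ih =>
    rw [List.all_cons, Bool.and_eq_true] at h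
    rw [List.flatMap_cons, List.flatMap_cons, phi_append, phi_append]
    exact add_le_add (t_phi hw h.1) (ih h.2)

/-- **Soundness of the checker.** -/
theorem chk_sound {cl : List ℕ} {e f D : ℕ} {ts : List Term} (hcl : ∀ c ∈ cl, D1b 8 c = true)
    (h : chk cl e f D ts = true) {w : ℕ → ℝ} (hw : ∀ t, 0 ≤ w t) :
    0 ≤ phi w (selL e f 1 0 cl) * phi w (selL e f 0 1 cl) -
      phi w (selL e f 1 1 cl) * phi w (selL e f 0 0 cl) := by
  unfold chk at h
  rw [Bool.and_eq_true, Bool.and_eq_true, Bool.and_eq_true, Bool.and_eq_true] at h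
  obtain ⟨⟨⟨⟨hD, ht⟩, h1⟩, h2⟩, h3⟩ := h
  have hD' : 0 < D := by simpa [Nat.blt_eq] using hD
  have h1' : num 1 (pL cl e f D ts) < 2 ^ 31 := by
    rw [← numP_eq]
    simpa [Nat.blt_eq] using h1
  have h2' : num 1 (nL cl e f D ts) < 2 ^ 31 := by
    rw [← numN_eq]
    simpa [Nat.blt_eq] using h2
  have h3' := Nat.eq_of_beq_eq_true h3
  rw [numP_eq, numN_eq] at h3'
  have hp : ∀ a ∈ pL cl e f D ts, a.2 < 6561 := by
    intro a ha
    unfold pL at ha
    rw [List.mem_append] at ha
    rcases ha with ha | ha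
    · exact scl_lt (mulL_lt (selL_D1 hcl) (selL_D1 hcl)) a ha
    · exact (flat_lt ht).1 a ha
  have hn : ∀ a ∈ nL cl e f D ts, a.2 < 6561 := by
    intro a ha
    unfold nL at ha
    rw [List.mem_append] at ha
    rcases ha with ha | ha
    · exact scl_lt (mulL_lt (selL_D1 hcl) (selL_D1 hcl)) a ha
    · exact (flat_lt ht).2 a ha
  have h4 := cf_le_of_and (w := 31) (K := 6561) hp hn h1' h2' h3'
  have h5 := phi_le hw hp hn h4
  unfold pL nL at h5
  rw [phi_append, phi_append, phi_scl, phi_scl, phi_mulL w (selL_D1 hcl) (selL_D1 hcl),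
    phi_mulL w (selL_D1 hcl) (selL_D1 hcl)] at h5
  have h6 := flat_phi hw ht
  have hDr : (0 : ℝ) < D := by exact_mod_cast hD'
  have h7 : (D : ℝ) * (phi w (selL e f 1 1 cl) * phi w (selL e f 0 0 cl)) ≤
      D * (phi w (selL e f 1 0 cl) * phi w (selL e f 0 1 cl)) := by linarith
  have h8 := le_of_mul_le_mul_left h7 hDr
  linarith

/-! ### all pairs -/

/-- `(e, f, D, terms)` -/
abbrev Entry : Type := ℕ × ℕ × ℕ × List Term

/-- look for a certificate -/
def look (e f : ℕ) : List Entry → ℕ × List Term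
  | [] => (1, [])
  | x :: xs => bif (Nat.beq x.1 e && Nat.beq x.2.1 f) then x.2.2 else look e f xs

/-- the pairs `e < f` -/
def prs : List (ℕ × ℕ) :=
  [(0, 1), (0, 2), (0, 3), (0, 4), (0, 5), (0, 6), (0, 7), (1, 2), (1, 3), (1, 4), (1, 5), (1, 6),
    (1, 7), (2, 3), (2, 4), (2, 5), (2, 6), (2, 7), (3, 4), (3, 5), (3, 6), (3, 7), (4, 5), (4, 6),
    (4, 7), (5, 6), (5, 7), (6, 7)]

def chkAll (cl : List ℕ) (xs : List Entry) : Bool :=
  cl.all (D1b 8) && prs.all (fun p => chk cl p.1 p.2 (look p.1 p.2 xs).1 (look p.1 p.2 xs).2)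

theorem chkAll_sound {cl : List ℕ} {xs : List Entry} (h : chkAll cl xs = true) {e f : ℕ}
    (hef : e < f) (hf : f < 8) {w : ℕ → ℝ} (hw : ∀ t, 0 ≤ w t) :
    0 ≤ phi w (selL e f 1 0 cl) * phi w (selL e f 0 1 cl) -
      phi w (selL e f 1 1 cl) * phi w (selL e f 0 0 cl) := by
  unfold chkAll at h
  rw [Bool.and_eq_true, List.all_eq_true, List.all_eq_true] at h
  have hm : (e, f) ∈ prs := by
    interval_cases f <;> interval_cases e <;> decide
  exact chk_sound h.1 (h.2 (e, f) hm) hw

end Pool.Agent.H75.Ray
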