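import Mathlib

/-!
# The square inequality behind the rank 3 theorem (MP_934449_co)

`o : α → ℝ` a weight, `r`, `c` the row and the column of an element; `rho x z = 1` if the rows of `x` and
`z` are different, `gam x z = 1` if the columns are different. With `T` the total weight, `w` the weights
of the cells, `l` and `m` the row and column sums:
`(∑ rho o o) (∑ gam o o) - 2 T ∑ rho x z gam x k o o o + T² ∑ rho gam o o = ∑ (T w - l m)² ≥ 0`.
-/

set_option autoImplicit false

namespace Pool.Agent.H75.Ray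

open Finset

variable {α ι κ : Type*} [Fintype α] [DecidableEq ι] [DecidableEq κ]

/-- `1` if the two labels are different -/
def dl {ι : Type*} [DecidableEq ι] (i j : ι) : ℝ := if i = j then 0 else 1

theorem dl_comm (i j : ι) : dl i j = dl j i := by
  unfold dl
  by_cases h : i = j
  · rw [if_pos h, if_pos h.symm]
  · rw [if_neg h, if_neg (fun h' => h h'.symm)]

theorem dl_nonneg (i j : ι) : 0 ≤ dl i j := by
  unfold dl
  split_ifs <;> norm_num

theorem dl_le_one (i j : ι) : dl i j ≤ 1 := by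
  unfold dl
  split_ifs <;> norm_num

/-- the weight of a label -/
def lw (o : α → ℝ) (r : α → ι) (i : ι) : ℝ := ∑ x, if r x = i then o x else 0

private theorem co_a [Fintype ι] (o : α → ℝ) (r : α → ι) (f : ι → ℝ) :
    ∑ i, lw o r i * f i = ∑ x, o x * f (r x) := by
  unfold lw
  simp only [Finset.sum_mul, ite_mul, zero_mul]
  rw [Finset.sum_comm]
  refine Finset.sum_congr rfl fun x _ => ?_
  rw [Finset.sum_ite_eq, if_pos (mem_univ _)]

private theorem co_c (o : α → ℝ) (r : α → ι) (i : ι) :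
    ∑ z, dl i (r z) * o z = ∑ z, o z - lw o r i := by
  unfold lw dl
  rw [← Finset.sum_sub_distrib]
  refine Finset.sum_congr rfl fun z _ => ?_
  by_cases h : r z = i
  · rw [if_pos h, if_pos h.symm]; ring
  · rw [if_neg h, if_neg (fun h' => h h'.symm)]; ring

/-- **The square inequality.** -/
theorem core [Fintype ι] [Fintype κ] (o : α → ℝ) (r : α → ι) (c : α → κ) :
    0 ≤ (∑ x, ∑ z, dl (r x) (r z) * (o x * o z)) * (∑ x, ∑ z, dl (c x) (c z) * (o x * o z)) -
      2 * (∑ x, o x) * (∑ x, ∑ z, ∑ k, dl (r x) (r z) * dl (c x) (c k) * (o x * o z * o k)) +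
      (∑ x, o x) ^ 2 * ∑ x, ∑ z, dl (r x) (r z) * dl (c x) (c z) * (o x * o z) := by
  set T := ∑ x, o x with hT
  set l := lw o r with hl
  set m := lw o c with hm
  set w := lw o (fun x => (r x, c x)) with hw
  have e1 : ∑ x, ∑ z, dl (r x) (r z) * (o x * o z) = T ^ 2 - ∑ i, l i * l i := by
    have h : ∀ x, ∑ z, dl (r x) (r z) * (o x * o z) = o x * T - o x * l (r x) := by
      intro x
      rw [← mul_sub, hT, hl, ← co_c, Finset.mul_sum]
      exact Finset.sum_congr rfl fun z _ => by ring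
    simp only [h]
    rw [Finset.sum_sub_distrib, ← Finset.sum_mul, ← hT, hl, co_a]
    ring
  have e2 : ∑ x, ∑ z, dl (c x) (c z) * (o x * o z) = T ^ 2 - ∑ j, m j * m j := by
    have h : ∀ x, ∑ z, dl (c x) (c z) * (o x * o z) = o x * T - o x * m (c x) := by
      intro x
      rw [← mul_sub, hT, hm, ← co_c, Finset.mul_sum]
      exact Finset.sum_congr rfl fun z _ => by ring
    simp only [h]
    rw [Finset.sum_sub_distrib, ← Finset.sum_mul, ← hT, hm, co_a]
    ring
  have e3 : ∑ x, ∑ z, ∑ k, dl (r x) (r z) * dl (c x) (c k) * (o x * o z * o k) =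
      T ^ 3 - T * ∑ i, l i * l i - T * ∑ j, m j * m j + ∑ p, w p * (l p.1 * m p.2) := by
    have h : ∀ x, ∑ z, ∑ k, dl (r x) (r z) * dl (c x) (c k) * (o x * o z * o k) =
        o x * T ^ 2 - T * (o x * l (r x)) - T * (o x * m (c x)) + o x * (l (r x) * m (c x)) := by
      intro x
      have h1 : ∑ z, ∑ k, dl (r x) (r z) * dl (c x) (c k) * (o x * o z * o k) =
          o x * (∑ z, dl (r x) (r z) * o z) * ∑ k, dl (c x) (c k) * o k := by
        rw [mul_assoc, Finset.sum_mul_sum, Finset.mul_sum]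
        refine Finset.sum_congr rfl fun z _ => ?_
        rw [Finset.mul_sum]
        exact Finset.sum_congr rfl fun k _ => by ring
      rw [h1, co_c, co_c, ← hT, ← hl, ← hm]
      ring
    simp only [h]
    rw [Finset.sum_add_distrib, Finset.sum_sub_distrib, Finset.sum_sub_distrib,
      ← Finset.sum_mul, ← Finset.mul_sum, ← Finset.mul_sum, ← hT, hw,
      co_a o (fun x => (r x, c x)) (fun p => l p.1 * m p.2), hl, co_a, hm, co_a]
    ring
  have e4 : ∑ x, ∑ z, dl (r x) (r z) * dl (c x) (c z) * (o x * o z) =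
      T ^ 2 - ∑ i, l i * l i - ∑ j, m j * m j + ∑ p, w p * w p := by
    have h : ∀ x, ∑ z, dl (r x) (r z) * dl (c x) (c z) * (o x * o z) =
        o x * T - o x * l (r x) - o x * m (c x) + o x * w (r x, c x) := by
      intro x
      have h1 : w (r x, c x) = ∑ z, if (r z, c z) = (r x, c x) then o z else 0 := rfl
      have h2 : l (r x) = ∑ z, if r z = r x then o z else 0 := rfl
      have h3 : m (c x) = ∑ z, if c z = c x then o z else 0 := rfl
      rw [h1, h2, h3, hT, Finset.mul_sum, Finset.mul_sum, Finset.mul_sum, Finset.mul_sum,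
        ← Finset.sum_sub_distrib, ← Finset.sum_sub_distrib, ← Finset.sum_add_distrib]
      refine Finset.sum_congr rfl fun z _ => ?_
      unfold dl
      by_cases ha : r x = r z <;> by_cases hb : c x = c z
      · rw [if_pos ha, if_pos hb, if_pos ha.symm, if_pos hb.symm, if_pos (by rw [ha, hb])]
        ring
      · rw [if_pos ha, if_neg hb, if_pos ha.symm, if_neg (fun h => hb h.symm),
          if_neg (fun h => hb (Prod.ext_iff.1 h).2.symm)]
        ring
      · rw [if_neg ha, if_pos hb, if_neg (fun h => ha h.symm), if_pos hb.symm,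
          if_neg (fun h => ha (Prod.ext_iff.1 h).1.symm)]
        ring
      · rw [if_neg ha, if_neg hb, if_neg (fun h => ha h.symm), if_neg (fun h => hb h.symm),
          if_neg (fun h => ha (Prod.ext_iff.1 h).1.symm)]
        ring
    simp only [h]
    rw [Finset.sum_add_distrib, Finset.sum_sub_distrib, Finset.sum_sub_distrib,
      ← Finset.sum_mul, ← hT, hw, co_a o (fun x => (r x, c x)), hl, co_a, hm, co_a]
    ring
  have e5 : ∑ p : ι × κ, (l p.1 * m p.2) * (l p.1 * m p.2) =
      (∑ i, l i * l i) * ∑ j, m j * m j := by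
    rw [Fintype.sum_prod_type, Finset.sum_mul_sum]
    exact Finset.sum_congr rfl fun i _ => Finset.sum_congr rfl fun j _ => by ring
  have e6 : 0 ≤ ∑ p : ι × κ, (T * w p - l p.1 * m p.2) ^ 2 :=
    Finset.sum_nonneg fun p _ => sq_nonneg _
  have e7 : ∑ p : ι × κ, (T * w p - l p.1 * m p.2) ^ 2 = T ^ 2 * ∑ p, w p * w p -
      2 * T * ∑ p, w p * (l p.1 * m p.2) + (∑ i, l i * l i) * ∑ j, m j * m j := by
    rw [← e5, Finset.mul_sum, Finset.mul_sum, ← Finset.sum_sub_distrib, ← Finset.sum_add_distrib]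
    exact Finset.sum_congr rfl fun p _ => by ring
  rw [e7] at e6
  rw [e1, e2, e3, e4]
  nlinarith [e6]

/-- the pointwise bound for three elements -/
def pw (r : α → ι) (c : α → κ) (x z k : α) : ℝ :=
  dl (r x) (r z) * (dl (c x) (c k) + dl (c z) (c k)) +
    dl (r x) (r k) * (dl (c x) (c z) + dl (c z) (c k)) +
    dl (r z) (r k) * (dl (c x) (c z) + dl (c x) (c k)) -
    dl (r x) (r z) * dl (c x) (c z) - dl (r x) (r k) * dl (c x) (c k) -
    dl (r z) (r k) * dl (c z) (c k)

/-- **The inequality for the triples.** -/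
theorem core_triples [Fintype ι] [Fintype κ] (o : α → ℝ) (ho : ∀ x, 0 ≤ o x) (r : α → ι)
    (c : α → κ) (q : α → α → α → ℝ)
    (hq : ∀ x z k, 2 * q x z k ≤ pw r c x z k * (o x * o z * o k)) :
    2 * ((∑ x, o x) * ∑ x, ∑ z, ∑ k, q x z k) ≤
      3 * ((∑ x, ∑ z, dl (r x) (r z) * (o x * o z)) *
        ∑ x, ∑ z, dl (c x) (c z) * (o x * o z)) := by
  set T := ∑ x, o x with hT
  have hT0 : 0 ≤ T := Finset.sum_nonneg fun x _ => ho x
  set A : α → α → α → ℝ := fun x z k => dl (r x) (r z) * dl (c x) (c k) * (o x * o z * o k)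
    with hA
  set W := ∑ x, ∑ z, ∑ k, A x z k with hW
  set B : α → α → ℝ := fun x z => dl (r x) (r z) * dl (c x) (c z) * (o x * o z) with hB
  set P := ∑ x, ∑ z, B x z with hP
  have s1 : ∑ x, ∑ z, ∑ k, A z x k = W := Finset.sum_comm
  have s2 : ∑ x, ∑ z, ∑ k, A x k z = W := Finset.sum_congr rfl fun x _ => Finset.sum_comm
  have s3 : ∑ x, ∑ z, ∑ k, A k x z = W := by
    rw [hW, show ∑ x, ∑ z, ∑ k, A k x z = ∑ x, ∑ k, ∑ z, A k x z from
      Finset.sum_congr rfl fun x _ => Finset.sum_comm]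
    exact Finset.sum_comm
  have s4 : ∑ x, ∑ z, ∑ k, A z k x = W := by
    rw [hW, show ∑ x, ∑ z, ∑ k, A z k x = ∑ z, ∑ x, ∑ k, A z k x from Finset.sum_comm]
    exact Finset.sum_congr rfl fun x _ => Finset.sum_comm
  have s5 : ∑ x, ∑ z, ∑ k, A k z x = W := by
    rw [← s3]
    exact Finset.sum_comm
  have t1 : ∑ x, ∑ z, ∑ k, B x z * o k = P * T := by
    rw [hP, Finset.sum_mul]
    refine Finset.sum_congr rfl fun x _ => ?_
    rw [Finset.sum_mul]
    exact Finset.sum_congr rfl fun z _ => (Finset.mul_sum _ _ _).symm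
  have t2 : ∑ x, ∑ z, ∑ k, B x k * o z = P * T := by
    rw [← t1]
    exact Finset.sum_congr rfl fun x _ => Finset.sum_comm
  have t3 : ∑ x, ∑ z, ∑ k, B z k * o x = P * T := by
    rw [← t2]
    exact Finset.sum_comm
  have h1 : ∑ x, ∑ z, ∑ k, 2 * q x z k ≤
      ∑ x, ∑ z, ∑ k, (A x z k + A z x k + A x k z + A k x z + A z k x + A k z x -
        B x z * o k - B x k * o z - B z k * o x) := by
    refine Finset.sum_le_sum fun x _ => Finset.sum_le_sum fun z _ =>
      Finset.sum_le_sum fun k _ => (hq x z k).trans (le_of_eq ?_)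
    simp only [hA, hB, pw]
    rw [dl_comm (r z) (r x), dl_comm (r k) (r x), dl_comm (r k) (r z), dl_comm (c z) (c x),
      dl_comm (c k) (c x), dl_comm (c k) (c z)]
    ring
  simp only [Finset.sum_add_distrib, Finset.sum_sub_distrib] at h1
  rw [s1, s2, s3, s4, s5, t1, t2, t3, ← hW] at h1
  simp only [← Finset.mul_sum] at h1
  have h2 := core o r c
  rw [← hT] at h2
  have h3 := mul_le_mul_of_nonneg_left h1 hT0
  have h4 : ∑ x, ∑ z, ∑ k, dl (r x) (r z) * dl (c x) (c k) * (o x * o z * o k) = W := rfl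
  have h5 : ∑ x, ∑ z, dl (r x) (r z) * dl (c x) (c z) * (o x * o z) = P := rfl
  rw [h4, h5] at h2
  nlinarith [h2, h3]

end Pool.Agent.H75.Ray
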