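import Mathlib

/-!
# Comparison of the coefficients of two polynomials by one bitwise AND (MP_934449_co)

A polynomial with nonnegative integer coefficients is a list of pairs (coefficient, code). `num X p` is
the value for `X`, `cf p c` the coefficient of the code `c`. If all the coefficients of `p` and `n` are
less than `2 ^ w` and all the codes less than `K`, `X = 2 ^ (w + 1)`, `H = ∑ c < K, 2 ^ w X ^ c`, then
`(num X p + H - num X n) &&& H = H` implies that all coefficients of `n` are at most those of `p`.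
-/

set_option autoImplicit false

namespace Pool.Agent.H75.Ray

open Finset

/-- the value of a list of terms -/
def num (X : ℕ) (p : List (ℕ × ℕ)) : ℕ := (p.map (fun a => a.1 * X ^ a.2)).sum

/-- the coefficient of a code -/
def cf (p : List (ℕ × ℕ)) (c : ℕ) : ℕ := (p.map (fun a => if a.2 = c then a.1 else 0)).sum

theorem num_cons (X : ℕ) (a : ℕ × ℕ) (p : List (ℕ × ℕ)) :
    num X (a :: p) = a.1 * X ^ a.2 + num X p := by
  unfold num
  rw [List.map_cons, List.sum_cons]

theorem cf_cons (a : ℕ × ℕ) (p : List (ℕ × ℕ)) (c : ℕ) :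
    cf (a :: p) c = (if a.2 = c then a.1 else 0) + cf p c := by
  unfold cf
  rw [List.map_cons, List.sum_cons]

theorem num_eq (X : ℕ) {K : ℕ} {p : List (ℕ × ℕ)} (hp : ∀ a ∈ p, a.2 < K) :
    num X p = ∑ c ∈ range K, cf p c * X ^ c := by
  induction p with
  | nil => simp [num, cf]
  | cons a p ih =>
    rw [num_cons, ih (fun b hb => hp b (List.mem_cons_of_mem a hb))]
    have h1 : ∀ c ∈ range K, cf (a :: p) c * X ^ c =
        (if a.2 = c then a.1 * X ^ c else 0) + cf p c * X ^ c := by
      intro c _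
      rw [cf_cons, add_mul]
      congr 1
      split_ifs
      · rfl
      · rw [zero_mul]
    rw [Finset.sum_congr rfl h1, Finset.sum_add_distrib, Finset.sum_ite_eq,
      if_pos (mem_range.2 (hp a (List.mem_cons_self)))]

theorem cf_le (p : List (ℕ × ℕ)) (c : ℕ) : cf p c ≤ num 1 p := by
  induction p with
  | nil => simp [num, cf]
  | cons a p ih =>
    rw [num_cons, cf_cons]
    refine add_le_add ?_ ih
    split_ifs
    · simp
    · exact Nat.zero_le _

/-- digits of a number -/
theorem digit_sum {w K : ℕ} {d : ℕ → ℕ} (hd : ∀ c, d c < 2 ^ w) :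
    ∀ j : ℕ, j < K → (∑ c ∈ range K, d c * (2 ^ w) ^ c) / (2 ^ w) ^ j % 2 ^ w = d j := by
  induction K generalizing d with
  | zero =>
    intro j hj
    omega
  | succ K ih =>
    intro j hj
    have hX : 0 < 2 ^ w := by positivity
    have h1 : ∑ c ∈ range (K + 1), d c * (2 ^ w) ^ c =
        d 0 + 2 ^ w * ∑ c ∈ range K, d (c + 1) * (2 ^ w) ^ c := by
      rw [Finset.sum_range_succ', pow_zero, mul_one, add_comm, Finset.mul_sum]
      congr 1
      refine Finset.sum_congr rfl fun c _ => ?_
      rw [pow_succ]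
      ring
    rw [h1]
    cases j with
    | zero =>
      rw [pow_zero, Nat.div_one, Nat.add_mul_mod_self_left, Nat.mod_eq_of_lt (hd 0)]
    | succ j =>
      rw [pow_succ', ← Nat.div_div_eq_div_mul, Nat.add_mul_div_left _ _ hX,
        Nat.div_eq_of_lt (hd 0), zero_add]
      exact ih (fun c => hd (c + 1)) j (by omega)

/-- top bits of the digits -/
theorem top_bit {w K : ℕ} {d : ℕ → ℕ} (hd : ∀ c, d c < 2 ^ (w + 1)) {j : ℕ} (hj : j < K) :
    (∑ c ∈ range K, d c * (2 ^ (w + 1)) ^ c).testBit ((w + 1) * j + w) = (d j).testBit w := by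
  have h1 := digit_sum hd j hj
  rw [← pow_mul] at h1
  rw [← h1, Nat.testBit_mod_two_pow, ← Nat.testBit_shiftRight, Nat.shiftRight_eq_div_pow]
  simp

/-- the number with all top bits -/
def hH (w K : ℕ) : ℕ := 2 ^ w * ((2 ^ ((w + 1) * K) - 1) / (2 ^ (w + 1) - 1))

theorem hH_eq (w K : ℕ) : hH w K = ∑ c ∈ range K, 2 ^ w * (2 ^ (w + 1)) ^ c := by
  unfold hH
  have h2 : 2 ≤ 2 ^ (w + 1) := by
    calc 2 = 2 ^ 1 := rfl
      _ ≤ 2 ^ (w + 1) := Nat.pow_le_pow_right (by norm_num) (by omega)
  rw [pow_mul, ← Nat.geomSum_eq h2, Finset.mul_sum]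

/-- **The comparison of coefficients.** -/
theorem cf_le_of_and {w K : ℕ} {p n : List (ℕ × ℕ)} (hp : ∀ a ∈ p, a.2 < K)
    (hn : ∀ a ∈ n, a.2 < K) (hp1 : num 1 p < 2 ^ w) (hn1 : num 1 n < 2 ^ w)
    (h : (num (2 ^ (w + 1)) p + hH w K - num (2 ^ (w + 1)) n) &&& hH w K = hH w K) :
    ∀ c, cf n c ≤ cf p c := by
  intro j
  by_cases hj : j < K
  · have hpc : ∀ c, cf p c < 2 ^ w := fun c => lt_of_le_of_lt (cf_le p c) hp1
    have hnc : ∀ c, cf n c < 2 ^ w := fun c => lt_of_le_of_lt (cf_le n c) hn1
    have hw : 2 ^ (w + 1) = 2 * 2 ^ w := by rw [pow_succ]; ring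
    have hd : ∀ c, cf p c + 2 ^ w - cf n c < 2 ^ (w + 1) := by
      intro c
      have := hpc c
      omega
    have hS : num (2 ^ (w + 1)) p + hH w K - num (2 ^ (w + 1)) n =
        ∑ c ∈ range K, (cf p c + 2 ^ w - cf n c) * (2 ^ (w + 1)) ^ c := by
      rw [num_eq _ hp, num_eq _ hn, hH_eq, ← Finset.sum_add_distrib]
      refine (Nat.sub_eq_iff_eq_add ?_).2 ?_
      · refine Finset.sum_le_sum fun c _ => ?_
        rw [← add_mul]
        refine Nat.mul_le_mul_right _ ?_
        have := hnc c
        omega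
      · rw [← Finset.sum_add_distrib]
        refine Finset.sum_congr rfl fun c _ => ?_
        rw [← add_mul, ← add_mul]
        congr 1
        have := hnc c
        omega
    have hH1 : (hH w K).testBit ((w + 1) * j + w) = true := by
      have h1 : hH w K = ∑ c ∈ range K, (fun _ => 2 ^ w) c * (2 ^ (w + 1)) ^ c := hH_eq w K
      rw [h1, top_bit (d := fun _ => 2 ^ w) (fun c => by
        show 2 ^ w < 2 ^ (w + 1)
        rw [hw]
        have : 0 < 2 ^ w := by positivity
        omega) hj]
      exact Nat.testBit_two_pow_self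
    have h2 := congrArg (fun z => z.testBit ((w + 1) * j + w)) h
    simp only [Nat.testBit_land] at h2
    rw [hH1, Bool.and_true, hS, top_bit hd hj] at h2
    have h3 := Nat.ge_two_pow_of_testBit h2
    omega
  · have h1 : cf n j = 0 := by
      have : ∀ n : List (ℕ × ℕ), (∀ a ∈ n, a.2 < K) → cf n j = 0 := by
        intro n hn
        induction n with
        | nil => simp [cf]
        | cons a n ih =>
          rw [cf_cons, ih (fun b hb => hn b (List.mem_cons_of_mem a hb)), if_neg]
          have := hn a List.mem_cons_self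
          omega
      exact this n hn
    rw [h1]
    exact Nat.zero_le _

/-! ### monomials -/

/-- the digit of `c` in base 3 -/
def dg (c t : ℕ) : ℕ := c / 3 ^ t % 3

/-- all digits are at most 1 and all but the first `n` are 0 -/
def D1b : ℕ → ℕ → Bool
  | 0, c => c == 0
  | n + 1, c => Nat.ble (c % 3) 1 && D1b n (c / 3)

theorem dg_zero (c : ℕ) : dg c 0 = c % 3 := by
  unfold dg
  rw [pow_zero, Nat.div_one]

theorem dg_succ (c t : ℕ) : dg c (t + 1) = dg (c / 3) t := by
  unfold dg
  rw [pow_succ', Nat.div_div_eq_div_mul]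

theorem D1b_le {n c : ℕ} (h : D1b n c = true) (t : ℕ) : dg c t ≤ 1 := by
  induction n generalizing c t with
  | zero =>
    have h1 : c = 0 := by simpa [D1b] using h
    subst h1
    simp [dg]
  | succ n ih =>
    simp only [D1b, Bool.and_eq_true] at h
    cases t with
    | zero =>
      rw [dg_zero]
      exact Nat.le_of_ble_eq_true h.1
    | succ t =>
      rw [dg_succ]
      exact ih h.2 t

theorem D1b_lt {n c : ℕ} (h : D1b n c = true) : 2 * c < 3 ^ n := by
  induction n generalizing c with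
  | zero =>
    have h1 : c = 0 := by simpa [D1b] using h
    subst h1
    norm_num
  | succ n ih =>
    simp only [D1b, Bool.and_eq_true] at h
    have h1 := ih h.2
    have h2 := Nat.le_of_ble_eq_true h.1
    rw [pow_succ]
    omega

/-- no carries -/
theorem dg_add {c c' : ℕ} (h : ∀ t, dg c t + dg c' t ≤ 2) (t : ℕ) :
    dg (c + c') t = dg c t + dg c' t := by
  induction t generalizing c c' with
  | zero =>
    have h0 := h 0
    rw [dg_zero, dg_zero] at h0
    rw [dg_zero, dg_zero, dg_zero]
    omega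
  | succ t ih =>
    have h0 := h 0
    rw [dg_zero, dg_zero] at h0
    have h1 : (c + c') / 3 = c / 3 + c' / 3 := by omega
    rw [dg_succ, dg_succ, dg_succ, h1]
    refine ih fun s => ?_
    have h2 := h (s + 1)
    rwa [dg_succ, dg_succ] at h2

/-- the monomial with a given code -/
noncomputable def mono (w : ℕ → ℝ) (c : ℕ) : ℝ := ∏ t ∈ range 8, w t ^ dg c t

theorem mono_nonneg {w : ℕ → ℝ} (hw : ∀ t, 0 ≤ w t) (c : ℕ) : 0 ≤ mono w c :=
  Finset.prod_nonneg fun t _ => pow_nonneg (hw t) _

theorem mono_add (w : ℕ → ℝ) {n c c' : ℕ} (h : D1b n c = true) (h' : D1b n c' = true) :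
    mono w (c + c') = mono w c * mono w c' := by
  unfold mono
  rw [← Finset.prod_mul_distrib]
  refine Finset.prod_congr rfl fun t _ => ?_
  rw [dg_add (fun t => by
    have h1 := D1b_le h t
    have h2 := D1b_le h' t
    omega), pow_add]

/-- the value of a list of terms for given weights -/
noncomputable def phi (w : ℕ → ℝ) (p : List (ℕ × ℕ)) : ℝ :=
  (p.map (fun a => (a.1 : ℝ) * mono w a.2)).sum

theorem phi_cons (w : ℕ → ℝ) (a : ℕ × ℕ) (p : List (ℕ × ℕ)) :
    phi w (a :: p) = (a.1 : ℝ) * mono w a.2 + phi w p := by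
  unfold phi
  rw [List.map_cons, List.sum_cons]

theorem phi_eq (w : ℕ → ℝ) {K : ℕ} {p : List (ℕ × ℕ)} (hp : ∀ a ∈ p, a.2 < K) :
    phi w p = ∑ c ∈ range K, (cf p c : ℝ) * mono w c := by
  induction p with
  | nil => simp [phi, cf]
  | cons a p ih =>
    rw [phi_cons, ih (fun b hb => hp b (List.mem_cons_of_mem a hb))]
    have h1 : ∀ c ∈ range K, (cf (a :: p) c : ℝ) * mono w c =
        (if a.2 = c then (a.1 : ℝ) * mono w c else 0) + (cf p c : ℝ) * mono w c := by
      intro c _
      rw [cf_cons, Nat.cast_add, add_mul]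
      congr 1
      split_ifs
      · rfl
      · rw [Nat.cast_zero, zero_mul]
    rw [Finset.sum_congr rfl h1, Finset.sum_add_distrib, Finset.sum_ite_eq,
      if_pos (mem_range.2 (hp a (List.mem_cons_self)))]

/-- the comparison for values -/
theorem phi_le {w : ℕ → ℝ} (hw : ∀ t, 0 ≤ w t) {K : ℕ} {p n : List (ℕ × ℕ)}
    (hp : ∀ a ∈ p, a.2 < K) (hn : ∀ a ∈ n, a.2 < K) (h : ∀ c, cf n c ≤ cf p c) :
    phi w n ≤ phi w p := by
  rw [phi_eq w hp, phi_eq w hn]
  exact Finset.sum_le_sum fun c _ => mul_le_mul_of_nonneg_right (by exact_mod_cast h c)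
    (mono_nonneg hw c)

end Pool.Agent.H75.Ray
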