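import Pool.Agent.H75.Ray.Three

/-!
# Small matroids are Rayleigh; duality and isomorphism (MP_934449_co)

* `isRayleigh_of_rank_le_three`: matroids of rank at most 3 are Rayleigh (Wagner's theorem).
* `isRayleigh_dual`, `isRayleigh_map`, `isRayleigh_mapEquiv`.
* `isRayleigh_of_ncard_le_seven`: matroids with at most 7 elements are Rayleigh.
-/

set_option autoImplicit false

namespace Pool.Agent.H75.Ray

open Finset Pool.Agent.H55.Ray

variable {α : Type*} [Fintype α] {M : Matroid α}

/-- **Matroids of rank at most 3 are Rayleigh** (Wagner). -/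
theorem isRayleigh_of_rank_le_three (M : Matroid α) (h : ∀ B, M.IsBase B → B.ncard ≤ 3) :
    IsRayleigh M := by
  classical
  rw [isRayleigh_iff]
  intro e _ f _ hef y hy
  obtain ⟨B₀, hB₀⟩ := M.exists_isBase
  have hr : ∀ B, M.IsBase B → B.ncard = B₀.ncard := fun B hB => hB.ncard_eq_ncard_of_isBase hB₀
  have h3 := h B₀ hB₀
  rcases Nat.lt_or_ge B₀.ncard 2 with h2 | h2
  · have h0 : basisSum M y {e, f} ∅ = 0 := by
      unfold basisSum
      refine Finset.sum_eq_zero fun B hB' => ?_
      simp only [Finset.mem_filter, Finset.mem_univ, true_and] at hB'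
      obtain ⟨hB, hs, _⟩ := hB'
      exfalso
      have h4 := Set.ncard_le_ncard hs (Set.toFinite _)
      rw [Set.ncard_pair hef, hr _ hB] at h4
      omega
    unfold rayDiff
    rw [h0]
    have h5 := mul_nonneg (basisSum_nonneg M (fun a => (hy a).le) {e} {f})
      (basisSum_nonneg M (fun a => (hy a).le) {f} {e})
    linarith
  · rcases Nat.lt_or_ge B₀.ncard 3 with h4 | h4
    · exact rayDiff_two (fun B hB => by rw [hr B hB]; omega) hy hef
    · exact rayDiff_three (fun B hB => by rw [hr B hB]; omega) hy hef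

/-! ### duality -/

theorem basisSum_dual (M : Matroid α) {y : α → ℝ} (hy : ∀ a, 0 < y a) : ∃ P : ℝ, (∀ U V : Set α, U ⊆ M.E → V ⊆ M.E →
      basisSum M✶ y U V = P * basisSum M (fun a => (y a)⁻¹) V U) := by
  classical
  refine ⟨∏ a ∈ Finset.univ.filter (fun a => a ∈ M.E), y a, fun U V hU hV => ?_⟩
  set E' : Finset α := Finset.univ.filter (fun a => a ∈ M.E) with hE'
  have hcE : (E' : Set α) = M.E := by
    ext a
    simp [hE']
  unfold basisSum
  rw [Finset.mul_sum]
  refine Finset.sum_nbij' (fun B => E' \ B) (fun B => E' \ B) ?_ ?_ ?_ ?_ ?_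
  · intro B hB
    simp only [Finset.mem_filter, Finset.mem_univ, true_and] at hB ⊢
    obtain ⟨h1, h2, h3⟩ := hB
    rw [Matroid.dual_isBase_iff'] at h1
    rw [Finset.coe_sdiff, hcE]
    refine ⟨h1.1, fun a ha => ⟨hV ha, fun hb => Set.disjoint_left.1 h3 hb ha⟩, ?_⟩
    rw [Set.disjoint_left]
    exact fun a ha hu => ha.2 (h2 hu)
  · intro B hB
    simp only [Finset.mem_filter, Finset.mem_univ, true_and] at hB ⊢
    obtain ⟨h1, h2, h3⟩ := hB
    rw [Matroid.dual_isBase_iff', Finset.coe_sdiff, hcE]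
    refine ⟨⟨?_, Set.sdiff_subset⟩, fun a ha => ⟨hU ha, fun hb => Set.disjoint_left.1 h3 hb ha⟩,
      ?_⟩
    · rw [Set.sdiff_sdiff_cancel_left h1.subset_ground]
      exact h1
    · rw [Set.disjoint_left]
      exact fun a ha hu => ha.2 (h2 hu)
  · intro B hB
    simp only [Finset.mem_filter, Finset.mem_univ, true_and] at hB
    have h1 := hB.1.subset_ground
    rw [Matroid.dual_ground, ← hcE, Finset.coe_subset] at h1
    exact Finset.sdiff_sdiff_eq_self h1
  · intro B hB
    simp only [Finset.mem_filter, Finset.mem_univ, true_and] at hB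
    have h1 := hB.1.subset_ground
    rw [← hcE, Finset.coe_subset] at h1
    exact Finset.sdiff_sdiff_eq_self h1
  · intro B hB
    simp only [Finset.mem_filter, Finset.mem_univ, true_and] at hB
    have h1 := hB.1.subset_ground
    rw [Matroid.dual_ground, ← hcE, Finset.coe_subset] at h1
    rw [← Finset.prod_sdiff h1, mul_comm (∏ a ∈ E' \ B, y a), mul_assoc,
      ← Finset.prod_mul_distrib, Finset.prod_eq_one (fun a _ => mul_inv_cancel₀ (hy a).ne'),
      mul_one]

private theorem dual_aux (h : IsRayleigh M) : IsRayleigh M✶ := by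
  rw [isRayleigh_iff] at h ⊢
  intro e he f hf hef y hy
  rw [Matroid.dual_ground] at he hf
  have hs : ∀ {a : α}, a ∈ M.E → ({a} : Set α) ⊆ M.E := fun ha =>
    Set.singleton_subset_iff.2 ha
  have hp : ({e, f} : Set α) ⊆ M.E := by
    rw [Set.insert_subset_iff, Set.singleton_subset_iff]
    exact ⟨he, hf⟩
  obtain ⟨P, hP⟩ := basisSum_dual M hy
  have h1 := h e he f hf hef (fun a => (y a)⁻¹) (fun a => inv_pos.2 (hy a))
  unfold rayDiff at h1 ⊢
  rw [hP _ _ (hs he) (hs hf), hP _ _ (hs hf) (hs he), hP _ _ hp (Set.empty_subset _),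
    hP _ _ (Set.empty_subset _) hp]
  have h2 := mul_nonneg (mul_self_nonneg P) h1
  nlinarith [h2]

/-- The dual of a Rayleigh matroid is Rayleigh. -/
theorem isRayleigh_dual (M : Matroid α) : IsRayleigh M✶ ↔ IsRayleigh M :=
  ⟨fun h => by
    have h1 := dual_aux h
    rwa [Matroid.dual_dual] at h1, dual_aux⟩

/-- **Matroids with at most 7 elements are Rayleigh.** -/
theorem isRayleigh_of_ncard_le_seven (M : Matroid α) (h : M.E.ncard ≤ 7) : IsRayleigh M := by
  obtain ⟨B₀, hB₀⟩ := M.exists_isBase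
  have hr : ∀ B, M.IsBase B → B.ncard = B₀.ncard := fun B hB => hB.ncard_eq_ncard_of_isBase hB₀
  rcases Nat.lt_or_ge B₀.ncard 4 with h4 | h4
  · exact isRayleigh_of_rank_le_three M fun B hB => by rw [hr B hB]; omega
  · rw [← isRayleigh_dual]
    refine isRayleigh_of_rank_le_three M✶ fun B hB => ?_
    rw [Matroid.dual_isBase_iff'] at hB
    have h1 := hr _ hB.1
    have h2 := Set.ncard_sdiff_add_ncard_of_subset hB.2 (Set.toFinite M.E)
    omega

/-! ### isomorphism -/

variable {β : Type*} [Fintype β]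

theorem basisSum_congr (M : Matroid α) {y y' : α → ℝ} (h : ∀ a ∈ M.E, y a = y' a)
    (U V : Set α) : basisSum M y U V = basisSum M y' U V := by
  classical
  unfold basisSum
  refine Finset.sum_congr rfl fun B hB => ?_
  simp only [Finset.mem_filter, Finset.mem_univ, true_and] at hB
  exact Finset.prod_congr rfl fun a ha => h a (hB.1.subset_ground (Finset.mem_coe.2 ha))

theorem basisSum_map (M : Matroid α) (g : α → β) (hg : Set.InjOn g M.E) (y : β → ℝ)
    {U V : Set α} (hU : U ⊆ M.E) (hV : V ⊆ M.E) :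
    basisSum (M.map g hg) y (g '' U) (g '' V) = basisSum M (fun a => y (g a)) U V := by
  classical
  unfold basisSum
  symm
  refine Finset.sum_bij (fun B _ => B.image g) ?_ ?_ ?_ ?_
  · intro B hB
    simp only [Finset.mem_filter, Finset.mem_univ, true_and] at hB ⊢
    obtain ⟨h1, h2, h3⟩ := hB
    rw [Finset.coe_image]
    refine ⟨h1.map hg, Set.image_mono h2, ?_⟩
    rw [Set.disjoint_left]
    rintro _ ⟨a, ha, rfl⟩ ⟨b, hb, hab⟩
    rw [← hg (hV hb) (h1.subset_ground ha) hab] at ha
    exact Set.disjoint_left.1 h3 ha hb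
  · intro B₁ hB₁ B₂ hB₂ h
    simp only [Finset.mem_filter, Finset.mem_univ, true_and] at hB₁ hB₂
    have h1 : g '' (B₁ : Set α) = g '' (B₂ : Set α) := by
      rw [← Finset.coe_image, ← Finset.coe_image, h]
    rw [hg.image_eq_image_iff hB₁.1.subset_ground hB₂.1.subset_ground] at h1
    exact Finset.coe_injective h1
  · intro B' hB'
    simp only [Finset.mem_filter, Finset.mem_univ, true_and] at hB'
    obtain ⟨h1, h2, h3⟩ := hB'
    rw [Matroid.map_isBase_iff] at h1
    obtain ⟨B, hB, hBB⟩ := h1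
    have h4 : ((Set.toFinite B).toFinset : Set α) = B := Set.Finite.coe_toFinset _
    refine ⟨(Set.toFinite B).toFinset, ?_, ?_⟩
    · simp only [Finset.mem_filter, Finset.mem_univ, true_and]
      rw [h4]
      refine ⟨hB, fun a ha => ?_, ?_⟩
      · have h5 := h2 ⟨a, ha, rfl⟩
        rw [hBB] at h5
        obtain ⟨b, hb, hab⟩ := h5
        rwa [← hg (hB.subset_ground hb) (hU ha) hab]
      · rw [Set.disjoint_left]
        intro a ha hv
        rw [hBB] at h3
        exact Set.disjoint_left.1 h3 ⟨a, ha, rfl⟩ ⟨a, hv, rfl⟩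
    · apply Finset.coe_injective
      rw [Finset.coe_image, h4, hBB]
  · intro B hB
    simp only [Finset.mem_filter, Finset.mem_univ, true_and] at hB
    rw [Finset.prod_image]
    exact hg.mono hB.1.subset_ground

/-- An isomorphic copy of a matroid is Rayleigh if and only if the matroid is. -/
theorem isRayleigh_map (M : Matroid α) (g : α → β) (hg : Set.InjOn g M.E) :
    IsRayleigh (M.map g hg) ↔ IsRayleigh M := by
  have hs : ∀ {a : α}, a ∈ M.E → ({a} : Set α) ⊆ M.E := fun ha =>
    Set.singleton_subset_iff.2 ha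
  have key : ∀ e ∈ M.E, ∀ f ∈ M.E, ∀ y : β → ℝ,
      rayDiff (M.map g hg) y (g e) (g f) = rayDiff M (fun a => y (g a)) e f := by
    intro e he f hf y
    have hp : ({e, f} : Set α) ⊆ M.E := by
      rw [Set.insert_subset_iff, Set.singleton_subset_iff]
      exact ⟨he, hf⟩
    unfold rayDiff
    have h1 := basisSum_map M g hg y (hs he) (hs hf)
    have h2 := basisSum_map M g hg y (hs hf) (hs he)
    have h3 := basisSum_map M g hg y hp (Set.empty_subset _)
    have h4 := basisSum_map M g hg y (Set.empty_subset _) hp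
    rw [Set.image_singleton, Set.image_singleton] at h1 h2
    rw [Set.image_pair, Set.image_empty] at h3 h4
    rw [h1, h2, h3, h4]
  rw [isRayleigh_iff, isRayleigh_iff]
  constructor
  · intro h e he f hf hef y hy
    have : Nonempty α := ⟨e⟩
    have h1 := h (g e) ⟨e, he, rfl⟩ (g f) ⟨f, hf, rfl⟩ (fun h => hef (hg he hf h))
      (fun b => y (Function.invFunOn g M.E b)) (fun b => hy _)
    rw [key e he f hf] at h1
    have h2 : ∀ a ∈ M.E, y (Function.invFunOn g M.E (g a)) = y a := by
      intro a ha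
      rw [hg.leftInvOn_invFunOn ha]
    unfold rayDiff at h1 ⊢
    rwa [basisSum_congr M h2, basisSum_congr M h2, basisSum_congr M h2,
      basisSum_congr M h2] at h1
  · intro h e' he f' hf hef y hy
    rw [Matroid.map_ground] at he hf
    obtain ⟨e, he, rfl⟩ := he
    obtain ⟨f, hf, rfl⟩ := hf
    rw [key e he f hf]
    exact h e he f hf (fun h => hef (by rw [h])) _ (fun a => hy _)

theorem isRayleigh_mapEquiv (M : Matroid α) (φ : α ≃ β) :
    IsRayleigh (M.mapEquiv φ) ↔ IsRayleigh M :=
  isRayleigh_map M φ φ.injective.injOn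

end Pool.Agent.H75.Ray
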