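import Pool.Agent.H55.Ray.Defs

/-!
# Basis sums of matroids of rank 2 and 3 as sums over ordered pairs and triples (MP_934449_co)

`S M y U`: the sum over the bases which contain the finite set `U`. `basisSum M y U V` is `S M y' U` for the
weights `y'` which are `0` on `V` and `y` elsewhere (`basisSum_eq`). For a matroid of rank `r`:
`(r - card U) S(U) = ∑ x ∉ U, S(U ∪ {x})`.
-/

set_option autoImplicit false

namespace Pool.Agent.H75.Ray

open Finset Pool.Agent.H55.Ray

variable {α : Type*} [Fintype α]

open Classical in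
/-- the sum over the bases which contain `U` -/
noncomputable def S (M : Matroid α) (y : α → ℝ) (U : Finset α) : ℝ :=
  ∑ B ∈ Finset.univ.filter (fun B : Finset α => M.IsBase (B : Set α) ∧ U ⊆ B), ∏ a ∈ B, y a

open Classical in
/-- the weights are replaced by `0` on `V` -/
noncomputable def zw (y : α → ℝ) (V : Set α) (a : α) : ℝ := if a ∈ V then 0 else y a

omit [Fintype α] in
theorem zw_nonneg {y : α → ℝ} (hy : ∀ a, 0 ≤ y a) (V : Set α) (a : α) : 0 ≤ zw y V a := by
  unfold zw
  split_ifs
  · exact le_rfl
  · exact hy a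

open Classical in
theorem basisSum_eq (M : Matroid α) (y : α → ℝ) (U : Finset α) (V : Set α) :
    basisSum M y (U : Set α) V = S M (zw y V) U := by
  unfold basisSum S
  rw [Finset.sum_filter, Finset.sum_filter]
  refine Finset.sum_congr rfl fun B _ => ?_
  by_cases h1 : M.IsBase (B : Set α) ∧ U ⊆ B
  · rw [if_pos h1]
    by_cases h2 : Disjoint (B : Set α) V
    · rw [if_pos ⟨h1.1, Finset.coe_subset.2 h1.2, h2⟩]
      refine Finset.prod_congr rfl fun a ha => ?_
      unfold zw
      rw [if_neg (Set.disjoint_left.1 h2 (Finset.mem_coe.2 ha))]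
    · rw [if_neg (fun h => h2 h.2.2)]
      obtain ⟨a, ha, hV⟩ := Set.not_disjoint_iff.1 h2
      rw [Finset.prod_eq_zero (Finset.mem_coe.1 ha)]
      unfold zw
      rw [if_pos hV]
  · rw [if_neg h1, if_neg (fun h => h1 ⟨h.1, Finset.coe_subset.1 h.2.1⟩)]

theorem basisSum_nonneg (M : Matroid α) {y : α → ℝ} (hy : ∀ a, 0 ≤ y a) (U V : Set α) :
    0 ≤ basisSum M y U V :=
  Finset.sum_nonneg fun _ _ => Finset.prod_nonneg fun a _ => hy a

theorem S_step [DecidableEq α] (M : Matroid α) (y : α → ℝ) {r : ℕ} (hr : ∀ B, M.IsBase B → B.ncard = r)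
    (U : Finset α) :
    ((r : ℝ) - U.card) * S M y U = ∑ x ∈ Uᶜ, S M y (insert x U) := by
  classical
  unfold S
  rw [Finset.sum_comm' (t' := Finset.univ.filter
    (fun B : Finset α => M.IsBase (B : Set α) ∧ U ⊆ B)) (s' := fun B => B \ U), Finset.mul_sum]
  · refine Finset.sum_congr (Finset.ext fun B => by simp only [Finset.mem_filter])
      fun B hB => ?_
    rw [Finset.mem_filter] at hB
    rw [Finset.sum_const, nsmul_eq_mul, Finset.card_sdiff_of_subset hB.2.2]
    have h := hr _ hB.2.1
    rw [Set.ncard_coe_finset] at h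
    rw [Nat.cast_sub (Finset.card_le_card hB.2.2), h]
  · intro x B
    simp only [Finset.mem_compl, Finset.mem_filter, Finset.mem_univ, true_and,
      Finset.mem_sdiff, Finset.insert_subset_iff]
    tauto

open Classical in
theorem S_top (M : Matroid α) (y : α → ℝ) {r : ℕ} (hr : ∀ B, M.IsBase B → B.ncard = r)
    {U : Finset α} (hU : U.card = r) :
    S M y U = if M.IsBase (U : Set α) then ∏ a ∈ U, y a else 0 := by
  unfold S
  split_ifs with h
  · rw [Finset.sum_eq_single_of_mem U (by simp [h])]
    intro B hB hne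
    rw [Finset.mem_filter] at hB
    have h1 := hr _ hB.2.1
    rw [Set.ncard_coe_finset] at h1
    exact absurd (Finset.eq_of_subset_of_card_le hB.2.2 (by rw [h1, hU])).symm hne
  · refine Finset.sum_eq_zero fun B hB => ?_
    rw [Finset.mem_filter] at hB
    have h1 := hr _ hB.2.1
    rw [Set.ncard_coe_finset] at h1
    have h2 := Finset.eq_of_subset_of_card_le hB.2.2 (by rw [h1, hU])
    rw [h2] at h
    exact absurd hB.2.1 h

/-! ### rank 3 -/

open Classical in
/-- `1` if the three elements are a basis -/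
noncomputable def bt (M : Matroid α) (x z k : α) : ℝ := if M.IsBase {x, z, k} then 1 else 0

omit [Fintype α] in
theorem bt_nonneg (M : Matroid α) (x z k : α) : 0 ≤ bt M x z k := by
  unfold bt
  split_ifs <;> norm_num

omit [Fintype α] in
theorem bt_swap (M : Matroid α) (x z k : α) : bt M x z k = bt M z x k := by
  unfold bt
  rw [Set.insert_comm]

omit [Fintype α] in
theorem bt_swap' (M : Matroid α) (x z k : α) : bt M x z k = bt M x k z := by
  unfold bt
  rw [Set.pair_comm]

section three

variable (M : Matroid α) (y : α → ℝ) (hr : ∀ B, M.IsBase B → B.ncard = 3)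

include hr

omit [Fintype α] in
theorem bt_eq (x z : α) : bt M x x z = 0 := by
  unfold bt
  rw [if_neg]
  intro h
  have h1 := hr _ h
  have h2 : ({x, x, z} : Set α) = {x, z} := by
    rw [Set.insert_eq_of_mem (Set.mem_insert x {z})]
  rw [h2] at h1
  have h3 := Set.ncard_insert_le x {z}
  rw [Set.ncard_singleton] at h3
  omega

theorem S_pair [DecidableEq α] {e f : α} (hef : e ≠ f) :
    S M y {e, f} = ∑ x, bt M e f x * (y e * y f * y x) := by
  have h := S_step M y hr {e, f}
  rw [Finset.card_pair hef] at h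
  have h1 : (((3 : ℕ) : ℝ) - ((2 : ℕ) : ℝ)) = 1 := by norm_num
  rw [h1, one_mul] at h
  rw [h, ← Finset.sum_subset (Finset.subset_univ (({e, f} : Finset α)ᶜ))]
  · refine Finset.sum_congr rfl fun x hx => ?_
    rw [Finset.mem_compl] at hx
    have hc : (insert x ({e, f} : Finset α)).card = 3 := by
      rw [Finset.card_insert_of_notMem hx, Finset.card_pair hef]
    rw [S_top M y hr hc, bt_swap', bt_swap, Finset.prod_insert hx, Finset.prod_pair hef]
    unfold bt
    have hs : ((insert x ({e, f} : Finset α) : Finset α) : Set α) = {x, e, f} := by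
      push_cast
      rfl
    rw [hs]
    split_ifs
    · ring
    · ring
  · intro x _ hx
    rw [Finset.mem_compl, not_not, Finset.mem_insert, Finset.mem_singleton] at hx
    rcases hx with rfl | rfl
    · rw [bt_swap', bt_eq M hr, zero_mul]
    · rw [bt_swap, bt_swap', bt_eq M hr, zero_mul]

theorem S_one (e : α) :
    2 * S M y {e} = ∑ x, ∑ z, bt M e x z * (y e * y x * y z) := by
  classical
  have h := S_step M y hr {e}
  rw [Finset.card_singleton] at h
  have h1 : (((3 : ℕ) : ℝ) - ((1 : ℕ) : ℝ)) = 2 := by norm_num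
  rw [h1] at h
  rw [h, ← Finset.sum_subset (Finset.subset_univ (({e} : Finset α)ᶜ))]
  · refine Finset.sum_congr rfl fun x hx => ?_
    rw [Finset.mem_compl, Finset.mem_singleton] at hx
    have hs : (insert x ({e} : Finset α) : Finset α) = {x, e} := rfl
    rw [hs, S_pair M y hr hx]
    refine Finset.sum_congr rfl fun z _ => ?_
    rw [bt_swap]
    ring
  · intro x _ hx
    rw [Finset.mem_compl, not_not, Finset.mem_singleton] at hx
    subst hx
    refine Finset.sum_eq_zero fun z _ => ?_
    rw [bt_eq M hr, zero_mul]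

theorem S_none :
    6 * S M y ∅ = ∑ x, ∑ z, ∑ k, bt M x z k * (y x * y z * y k) := by
  classical
  have h := S_step M y hr ∅
  rw [Finset.card_empty] at h
  have h1 : (((3 : ℕ) : ℝ) - ((0 : ℕ) : ℝ)) = 3 := by norm_num
  rw [h1, Finset.compl_empty] at h
  have h2 : 6 * S M y ∅ = ∑ x : α, 2 * S M y {x} := by
    rw [← Finset.mul_sum]
    have h3 : ∑ x : α, S M y (insert x ∅) = ∑ x : α, S M y {x} := rfl
    rw [← h3, ← h]
    ring
  rw [h2]
  exact Finset.sum_congr rfl fun x _ => S_one M y hr x

end three

/-! ### rank 2 -/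

open Classical in
/-- `1` if the two elements are a basis -/
noncomputable def bp (M : Matroid α) (x z : α) : ℝ := if M.IsBase {x, z} then 1 else 0

section two

variable (M : Matroid α) (y : α → ℝ) (hr : ∀ B, M.IsBase B → B.ncard = 2)

include hr

omit [Fintype α] in
theorem bp_eq (x : α) : bp M x x = 0 := by
  unfold bp
  rw [if_neg]
  intro h
  have h1 := hr _ h
  rw [Set.pair_eq_singleton, Set.ncard_singleton] at h1
  omega

theorem S_pair2 [DecidableEq α] {e f : α} (hef : e ≠ f) :
    S M y {e, f} = bp M e f * (y e * y f) := by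
  rw [S_top M y hr (Finset.card_pair hef), Finset.prod_pair hef]
  unfold bp
  have hs : (({e, f} : Finset α) : Set α) = {e, f} := by
    push_cast
    rfl
  rw [hs]
  split_ifs
  · ring
  · ring

theorem S_one2 (e : α) : S M y {e} = ∑ x, bp M e x * (y e * y x) := by
  classical
  have h := S_step M y hr {e}
  rw [Finset.card_singleton] at h
  have h1 : (((2 : ℕ) : ℝ) - ((1 : ℕ) : ℝ)) = 1 := by norm_num
  rw [h1, one_mul] at h
  rw [h, ← Finset.sum_subset (Finset.subset_univ (({e} : Finset α)ᶜ))]
  · refine Finset.sum_congr rfl fun x hx => ?_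
    rw [Finset.mem_compl, Finset.mem_singleton] at hx
    have hs : (insert x ({e} : Finset α) : Finset α) = {x, e} := rfl
    rw [hs, S_pair2 M y hr hx]
    unfold bp
    rw [Set.pair_comm]
    ring
  · intro x _ hx
    rw [Finset.mem_compl, not_not, Finset.mem_singleton] at hx
    subst hx
    rw [bp_eq M hr, zero_mul]

theorem S_none2 : 2 * S M y ∅ = ∑ x, ∑ z, bp M x z * (y x * y z) := by
  classical
  have h := S_step M y hr ∅
  rw [Finset.card_empty] at h
  have h1 : (((2 : ℕ) : ℝ) - ((0 : ℕ) : ℝ)) = 2 := by norm_num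
  rw [h1, Finset.compl_empty] at h
  rw [h]
  exact Finset.sum_congr rfl fun x _ => S_one2 M y hr x

end two

end Pool.Agent.H75.Ray
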