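import Pool.Agent.H75.Ray.Sums

/-!
# Matroids of rank 2 are Rayleigh (MP_934449_co)

If `{x, z}` and `{e, f}` are bases then `{e, x}`, `{f, z}` or `{e, z}`, `{f, x}` are bases.
-/

set_option autoImplicit false

namespace Pool.Agent.H75.Ray

open Finset Pool.Agent.H55.Ray

variable {α : Type*} [Fintype α] {M : Matroid α}

/-- an independent set with `r` elements is a basis -/
theorem base_of_card {r : ℕ} (hr : ∀ B, M.IsBase B → B.ncard = r) {I : Set α}
    (hI : M.Indep I) (hc : I.ncard = r) : M.IsBase I := by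
  obtain ⟨B, hB, hIB⟩ := hI.exists_isBase_superset
  have h : I = B := Set.eq_of_subset_of_ncard_le hIB (by rw [hr B hB, hc]) (Set.toFinite B)
  rw [h]
  exact hB

/-- a basis is not in the closure of a smaller set -/
theorem not_subset_closure {r : ℕ} (hr : ∀ B, M.IsBase B → B.ncard = r) {B X : Set α}
    (hB : M.IsBase B) (hX : X.ncard < r) : ¬ B ⊆ M.closure X := by
  intro h
  have h1 : M.E ⊆ M.closure X := by
    rw [← hB.closure_eq]
    exact M.closure_subset_closure_of_subset_closure h
  have h2 : M.Spanning (X ∩ M.E) := by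
    rw [Matroid.spanning_iff_ground_subset_closure, Matroid.closure_inter_ground]
    exact h1
  obtain ⟨B', hB', hs⟩ := h2.exists_isBase_subset
  have h3 := Set.ncard_le_ncard (hs.trans Set.inter_subset_left) (Set.toFinite X)
  rw [hr B' hB'] at h3
  omega

omit [Fintype α] in
theorem zw_ne (y : α → ℝ) {V : Set α} {a : α} (h : a ∉ V) : zw y V a = y a := by
  unfold zw
  rw [if_neg h]

omit [Fintype α] in
theorem zw_empty (y : α → ℝ) : zw y ∅ = y := by
  funext a
  exact zw_ne y (Set.notMem_empty a)

omit [Fintype α] in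
theorem zw_mem (y : α → ℝ) {V : Set α} {a : α} (h : a ∈ V) : zw y V a = 0 := by
  unfold zw
  rw [if_pos h]

section two

variable (hr : ∀ B, M.IsBase B → B.ncard = 2)

include hr

private theorem two_base {u v : α} (hu : M.IsNonloop u) (hv : v ∈ M.E) (h : v ∉ M.closure {u}) :
    M.IsBase {u, v} := by
  have hI : M.Indep {u} := Matroid.indep_singleton.2 hu
  have h1 : M.Indep (insert v {u}) := by
    rw [hI.insert_indep_iff]
    exact Or.inl ⟨hv, h⟩
  have h2 : v ≠ u := by
    rintro rfl
    exact h (M.mem_closure_self v hv)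
  rw [Set.pair_comm]
  refine base_of_card hr h1 ?_
  rw [Set.ncard_pair h2]

private theorem two_not {B : Set α} (hB : M.IsBase B) (u : α) : ¬ B ⊆ M.closure {u} :=
  not_subset_closure hr hB (by rw [Set.ncard_singleton]; norm_num)

private theorem two_point {e f x z : α} (h : M.IsBase {e, f}) (h' : M.IsBase {x, z}) :
    (M.IsBase {e, x} ∧ M.IsBase {f, z}) ∨ (M.IsBase {e, z} ∧ M.IsBase {f, x}) := by
  have he : M.IsNonloop e := h.indep.isNonloop_of_mem (by simp)
  have hf : M.IsNonloop f := h.indep.isNonloop_of_mem (by simp)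
  have hx : M.IsNonloop x := h'.indep.isNonloop_of_mem (by simp)
  have hz : M.IsNonloop z := h'.indep.isNonloop_of_mem (by simp)
  have hsub : ∀ {u v w : α}, u ∈ M.closure {w} → v ∈ M.closure {w} →
      ({u, v} : Set α) ⊆ M.closure {w} := by
    intro u v w h1 h2
    rw [Set.insert_subset_iff, Set.singleton_subset_iff]
    exact ⟨h1, h2⟩
  have hcc : ∀ {u : α}, M.IsNonloop u → u ∈ M.closure {e} → u ∈ M.closure {f} → False := by
    intro u hu h1 h2
    exact two_not hr h u (hsub (hu.mem_closure_singleton h1) (hu.mem_closure_singleton h2))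
  by_cases h1 : x ∈ M.closure {e}
  · refine Or.inr ⟨two_base hr he hz.mem_ground fun h2 => two_not hr h' e (hsub h1 h2),
      two_base hr hf hx.mem_ground fun h2 => hcc hx h1 h2⟩
  · by_cases h3 : z ∈ M.closure {f}
    · refine Or.inr ⟨two_base hr he hz.mem_ground fun h2 => hcc hz h2 h3,
        two_base hr hf hx.mem_ground fun h2 => two_not hr h' f (hsub h2 h3)⟩
    · exact Or.inl ⟨two_base hr he hx.mem_ground h1, two_base hr hf hz.mem_ground h3⟩

omit [Fintype α] hr in
private theorem two_bp (x z : α) : bp M x z = 0 ∨ (bp M x z = 1 ∧ M.IsBase {x, z}) := by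
  unfold bp
  by_cases h : M.IsBase {x, z}
  · rw [if_pos h]
    exact Or.inr ⟨rfl, h⟩
  · rw [if_neg h]
    exact Or.inl rfl

private theorem two_le {e f : α} (h : M.IsBase {e, f}) (x z : α) :
    bp M x z ≤ bp M e x * bp M f z + bp M e z * bp M f x := by
  have hn : ∀ u v : α, 0 ≤ bp M u v := by
    intro u v
    unfold bp
    split_ifs <;> norm_num
  have h1 : ∀ u v : α, M.IsBase {u, v} → bp M u v = 1 := by
    intro u v h
    unfold bp
    rw [if_pos h]
  have e1 := mul_nonneg (hn e x) (hn f z)
  have e2 := mul_nonneg (hn e z) (hn f x)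
  rcases two_bp x z with h0 | ⟨h0, hB⟩
  · rw [h0]
    linarith
  · rw [h0]
    rcases two_point hr h hB with h2 | h2
    · rw [h1 _ _ h2.1, h1 _ _ h2.2]
      linarith
    · rw [h1 _ _ h2.1, h1 _ _ h2.2]
      linarith

/-- **Rank 2.** -/
theorem rayDiff_two {y : α → ℝ} (hy : ∀ a, 0 < y a) {e f : α} (hef : e ≠ f) :
    0 ≤ rayDiff M y e f := by
  classical
  set n : α → ℝ := zw y {e, f} with hn
  have hn0 : ∀ x, 0 ≤ n x := zw_nonneg (fun a => (hy a).le) _
  have key : ∀ {u v : α}, u ≠ v → ({u, v} : Set α) = {e, f} →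
      basisSum M y {u} {v} = y u * ∑ x, bp M u x * n x := by
    intro u v huv hs
    have h1 := basisSum_eq M y {u} {v}
    rw [Finset.coe_singleton] at h1
    rw [h1, S_one2 M _ hr, Finset.mul_sum]
    refine Finset.sum_congr rfl fun x _ => ?_
    rw [zw_ne y (show u ∉ ({v} : Set α) from huv)]
    by_cases hx : x = u
    · subst hx
      rw [bp_eq M hr]
      ring
    · have h2 : zw y {v} x = n x := by
        rw [hn, ← hs]
        by_cases hv : x = v
        · rw [zw_mem y (show x ∈ ({v} : Set α) from hv),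
            zw_mem y (show x ∈ ({u, v} : Set α) from Or.inr hv)]
        · rw [zw_ne y (show x ∉ ({v} : Set α) from hv),
            zw_ne y (show x ∉ ({u, v} : Set α) from fun h => h.elim hx hv)]
      rw [h2]
      ring
  have e1 : basisSum M y {e} {f} = y e * ∑ x, bp M e x * n x := key hef rfl
  have e2 : basisSum M y {f} {e} = y f * ∑ x, bp M f x * n x :=
    key hef.symm (Set.pair_comm f e)
  have e3 : basisSum M y {e, f} ∅ = bp M e f * (y e * y f) := by
    have h1 := basisSum_eq M y {e, f} ∅
    rw [Finset.coe_pair] at h1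
    rw [h1, zw_empty, S_pair2 M y hr hef]
  have e4 : 2 * basisSum M y ∅ {e, f} = ∑ x, ∑ z, bp M x z * (n x * n z) := by
    have h1 := basisSum_eq M y ∅ {e, f}
    rw [Finset.coe_empty] at h1
    rw [h1, S_none2 M _ hr]
  have hA : 0 ≤ ∑ x, bp M e x * n x := by
    refine Finset.sum_nonneg fun x _ => mul_nonneg ?_ (hn0 x)
    unfold bp
    split_ifs <;> norm_num
  have hB : 0 ≤ ∑ x, bp M f x * n x := by
    refine Finset.sum_nonneg fun x _ => mul_nonneg ?_ (hn0 x)
    unfold bp
    split_ifs <;> norm_num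
  have hye := hy e
  have hyf := hy f
  unfold rayDiff
  rcases two_bp e f with h0 | ⟨h0, hbase⟩
  · rw [e3, h0, e1, e2]
    have h1 := mul_nonneg (mul_nonneg hye.le hA) (mul_nonneg hyf.le hB)
    linarith
  · have h1 : ∑ x, ∑ z, bp M x z * (n x * n z) ≤
        2 * ((∑ x, bp M e x * n x) * ∑ z, bp M f z * n z) := by
      calc ∑ x, ∑ z, bp M x z * (n x * n z) ≤
          ∑ x, ∑ z, ((bp M e x * n x) * (bp M f z * n z) + (bp M f x * n x) *
            (bp M e z * n z)) := by
            refine Finset.sum_le_sum fun x _ => Finset.sum_le_sum fun z _ => ?_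
            have h2 := mul_le_mul_of_nonneg_right (two_le hr hbase x z)
              (mul_nonneg (hn0 x) (hn0 z))
            linarith
        _ = 2 * ((∑ x, bp M e x * n x) * ∑ z, bp M f z * n z) := by
            simp only [Finset.sum_add_distrib]
            rw [← Finset.sum_mul_sum, ← Finset.sum_mul_sum]
            ring
    rw [e3, h0, e1, e2]
    have h3 : basisSum M y ∅ {e, f} ≤ (∑ x, bp M e x * n x) * ∑ z, bp M f z * n z := by
      linarith
    have h4 := mul_le_mul_of_nonneg_left h3 (mul_nonneg hye.le hyf.le)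
    linarith

end two

end Pool.Agent.H75.Ray
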