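import Pool.Agent.H75.Ray.Core
import Pool.Agent.H75.Ray.Two

/-!
# Matroids of rank 3 are Rayleigh (MP_934449_co; the theorem is due to Wagner)

`e`, `f` are two elements, `Z` the line through them. The elements outside of `Z` have a row (the line
through `e`) and a column (the line through `f`); the elements of `Z` are parallel to `e` (weights `a`),
parallel to `f` (weights `b`) or neither (weights `c`). The pointwise bounds `f1`, `f2` are summed and
the rest is `core_triples`.
-/

set_option autoImplicit false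

namespace Pool.Agent.H75.Ray

open Finset Pool.Agent.H55.Ray

/-! ### three labels -/

section labels

variable {α ι κ : Type*} [DecidableEq ι] [DecidableEq κ]

theorem pw_nonneg (r : α → ι) (c : α → κ) (x z k : α) : 0 ≤ pw r c x z k := by
  unfold pw dl
  split_ifs <;> first
    | (norm_num; done)
    | (exfalso; grind)

theorem two_le_pw {r : α → ι} {c : α → κ} {x z k : α} (h1 : ¬ (r x = r z ∧ r z = r k))
    (h2 : ¬ (c x = c z ∧ c z = c k)) (h3 : ¬ (r x = r z ∧ c x = c z))
    (h4 : ¬ (r x = r k ∧ c x = c k)) (h5 : ¬ (r z = r k ∧ c z = c k)) :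
    2 ≤ pw r c x z k := by
  unfold pw dl
  split_ifs <;> first
    | (norm_num; done)
    | (exfalso; grind)

end labels

/-! ### closures in rank 3 -/

section three

variable {α : Type*} [Fintype α] {M : Matroid α} (hr : ∀ B, M.IsBase B → B.ncard = 3)

include hr

private theorem t_not {B : Set α} (hB : M.IsBase B) (u v : α) : ¬ B ⊆ M.closure {u, v} :=
  not_subset_closure hr hB (by
    have h := Set.ncard_insert_le u {v}
    rw [Set.ncard_singleton] at h
    omega)

private theorem t_not3 {x z k : α} (hB : M.IsBase {x, z, k}) {u v : α}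
    (h1 : x ∈ M.closure {u, v}) (h2 : z ∈ M.closure {u, v}) (h3 : k ∈ M.closure {u, v}) :
    False := by
  refine t_not hr hB u v ?_
  rw [Set.insert_subset_iff, Set.insert_subset_iff, Set.singleton_subset_iff]
  exact ⟨h1, h2, h3⟩

private theorem t_base {u v w : α} (hu : M.IsNonloop u) (hv : v ∈ M.E) (h1 : v ∉ M.closure {u})
    (hw : w ∈ M.E) (h2 : w ∉ M.closure {u, v}) : M.IsBase {u, v, w} := by
  have hI : M.Indep {u} := Matroid.indep_singleton.2 hu
  have hI2 : M.Indep (insert v {u}) := by
    rw [hI.insert_indep_iff]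
    exact Or.inl ⟨hv, h1⟩
  have h2' : w ∉ M.closure (insert v {u}) := by rwa [Set.pair_comm]
  have hI3 : M.Indep (insert w (insert v {u})) := by
    rw [hI2.insert_indep_iff]
    exact Or.inl ⟨hw, h2'⟩
  have n1 : v ≠ u := by
    rintro rfl
    exact h1 (M.mem_closure_self v hv)
  have n2 : w ∉ (insert v {u} : Set α) := fun h =>
    h2' (M.mem_closure_of_mem h hI2.subset_ground)
  have h3 : ({u, v, w} : Set α) = insert w (insert v {u}) := by
    ext a
    simp only [Set.mem_insert_iff, Set.mem_singleton_iff]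
    tauto
  rw [h3]
  refine base_of_card hr hI3 ?_
  rw [Set.ncard_insert_of_notMem n2, Set.ncard_pair n1]

omit hr [Fintype α] in
private theorem t_mem {x z k : α} (hB : M.IsBase {x, z, k}) : x ∈ M.E ∧ z ∈ M.E ∧ k ∈ M.E := by
  have h := hB.subset_ground
  rw [Set.insert_subset_iff, Set.insert_subset_iff, Set.singleton_subset_iff] at h
  exact h

omit hr [Fintype α] in
private theorem t_l {u v : α} (hu : u ∈ M.E) (hv : v ∈ M.E) : u ∈ M.closure {u, v} :=
  M.mem_closure_of_mem (Set.mem_insert u {v}) (by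
    rw [Set.insert_subset_iff, Set.singleton_subset_iff]
    exact ⟨hu, hv⟩)

omit hr [Fintype α] in
private theorem t_r {u v : α} (hu : u ∈ M.E) (hv : v ∈ M.E) : v ∈ M.closure {u, v} :=
  M.mem_closure_of_mem (Set.mem_insert_of_mem u rfl) (by
    rw [Set.insert_subset_iff, Set.singleton_subset_iff]
    exact ⟨hu, hv⟩)

omit hr [Fintype α] in
private theorem t_s {u v x : α} (h : x ∈ M.closure {u}) : x ∈ M.closure {u, v} :=
  M.closure_subset_closure (Set.singleton_subset_iff.2 (Set.mem_insert u {v})) h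

/-- (i) -/
private theorem t_i {e x z k : α} (he : e ∈ M.E) (hB : M.IsBase {x, z, k})
    (hx : x ∈ M.closure {e}) (h : M.closure {e, z} = M.closure {e, k}) : False := by
  obtain ⟨_, hz, hk⟩ := t_mem hB
  refine t_not3 hr hB (u := e) (v := z) (t_s hx) (t_r he hz) ?_
  rw [h]
  exact t_r he hk

/-- all in a row -/
private theorem t_row {e x z k : α} (he : e ∈ M.E) (hB : M.IsBase {x, z, k})
    (h : M.closure {e, x} = M.closure {e, z}) (h' : M.closure {e, z} = M.closure {e, k}) :
    False := by
  obtain ⟨hx, hz, hk⟩ := t_mem hB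
  refine t_not3 hr hB (u := e) (v := z) ?_ (t_r he hz) ?_
  · rw [← h]
    exact t_r he hx
  · rw [h']
    exact t_r he hk

/-- (iii) two elements in a cell -/
private theorem t_iii {e f x z k : α} (hB : M.IsBase {x, z, k}) (hz : M.IsBase {e, f, z})
    (h1 : M.closure {e, z} = M.closure {e, k}) (h2 : M.closure {f, z} = M.closure {f, k}) :
    False := by
  obtain ⟨hxE, hzE, hkE⟩ := t_mem hB
  obtain ⟨heE, hfE, _⟩ := t_mem hz
  have hk : k ∉ M.closure {z} := fun h => by
    refine t_not3 hr hB (u := x) (v := z) (t_l hxE hzE) (t_r hxE hzE) ?_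
    exact M.closure_subset_closure (show ({z} : Set α) ⊆ {x, z} by simp) h
  have he : e ∈ M.closure (insert k {z}) :=
    (M.closure_exchange ⟨by rw [h1]; exact t_r heE hkE, hk⟩).1
  have hf : f ∈ M.closure (insert k {z}) :=
    (M.closure_exchange ⟨by rw [h2]; exact t_r hfE hkE, hk⟩).1
  exact t_not3 hr hz he hf (t_r hkE hzE)

private theorem t_off {e f z : α} (hz : M.IsBase {e, f, z}) :
    z ∉ M.closure {e, f} ∧ z ∉ M.closure {e} ∧ z ∉ M.closure {f} ∧ f ∉ M.closure {e} ∧
      e ∉ M.closure {f} ∧ M.IsNonloop e ∧ M.IsNonloop f := by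
  obtain ⟨heE, hfE, hzE⟩ := t_mem hz
  have h1 : z ∉ M.closure {e, f} := fun h => t_not3 hr hz (t_l heE hfE) (t_r heE hfE) h
  refine ⟨h1, fun h => h1 (t_s h), fun h => h1 ?_, fun h => ?_, fun h => ?_,
    hz.indep.isNonloop_of_mem (by simp), hz.indep.isNonloop_of_mem (by simp)⟩
  · rw [Set.pair_comm]
    exact t_s h
  · exact t_not3 hr hz (u := e) (v := z) (t_l heE hzE) (t_s h) (t_r heE hzE)
  · exact t_not3 hr hz (u := f) (v := z) (t_s h) (t_l hfE hzE) (t_r hfE hzE)

/-- (vi) -/
private theorem t_vi {e f x z : α} (hx : M.IsBase {e, f, x}) (hz : M.IsBase {e, f, z})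
    (h : M.closure {e, x} ≠ M.closure {e, z}) : M.IsBase {e, x, z} := by
  obtain ⟨_, x2, _, _, _, x6, _⟩ := t_off hr hx
  obtain ⟨_, z2, _⟩ := t_off hr hz
  refine t_base hr x6 (t_mem hx).2.2 x2 (t_mem hz).2.2 fun h1 => h ?_
  have h2 : z ∈ M.closure (insert x {e}) \ M.closure {e} := by
    refine ⟨?_, z2⟩
    rw [Set.pair_comm]
    exact h1
  have h3 := M.closure_insert_congr h2
  rw [Set.pair_comm e x, Set.pair_comm e z]
  exact h3.symm

/-- (vii) -/
private theorem t_vii {e f x z : α} (hz : M.IsBase {e, f, z}) (hx : x ∈ M.closure {e, f})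
    (hx' : x ∉ M.closure {e}) : M.IsBase {e, x, z} := by
  obtain ⟨z1, _, _, _, _, z6, _⟩ := t_off hr hz
  have hxE : x ∈ M.E := M.mem_ground_of_mem_closure hx
  refine t_base hr z6 hxE hx' (t_mem hz).2.2 fun h1 => z1 ?_
  have h2 : x ∈ M.closure (insert f {e}) \ M.closure {e} := by
    refine ⟨?_, hx'⟩
    rw [Set.pair_comm]
    exact hx
  have h3 := M.closure_insert_congr h2
  rw [Set.pair_comm e f, ← h3, Set.pair_comm x e]
  exact h1

/-! ### the four types of elements -/

omit hr [Fintype α] in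
private theorem t_bt (x z k : α) : bt M x z k = 0 ∨ (bt M x z k = 1 ∧ M.IsBase {x, z, k}) := by
  unfold bt
  by_cases h : M.IsBase {x, z, k}
  · rw [if_pos h]
    exact Or.inr ⟨rfl, h⟩
  · rw [if_neg h]
    exact Or.inl rfl

omit hr [Fintype α] in
private theorem t_bt1 {x z k : α} (h : M.IsBase {x, z, k}) : bt M x z k = 1 := by
  unfold bt
  rw [if_pos h]

open Classical in
/-- weight of `x` if it is parallel to `e` -/
private noncomputable def wa (M : Matroid α) (n : α → ℝ) (e : α) (x : α) : ℝ :=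
  if M.IsNonloop x ∧ x ∈ M.closure {e} then n x else 0

open Classical in
/-- weight of `x` if it is on the line but not parallel to `e`, `f` -/
private noncomputable def wc (M : Matroid α) (n : α → ℝ) (e f : α) (x : α) : ℝ :=
  if x ∈ M.closure {e, f} ∧ x ∉ M.closure {e} ∧ x ∉ M.closure {f} then n x else 0

/-- weight of `x` if it is not on the line -/
private noncomputable def wo (M : Matroid α) (n : α → ℝ) (e f : α) (x : α) : ℝ :=
  bt M e f x * n x

omit hr [Fintype α] in
private theorem wa_or (n : α → ℝ) (e x : α) :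
    wa M n e x = 0 ∨ (M.IsNonloop x ∧ x ∈ M.closure {e}) := by
  unfold wa
  by_cases h : M.IsNonloop x ∧ x ∈ M.closure {e}
  · exact Or.inr h
  · rw [if_neg h]
    exact Or.inl rfl

omit hr [Fintype α] in
private theorem wc_or (n : α → ℝ) (e f x : α) :
    wc M n e f x = 0 ∨ (x ∈ M.closure {e, f} ∧ x ∉ M.closure {e} ∧ x ∉ M.closure {f}) := by
  unfold wc
  by_cases h : x ∈ M.closure {e, f} ∧ x ∉ M.closure {e} ∧ x ∉ M.closure {f}
  · exact Or.inr h
  · rw [if_neg h]
    exact Or.inl rfl

omit hr [Fintype α] in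
private theorem wo_or (n : α → ℝ) (e f x : α) :
    wo M n e f x = 0 ∨ M.IsBase {e, f, x} := by
  unfold wo
  rcases t_bt (M := M) e f x with h | h
  · rw [h, zero_mul]
    exact Or.inl rfl
  · exact Or.inr h.2

omit hr [Fintype α] in
private theorem wa_nonneg {n : α → ℝ} (hn : ∀ x, 0 ≤ n x) (e x : α) : 0 ≤ wa M n e x := by
  unfold wa
  split_ifs
  · exact hn x
  · exact le_rfl

omit hr [Fintype α] in
private theorem wc_nonneg {n : α → ℝ} (hn : ∀ x, 0 ≤ n x) (e f x : α) : 0 ≤ wc M n e f x := by
  unfold wc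
  split_ifs
  · exact hn x
  · exact le_rfl

omit hr [Fintype α] in
private theorem wo_nonneg {n : α → ℝ} (hn : ∀ x, 0 ≤ n x) (e f x : α) : 0 ≤ wo M n e f x :=
  mul_nonneg (bt_nonneg M e f x) (hn x)

omit hr [Fintype α] in
/-- not parallel to both -/
private theorem t_ab {e f x : α} (hef : f ∉ M.closure {e}) (hf : f ∈ M.E)
    (hx : M.IsNonloop x) (h1 : x ∈ M.closure {e}) (h2 : x ∈ M.closure {f}) : False := by
  have h3 := hx.closure_eq_of_mem_closure h1
  have h4 := hx.closure_eq_of_mem_closure h2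
  apply hef
  rw [← h3, h4]
  exact M.mem_closure_self f hf

/-- every element which is not a loop has exactly one type -/
private theorem t_split {e f w : α} (hw : M.IsBase {e, f, w}) (n : α → ℝ) {x : α}
    (hx : M.IsNonloop x) :
    n x = wo M n e f x + (wa M n e x + wa M n f x + wc M n e f x) := by
  obtain ⟨w1, w2, w3, w4, w5, w6, w7⟩ := t_off hr hw
  obtain ⟨heE, hfE, _⟩ := t_mem hw
  by_cases h1 : x ∈ M.closure {e, f}
  · have ho : wo M n e f x = 0 := by
      rcases wo_or (M := M) n e f x with h | h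
      · exact h
      · exact absurd h1 (t_off hr h).1
    rw [ho]
    by_cases h2 : x ∈ M.closure {e}
    · have h3 : x ∉ M.closure {f} := fun h => t_ab w4 hfE hx h2 h
      unfold wa wc
      rw [if_pos ⟨hx, h2⟩, if_neg (fun h => h3 h.2), if_neg (fun h => h.2.1 h2)]
      ring
    · by_cases h3 : x ∈ M.closure {f}
      · unfold wa wc
        rw [if_neg (fun h => h2 h.2), if_pos ⟨hx, h3⟩, if_neg (fun h => h.2.2 h3)]
        ring
      · unfold wa wc
        rw [if_neg (fun h => h2 h.2), if_neg (fun h => h3 h.2), if_pos ⟨h1, h2, h3⟩]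
        ring
  · have h2 : x ∉ M.closure {e} := fun h => h1 (t_s h)
    have h3 : x ∉ M.closure {f} := fun h => h1 (by rw [Set.pair_comm]; exact t_s h)
    have hb : M.IsBase {e, f, x} := t_base hr w6 hfE w4 hx.mem_ground h1
    unfold wo wa wc
    rw [t_bt1 hb, if_neg (fun h => h2 h.2), if_neg (fun h => h3 h.2), if_neg (fun h => h1 h.1)]
    ring

/-- a loop has no type -/
private theorem t_split' {e f w : α} (hw : M.IsBase {e, f, w}) {n : α → ℝ} (hn : ∀ x, 0 ≤ n x)
    (x : α) : wo M n e f x + (wa M n e x + wa M n f x + wc M n e f x) ≤ n x := by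
  by_cases hx : M.IsNonloop x
  · exact (t_split hr hw n hx).ge
  · have h1 : wo M n e f x = 0 := by
      rcases wo_or (M := M) n e f x with h | h
      · exact h
      · exact absurd (h.indep.isNonloop_of_mem (by simp)) hx
    have h2 : wc M n e f x = 0 := by
      rcases wc_or (M := M) n e f x with h | h
      · exact h
      · exact absurd (M.isNonloop_of_notMem_closure h.2.1 (M.mem_ground_of_mem_closure h.1)) hx
    have h3 : ∀ u, wa M n u x = 0 := by
      intro u
      rcases wa_or (M := M) n u x with h | h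
      · exact h
      · exact absurd h.1 hx
    rw [h1, h2, h3, h3]
    have := hn x
    linarith

/-! ### the pointwise bounds -/

omit hr [Fintype α] in
private theorem wo_comm (n : α → ℝ) (e f x : α) : wo M n f e x = wo M n e f x := by
  unfold wo
  rw [bt_swap]

omit hr [Fintype α] in
private theorem wc_comm (n : α → ℝ) (e f x : α) : wc M n f e x = wc M n e f x := by
  unfold wc
  rw [Set.pair_comm f e]
  by_cases h : x ∈ M.closure {e, f} ∧ x ∉ M.closure {e} ∧ x ∉ M.closure {f}
  · rw [if_pos h, if_pos ⟨h.1, h.2.2, h.2.1⟩]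
  · rw [if_neg h, if_neg (fun h' => h ⟨h'.1, h'.2.2, h'.2.1⟩)]

omit hr [Fintype α] in
private theorem t_bc {e f : α} (hef : f ∉ M.closure {e}) (hf : f ∈ M.E) (n : α → ℝ) (x : α) :
    wa M n f x + wc M n e f x = 0 ∨ (x ∈ M.closure {e, f} ∧ x ∉ M.closure {e}) := by
  rcases wa_or (M := M) n f x with h | h
  · rcases wc_or (M := M) n e f x with h' | h'
    · left
      rw [h, h', add_zero]
    · exact Or.inr ⟨h'.1, h'.2.1⟩
  · right
    refine ⟨?_, fun h' => t_ab hef hf h.1 h' h.2⟩
    rw [Set.pair_comm]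
    exact t_s h.2

open Classical in
private theorem f1 {e f w : α} (hw : M.IsBase {e, f, w}) {n : α → ℝ} (hn : ∀ x, 0 ≤ n x)
    (x z : α) :
    dl (M.closure {e, x}) (M.closure {e, z}) * (wo M n e f x * wo M n e f z) +
      ((wa M n f x + wc M n e f x) * wo M n e f z +
        wo M n e f x * (wa M n f z + wc M n e f z)) ≤ bt M e x z * (n x * n z) := by
  obtain ⟨w1, w2, w3, w4, w5, w6, w7⟩ := t_off hr hw
  obtain ⟨heE, hfE, _⟩ := t_mem hw
  have hx := t_split' hr hw hn x
  have hz := t_split' hr hw hn z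
  have ax0 := wa_nonneg (M := M) hn e x
  have az0 := wa_nonneg (M := M) hn e z
  have bx0 := wa_nonneg (M := M) hn f x
  have bz0 := wa_nonneg (M := M) hn f z
  have cx0 := wc_nonneg (M := M) hn e f x
  have cz0 := wc_nonneg (M := M) hn e f z
  have ox0 := wo_nonneg (M := M) hn e f x
  have oz0 := wo_nonneg (M := M) hn e f z
  have b0 := bt_nonneg M e x z
  have T1 : dl (M.closure {e, x}) (M.closure {e, z}) * (wo M n e f x * wo M n e f z) ≤
      bt M e x z * (wo M n e f x * wo M n e f z) := by
    rcases wo_or (M := M) n e f x with h | h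
    · rw [h]
      simp
    rcases wo_or (M := M) n e f z with h' | h'
    · rw [h']
      simp
    by_cases hc : M.closure {e, x} = M.closure {e, z}
    · unfold dl
      rw [if_pos hc, zero_mul]
      positivity
    · rw [t_bt1 (t_vi hr h h' hc)]
      exact mul_le_mul_of_nonneg_right (dl_le_one _ _) (by positivity)
  have T2 : (wa M n f x + wc M n e f x) * wo M n e f z ≤
      bt M e x z * ((wa M n f x + wc M n e f x) * wo M n e f z) := by
    rcases wo_or (M := M) n e f z with h | h
    · rw [h]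
      simp
    rcases t_bc w4 hfE n x with h' | h'
    · rw [h']
      simp
    rw [t_bt1 (t_vii hr h h'.1 h'.2), one_mul]
  have T3 : wo M n e f x * (wa M n f z + wc M n e f z) ≤
      bt M e x z * (wo M n e f x * (wa M n f z + wc M n e f z)) := by
    rcases wo_or (M := M) n e f x with h | h
    · rw [h]
      simp
    rcases t_bc w4 hfE n z with h' | h'
    · rw [h']
      simp
    rw [bt_swap', t_bt1 (t_vii hr h h'.1 h'.2), one_mul]
  have T4 : (wo M n e f x + (wa M n f x + wc M n e f x)) *
      (wo M n e f z + (wa M n f z + wc M n e f z)) ≤ n x * n z :=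
    mul_le_mul (by linarith) (by linarith) (by positivity) (hn x)
  have T5 : 0 ≤ (wa M n f x + wc M n e f x) * (wa M n f z + wc M n e f z) := by positivity
  have T6 : bt M e x z * (wo M n e f x * wo M n e f z + ((wa M n f x + wc M n e f x) *
      wo M n e f z + wo M n e f x * (wa M n f z + wc M n e f z))) ≤
      bt M e x z * (n x * n z) := mul_le_mul_of_nonneg_left (by linarith) b0
  linarith

open Classical in
/-- one element on the line -/
private noncomputable def G1 (M : Matroid α) (n : α → ℝ) (e f x z k : α) : ℝ :=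
  (wa M n e x * dl (M.closure {e, z}) (M.closure {e, k}) +
    wa M n f x * dl (M.closure {f, z}) (M.closure {f, k}) +
    wc M n e f x * (dl (M.closure {e, z}) (M.closure {e, k}) +
      dl (M.closure {f, z}) (M.closure {f, k}) -
      dl (M.closure {e, z}) (M.closure {e, k}) * dl (M.closure {f, z}) (M.closure {f, k}))) *
    (wo M n e f z * wo M n e f k)

/-- the weight on the line -/
private noncomputable def ws (M : Matroid α) (n : α → ℝ) (e f x : α) : ℝ :=
  wa M n e x + wa M n f x + wc M n e f x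

/-- two elements on the line -/
private noncomputable def G2 (M : Matroid α) (n : α → ℝ) (e f x z k : α) : ℝ :=
  (ws M n e f x * ws M n e f z - wa M n e x * wa M n e z - wa M n f x * wa M n f z) *
    wo M n e f k

omit hr [Fintype α] in
private theorem ws_nonneg {n : α → ℝ} (hn : ∀ x, 0 ≤ n x) (e f x : α) : 0 ≤ ws M n e f x :=
  add_nonneg (add_nonneg (wa_nonneg hn e x) (wa_nonneg hn f x)) (wc_nonneg hn e f x)

omit hr [Fintype α] in
private theorem t_dd {a b : ℝ} (ha : 0 ≤ a) (ha1 : a ≤ 1) (hb : 0 ≤ b) :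
    0 ≤ a + b - a * b := by nlinarith

omit hr [Fintype α] in
private theorem G1_nonneg {n : α → ℝ} (hn : ∀ x, 0 ≤ n x) (e f x z k : α) :
    0 ≤ G1 M n e f x z k := by
  classical
  unfold G1
  have h1 := t_dd (dl_nonneg (M.closure {e, z}) (M.closure {e, k}))
    (dl_le_one (M.closure {e, z}) (M.closure {e, k}))
    (dl_nonneg (M.closure {f, z}) (M.closure {f, k}))
  refine mul_nonneg (add_nonneg (add_nonneg (mul_nonneg (wa_nonneg hn e x) (dl_nonneg _ _))
    (mul_nonneg (wa_nonneg hn f x) (dl_nonneg _ _))) (mul_nonneg (wc_nonneg hn e f x) ?_))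
    (mul_nonneg (wo_nonneg hn e f z) (wo_nonneg hn e f k))
  convert h1

omit hr [Fintype α] in
private theorem G2_nonneg {n : α → ℝ} (hn : ∀ x, 0 ≤ n x) (e f x z k : α) :
    0 ≤ G2 M n e f x z k := by
  unfold G2 ws
  have ax0 := wa_nonneg (M := M) hn e x
  have az0 := wa_nonneg (M := M) hn e z
  have bx0 := wa_nonneg (M := M) hn f x
  have bz0 := wa_nonneg (M := M) hn f z
  have cx0 := wc_nonneg (M := M) hn e f x
  have cz0 := wc_nonneg (M := M) hn e f z
  refine mul_nonneg ?_ (wo_nonneg hn e f k)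
  have h1 := mul_nonneg ax0 bz0
  have h2 := mul_nonneg ax0 cz0
  have h3 := mul_nonneg bx0 az0
  have h4 := mul_nonneg bx0 cz0
  have h5 := mul_nonneg cx0 az0
  have h6 := mul_nonneg cx0 bz0
  have h7 := mul_nonneg cx0 cz0
  linarith

private theorem g1_bound {e f w : α} (hw : M.IsBase {e, f, w}) {n : α → ℝ}
    (hn : ∀ x, 0 ≤ n x) {x z k : α} (hB : M.IsBase {x, z, k}) :
    ws M n e f x * (wo M n e f z * wo M n e f k) ≤ G1 M n e f x z k := by
  classical
  obtain ⟨heE, hfE, _⟩ := t_mem hw
  unfold G1 ws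
  rcases wo_or (M := M) n e f z with hz | hz
  · rw [hz]
    simp
  rcases wo_or (M := M) n e f k with hk | hk
  · rw [hk]
    simp
  refine mul_le_mul_of_nonneg_right ?_ (mul_nonneg (wo_nonneg hn e f z) (wo_nonneg hn e f k))
  have h1 : wa M n e x ≤ wa M n e x * dl (M.closure {e, z}) (M.closure {e, k}) := by
    rcases wa_or (M := M) n e x with h | h
    · rw [h, zero_mul]
    · unfold dl
      rw [if_neg (fun h' => t_i hr heE hB h.2 h'), mul_one]
  have h2 : wa M n f x ≤ wa M n f x * dl (M.closure {f, z}) (M.closure {f, k}) := by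
    rcases wa_or (M := M) n f x with h | h
    · rw [h, zero_mul]
    · unfold dl
      rw [if_neg (fun h' => t_i hr hfE hB h.2 h'), mul_one]
  have h3 : wc M n e f x ≤ wc M n e f x * (dl (M.closure {e, z}) (M.closure {e, k}) +
      dl (M.closure {f, z}) (M.closure {f, k}) -
      dl (M.closure {e, z}) (M.closure {e, k}) * dl (M.closure {f, z}) (M.closure {f, k})) := by
    have h4 : dl (M.closure {e, z}) (M.closure {e, k}) +
      dl (M.closure {f, z}) (M.closure {f, k}) -
      dl (M.closure {e, z}) (M.closure {e, k}) * dl (M.closure {f, z}) (M.closure {f, k}) =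
      1 := by
      unfold dl
      by_cases h5 : M.closure {e, z} = M.closure {e, k}
      · rw [if_pos h5, if_neg (fun h6 => t_iii hr hB hz h5 h6)]
        ring
      · rw [if_neg h5]
        ring
    rw [h4, mul_one]
  convert add_le_add (add_le_add h1 h2) h3

omit hr [Fintype α] in
private theorem g2_aa {e x z k : α} (hr' : ∀ {u v : α}, x ∈ M.closure {u, v} →
    z ∈ M.closure {u, v} → k ∈ M.closure {u, v} → False) (hk : k ∈ M.E) (he : e ∈ M.E)
    (n : α → ℝ) : wa M n e x * wa M n e z = 0 := by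
  rcases wa_or (M := M) n e x with h | h
  · rw [h, zero_mul]
  rcases wa_or (M := M) n e z with h' | h'
  · rw [h', mul_zero]
  exact (hr' (u := e) (v := k) (t_s h.2) (t_s h'.2) (t_r he hk)).elim

private theorem g2_bound {e f w : α} (hw : M.IsBase {e, f, w}) (n : α → ℝ)
    {x z k : α} (hB : M.IsBase {x, z, k}) :
    ws M n e f x * ws M n e f z * wo M n e f k = G2 M n e f x z k := by
  obtain ⟨heE, hfE, _⟩ := t_mem hw
  obtain ⟨_, _, hkE⟩ := t_mem hB
  unfold G2
  rw [g2_aa (fun a b c => t_not3 hr hB a b c) hkE heE,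
    g2_aa (fun a b c => t_not3 hr hB a b c) hkE hfE]
  ring

omit hr [Fintype α] in
private theorem ws_or (n : α → ℝ) (e f x : α) :
    ws M n e f x = 0 ∨ x ∈ M.closure {e, f} := by
  unfold ws
  rcases wa_or (M := M) n e x with h | h
  · rcases wa_or (M := M) n f x with h' | h'
    · rcases wc_or (M := M) n e f x with h'' | h''
      · left
        rw [h, h', h'']
        ring
      · exact Or.inr h''.1
    · right
      rw [Set.pair_comm]
      exact t_s h'.2
  · exact Or.inr (t_s h.2)

private theorem g3 {n : α → ℝ} (e f : α) {x z k : α} (hB : M.IsBase {x, z, k}) :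
    ws M n e f x * ws M n e f z * ws M n e f k = 0 := by
  rcases ws_or (M := M) n e f x with h | h
  · rw [h]
    ring
  rcases ws_or (M := M) n e f z with h' | h'
  · rw [h']
    ring
  rcases ws_or (M := M) n e f k with h'' | h''
  · rw [h'']
    ring
  exact (t_not3 hr hB h h' h'').elim

private theorem f2 {e f w : α} (hw : M.IsBase {e, f, w}) {n : α → ℝ} (hn : ∀ x, 0 ≤ n x)
    (x z k : α) :
    bt M x z k * (n x * n z * n k) ≤
      bt M x z k * (wo M n e f x * wo M n e f z * wo M n e f k) +
      (G1 M n e f x z k + G1 M n e f z x k + G1 M n e f k x z) +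
      (G2 M n e f x z k + G2 M n e f x k z + G2 M n e f z k x) := by
  rcases t_bt (M := M) x z k with h0 | ⟨h0, hB⟩
  · rw [h0]
    have a1 := G1_nonneg (M := M) hn e f x z k
    have a2 := G1_nonneg (M := M) hn e f z x k
    have a3 := G1_nonneg (M := M) hn e f k x z
    have b1 := G2_nonneg (M := M) hn e f x z k
    have b2 := G2_nonneg (M := M) hn e f x k z
    have b3 := G2_nonneg (M := M) hn e f z k x
    linarith
  · have hB2 : M.IsBase {z, x, k} := by rwa [Set.insert_comm]
    have hB3 : M.IsBase {x, k, z} := by rwa [Set.pair_comm k z]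
    have hB4 : M.IsBase {k, x, z} := by rwa [Set.insert_comm]
    have hB5 : M.IsBase {z, k, x} := by rwa [Set.pair_comm k x]
    have hx := t_split hr hw n (hB.indep.isNonloop_of_mem (e := x) (by simp))
    have hz := t_split hr hw n (hB.indep.isNonloop_of_mem (e := z) (by simp))
    have hk := t_split hr hw n (hB.indep.isNonloop_of_mem (e := k) (by simp))
    have a1 := g1_bound hr hw hn hB
    have a2 := g1_bound hr hw hn hB2
    have a3 := g1_bound hr hw hn hB4
    have b1 := g2_bound hr hw n hB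
    have b2 := g2_bound hr hw n hB3
    have b3 := g2_bound hr hw n hB5
    have c1 := g3 hr (n := n) e f hB
    have hx' : n x = wo M n e f x + ws M n e f x := hx
    have hz' : n z = wo M n e f z + ws M n e f z := hz
    have hk' : n k = wo M n e f k + ws M n e f k := hk
    have E : n x * n z * n k = wo M n e f x * wo M n e f z * wo M n e f k +
        ws M n e f x * (wo M n e f z * wo M n e f k) +
        ws M n e f z * (wo M n e f x * wo M n e f k) +
        ws M n e f k * (wo M n e f x * wo M n e f z) +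
        ws M n e f x * ws M n e f z * wo M n e f k +
        ws M n e f x * ws M n e f k * wo M n e f z +
        ws M n e f z * ws M n e f k * wo M n e f x +
        ws M n e f x * ws M n e f z * ws M n e f k := by
      rw [hx', hz', hk']
      ring
    rw [h0, E, c1]
    linarith

/-! ### the bound for three elements outside of the line -/

open Classical in
private theorem f3 {e f : α} {n : α → ℝ} (hn : ∀ x, 0 ≤ n x) (x z k : α) :
    2 * (bt M x z k * (wo M n e f x * wo M n e f z * wo M n e f k)) ≤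
      pw (fun u => M.closure {e, u}) (fun u => M.closure {f, u}) x z k *
        (wo M n e f x * wo M n e f z * wo M n e f k) := by
  have h0 := mul_nonneg (mul_nonneg (wo_nonneg (M := M) hn e f x) (wo_nonneg (M := M) hn e f z))
    (wo_nonneg (M := M) hn e f k)
  have h1 := pw_nonneg (fun u => M.closure {e, u}) (fun u => M.closure {f, u}) x z k
  rcases t_bt (M := M) x z k with hb | ⟨hb, hB⟩
  · rw [hb]
    have h2 := mul_nonneg h1 h0
    linarith
  rcases wo_or (M := M) n e f x with hx | hx
  · rw [hx]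
    simp
  rcases wo_or (M := M) n e f z with hz | hz
  · rw [hz]
    simp
  obtain ⟨heE, hfE, _⟩ := t_mem hx
  have hB2 : M.IsBase {k, x, z} := by
    rw [Set.insert_comm, Set.pair_comm k z]
    exact hB
  have hB3 : M.IsBase {z, x, k} := by rwa [Set.insert_comm]
  have h2 : 2 ≤ pw (fun u => M.closure {e, u}) (fun u => M.closure {f, u}) x z k := by
    apply two_le_pw
    · exact fun h => t_row hr heE hB h.1 h.2
    · exact fun h => t_row hr hfE hB h.1 h.2
    · exact fun h => t_iii hr hB2 hx h.1 h.2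
    · exact fun h => t_iii hr hB3 hx h.1 h.2
    · exact fun h => t_iii hr hB hz h.1 h.2
  rw [hb, one_mul]
  exact mul_le_mul_of_nonneg_right h2 h0

/-! ### summation -/

omit hr in
private theorem sum3_a (F : α → α → α → ℝ) :
    ∑ x, ∑ z, ∑ k, F z x k = ∑ x, ∑ z, ∑ k, F x z k := Finset.sum_comm

omit hr in
private theorem sum3_b (F : α → α → α → ℝ) :
    ∑ x, ∑ z, ∑ k, F x k z = ∑ x, ∑ z, ∑ k, F x z k :=
  Finset.sum_congr rfl fun _ _ => Finset.sum_comm

omit hr in
private theorem sum3_c (F : α → α → α → ℝ) :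
    ∑ x, ∑ z, ∑ k, F k x z = ∑ x, ∑ z, ∑ k, F x z k := by
  rw [show ∑ x, ∑ z, ∑ k, F k x z = ∑ x, ∑ k, ∑ z, F k x z from
    Finset.sum_congr rfl fun x _ => Finset.sum_comm]
  exact Finset.sum_comm

omit hr in
private theorem sum3_d (F : α → α → α → ℝ) :
    ∑ x, ∑ z, ∑ k, F z k x = ∑ x, ∑ z, ∑ k, F x z k := by
  rw [show ∑ x, ∑ z, ∑ k, F z k x = ∑ z, ∑ x, ∑ k, F z k x from Finset.sum_comm]
  exact Finset.sum_congr rfl fun x _ => Finset.sum_comm

private theorem h_pair {y : α → ℝ} {e f : α} (hef : e ≠ f) :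
    basisSum M y {e, f} ∅ = y e * y f * ∑ x, wo M (zw y {e, f}) e f x := by
  classical
  have h1 := basisSum_eq M y {e, f} ∅
  rw [Finset.coe_pair] at h1
  rw [h1, zw_empty, S_pair M y hr hef, Finset.mul_sum]
  refine Finset.sum_congr rfl fun x _ => ?_
  unfold wo
  by_cases hx : x ∈ ({e, f} : Set α)
  · have h2 : bt M e f x = 0 := by
      rcases hx with rfl | hx
      · rw [bt_swap', bt_eq M hr]
      · rw [Set.mem_singleton_iff] at hx
        subst hx
        rw [bt_swap, bt_swap', bt_eq M hr]
    rw [h2]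
    ring
  · rw [zw_ne y hx]
    ring

private theorem h_one {y : α → ℝ} {u v : α} (huv : u ≠ v) :
    2 * basisSum M y {u} {v} =
      y u * ∑ x, ∑ z, bt M u x z * (zw y {u, v} x * zw y {u, v} z) := by
  classical
  have h1 := basisSum_eq M y {u} {v}
  rw [Finset.coe_singleton] at h1
  rw [h1, S_one M _ hr, Finset.mul_sum]
  refine Finset.sum_congr rfl fun x _ => ?_
  rw [Finset.mul_sum]
  refine Finset.sum_congr rfl fun z _ => ?_
  rw [zw_ne y (show u ∉ ({v} : Set α) from huv)]
  have h2 : ∀ w, w ≠ u → zw y {v} w = zw y {u, v} w := by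
    intro w hw
    by_cases hv : w = v
    · rw [zw_mem y (show w ∈ ({v} : Set α) from hv),
        zw_mem y (show w ∈ ({u, v} : Set α) from Or.inr hv)]
    · rw [zw_ne y (show w ∉ ({v} : Set α) from hv),
        zw_ne y (show w ∉ ({u, v} : Set α) from fun h => h.elim hw hv)]
  by_cases hx : x = u
  · subst hx
    rw [bt_eq M hr]
    ring
  by_cases hz : z = u
  · subst hz
    rw [bt_swap', bt_eq M hr]
    ring
  rw [h2 x hx, h2 z hz]
  ring

private theorem h_none (y : α → ℝ) (e f : α) :
    6 * basisSum M y ∅ {e, f} =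
      ∑ x, ∑ z, ∑ k, bt M x z k * (zw y {e, f} x * zw y {e, f} z * zw y {e, f} k) := by
  have h1 := basisSum_eq M y ∅ {e, f}
  rw [Finset.coe_empty] at h1
  rw [h1, S_none M _ hr]

open Classical in
/-- `∑ [rows different] o o` -/
private noncomputable def Rh (M : Matroid α) (n : α → ℝ) (e f u : α) : ℝ :=
  ∑ x, ∑ z, dl (M.closure {u, x}) (M.closure {u, z}) * (wo M n e f x * wo M n e f z)

open Classical in
/-- `∑ [rows and columns different] o o` -/
private noncomputable def RG (M : Matroid α) (n : α → ℝ) (e f : α) : ℝ :=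
  ∑ x, ∑ z, dl (M.closure {e, x}) (M.closure {e, z}) *
    dl (M.closure {f, x}) (M.closure {f, z}) * (wo M n e f x * wo M n e f z)

private theorem h_one_le {e f w : α} (hw : M.IsBase {e, f, w}) {n : α → ℝ}
    (hn : ∀ x, 0 ≤ n x) :
    Rh M n e f e + 2 * ((∑ x, wa M n f x + ∑ x, wc M n e f x) * ∑ x, wo M n e f x) ≤
      ∑ x, ∑ z, bt M e x z * (n x * n z) := by
  classical
  have h1 : ∑ x, ∑ z, (dl (M.closure {e, x}) (M.closure {e, z}) *
      (wo M n e f x * wo M n e f z) +
      ((wa M n f x + wc M n e f x) * wo M n e f z +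
        wo M n e f x * (wa M n f z + wc M n e f z))) ≤
      ∑ x, ∑ z, bt M e x z * (n x * n z) :=
    Finset.sum_le_sum fun x _ => Finset.sum_le_sum fun z _ => by
      convert f1 hr hw hn x z
  refine le_trans (le_of_eq ?_) h1
  simp only [Finset.sum_add_distrib]
  rw [← Finset.sum_mul_sum, ← Finset.sum_mul_sum, Finset.sum_add_distrib]
  unfold Rh
  have h2 : ∀ a b : ℝ, a = b → ∀ c d : ℝ, c = d → a + c = b + d := fun a b h c d h' => by
    rw [h, h']
  refine h2 _ _ ?_ _ _ (by ring)
  refine Finset.sum_congr rfl fun x _ => Finset.sum_congr rfl fun z _ => ?_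
  congr

private theorem h_none_le {e f w : α} (hw : M.IsBase {e, f, w}) {n : α → ℝ}
    (hn : ∀ x, 0 ≤ n x) :
    ∑ x, ∑ z, ∑ k, bt M x z k * (n x * n z * n k) ≤
      ∑ x, ∑ z, ∑ k, bt M x z k * (wo M n e f x * wo M n e f z * wo M n e f k) +
      3 * ((∑ x, wa M n e x) * Rh M n e f e + (∑ x, wa M n f x) * Rh M n e f f +
        (∑ x, wc M n e f x) * (Rh M n e f e + Rh M n e f f - RG M n e f)) +
      3 * (((∑ x, wa M n e x + ∑ x, wa M n f x + ∑ x, wc M n e f x) ^ 2 -
        (∑ x, wa M n e x) ^ 2 - (∑ x, wa M n f x) ^ 2) * ∑ x, wo M n e f x) := by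
  classical
  have h1 : ∑ x, ∑ z, ∑ k, bt M x z k * (n x * n z * n k) ≤ ∑ x, ∑ z, ∑ k,
      (bt M x z k * (wo M n e f x * wo M n e f z * wo M n e f k) +
      (G1 M n e f x z k + G1 M n e f z x k + G1 M n e f k x z) +
      (G2 M n e f x z k + G2 M n e f x k z + G2 M n e f z k x)) :=
    Finset.sum_le_sum fun x _ => Finset.sum_le_sum fun z _ => Finset.sum_le_sum fun k _ =>
      f2 hr hw hn x z k
  refine h1.trans (le_of_eq ?_)
  simp only [Finset.sum_add_distrib]
  rw [sum3_a (fun x z k => G1 M n e f x z k), sum3_c (fun x z k => G1 M n e f x z k),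
    sum3_b (fun x z k => G2 M n e f x z k), sum3_d (fun x z k => G2 M n e f x z k)]
  have hG1 : ∑ x, ∑ z, ∑ k, G1 M n e f x z k = (∑ x, wa M n e x) * Rh M n e f e +
      (∑ x, wa M n f x) * Rh M n e f f +
        (∑ x, wc M n e f x) * (Rh M n e f e + Rh M n e f f - RG M n e f) := by
    rw [Finset.sum_mul, Finset.sum_mul, Finset.sum_mul, ← Finset.sum_add_distrib,
      ← Finset.sum_add_distrib]
    refine Finset.sum_congr rfl fun x _ => ?_
    unfold G1 Rh RG
    rw [mul_sub, mul_add]
    simp only [Finset.mul_sum]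
    rw [← Finset.sum_add_distrib, ← Finset.sum_add_distrib, ← Finset.sum_sub_distrib,
      ← Finset.sum_add_distrib]
    refine Finset.sum_congr rfl fun z _ => ?_
    rw [← Finset.sum_add_distrib, ← Finset.sum_add_distrib, ← Finset.sum_sub_distrib,
      ← Finset.sum_add_distrib]
    refine Finset.sum_congr rfl fun k _ => ?_
    ring
  have hG2 : ∑ x, ∑ z, ∑ k, G2 M n e f x z k =
      ((∑ x, wa M n e x + ∑ x, wa M n f x + ∑ x, wc M n e f x) ^ 2 -
        (∑ x, wa M n e x) ^ 2 - (∑ x, wa M n f x) ^ 2) * ∑ x, wo M n e f x := by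
    have h2 : ∑ x, ws M n e f x = ∑ x, wa M n e x + ∑ x, wa M n f x + ∑ x, wc M n e f x := by
      unfold ws
      rw [Finset.sum_add_distrib, Finset.sum_add_distrib]
    rw [← h2, sq, sq, sq, Finset.sum_mul_sum, Finset.sum_mul_sum, Finset.sum_mul_sum,
      ← Finset.sum_sub_distrib, ← Finset.sum_sub_distrib, Finset.sum_mul]
    refine Finset.sum_congr rfl fun x _ => ?_
    rw [← Finset.sum_sub_distrib, ← Finset.sum_sub_distrib, Finset.sum_mul]
    refine Finset.sum_congr rfl fun z _ => ?_
    rw [Finset.mul_sum]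
    exact Finset.sum_congr rfl fun k _ => rfl
  rw [hG1, hG2]
  ring

omit hr in
private theorem h_rh_comm (n : α → ℝ) (e f u : α) : Rh M n f e u = Rh M n e f u := by
  unfold Rh
  refine Finset.sum_congr rfl fun x _ => Finset.sum_congr rfl fun z _ => ?_
  rw [wo_comm n e f x, wo_comm n e f z]

/-- **Rank 3.** -/
theorem rayDiff_three {y : α → ℝ} (hy : ∀ a, 0 < y a) {e f : α} (hef : e ≠ f) :
    0 ≤ rayDiff M y e f := by
  classical
  set n : α → ℝ := zw y {e, f} with hn
  have hn0 : ∀ x, 0 ≤ n x := zw_nonneg (fun a => (hy a).le) _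
  have hye := hy e
  have hyf := hy f
  have e1 := h_pair hr (y := y) hef
  have e2 := h_one hr (y := y) hef
  have e3 := h_one hr (y := y) hef.symm
  have e4 := h_none hr y e f
  rw [Set.pair_comm f e] at e3
  rw [← hn] at e1 e2 e3 e4
  have p2 := basisSum_nonneg M (fun a => (hy a).le) {e} {f}
  have p3 := basisSum_nonneg M (fun a => (hy a).le) {f} {e}
  set T := ∑ x, wo M n e f x with hT
  have hT0 : 0 ≤ T := Finset.sum_nonneg fun x _ => wo_nonneg hn0 e f x
  by_cases hT' : T = 0
  · unfold rayDiff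
    rw [e1, hT']
    have := mul_nonneg p2 p3
    linarith
  obtain ⟨w, _, hw'⟩ := Finset.exists_ne_zero_of_sum_ne_zero hT'
  have hw : M.IsBase {e, f, w} := by
    rcases wo_or (M := M) n e f w with h | h
    · exact absurd h hw'
    · exact h
  have hwf : M.IsBase {f, e, w} := by rwa [Set.insert_comm]
  have i2 := h_one_le hr hw hn0
  have i3 := h_one_le hr hwf hn0
  have i4 := h_none_le hr hw hn0
  rw [h_rh_comm, show ∑ x, wc M n f e x = ∑ x, wc M n e f x from
    Finset.sum_congr rfl fun x _ => wc_comm n e f x,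
    show ∑ x, wo M n f e x = ∑ x, wo M n e f x from
    Finset.sum_congr rfl fun x _ => wo_comm n e f x] at i3
  have i5 := core_triples (fun x => wo M n e f x) (fun x => wo_nonneg hn0 e f x)
    (fun u => M.closure {e, u}) (fun u => M.closure {f, u})
    (fun x z k => bt M x z k * (wo M n e f x * wo M n e f z * wo M n e f k))
    (fun x z k => by
      convert f3 hr (e := e) (f := f) hn0 x z k)
  have q1 : ∑ x, ∑ z, dl (M.closure {e, x}) (M.closure {e, z}) *
      (wo M n e f x * wo M n e f z) = Rh M n e f e := by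
    unfold Rh
    refine Finset.sum_congr rfl fun x _ => Finset.sum_congr rfl fun z _ => ?_
    congr
  have q2 : ∑ x, ∑ z, dl (M.closure {f, x}) (M.closure {f, z}) *
      (wo M n e f x * wo M n e f z) = Rh M n e f f := by
    unfold Rh
    refine Finset.sum_congr rfl fun x _ => Finset.sum_congr rfl fun z _ => ?_
    congr
  simp only [q1, q2] at i5
  rw [← hT] at i2 i3 i4 i5
  rw [← e4] at i4
  set A := ∑ x, wa M n e x with hA
  set B := ∑ x, wa M n f x with hB
  set C := ∑ x, wc M n e f x with hC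
  set Q := ∑ x, ∑ z, ∑ k, bt M x z k * (wo M n e f x * wo M n e f z * wo M n e f k) with hQ
  have hA0 : 0 ≤ A := Finset.sum_nonneg fun x _ => wa_nonneg hn0 e x
  have hB0 : 0 ≤ B := Finset.sum_nonneg fun x _ => wa_nonneg hn0 f x
  have hC0 : 0 ≤ C := Finset.sum_nonneg fun x _ => wc_nonneg hn0 e f x
  have hR0 : 0 ≤ Rh M n e f e := Finset.sum_nonneg fun x _ => Finset.sum_nonneg fun z _ =>
    mul_nonneg (dl_nonneg _ _) (mul_nonneg (wo_nonneg hn0 e f x) (wo_nonneg hn0 e f z))
  have hG0 : 0 ≤ Rh M n e f f := Finset.sum_nonneg fun x _ => Finset.sum_nonneg fun z _ =>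
    mul_nonneg (dl_nonneg _ _) (mul_nonneg (wo_nonneg hn0 e f x) (wo_nonneg hn0 e f z))
  have hRG0 : 0 ≤ RG M n e f := Finset.sum_nonneg fun x _ => Finset.sum_nonneg fun z _ =>
    mul_nonneg (mul_nonneg (dl_nonneg _ _) (dl_nonneg _ _))
      (mul_nonneg (wo_nonneg hn0 e f x) (wo_nonneg hn0 e f z))
  set R := Rh M n e f e with hRdef
  set G := Rh M n e f f with hGdef
  set W := RG M n e f with hWdef
  set X := basisSum M y {e} {f} with hX
  set Y := basisSum M y {f} {e} with hY
  set Z := basisSum M y ∅ {e, f} with hZ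
  unfold rayDiff
  rw [e1, ← hX, ← hY, ← hZ]
  have j2 : y e * (R + 2 * ((B + C) * T)) ≤ 2 * X := by
    rw [e2]
    exact mul_le_mul_of_nonneg_left i2 hye.le
  have j3 : y f * (G + 2 * ((A + C) * T)) ≤ 2 * Y := by
    rw [e3]
    exact mul_le_mul_of_nonneg_left i3 hyf.le
  have j5 : (y e * (R + 2 * ((B + C) * T))) * (y f * (G + 2 * ((A + C) * T))) ≤
      (2 * X) * (2 * Y) :=
    mul_le_mul j2 j3 (by positivity) (by positivity)
  have j6 : 2 * T * (6 * Z) ≤ 3 * (R * G) + 6 * T * (A * R + B * G + C * (R + G - W)) +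
      6 * (((A + B + C) ^ 2 - A ^ 2 - B ^ 2) * T ^ 2) := by
    have h := mul_le_mul_of_nonneg_left i4 (show 0 ≤ 2 * T by positivity)
    nlinarith [h, i5]
  have j7 : 2 * T * (6 * Z) ≤ 3 * ((R + 2 * ((B + C) * T)) * (G + 2 * ((A + C) * T))) := by
    have h1 : 0 ≤ T * C * W := by positivity
    have h2 : 0 ≤ T ^ 2 * C ^ 2 := by positivity
    nlinarith [j6, h1, h2]
  have j8 := mul_le_mul_of_nonneg_left j7 (show 0 ≤ y e * y f by positivity)
  nlinarith [j5, j8]

end three

end Pool.Agent.H75.Ray
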